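import Pool.Agent.Lib.H33B.Defs

/-!
# Project H33C (MP_0bf1d2_nt): definitions

See `PROOF.md` in this folder. Continues `Lib/H33B`.
-/

open Finset Polynomial Filter Topology

namespace Pool.Agent.Lib.H33C

open Pool.Agent.Lib.H59 (argSet argCount Admissible primeCount omegaN seriesTrunc rootCount)
open Pool.Agent.Lib.H33B

noncomputable section

/-- The number of the `n ≤ x`, `G(n) ≡ c (mod q)`, for which `F_1(n), …, F_g(n)` are all prime. -/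
def cntG {g : ℕ} (F : Fin g → ℤ[X]) (G : ℤ[X]) (q c x : ℕ) : ℕ :=
  ((AF F x).filter (fun n : ℕ => (q : ℤ) ∣ G.eval (n : ℤ) - c)).card

/-- The number of residues `b` modulo `q` with `F_1(b) ⋯ F_g(b)` coprime to `q` and `G(b) ≡ c`. -/
def resG {g : ℕ} (F : Fin g → ℤ[X]) (G : ℤ[X]) (q c : ℕ) : ℕ :=
  ((range q).filter (fun b : ℕ => IsCoprime ((∏ i, F i).eval (b : ℤ)) (q : ℤ) ∧
    (q : ℤ) ∣ G.eval (b : ℤ) - c)).card

/-- The prime values of `F` are distributed over the classes `G(n) ≡ c (mod q)` as predicted by the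
Bateman–Horn conjecture. -/
def BHPush {g : ℕ} (F : Fin g → ℤ[X]) (G : ℤ[X]) (q : ℕ) : Prop :=
  ∀ c : ℕ, Tendsto (fun x : ℕ => (cntG F G q c x : ℝ) * (Real.log x) ^ g / x) atTop
    (𝓝 (resG F G q c * (bhConst F q / (q * ∏ i, ((F i).natDegree : ℝ)))))

/-- `N - G` is a product of two polynomials of positive degree. -/
def Red (G : ℤ[X]) (N : ℕ) : Prop :=
  ∃ A B : ℤ[X], 1 ≤ A.natDegree ∧ 1 ≤ B.natDegree ∧ C (N : ℤ) - G = A * B

/-- The constant of the local model at level `q`: `∑_b Lq(N₀ - G(b)) C_q/q`, sum over the `b` modulo `q` with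
`F(b)` coprime to `q`. -/
def cst {g : ℕ} (F : Fin g → ℤ[X]) (G : ℤ[X]) (q N₀ w : ℕ) : ℝ :=
  ∑ b ∈ (range q).filter (fun b : ℕ => IsCoprime ((∏ i, F i).eval (b : ℤ)) (q : ℤ)),
    Lq q ((N₀ : ℤ) - G.eval (b : ℤ)) * (bhTrunc F q w / q)

open scoped Classical in
/-- For almost all `N` the singular series converges and is close to its partial products. -/
def Tail {g : ℕ} (F : Fin g → ℤ[X]) (G : ℤ[X]) : Prop :=
  ∀ ε : ℝ, 0 < ε → ∃ w₀ : ℕ, ∀ w : ℕ, w₀ ≤ w → ∃ Y₀ : ℕ, ∀ Y : ℕ, Y₀ ≤ Y →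
    (((Icc 1 Y).filter (fun N => ε * seriesTrunc F G N w <
      |SS F G N - seriesTrunc F G N w|)).card : ℝ) ≤ ε * Y

open scoped Classical in
/-- For almost all `N` the sum `∑_{p ≥ w} (ρ_{N-G}(p) - 1)/p` converges and is small. -/
def RhoTail (G : ℤ[X]) : Prop :=
  ∀ ε : ℝ, 0 < ε → ∃ w₀ : ℕ, ∀ w : ℕ, w₀ ≤ w → ∃ Y₀ : ℕ, ∀ Y : ℕ, Y₀ ≤ Y →
    (((Icc 1 Y).filter (fun N : ℕ => ¬ ∃ ℓ : ℝ, |ℓ| ≤ ε ∧ Tendsto (fun z : ℕ =>
      ∑ p ∈ (Nat.primesBelow z).filter (fun p => w ≤ p),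
        ((rootCount (C (N : ℤ) - G) p : ℝ) - 1) / p) atTop (𝓝 ℓ))).card : ℝ) ≤ ε * Y

/-- The discriminant of `G - N` for `G` quadratic. -/
def disc (G : ℤ[X]) (N : ℕ) : ℤ := (G.coeff 1) ^ 2 + 4 * G.coeff 2 * ((N : ℤ) - G.coeff 0)

/-- `J(D | n)` for the `n` that are odd and have no prime factor `< w`. -/
def rough (w : ℕ) (D : ℤ) (n : ℕ) : ℝ :=
  if Odd n ∧ Nat.Coprime n (PW w) then (jacobiSym D n : ℝ) else 0

/-- Schinzel's formula for the pair `(F, G)`, as `N → ∞` through admissible `N`. -/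
def Q1For {g : ℕ} (F : Fin g → ℤ[X]) (G : ℤ[X]) : Prop :=
  ∀ ε : ℝ, 0 < ε → ∃ N₀ : ℕ, ∀ N : ℕ, N₀ ≤ N → Admissible F G N →
    |(primeCount F G N : ℝ) - mainT F G N * SS F G N| ≤ ε * (mainT F G N * SS F G N)

end

end Pool.Agent.Lib.H33C
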