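import Pool.Agent.Lib.H33C.Defs
import Pool.Agent.Lib.H33B.FB
import Pool.Agent.Lib.H33B.FC1

/-!
# Chunk LIN: the truncated and the full singular series
-/

open Finset Polynomial

namespace Pool.Agent.Lib.H33C

open Pool.Agent.Lib.H59 (argSet argCount Admissible primeCount omegaN seriesTrunc)
open Pool.Agent.Lib.H33B

variable {g : ℕ}

/-- The proof of `H33B.aa_of_aaT` (`Tail` in place of `tail_linear`), and the same argument in the other direction. -/
theorem aa_iff_aaT (F : Fin g → ℤ[X]) (G : ℤ[X]) (h : Tail F G) :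
    AlmostAll F G ↔ AlmostAllT F G := by
  classical
  constructor
  · intro hA ε hε
    obtain ⟨e, he⟩ : ∃ e, e = min ε 1 / 8 := ⟨_, rfl⟩
    have hm : 0 < min ε 1 := lt_min hε one_pos
    have he0 : 0 < e := by rw [he]; positivity
    have he1 : 8 * e ≤ 1 := by
      rw [he]
      have := min_le_right ε 1
      linarith
    have he2 : 8 * e ≤ ε := by
      rw [he]
      have := min_le_left ε 1
      linarith
    obtain ⟨Y₀, hY⟩ := hA e he0
    obtain ⟨w₀, hw⟩ := h e he0
    refine ⟨w₀, fun z hz => ?_⟩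
    obtain ⟨Y₁, hY'⟩ := hw z hz
    refine ⟨max Y₀ Y₁, fun Y hYY => ?_⟩
    have h1 := hY Y ((le_max_left _ _).trans hYY)
    have h2 := hY' Y ((le_max_right _ _).trans hYY)
    have hsub : (Icc 1 Y).filter (fun N => Admissible F G N ∧
        ε * (mainT F G N * seriesTrunc F G N z) <
          |(primeCount F G N : ℝ) - mainT F G N * seriesTrunc F G N z|) ⊆
        (Icc 1 Y).filter (fun N => Admissible F G N ∧
        e * (mainT F G N * SS F G N) < |(primeCount F G N : ℝ) - mainT F G N * SS F G N|) ∪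
        (Icc 1 Y).filter (fun N => e * seriesTrunc F G N z <
          |SS F G N - seriesTrunc F G N z|) := by
      intro N hN'
      rw [mem_filter] at hN'
      obtain ⟨hN1, hN2, hN3⟩ := hN'
      by_contra hcon
      rw [mem_union, mem_filter, mem_filter] at hcon
      push Not at hcon
      obtain ⟨hc1, hc2⟩ := hcon
      have hc1 := hc1 hN1 hN2
      have hc2 := hc2 hN1
      have hM := FB_main_nonneg F G N
      have hS := series_nonneg F G N z
      generalize mainT F G N = M at *
      generalize seriesTrunc F G N z = S at *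
      generalize SS F G N = T at *
      generalize (primeCount F G N : ℝ) = Q at *
      have k1 := abs_le.1 hc2
      have k2 : T ≤ 2 * S := by nlinarith
      have k3 : |Q - M * S| ≤ |Q - M * T| + M * |T - S| := by
        have e1 : Q - M * S = (Q - M * T) + M * (T - S) := by ring
        calc |Q - M * S| = |(Q - M * T) + M * (T - S)| := by rw [e1]
          _ ≤ |Q - M * T| + |M * (T - S)| := abs_add_le _ _
          _ = _ := by rw [abs_mul, abs_of_nonneg hM]
      have k4 : M * |T - S| ≤ M * (e * S) := mul_le_mul_of_nonneg_left hc2 hM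
      have k5 : M * T ≤ M * (2 * S) := mul_le_mul_of_nonneg_left k2 hM
      have k6 : 0 ≤ M * S := mul_nonneg hM hS
      have k9 : e * (M * T) ≤ e * (2 * (M * S)) := mul_le_mul_of_nonneg_left (by linarith) he0.le
      have k10 : 8 * e * (M * S) ≤ ε * (M * S) := mul_le_mul_of_nonneg_right he2 k6
      have k11 : 0 ≤ e * (M * S) := mul_nonneg he0.le k6
      linarith
    have h3 := (card_le_card hsub).trans (card_union_le _ _)
    have h4 : (((Icc 1 Y).filter (fun N => Admissible F G N ∧
        ε * (mainT F G N * seriesTrunc F G N z) <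
          |(primeCount F G N : ℝ) - mainT F G N * seriesTrunc F G N z|)).card : ℝ) ≤
        (((Icc 1 Y).filter (fun N => Admissible F G N ∧
        e * (mainT F G N * SS F G N) <
          |(primeCount F G N : ℝ) - mainT F G N * SS F G N|)).card : ℝ) +
        (((Icc 1 Y).filter (fun N => e * seriesTrunc F G N z <
          |SS F G N - seriesTrunc F G N z|)).card : ℝ) := by exact_mod_cast h3
    have hY0 : (0 : ℝ) ≤ Y := Nat.cast_nonneg _
    have h5 : 8 * e * Y ≤ ε * Y := mul_le_mul_of_nonneg_right he2 hY0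
    have h6 : 0 ≤ e * Y := mul_nonneg he0.le hY0
    refine h4.trans ?_
    linarith
  · intro hT ε hε
    obtain ⟨e, he⟩ : ∃ e, e = min ε 1 / 8 := ⟨_, rfl⟩
    have hm : 0 < min ε 1 := lt_min hε one_pos
    have he0 : 0 < e := by rw [he]; positivity
    have he1 : 8 * e ≤ 1 := by
      rw [he]
      have := min_le_right ε 1
      linarith
    have he2 : 8 * e ≤ ε := by
      rw [he]
      have := min_le_left ε 1
      linarith
    obtain ⟨z₀, hz⟩ := hT e he0
    obtain ⟨w₀, hw⟩ := h e he0
    obtain ⟨Y₀, hY⟩ := hz (max z₀ w₀) (le_max_left _ _)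
    obtain ⟨Y₁, hY'⟩ := hw (max z₀ w₀) (le_max_right _ _)
    set z := max z₀ w₀ with hzdef
    refine ⟨max Y₀ Y₁, fun Y hYY => ?_⟩
    have h1 := hY Y ((le_max_left _ _).trans hYY)
    have h2 := hY' Y ((le_max_right _ _).trans hYY)
    have hsub : (Icc 1 Y).filter (fun N => Admissible F G N ∧
        ε * (mainT F G N * SS F G N) < |(primeCount F G N : ℝ) - mainT F G N * SS F G N|) ⊆
        (Icc 1 Y).filter (fun N => Admissible F G N ∧
          e * (mainT F G N * seriesTrunc F G N z) <
            |(primeCount F G N : ℝ) - mainT F G N * seriesTrunc F G N z|) ∪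
        (Icc 1 Y).filter (fun N => e * seriesTrunc F G N z <
          |SS F G N - seriesTrunc F G N z|) := by
      intro N hN'
      rw [mem_filter] at hN'
      obtain ⟨hN1, hN2, hN3⟩ := hN'
      by_contra hcon
      rw [mem_union, mem_filter, mem_filter] at hcon
      push Not at hcon
      obtain ⟨hc1, hc2⟩ := hcon
      have hc1 := hc1 hN1 hN2
      have hc2 := hc2 hN1
      have hM := FB_main_nonneg F G N
      have hS := series_nonneg F G N z
      generalize mainT F G N = M at *
      generalize seriesTrunc F G N z = S at *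
      generalize SS F G N = T at *
      generalize (primeCount F G N : ℝ) = Q at *
      have k1 := abs_le.1 hc2
      have k2 : S ≤ 2 * T := by nlinarith
      have k3 : |Q - M * T| ≤ |Q - M * S| + M * |T - S| := by
        have e1 : Q - M * T = (Q - M * S) - M * (T - S) := by ring
        calc |Q - M * T| = |(Q - M * S) - M * (T - S)| := by rw [e1]
          _ ≤ |Q - M * S| + |M * (T - S)| := abs_sub _ _
          _ = _ := by rw [abs_mul, abs_of_nonneg hM]
      have k4 : M * |T - S| ≤ M * (e * S) := mul_le_mul_of_nonneg_left hc2 hM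
      have k5 : M * S ≤ M * (2 * T) := mul_le_mul_of_nonneg_left k2 hM
      have k6 : 0 ≤ M * S := mul_nonneg hM hS
      have k7 : 0 ≤ M * T := by linarith
      have k8 : |Q - M * T| ≤ 2 * (e * (M * S)) := by linarith
      have k9 : e * (M * S) ≤ e * (2 * (M * T)) := mul_le_mul_of_nonneg_left (by linarith) he0.le
      have k10 : 8 * e * (M * T) ≤ ε * (M * T) := mul_le_mul_of_nonneg_right he2 k7
      have k11 : 0 ≤ e * (M * T) := mul_nonneg he0.le k7
      linarith
    have h3 := (card_le_card hsub).trans (card_union_le _ _)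
    have h4 : (((Icc 1 Y).filter (fun N => Admissible F G N ∧
        ε * (mainT F G N * SS F G N) <
          |(primeCount F G N : ℝ) - mainT F G N * SS F G N|)).card : ℝ) ≤
        (((Icc 1 Y).filter (fun N => Admissible F G N ∧
          e * (mainT F G N * seriesTrunc F G N z) <
            |(primeCount F G N : ℝ) - mainT F G N * seriesTrunc F G N z|)).card : ℝ) +
        (((Icc 1 Y).filter (fun N => e * seriesTrunc F G N z <
          |SS F G N - seriesTrunc F G N z|)).card : ℝ) := by exact_mod_cast h3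
    have hY0 : (0 : ℝ) ≤ Y := Nat.cast_nonneg _
    have h5 : 8 * e * Y ≤ ε * Y := mul_le_mul_of_nonneg_right he2 hY0
    have h6 : 0 ≤ e * Y := mul_nonneg he0.le hY0
    refine h4.trans ?_
    linarith

theorem tail_one (F : Fin g → ℤ[X]) (hF : Sys F) (hN : NoFix F) (G : ℤ[X])
    (hG : G.natDegree = 1) (hl : 0 < G.leadingCoeff) : Tail F G :=
  fun ε hε => tail_linear F hF hN G hG hl ε hε

theorem LIN_log (g : ℕ) : Filter.Tendsto (fun x : ℕ => (Real.log x) ^ g / (x : ℝ)) Filter.atTop
    (nhds 0) := by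
  have h1 : Filter.Tendsto (fun x : ℝ => (Real.log x) ^ g / x) Filter.atTop (nhds 0) := by
    have := (Real.isLittleO_pow_log_id_atTop (n := g)).tendsto_div_nhds_zero
    simpa using this
  exact h1.comp tendsto_natCast_atTop_atTop

theorem LIN_bdd (f : ℕ → ℕ) (C g : ℕ) (hf : ∀ x, f x ≤ C) :
    Filter.Tendsto (fun x : ℕ => (f x : ℝ) * (Real.log x) ^ g / (x : ℝ)) Filter.atTop
    (nhds 0) := by
  have h1 := (LIN_log g).const_mul (C : ℝ)
  rw [mul_zero] at h1
  refine squeeze_zero' ?_ ?_ h1
  · filter_upwards with x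
    have : 0 ≤ Real.log (x : ℝ) := Real.log_natCast_nonneg _
    positivity
  · filter_upwards with x
    have h0 : 0 ≤ Real.log (x : ℝ) := Real.log_natCast_nonneg _
    have h2 : (f x : ℝ) ≤ C := by exact_mod_cast hf x
    rw [mul_div_assoc]
    exact mul_le_mul_of_nonneg_right h2 (by positivity)

theorem LIN_lim (F : Fin g → ℤ[X]) (hF : Sys F) (q : ℕ) (h : BHClass F q) (b : ℕ)
    [Decidable (IsCoprime ((∏ i, F i).eval (b : ℤ)) (q : ℤ))] :
    Filter.Tendsto (fun x : ℕ => (cntF F q b x : ℝ) * (Real.log x) ^ g / x) Filter.atTop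
      (nhds ((if IsCoprime ((∏ i, F i).eval (b : ℤ)) (q : ℤ) then 1 else 0) *
        (bhConst F q / (q * ∏ i, ((F i).natDegree : ℝ))))) := by
  split_ifs with hb
  · rw [one_mul]
    exact h b hb
  · rw [zero_mul]
    exact LIN_bdd _ _ _ (fun x => FC1_bad F hF q b x hb)

theorem LIN_fiber (F : Fin g → ℤ[X]) (G : ℤ[X]) (q c x : ℕ) (hq : 0 < q) :
    cntG F G q c x = ∑ b ∈ (range q).filter (fun b : ℕ => (q : ℤ) ∣ G.eval (b : ℤ) - c),
      cntF F q b x := by
  classical
  unfold cntG
  rw [card_eq_sum_card_fiberwise (f := fun n => n % q)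
    (t := (range q).filter (fun b : ℕ => (q : ℤ) ∣ G.eval (b : ℤ) - c))]
  · refine sum_congr rfl fun b hb => ?_
    rw [mem_filter, mem_range] at hb
    unfold cntF
    rw [filter_filter]
    congr 1
    apply filter_congr
    intro n _
    have hdiv : n % q = b → (q : ℤ) ∣ (n : ℤ) - (b : ℤ) := by
      intro h
      have : n ≡ b [MOD q] := by rw [Nat.ModEq, h, Nat.mod_eq_of_lt hb.1]
      exact Nat.modEq_iff_dvd.mp this.symm
    constructor
    · rintro ⟨_, h2⟩
      rw [Nat.ModEq, h2, Nat.mod_eq_of_lt hb.1]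
    · intro h
      have h2 : n % q = b := by rw [h, Nat.mod_eq_of_lt hb.1]
      refine ⟨?_, h2⟩
      have h3 := (hdiv h2).trans (sub_dvd_eval_sub (n : ℤ) (b : ℤ) G)
      have h4 := dvd_add h3 hb.2
      simpa using h4
  · intro n hn
    have hn := (mem_filter.mp hn).2
    rw [mem_coe, mem_filter, mem_range]
    refine ⟨Nat.mod_lt _ hq, ?_⟩
    have h1 : (q : ℤ) ∣ ((n % q : ℕ) : ℤ) - (n : ℤ) := by
      have : n % q ≡ n [MOD q] := Nat.mod_modEq _ _
      exact Nat.modEq_iff_dvd.mp this.symm
    have h2 := h1.trans (sub_dvd_eval_sub ((n % q : ℕ) : ℤ) (n : ℤ) G)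
    have h3 := dvd_add h2 hn
    simpa using h3

theorem LIN_res (F : Fin g → ℤ[X]) (G : ℤ[X]) (q c : ℕ)
    [DecidablePred fun b : ℕ => IsCoprime ((∏ i, F i).eval (b : ℤ)) (q : ℤ)] :
    (resG F G q c : ℝ) = ∑ b ∈ (range q).filter (fun b : ℕ => (q : ℤ) ∣ G.eval (b : ℤ) - c),
      (if IsCoprime ((∏ i, F i).eval (b : ℤ)) (q : ℤ) then (1 : ℝ) else 0) := by
  classical
  unfold resG
  rw [← sum_filter, filter_filter, sum_const, nsmul_eq_mul, mul_one]
  congr 2
  ext b
  simp only [mem_filter]
  tauto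

/-- Sum over the classes `b` modulo `q` with `G(b) ≡ c`; those with `(F(b), q) > 1` contribute `O(1)` (`H33B.FC1_bad`). -/
theorem push_of_class (F : Fin g → ℤ[X]) (hF : Sys F) (G : ℤ[X]) (q : ℕ) (hq : 0 < q)
    (h : BHClass F q) : BHPush F G q := by
  classical
  intro c
  rw [LIN_res, sum_mul]
  have h1 := tendsto_finsetSum ((range q).filter (fun b : ℕ => (q : ℤ) ∣ G.eval (b : ℤ) - c))
    (fun b _ => LIN_lim F hF q h b)
  refine h1.congr ?_
  intro x
  rw [LIN_fiber F G q c x hq]
  push_cast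
  rw [sum_mul, sum_div]

theorem LIN_cnt_X (F : Fin g → ℤ[X]) (q c x : ℕ) : cntG F X q c x = cntF F q c x := by
  classical
  unfold cntG cntF
  congr 1
  apply filter_congr
  intro n _
  rw [eval_X]
  constructor
  · intro h
    exact (Nat.modEq_iff_dvd.mpr h).symm
  · intro h
    exact Nat.modEq_iff_dvd.mp h.symm

theorem LIN_res_X (F : Fin g → ℤ[X]) (q c : ℕ) (hq : 0 < q)
    (hc : IsCoprime ((∏ i, F i).eval (c : ℤ)) (q : ℤ)) : resG F X q c = 1 := by
  classical
  unfold resG
  rw [card_eq_one]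
  refine ⟨c % q, ?_⟩
  ext b
  rw [mem_filter, mem_range, mem_singleton, eval_X]
  constructor
  · rintro ⟨hb, _, h2⟩
    have h3 : c ≡ b [MOD q] := Nat.modEq_iff_dvd.mpr h2
    rw [← Nat.mod_eq_of_lt hb]
    exact h3.symm
  · rintro rfl
    refine ⟨Nat.mod_lt _ hq, ?_, ?_⟩
    · have h1 : (q : ℤ) ∣ (c : ℤ) - ((c % q : ℕ) : ℤ) := by
        have : c % q ≡ c [MOD q] := Nat.mod_modEq _ _
        exact Nat.modEq_iff_dvd.mp this
      obtain ⟨k, hk⟩ := h1.trans (sub_dvd_eval_sub (c : ℤ) ((c % q : ℕ) : ℤ) (∏ i, F i))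
      have h2 : (∏ i, F i).eval ((c % q : ℕ) : ℤ) = (∏ i, F i).eval (c : ℤ) + (q : ℤ) * (-k) := by
        linarith
      rw [h2]
      exact hc.add_mul_left_left _
    · have : c % q ≡ c [MOD q] := Nat.mod_modEq _ _
      exact Nat.modEq_iff_dvd.mp this.symm

/-- `BHPush F X q` is `BHClass F q`: `resG F X q c` is `1` if `(F(c), q) = 1` and `0` otherwise, and then `cntG` is
bounded (`H33B.FC1_bad`). `q ≠ 0`. -/
theorem push_X (F : Fin g → ℤ[X]) (hF : Sys F) (q : ℕ) (hq : 0 < q) :
    BHPush F X q ↔ BHClass F q := by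
  constructor
  · intro h b hb
    have h1 := h b
    rw [LIN_res_X F q b hq hb, Nat.cast_one, one_mul] at h1
    refine h1.congr ?_
    intro x
    rw [LIN_cnt_X]
  · exact push_of_class F hF X q hq

/-- A finite set of exceptions for each `ε`. -/
theorem aa_of_Q1 (F : Fin g → ℤ[X]) (G : ℤ[X]) (h : Q1For F G) : AlmostAll F G := by
  classical
  intro ε hε
  obtain ⟨N₀, hN⟩ := h ε hε
  obtain ⟨Y₀, hY₀⟩ := exists_nat_ge ((N₀ : ℝ) / ε)
  refine ⟨Y₀, fun Y hY => ?_⟩
  have hsub : (Icc 1 Y).filter (fun N => Admissible F G N ∧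
      ε * (mainT F G N * SS F G N) < |(primeCount F G N : ℝ) - mainT F G N * SS F G N|) ⊆
      range N₀ := by
    intro N hN'
    rw [mem_filter] at hN'
    rw [mem_range]
    by_contra hc
    have := hN N (not_lt.mp hc) hN'.2.1
    linarith [hN'.2.2]
  have h1 := card_le_card hsub
  rw [card_range] at h1
  have h2 : (((Icc 1 Y).filter (fun N => Admissible F G N ∧
      ε * (mainT F G N * SS F G N) <
        |(primeCount F G N : ℝ) - mainT F G N * SS F G N|)).card : ℝ) ≤ N₀ := by
    exact_mod_cast h1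
  refine h2.trans ?_
  have h3 : (N₀ : ℝ) / ε ≤ Y := hY₀.trans (by exact_mod_cast hY)
  rw [div_le_iff₀ hε] at h3
  linarith

end Pool.Agent.Lib.H33C
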