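import Pool.Agent.Lib.H33C.Defs
import Pool.Agent.Lib.H33B.SR4

/-!
# Chunk MB3: averages of the singular series over a class, general `G`
-/

open Finset Polynomial

namespace Pool.Agent.Lib.H33C

open Pool.Agent.Lib.H59 (omegaN seriesTrunc rootCount)
open Pool.Agent.Lib.H33B

variable {g : ℕ}

open scoped Classical in
theorem MB3_aux (F : Fin g → ℤ[X]) (G : ℤ[X]) (w q N₀ : ℕ) (hq : q ∣ PW w) :
    ∑ N ∈ (range (PW w)).filter (fun N => N ≡ N₀ [MOD q]), seriesTrunc F G N w =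
      ((PW w : ℝ) / q) * ∑ b ∈ range q, Lq q ((N₀ : ℤ) - G.eval (b : ℤ)) *
        (if IsCoprime ((∏ i, F i).eval (b : ℤ)) (q : ℤ) then bhTrunc F q w / q else 0) := by
  have hqs : Squarefree q := (PW_squarefree w).squarefree_of_dvd hq
  have hqn : 0 < q := Nat.pos_of_ne_zero hqs.ne_zero
  have hq0 : (0 : ℝ) < q := by exact_mod_cast hqn
  have hP0 : (0 : ℝ) < PW w := by exact_mod_cast PW_pos w
  have hφP : (0 : ℝ) < (Nat.totient (PW w) : ℝ) := by
    exact_mod_cast Nat.totient_pos.mpr (PW_pos w)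
  set H : ℤ[X] := ∏ i, F i with hH
  set ρ : ℝ := (PW w : ℝ) / Nat.totient (PW w) with hρ
  -- step 1: exchange
  have h1 : ∀ N : ℕ, seriesTrunc F G N w = ρ ^ g / PW w *
      ∑ b ∈ (range (PW w)).filter (fun b : ℕ => IsCoprime (H.eval (b : ℤ)) (PW w : ℤ)),
        Lw w ((N : ℤ) - G.eval (b : ℤ)) := by
    intro N
    rw [series_count]
    have h2 : ∑ b ∈ (range (PW w)).filter (fun b : ℕ => IsCoprime (H.eval (b : ℤ)) (PW w : ℤ)),
        Lw w ((N : ℤ) - G.eval (b : ℤ)) =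
        (((range (PW w)).filter (fun b : ℕ =>
        IsCoprime (((∏ i, F i) * (C (N : ℤ) - G)).eval (b : ℤ)) (PW w : ℤ))).card : ℝ) * ρ := by
      unfold Lw Lq
      rw [← sum_filter, filter_filter, sum_const, nsmul_eq_mul]
      congr 2
      refine congrArg _ (filter_congr fun b _ => ?_)
      rw [eval_mul, IsCoprime.mul_left_iff]
      simp [hH]
    rw [h2, ← hρ, pow_succ]
    ring
  have h3 : ∑ N ∈ (range (PW w)).filter (fun N => N ≡ N₀ [MOD q]), seriesTrunc F G N w =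
      ρ ^ g / PW w * ∑ b ∈ (range (PW w)).filter
        (fun b : ℕ => IsCoprime (H.eval (b : ℤ)) (PW w : ℤ)),
        (((PW w : ℝ) / q) * Lq q ((N₀ : ℤ) - G.eval (b : ℤ))) := by
    rw [sum_congr rfl fun N _ => h1 N, ← mul_sum, sum_comm]
    congr 1
    refine sum_congr rfl fun b _ => ?_
    exact Lw_avg w q N₀ hq (G.eval (b : ℤ))
  rw [h3, ← mul_sum]
  -- step 2: sort by classes
  have hLq : ∀ b : ℕ, Lq q ((N₀ : ℤ) - G.eval ((b % q : ℕ) : ℤ)) = Lq q ((N₀ : ℤ) - G.eval (b : ℤ)) := by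
    intro b
    have h5 : (q : ℤ) ∣ G.eval (b : ℤ) - G.eval ((b % q : ℕ) : ℤ) := by
      refine dvd_trans ?_ (Polynomial.sub_dvd_eval_sub _ _ _)
      rw [Int.natCast_mod]
      exact Int.dvd_self_sub_emod
    obtain ⟨k, hk⟩ := h5
    have h6 : (N₀ : ℤ) - G.eval ((b % q : ℕ) : ℤ) = (N₀ : ℤ) - G.eval (b : ℤ) + k * q := by
      linear_combination hk
    unfold Lq
    have h8 : IsCoprime ((N₀ : ℤ) - G.eval ((b % q : ℕ) : ℤ)) (q : ℤ) ↔
        IsCoprime ((N₀ : ℤ) - G.eval (b : ℤ)) (q : ℤ) := by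
      rw [h6]
      exact IsCoprime.add_mul_right_left_iff
    simp only [h8]
  have h4 : ∑ b ∈ (range (PW w)).filter
        (fun b : ℕ => IsCoprime (H.eval (b : ℤ)) (PW w : ℤ)), Lq q ((N₀ : ℤ) - G.eval (b : ℤ)) =
      ∑ b' ∈ range q, Lq q ((N₀ : ℤ) - G.eval (b' : ℤ)) *
        (if IsCoprime (H.eval (b' : ℤ)) (q : ℤ) then
          ∏ p ∈ (Nat.primesBelow w).filter (fun p => ¬ p ∣ q), ((p : ℝ) - wF F p) else 0) := by
    rw [← sum_fiberwise_of_maps_to (g := fun b => b % q) (t := range q)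
      (fun b _ => mem_range.mpr (Nat.mod_lt _ hqn))]
    refine sum_congr rfl fun b' hb' => ?_
    rw [mem_range] at hb'
    have h5 : ∀ b ∈ ((range (PW w)).filter
        (fun b : ℕ => IsCoprime (H.eval (b : ℤ)) (PW w : ℤ))).filter (fun b => b % q = b'),
        Lq q ((N₀ : ℤ) - G.eval (b : ℤ)) = Lq q ((N₀ : ℤ) - G.eval (b' : ℤ)) := by
      intro b hb
      rw [mem_filter] at hb
      rw [← hLq b, hb.2]
    rw [sum_congr rfl h5, sum_const, nsmul_eq_mul, mul_comm]
    congr 1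
    have h6 : ((range (PW w)).filter
        (fun b : ℕ => IsCoprime (H.eval (b : ℤ)) (PW w : ℤ))).filter (fun b => b % q = b') =
        (range (PW w)).filter (fun b => b ≡ b' [MOD q] ∧
          ∀ p ∈ Nat.primesBelow w, ¬ (p : ℤ) ∣ H.eval (b : ℤ)) := by
      rw [filter_filter]
      refine filter_congr fun b _ => ?_
      rw [SR1_coprime, and_comm]
      refine and_congr_left fun _ => ?_
      unfold Nat.ModEq
      rw [Nat.mod_eq_of_lt hb']
    rw [h6, SR4_cls w q b' hq (fun p b => ¬ (p : ℤ) ∣ H.eval (b : ℤ))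
      (fun p b => by rw [Pool.Agent.Lib.H59.dvd_eval_mod_iff])]
    have h7 : ∀ p ∈ (Nat.primesBelow w).filter (fun p => ¬ p ∣ q),
        ((((range p).filter (fun b : ℕ => ¬ (p : ℤ) ∣ H.eval (b : ℤ))).card : ℕ) : ℝ) =
          (p : ℝ) - wF F p := by
      intro p _
      have h8 := card_filter_add_card_filter_not (s := range p)
        (fun b : ℕ => (p : ℤ) ∣ H.eval (b : ℤ))
      rw [card_range] at h8
      have h9 : wF F p = ((range p).filter (fun b : ℕ => (p : ℤ) ∣ H.eval (b : ℤ))).card := rfl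
      rw [h9, eq_sub_iff_add_eq]
      rw [add_comm] at h8
      exact_mod_cast h8
    push_cast
    rw [prod_congr rfl h7]
    by_cases hc : IsCoprime (H.eval (b' : ℤ)) (q : ℤ)
    · rw [if_pos ((SR4_coprime q hqs _).mp hc), if_pos hc, one_mul]
    · rw [if_neg (fun h => hc ((SR4_coprime q hqs _).mpr h)), if_neg hc, zero_mul]
  rw [h4]
  -- step 3: constants
  have h5 : bhTrunc F q w = ρ ^ g * (q / PW w) *
      ∏ p ∈ (Nat.primesBelow w).filter (fun p => ¬ p ∣ q), ((p : ℝ) - wF F p) := by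
    unfold bhTrunc
    rw [prod_mul_distrib]
    have h6 : ρ ^ g = ∏ p ∈ Nat.primesBelow w, ((1 - 1 / (p : ℝ)) ^ g)⁻¹ := by
      rw [hρ, SR1_ratio, ← prod_pow]
      refine prod_congr rfl fun p _ => ?_
      rw [inv_pow]
    have h7 : ∏ p ∈ Nat.primesBelow w, (if p ∣ q then (1 : ℝ) else 1 - (wF F p : ℝ) / p) =
        ∏ p ∈ (Nat.primesBelow w).filter (fun p => ¬ p ∣ q), (((p : ℝ) - wF F p) / p) := by
      rw [← prod_filter_mul_prod_filter_not (Nat.primesBelow w) (fun p => p ∣ q)]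
      have h8 : ∏ p ∈ (Nat.primesBelow w).filter (fun p => p ∣ q),
          (if p ∣ q then (1 : ℝ) else 1 - (wF F p : ℝ) / p) = 1 := by
        refine prod_eq_one fun p hp => ?_
        rw [if_pos (mem_filter.mp hp).2]
      rw [h8, one_mul]
      refine prod_congr rfl fun p hp => ?_
      rw [mem_filter] at hp
      rw [if_neg hp.2]
      have h9 : (p : ℝ) ≠ 0 := by
        exact_mod_cast (Nat.mem_primesBelow.mp hp.1).2.ne_zero
      rw [sub_div, div_self h9]
    rw [h7, ← h6, prod_div_distrib]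
    have h8 := SR4_PW w q hq
    have h9 : (∏ p ∈ (Nat.primesBelow w).filter (fun p => ¬ p ∣ q), (p : ℝ)) = PW w / q := by
      rw [h8]
      field_simp
    rw [h9]
    field_simp
  rw [h5, mul_sum, mul_sum, mul_sum]
  refine sum_congr rfl fun b' _ => ?_
  split_ifs
  · field_simp
  · simp

/-- `H33B.class_avg` for general `G` (same proof): with `P = PW w`, `q ∣ P`, `series_count` gives for the left side
`(P/φ(P))^(g+1) P⁻¹ ∑_{b mod P, (F(b),P) = 1} #{N mod P : N ≡ N₀ (q), (N - G(b), P) = 1}`; by `H33B.Lw_avg` (with `n = G(b)`) the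
inner number is `φ(P)/φ(q)` if `(N₀ - G(b), q) = 1` and `0` otherwise; sort the `b` by their class modulo `q`. -/
theorem class_avgG (F : Fin g → ℤ[X]) (G : ℤ[X]) (w q N₀ : ℕ) (hq : q ∣ PW w) :
    ∑ N ∈ (range (PW w)).filter (fun N => N ≡ N₀ [MOD q]), seriesTrunc F G N w =
      ((PW w : ℝ) / q) * cst F G q N₀ w := by
  classical
  rw [MB3_aux F G w q N₀ hq]
  unfold cst
  congr 1
  rw [sum_filter]
  refine sum_congr rfl fun b _ => ?_
  by_cases hc : IsCoprime ((∏ i, F i).eval (b : ℤ)) (q : ℤ)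
  · rw [if_pos hc, if_pos hc]
  · rw [if_neg hc, if_neg hc, mul_zero]

end Pool.Agent.Lib.H33C
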