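import Pool.Agent.Lib.H33C.MB2
import Pool.Agent.Lib.H33C.MB3
import Pool.Agent.Lib.H33B.FC2

/-!
# Chunk MB5: the distribution of the prime values over the classes of `G`
-/

open Finset Polynomial Filter Topology

namespace Pool.Agent.Lib.H33C

open Pool.Agent.Lib.H59 (argSet argCount Admissible primeCount omegaN seriesTrunc)
open Pool.Agent.Lib.H33B

variable {g : ℕ}

theorem MB5_mono (G : ℤ[X]) (N₁ : ℕ) (hN₁ : ∀ N, N₁ ≤ N → argSet G N = ↑(Icc 1 (argCount G N)))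
    {N M : ℕ} (h1 : N₁ ≤ N) (h2 : N ≤ M) : argCount G N ≤ argCount G M := by
  have hsub : (↑(Icc 1 (argCount G N)) : Set ℕ) ⊆ ↑(Icc 1 (argCount G M)) := by
    rw [← hN₁ N h1, ← hN₁ M (h1.trans h2)]
    intro n hn
    simp only [argSet, Set.mem_ofPred_eq] at hn ⊢
    exact ⟨hn.1, by omega⟩
  have h3 := card_le_card (Finset.coe_subset.mp hsub)
  simpa using h3

theorem MB5_lt (G : ℤ[X]) (N : ℕ) (hN : argSet G N = ↑(Icc 1 (argCount G N))) {n : ℕ}
    (h1 : 1 ≤ n) (h2 : n ≤ argCount G N) : G.eval (n : ℤ) < N := by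
  have h3 : n ∈ argSet G N := by
    rw [hN, mem_coe, mem_Icc]
    exact ⟨h1, h2⟩
  simp only [argSet, Set.mem_ofPred_eq] at h3
  omega

/-- the weighted sum over the prime values -/
noncomputable def MB5_T (F : Fin g → ℤ[X]) (G : ℤ[X]) (q N₀ Z : ℕ) : ℝ :=
  ∑ n ∈ AF F Z, Lq q ((N₀ : ℤ) - G.eval (n : ℤ))

/-- window sums of the model -/
theorem MB5_win (F : Fin g → ℤ[X]) (G : ℤ[X]) (w q N₀ a D Z : ℕ) (hq : q ∣ PW w) :
    |∑ N ∈ (Ioc a (a + D)).filter (fun N => N ≡ N₀ [MOD q]),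
      ∑ n ∈ AF F Z, Lw w ((N : ℤ) - G.eval (n : ℤ)) - (D : ℝ) / q * MB5_T F G q N₀ Z| ≤
        (PW w : ℝ) * PW w * Z := by
  have hP := PW_pos w
  have hPr : (0 : ℝ) < PW w := by exact_mod_cast hP
  have hq0 : 0 < q := Nat.pos_of_dvd_of_pos hq hP
  have hqr : (0 : ℝ) < q := by exact_mod_cast hq0
  rw [sum_comm]
  unfold MB5_T
  rw [mul_sum, ← sum_sub_distrib]
  refine (abs_sum_le_sum_abs _ _).trans ?_
  have h1 : ∀ n ∈ AF F Z, |∑ N ∈ (Ioc a (a + D)).filter (fun N => N ≡ N₀ [MOD q]),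
      Lw w ((N : ℤ) - G.eval (n : ℤ)) - (D : ℝ) / q * Lq q ((N₀ : ℤ) - G.eval (n : ℤ))| ≤
      (PW w : ℝ) * PW w := by
    intro n _
    have h2 := window (PW w) q N₀ a D hP hq (fun N : ℕ => Lw w ((N : ℤ) - G.eval (n : ℤ))) (PW w) (by
      intro N
      show Lq (PW w) _ = Lq (PW w) _
      apply FC2_Lq_congr
      have h3 : (((N % PW w : ℕ) : ℤ) - G.eval (n : ℤ)) - ((N : ℤ) - G.eval (n : ℤ)) =
          -((N : ℤ) - ((N % PW w : ℕ) : ℤ)) := by
        ring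
      rw [h3, dvd_neg]
      exact (Nat.modEq_iff_dvd.mp (Nat.mod_modEq N (PW w)))) (by
      intro N
      show |Lq (PW w) _| ≤ _
      rw [abs_of_nonneg (FC2_Lq_nonneg _ _)]
      exact FC2_Lq_le _ hP _)
    rw [Lw_avg w q N₀ hq (G.eval (n : ℤ))] at h2
    have h3 : (D : ℝ) / PW w * ((PW w : ℝ) / q * Lq q ((N₀ : ℤ) - G.eval (n : ℤ))) =
        (D : ℝ) / q * Lq q ((N₀ : ℤ) - G.eval (n : ℤ)) := by
      field_simp
    rw [h3] at h2
    exact h2
  refine (sum_le_sum h1).trans ?_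
  rw [sum_const, nsmul_eq_mul, mul_comm]
  apply mul_le_mul_of_nonneg_left _ (by positivity)
  exact_mod_cast FC2_card_AF F Z

theorem MB5_up (F : Fin g → ℤ[X]) (G : ℤ[X]) (w q N₀ D Y N₁ : ℕ) (hq : q ∣ PW w)
    (hN₁ : ∀ N, N₁ ≤ N → argSet G N = ↑(Icc 1 (argCount G N))) (hY : N₁ ≤ Y) :
    (D : ℝ) / q * MB5_T F G q N₀ (argCount G Y) - (PW w : ℝ) * PW w * argCount G Y ≤
      ∑ N ∈ (Ioc Y (Y + D)).filter (fun N => N ≡ N₀ [MOD q]), Mw F G w N := by
  have h1 := abs_le.mp (MB5_win F G w q N₀ Y D (argCount G Y) hq)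
  have h2 : ∑ N ∈ (Ioc Y (Y + D)).filter (fun N => N ≡ N₀ [MOD q]),
      ∑ n ∈ AF F (argCount G Y), Lw w ((N : ℤ) - G.eval (n : ℤ)) ≤
      ∑ N ∈ (Ioc Y (Y + D)).filter (fun N => N ≡ N₀ [MOD q]), Mw F G w N := by
    refine sum_le_sum fun N hN => ?_
    rw [mem_filter, mem_Ioc] at hN
    unfold Mw
    apply sum_le_sum_of_subset_of_nonneg
    · intro n hn
      rw [FC2_mem_AF] at hn
      have h3 := MB5_lt G Y (hN₁ Y hY) hn.1.1 hn.1.2
      have h4 := MB5_mono G N₁ hN₁ hY hN.1.1.le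
      rw [mem_filter, FC2_mem_AF]
      exact ⟨⟨⟨hn.1.1, by omega⟩, hn.2⟩, by omega⟩
    · intro n _ _
      exact FC2_Lq_nonneg _ _
  linarith [h1.1]

theorem MB5_low (F : Fin g → ℤ[X]) (G : ℤ[X]) (w q N₀ D Y N₁ : ℕ) (hq : q ∣ PW w)
    (hN₁ : ∀ N, N₁ ≤ N → argSet G N = ↑(Icc 1 (argCount G N))) (hD : D ≤ Y)
    (hY : N₁ ≤ Y - D) :
    ∑ N ∈ (Ioc (Y - D) Y).filter (fun N => N ≡ N₀ [MOD q]), Mw F G w N ≤
      (D : ℝ) / q * MB5_T F G q N₀ (argCount G Y) + (PW w : ℝ) * PW w * argCount G Y := by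
  have h1 := abs_le.mp (MB5_win F G w q N₀ (Y - D) D (argCount G Y) hq)
  rw [Nat.sub_add_cancel hD] at h1
  have h2 : ∑ N ∈ (Ioc (Y - D) Y).filter (fun N => N ≡ N₀ [MOD q]), Mw F G w N ≤
      ∑ N ∈ (Ioc (Y - D) Y).filter (fun N => N ≡ N₀ [MOD q]),
      ∑ n ∈ AF F (argCount G Y), Lw w ((N : ℤ) - G.eval (n : ℤ)) := by
    refine sum_le_sum fun N hN => ?_
    rw [mem_filter, mem_Ioc] at hN
    unfold Mw
    apply sum_le_sum_of_subset_of_nonneg
    · intro n hn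
      rw [mem_filter, FC2_mem_AF] at hn
      have h4 := MB5_mono G N₁ hN₁ (by omega : N₁ ≤ N) hN.1.2
      rw [FC2_mem_AF]
      exact ⟨⟨hn.1.1.1, by omega⟩, hn.1.2⟩
    · intro n _ _
      exact FC2_Lq_nonneg _ _
  linarith [h1.2]

theorem MB5_series_win (F : Fin g → ℤ[X]) (G : ℤ[X]) (w q N₀ a D : ℕ) (hq : q ∣ PW w) :
    |∑ N ∈ (Ioc a (a + D)).filter (fun N => N ≡ N₀ [MOD q]), seriesTrunc F G N w -
      (D : ℝ) / q * cst F G q N₀ w| ≤ (PW w : ℝ) * (PW w) ^ (g + 1) := by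
  have hP := PW_pos w
  have hPr : (0 : ℝ) < PW w := by exact_mod_cast hP
  have hq0 : 0 < q := Nat.pos_of_dvd_of_pos hq hP
  have hqr : (0 : ℝ) < q := by exact_mod_cast hq0
  have h2 := window (PW w) q N₀ a D hP hq (fun N : ℕ => seriesTrunc F G N w)
    ((PW w : ℝ) ^ (g + 1)) (by
      intro N
      exact series_period F G _ _ w (Nat.mod_modEq N (PW w))) (by
      intro N
      rw [abs_of_nonneg (series_nonneg _ _ _ _)]
      exact FC2_series_le _ _ _ _)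
  rw [class_avgG F G w q N₀ hq] at h2
  have h3 : (D : ℝ) / PW w * ((PW w : ℝ) / q * cst F G q N₀ w) =
      (D : ℝ) / q * cst F G q N₀ w := by
    field_simp
  rw [h3] at h2
  exact h2

theorem MB5_cmp (F : Fin g → ℤ[X]) (G : ℤ[X]) (w Z : ℕ) (W : Finset ℕ) (hW : W ⊆ Icc 1 Z) :
    |∑ N ∈ W, Mw F G w N - ∑ N ∈ W, dens G g N / (∏ i, ((F i).natDegree : ℝ)) *
      seriesTrunc F G N w| ≤
      ∑ N ∈ Icc 1 Z, |Mw F G w N - dens G g N / (∏ i, ((F i).natDegree : ℝ)) *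
      seriesTrunc F G N w| := by
  rw [← sum_sub_distrib]
  refine (abs_sum_le_sum_abs _ _).trans ?_
  exact sum_le_sum_of_subset_of_nonneg hW fun _ _ _ => abs_nonneg _

theorem MB5_cst_nonneg (F : Fin g → ℤ[X]) (hN : NoFix F) (G : ℤ[X]) (q N₀ w : ℕ) :
    0 ≤ cst F G q N₀ w := by
  unfold cst
  refine sum_nonneg fun b _ => mul_nonneg (FC2_Lq_nonneg _ _) ?_
  exact div_nonneg (CV4_bhpos F hN q w).le (by positivity)

/-- the finite inequality -/
theorem MB5_ineq (F : Fin g → ℤ[X]) (hF : Sys F) (hN : NoFix F) (G : ℤ[X]) (w q N₀ D Y N₁ : ℕ)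
    (δ : ℝ) (hq : q ∣ PW w) (hD1 : 1 ≤ D) (hδ0 : 0 ≤ δ) (hδ1 : 4 * δ ≤ 1) (hDY : D ≤ Y)
    (hN₁ : ∀ N, N₁ ≤ N → argSet G N = ↑(Icc 1 (argCount G N))) (hY : N₁ ≤ Y - D)
    (hdY : 0 < dens G g Y)
    (hup : ∀ N ∈ Ioc Y (Y + D), dens G g N ≤ (1 + 4 * δ) * dens G g Y)
    (hlow : ∀ N ∈ Ioc (Y - D) Y, (1 - 4 * δ) * dens G g Y ≤ dens G g N) :
    |MB5_T F G q N₀ (argCount G Y) / dens G g Y -
      cst F G q N₀ w / (∏ i, ((F i).natDegree : ℝ))| ≤
      4 * δ * cst F G q N₀ w + 2 * ((PW w : ℝ) * (PW w) ^ (g + 1)) / ((D : ℝ) / q) +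
      (∑ N ∈ Icc 1 (2 * Y), |Mw F G w N - dens G g N / (∏ i, ((F i).natDegree : ℝ)) *
        seriesTrunc F G N w|) / ((D : ℝ) / q * dens G g Y) +
      ((PW w : ℝ) * PW w * argCount G Y) / ((D : ℝ) / q * dens G g Y) := by
  have hP := PW_pos w
  have hPr : (0 : ℝ) < PW w := by exact_mod_cast hP
  have hq0 : 0 < q := Nat.pos_of_dvd_of_pos hq hP
  have hqr : (0 : ℝ) < q := by exact_mod_cast hq0
  have hDr : (1 : ℝ) ≤ D := by exact_mod_cast hD1
  have hDg := FC2_deg F hF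
  have hDg0 : 0 < ∏ i, ((F i).natDegree : ℝ) := by linarith
  have hC := MB5_cst_nonneg F hN G q N₀ w
  refine FC2_real _ _ _ _ _ _ _ _ _ (by positivity) hdY hDg (by positivity) hδ1 hC
    (by positivity) ?_ ?_
  · have h1 := MB5_up F G w q N₀ D Y N₁ hq hN₁ (by omega)
    have hW : (Ioc Y (Y + D)).filter (fun N => N ≡ N₀ [MOD q]) ⊆ Icc 1 (2 * Y) := by
      intro N hN'
      rw [mem_filter, mem_Ioc] at hN'
      rw [mem_Icc]
      omega
    have h2 := (abs_le.mp (MB5_cmp F G w (2 * Y) _ hW)).2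
    have h3 := (abs_le.mp (MB5_series_win F G w q N₀ Y D hq)).2
    have h4 : ∑ N ∈ (Ioc Y (Y + D)).filter (fun N => N ≡ N₀ [MOD q]),
        dens G g N / (∏ i, ((F i).natDegree : ℝ)) * seriesTrunc F G N w ≤
        (1 + 4 * δ) * dens G g Y / (∏ i, ((F i).natDegree : ℝ)) *
        ∑ N ∈ (Ioc Y (Y + D)).filter (fun N => N ≡ N₀ [MOD q]), seriesTrunc F G N w := by
      rw [mul_sum]
      refine sum_le_sum fun N hN' => ?_
      rw [mem_filter] at hN'
      apply mul_le_mul_of_nonneg_right _ (series_nonneg _ _ _ _)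
      apply div_le_div_of_nonneg_right _ hDg0.le
      exact hup N hN'.1
    have h5 : (1 + 4 * δ) * dens G g Y / (∏ i, ((F i).natDegree : ℝ)) *
        ∑ N ∈ (Ioc Y (Y + D)).filter (fun N => N ≡ N₀ [MOD q]), seriesTrunc F G N w ≤
        (1 + 4 * δ) * dens G g Y / (∏ i, ((F i).natDegree : ℝ)) *
        ((D : ℝ) / q * cst F G q N₀ w + (PW w : ℝ) * (PW w) ^ (g + 1)) := by
      apply mul_le_mul_of_nonneg_left _ (by positivity)
      linarith
    linarith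
  · have h1 := MB5_low F G w q N₀ D Y N₁ hq hN₁ hDY hY
    have hW : (Ioc (Y - D) Y).filter (fun N => N ≡ N₀ [MOD q]) ⊆ Icc 1 (2 * Y) := by
      intro N hN'
      rw [mem_filter, mem_Ioc] at hN'
      rw [mem_Icc]
      omega
    have h2 := (abs_le.mp (MB5_cmp F G w (2 * Y) _ hW)).1
    have h3 := (abs_le.mp (MB5_series_win F G w q N₀ (Y - D) D hq)).1
    rw [Nat.sub_add_cancel hDY] at h3
    have h4 : (1 - 4 * δ) * dens G g Y / (∏ i, ((F i).natDegree : ℝ)) *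
        ∑ N ∈ (Ioc (Y - D) Y).filter (fun N => N ≡ N₀ [MOD q]), seriesTrunc F G N w ≤
        ∑ N ∈ (Ioc (Y - D) Y).filter (fun N => N ≡ N₀ [MOD q]),
        dens G g N / (∏ i, ((F i).natDegree : ℝ)) * seriesTrunc F G N w := by
      rw [mul_sum]
      refine sum_le_sum fun N hN' => ?_
      rw [mem_filter] at hN'
      apply mul_le_mul_of_nonneg_right _ (series_nonneg _ _ _ _)
      apply div_le_div_of_nonneg_right _ hDg0.le
      exact hlow N hN'.1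
    have h5 : (1 - 4 * δ) * dens G g Y / (∏ i, ((F i).natDegree : ℝ)) *
        ((D : ℝ) / q * cst F G q N₀ w - (PW w : ℝ) * (PW w) ^ (g + 1)) ≤
        (1 - 4 * δ) * dens G g Y / (∏ i, ((F i).natDegree : ℝ)) *
        ∑ N ∈ (Ioc (Y - D) Y).filter (fun N => N ≡ N₀ [MOD q]), seriesTrunc F G N w := by
      apply mul_le_mul_of_nonneg_left
      · linarith
      · have : 0 ≤ 1 - 4 * δ := by linarith
        positivity
    linarith

theorem MB5_cst_tendsto (F : Fin g → ℤ[X]) (hF : Sys F) (hN : NoFix F) (G : ℤ[X]) (q N₀ : ℕ)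
    (hq : q ≠ 0) :
    Tendsto (fun w : ℕ => cst F G q N₀ w / (∏ i, ((F i).natDegree : ℝ))) atTop
      (𝓝 (∑ b ∈ (range q).filter (fun b : ℕ => IsCoprime ((∏ i, F i).eval (b : ℤ)) (q : ℤ)),
        Lq q ((N₀ : ℤ) - G.eval (b : ℤ)) * (bhConst F q / (q * ∏ i, ((F i).natDegree : ℝ))))) := by
  have h1 := (bh_conv F hF hN q hq).1
  have h2 : ∀ w : ℕ, cst F G q N₀ w / (∏ i, ((F i).natDegree : ℝ)) =
      ∑ b ∈ (range q).filter (fun b : ℕ => IsCoprime ((∏ i, F i).eval (b : ℤ)) (q : ℤ)),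
        Lq q ((N₀ : ℤ) - G.eval (b : ℤ)) * (bhTrunc F q w / (q * ∏ i, ((F i).natDegree : ℝ))) := by
    intro w
    unfold cst
    rw [sum_div]
    refine sum_congr rfl fun b _ => ?_
    rw [mul_div_assoc, div_div]
  simp_rw [h2]
  refine tendsto_finsetSum _ fun b _ => ?_
  exact (h1.div_const _).const_mul _

/-- `X(Y)` is small compared with `Y dens(Y)` -/
theorem MB5_small (G : ℤ[X]) (hk : 1 ≤ G.natDegree) (hl : 0 < G.leadingCoeff) (g : ℕ) (κ : ℝ)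
    (hκ : 0 < κ) : ∃ Y₀ : ℕ, ∀ Y : ℕ, Y₀ ≤ Y → (argCount G Y : ℝ) ≤ κ * Y * dens G g Y := by
  obtain ⟨c₁, hc₁, Y₁, hY₁3, hY₁⟩ := DE1_arg G hk hl
  have h1 : Tendsto (fun x : ℝ => (Real.log x) ^ g / x) atTop (𝓝 0) :=
    (Real.isLittleO_pow_log_id_atTop (n := g)).tendsto_div_nhds_zero
  have h2 : Tendsto (fun Y : ℕ => (2 * (Y : ℝ))) atTop atTop :=
    tendsto_natCast_atTop_atTop.const_mul_atTop (by norm_num)
  have h3 := (h1.comp h2).eventually_le_const (by positivity : 0 < κ / 2)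
  obtain ⟨Y₂, hY₂⟩ := eventually_atTop.1 (h3.and
    ((Pool.Agent.Lib.H59.argCount_tendsto hk hl).eventually_ge_atTop 3))
  refine ⟨max Y₁ Y₂, fun Y hY => ?_⟩
  obtain ⟨a1, a2, a3⟩ := hY₁ Y ((le_max_left _ _).trans hY)
  obtain ⟨b1, b2⟩ := hY₂ Y ((le_max_right _ _).trans hY)
  have hY3 : (3 : ℝ) ≤ Y := by exact_mod_cast hY₁3.trans ((le_max_left _ _).trans hY)
  simp only [Function.comp] at b1
  rw [div_le_iff₀ (by linarith)] at b1
  unfold Pool.Agent.Lib.H33B.dens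
  set x : ℝ := (argCount G Y : ℝ) with hx
  have hx3 : (3 : ℝ) ≤ x := by rw [hx]; exact_mod_cast b2
  have hlx : 0 < Real.log x := Real.log_pos (by linarith)
  have h4 : (Real.log x) ^ g ≤ κ * Y := by
    calc (Real.log x) ^ g ≤ (Real.log (2 * Y)) ^ g :=
          pow_le_pow_left₀ hlx.le (Real.log_le_log (by linarith) a3) g
      _ ≤ κ / 2 * (2 * Y) := b1
      _ = κ * Y := by ring
  rw [mul_div_assoc', le_div_iff₀ (by positivity)]
  calc x * (Real.log x) ^ g ≤ x * (κ * Y) := mul_le_mul_of_nonneg_left h4 (by linarith)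
    _ = κ * Y * x := by ring

/-- `H33B.class_conv` for general `G` (window argument). -/
theorem class_convG (F : Fin g → ℤ[X]) (hF : Sys F) (hN : NoFix F) (G : ℤ[X])
    (hk : 1 ≤ G.natDegree) (hl : 0 < G.leadingCoeff) (h : AlmostAllT F G) (q : ℕ)
    (hq : Squarefree q) (N₀ : ℕ) :
    Tendsto (fun Y : ℕ => (∑ n ∈ AF F (argCount G Y), Lq q ((N₀ : ℤ) - G.eval (n : ℤ))) / dens G g Y)
      atTop (𝓝 (∑ b ∈ (range q).filter (fun b : ℕ => IsCoprime ((∏ i, F i).eval (b : ℤ)) (q : ℤ)),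
        Lq q ((N₀ : ℤ) - G.eval (b : ℤ)) * (bhConst F q / (q * ∏ i, ((F i).natDegree : ℝ))))) := by
  have hq0 : 0 < q := Nat.pos_of_ne_zero hq.ne_zero
  have hqr : (0 : ℝ) < q := by exact_mod_cast hq0
  have hDg := FC2_deg F hF
  have hDg0 : 0 < ∏ i, ((F i).natDegree : ℝ) := by linarith
  have hCt := MB5_cst_tendsto F hF hN G q N₀ hq.ne_zero
  set Dg : ℝ := ∏ i, ((F i).natDegree : ℝ) with hDgd
  set ci : ℝ := ∑ b ∈ (range q).filter (fun b : ℕ => IsCoprime ((∏ i, F i).eval (b : ℤ)) (q : ℤ)),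
        Lq q ((N₀ : ℤ) - G.eval (b : ℤ)) * (bhConst F q / (q * Dg)) with hc
  have hc0 : 0 ≤ ci := ge_of_tendsto' hCt fun w =>
    div_nonneg (MB5_cst_nonneg F hN G q N₀ w) hDg0.le
  obtain ⟨N₁, hN₁⟩ := eventually_atTop.1 (Pool.Agent.Lib.H59.argSet_eq hk hl)
  obtain ⟨C₄, hC₄, Y₄, hY₄⟩ := dens_comp G hk hl g (1 / 2) (by norm_num)
  rw [Metric.tendsto_atTop]
  intro η hη
  -- parameters
  set δ : ℝ := min (1 / 4) (η / (64 * (Dg * (ci + 1)))) with hδ
  have hDc : 0 < Dg * (ci + 1) := by positivity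
  have hδ0 : 0 < δ := by
    rw [hδ]
    positivity
  have hδ2 : δ ≤ 1 / 4 := min_le_left _ _
  have hδ3 : 4 * δ * (Dg * (ci + 1)) ≤ η / 16 := by
    have h1 : δ ≤ η / (64 * (Dg * (ci + 1))) := min_le_right _ _
    calc 4 * δ * (Dg * (ci + 1)) ≤ 4 * (η / (64 * (Dg * (ci + 1)))) * (Dg * (ci + 1)) :=
          mul_le_mul_of_nonneg_right (by linarith) hDc.le
      _ = η / 16 := by field_simp; norm_num
  set ε : ℝ := η * δ / (64 * q * C₄) with hε
  have hε0 : 0 < ε := by positivity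
  obtain ⟨w₁, hw₁⟩ := model_closeT F hF hN G hk hl h ε hε0
  obtain ⟨w₂, hw₂⟩ := FC2_PW_dvd q hq
  obtain ⟨w₃, hw₃⟩ := Metric.tendsto_atTop.mp hCt (min (η / 8) 1) (by positivity)
  obtain ⟨w, hw⟩ : ∃ w, w = max w₁ (max w₂ w₃) := ⟨_, rfl⟩
  obtain ⟨Y₁, hY₁⟩ := hw₁ w (by rw [hw]; exact le_max_left _ _)
  have hqw : q ∣ PW w := hw₂ w (by rw [hw]; exact (le_max_left _ _).trans (le_max_right _ _))
  have hCw := hw₃ w (by rw [hw]; exact (le_max_right _ _).trans (le_max_right _ _))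
  rw [Real.dist_eq] at hCw
  have hCw1 : |cst F G q N₀ w / Dg - ci| < η / 8 := hCw.trans_le (min_le_left _ _)
  have hCw2 : cst F G q N₀ w ≤ Dg * (ci + 1) := by
    have h1 : |cst F G q N₀ w / Dg - ci| < 1 := hCw.trans_le (min_le_right _ _)
    have h2 : cst F G q N₀ w / Dg ≤ ci + 1 := by linarith [(abs_lt.mp h1).2]
    rw [div_le_iff₀ hDg0] at h2
    linarith
  obtain ⟨P, hP⟩ : ∃ P : ℝ, P = (PW w : ℝ) := ⟨_, rfl⟩
  have hPpos : 0 < P := by
    rw [hP]; exact_mod_cast PW_pos w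
  -- large `Y`
  obtain ⟨Y₅, hY₅⟩ := dens_win G hk hl g δ hδ0 hδ2
  obtain ⟨Y₆, hY₆⟩ := MB5_small G hk hl g (η * δ / (64 * P * P * q)) (by positivity)
  have ev2 : ∀ᶠ Y : ℕ in atTop, (64 * (P * P ^ (g + 1)) * q / (δ * η)) ≤ (Y : ℝ) :=
    tendsto_natCast_atTop_atTop.eventually_ge_atTop _
  have ev3 : ∀ᶠ Y : ℕ in atTop, (2 / δ) ≤ (Y : ℝ) :=
    tendsto_natCast_atTop_atTop.eventually_ge_atTop _
  have ev4 := (dens_tendsto G hk hl g).eventually_gt_atTop 0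
  obtain ⟨Y₂, hY₂⟩ := eventually_atTop.1 (ev2.and (ev3.and ev4))
  refine ⟨max (max Y₁ Y₂) (max (max Y₄ Y₅) (max Y₆ (2 * N₁ + 8))), fun Y hY => ?_⟩
  have hYY1 : Y₁ ≤ Y := le_trans (by simp) hY
  have hYY2 : Y₂ ≤ Y := le_trans (by simp) hY
  have hYY4 : Y₄ ≤ Y := le_trans (by simp) hY
  have hYY5 : Y₅ ≤ Y := le_trans (by simp) hY
  have hYY6 : Y₆ ≤ Y := le_trans (by simp) hY
  have hYY7 : 2 * N₁ + 8 ≤ Y := le_trans (by simp) hY
  obtain ⟨b2, b3, b4⟩ := hY₂ Y hYY2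
  have b6 := hY₆ Y hYY6
  have hY8r : (8 : ℝ) ≤ Y := by
    have : 8 ≤ Y := by omega
    exact_mod_cast this
  have hYpos : (0 : ℝ) < Y := by linarith
  obtain ⟨d, hdd⟩ : ∃ d, d = dens G g Y := ⟨_, rfl⟩
  rw [← hdd] at b4 b6
  obtain ⟨D, hD⟩ : ∃ D : ℕ, D = ⌊δ * Y⌋₊ := ⟨_, rfl⟩
  have hDle : (D : ℝ) ≤ δ * Y := by rw [hD]; exact Nat.floor_le (by positivity)
  have hδY : 2 ≤ δ * Y := by
    rw [div_le_iff₀ hδ0] at b3
    linarith
  have hDge : δ * Y / 2 ≤ (D : ℝ) := by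
    have := Nat.lt_floor_add_one (δ * Y)
    rw [← hD] at this
    linarith
  have hD1 : 1 ≤ D := by
    have : (1 : ℝ) ≤ D := by linarith
    exact_mod_cast this
  have hD2 : 2 * D ≤ Y := by
    have h1 : (D : ℝ) ≤ Y / 2 := hDle.trans (by nlinarith)
    have h2 : ((2 * D : ℕ) : ℝ) ≤ (Y : ℕ) := by push_cast; linarith
    exact_mod_cast h2
  have hD0 : (0 : ℝ) < D := by exact_mod_cast hD1
  have hup : ∀ N ∈ Ioc Y (Y + D), dens G g N ≤ (1 + 4 * δ) * dens G g Y := by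
    intro N hN'
    rw [mem_Ioc] at hN'
    have h1 : (Y : ℝ) < N := by exact_mod_cast hN'.1
    have h2 : (N : ℝ) ≤ Y + D := by exact_mod_cast hN'.2
    refine (hY₅ Y N hYY5 ?_ ?_).2
    · nlinarith
    · linarith
  have hlow : ∀ N ∈ Ioc (Y - D) Y, (1 - 4 * δ) * dens G g Y ≤ dens G g N := by
    intro N hN'
    rw [mem_Ioc] at hN'
    have h1 : (Y : ℝ) ≤ N + D := by
      have : Y ≤ N + D := by omega
      exact_mod_cast this
    have h2 : (N : ℝ) ≤ Y := by exact_mod_cast hN'.2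
    refine (hY₅ Y N hYY5 ?_ ?_).1
    · linarith
    · nlinarith
  have hineq := MB5_ineq F hF hN G w q N₀ D Y N₁ δ hqw hD1 hδ0.le (by linarith) (by omega) hN₁
    (by omega) (by rw [← hdd]; exact b4) hup hlow
  rw [← hDgd, ← hdd, ← hP] at hineq
  have hmod := hY₁ (2 * Y) (by omega)
  rw [← hDgd] at hmod
  have hdens : dens G g (2 * Y) ≤ C₄ * d := by
    rw [hdd]
    refine (hY₄ (2 * Y) Y (by omega) ?_ (by omega)).2.1
    push_cast
    linarith
  have hE : (∑ N ∈ Icc 1 (2 * Y), |Mw F G w N - dens G g N / Dg *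
        seriesTrunc F G N w|) ≤ 2 * C₄ * ε * Y * d := by
    refine hmod.trans ?_
    push_cast
    have : ε * (2 * Y) * dens G g (2 * Y) ≤ ε * (2 * Y) * (C₄ * d) :=
      mul_le_mul_of_nonneg_left hdens (by positivity)
    linarith
  -- the four terms
  have t1 : 4 * δ * cst F G q N₀ w ≤ η / 16 :=
    (mul_le_mul_of_nonneg_left hCw2 (by positivity)).trans hδ3
  have hDq : δ * Y / (2 * q) ≤ (D : ℝ) / q := by
    rw [div_le_div_iff₀ (by positivity) hqr]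
    nlinarith
  have hDq0 : 0 < δ * Y / (2 * q) := by positivity
  have t2 : 2 * (P * P ^ (g + 1)) / ((D : ℝ) / q) ≤ η / 16 := by
    calc 2 * (P * P ^ (g + 1)) / ((D : ℝ) / q) ≤ 2 * (P * P ^ (g + 1)) / (δ * Y / (2 * q)) :=
          div_le_div_of_nonneg_left (by positivity) hDq0 hDq
      _ ≤ η / 16 := by
          rw [div_le_iff₀ hDq0]
          rw [div_le_iff₀ (by positivity)] at b2
          have e1 : η / 16 * (δ * Y / (2 * q)) = (Y * (δ * η)) / (32 * q) := by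
            field_simp; ring
          rw [e1, le_div_iff₀ (by positivity)]
          linarith
  have t3 : (∑ N ∈ Icc 1 (2 * Y), |Mw F G w N - dens G g N / Dg *
        seriesTrunc F G N w|) / ((D : ℝ) / q * d) ≤ η / 16 := by
    calc _ ≤ (2 * C₄ * ε * Y * d) / ((D : ℝ) / q * d) :=
          div_le_div_of_nonneg_right hE (by positivity)
      _ ≤ (2 * C₄ * ε * Y * d) / (δ * Y / (2 * q) * d) :=
          div_le_div_of_nonneg_left (by positivity) (by positivity)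
            (mul_le_mul_of_nonneg_right hDq b4.le)
      _ = 4 * C₄ * ε * q / δ := by field_simp; ring
      _ = η / 16 := by rw [hε]; field_simp; ring
  have t4 : (P * P * argCount G Y) / ((D : ℝ) / q * d) ≤ η / 16 := by
    calc (P * P * argCount G Y) / ((D : ℝ) / q * d) ≤
          (P * P * argCount G Y) / (δ * Y / (2 * q) * d) :=
          div_le_div_of_nonneg_left (by positivity) (by positivity)
            (mul_le_mul_of_nonneg_right hDq b4.le)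
      _ ≤ (P * P * (η * δ / (64 * P * P * q) * Y * d)) / (δ * Y / (2 * q) * d) := by
          apply div_le_div_of_nonneg_right _ (by positivity)
          exact mul_le_mul_of_nonneg_left b6 (by positivity)
      _ = η / 32 := by
          field_simp
          norm_num
      _ ≤ η / 16 := by linarith
  have hTd : (∑ n ∈ AF F (argCount G Y), Lq q ((N₀ : ℤ) - G.eval (n : ℤ))) / dens G g Y =
      MB5_T F G q N₀ (argCount G Y) / d := by rw [hdd]; rfl
  rw [Real.dist_eq, hTd]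
  calc |MB5_T F G q N₀ (argCount G Y) / d - ci| ≤
        |MB5_T F G q N₀ (argCount G Y) / d - cst F G q N₀ w / Dg| +
        |cst F G q N₀ w / Dg - ci| := abs_sub_le _ _ _
    _ ≤ (η / 16 + η / 16 + η / 16 + η / 16) + η / 8 := by
        apply add_le_add _ hCw1.le
        linarith
    _ < η := by linarith

theorem MB5_arg (G : ℤ[X]) (hk : 1 ≤ G.natDegree) (hl : 0 < G.leadingCoeff) :
    (∃ x₀ : ℕ, ∀ x : ℕ, x₀ ≤ x → argCount G (G.eval (x : ℤ) + 1).toNat = x) ∧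
      Tendsto (fun x : ℕ => (G.eval (x : ℤ) + 1).toNat) atTop atTop := by
  obtain ⟨n₁, hn₁⟩ := Pool.Agent.Lib.H59.exists_strictMono hk hl
  obtain ⟨N₁, hN₁⟩ := eventually_atTop.1 (Pool.Agent.Lib.H59.argSet_eq hk hl)
  -- growth
  have hgrow : ∀ j : ℕ, G.eval (n₁ : ℤ) + j ≤ G.eval ((n₁ + j : ℕ) : ℤ) := by
    intro j
    induction j with
    | zero => simp
    | succ j ih =>
      have := hn₁ (n₁ + j) (n₁ + (j + 1)) (by omega) (by omega)
      push_cast at this ih ⊢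
      linarith
  obtain ⟨c, hc⟩ : ∃ c : ℕ, -(c : ℤ) ≤ G.eval (n₁ : ℤ) := by
    refine ⟨(G.eval (n₁ : ℤ)).natAbs, ?_⟩
    omega
  have hbig : ∀ M x : ℕ, n₁ + c + M ≤ x → (M : ℤ) ≤ G.eval (x : ℤ) := by
    intro M x hx
    have h1 := hgrow (x - n₁)
    have h2 : n₁ + (x - n₁) = x := by omega
    rw [h2] at h1
    have h3 : ((x - n₁ : ℕ) : ℤ) = (x : ℤ) - n₁ := by
      rw [Nat.cast_sub (by omega)]
    rw [h3] at h1
    have h4 : (n₁ : ℤ) + c + M ≤ x := by exact_mod_cast hx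
    linarith
  refine ⟨⟨n₁ + c + N₁ + 1, fun x hx => ?_⟩, ?_⟩
  · have h1 : (N₁ : ℤ) ≤ G.eval (x : ℤ) := hbig N₁ x (by omega)
    have hY : N₁ ≤ (G.eval (x : ℤ) + 1).toNat := by omega
    have hYc : (((G.eval (x : ℤ) + 1).toNat : ℕ) : ℤ) = G.eval (x : ℤ) + 1 :=
      Int.toNat_of_nonneg (by omega)
    have hs := hN₁ _ hY
    have h2 : x ∈ argSet G (G.eval (x : ℤ) + 1).toNat := by
      simp only [argSet, Set.mem_ofPred_eq]
      exact ⟨by omega, by omega⟩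
    have h3 : x + 1 ∉ argSet G (G.eval (x : ℤ) + 1).toNat := by
      intro h4
      simp only [argSet, Set.mem_ofPred_eq] at h4
      have h5 := hn₁ x (x + 1) (by omega) (by omega)
      have h6 := h4.2
      omega
    rw [hs, mem_coe, mem_Icc] at h2 h3
    omega
  · rw [tendsto_atTop]
    intro M
    filter_upwards [eventually_ge_atTop (n₁ + c + M)] with x hx
    have h1 : (M : ℤ) ≤ G.eval (x : ℤ) := hbig M x hx
    omega

theorem MB5_sort (G : ℤ[X]) (q N₀ : ℕ) (hq : 0 < q) (s : Finset ℕ) :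
    ∑ c ∈ range q, Lq q ((N₀ : ℤ) - c) *
      ((s.filter (fun n : ℕ => (q : ℤ) ∣ G.eval (n : ℤ) - c)).card : ℝ) =
    ∑ n ∈ s, Lq q ((N₀ : ℤ) - G.eval (n : ℤ)) := by
  have h1 : ∀ c ∈ range q, Lq q ((N₀ : ℤ) - c) *
      ((s.filter (fun n : ℕ => (q : ℤ) ∣ G.eval (n : ℤ) - c)).card : ℝ) =
      ∑ n ∈ s, if (q : ℤ) ∣ G.eval (n : ℤ) - c then Lq q ((N₀ : ℤ) - c) else 0 := by
    intro c _
    rw [← sum_filter, sum_const, nsmul_eq_mul, mul_comm]
  rw [sum_congr rfl h1, sum_comm]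
  refine sum_congr rfl fun n _ => ?_
  have hqz : (0 : ℤ) < q := by exact_mod_cast hq
  have hmod := Int.emod_nonneg (G.eval (n : ℤ)) hqz.ne'
  have hlt := Int.emod_lt_of_pos (G.eval (n : ℤ)) hqz
  set c₀ : ℕ := (G.eval (n : ℤ) % q).toNat with hc₀
  have hc₀' : (c₀ : ℤ) = G.eval (n : ℤ) % q := Int.toNat_of_nonneg hmod
  have hdiv : (q : ℤ) ∣ G.eval (n : ℤ) - c₀ := by
    rw [hc₀']
    exact Int.dvd_self_sub_emod
  rw [sum_eq_single c₀]
  · rw [if_pos hdiv]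
    apply FC2_Lq_congr
    have : (N₀ : ℤ) - c₀ - (N₀ - G.eval (n : ℤ)) = G.eval (n : ℤ) - c₀ := by ring
    rw [this]
    exact hdiv
  · intro c hc hne
    rw [mem_range] at hc
    rw [if_neg]
    intro h
    apply hne
    have h3 : (q : ℤ) ∣ (c₀ : ℤ) - c := by
      have := dvd_sub h hdiv
      have e1 : G.eval (n : ℤ) - c - (G.eval (n : ℤ) - c₀) = (c₀ : ℤ) - c := by ring
      rwa [e1] at this
    have h4 : |(c₀ : ℤ) - c| < q := by
      rw [abs_lt]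
      constructor <;> omega
    have h5 := Int.eq_zero_of_abs_lt_dvd h3 h4
    omega
  · intro h
    exfalso
    apply h
    rw [mem_range]
    omega

theorem MB5_mod_cnt (F : Fin g → ℤ[X]) (G : ℤ[X]) (q c x : ℕ) :
    cntG F G q (c % q) x = cntG F G q c x := by
  unfold cntG
  congr 1
  apply filter_congr
  intro n _
  have h : (q : ℤ) ∣ ((c : ℤ) - ((c % q : ℕ) : ℤ)) := by
    push_cast
    exact Int.dvd_self_sub_emod
  constructor
  · intro h1
    have := dvd_sub h1 h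
    have e1 : G.eval (n : ℤ) - ((c % q : ℕ) : ℤ) - ((c : ℤ) - ((c % q : ℕ) : ℤ)) =
      G.eval (n : ℤ) - c := by ring
    rwa [e1] at this
  · intro h1
    have := dvd_add h1 h
    have e1 : G.eval (n : ℤ) - (c : ℤ) + ((c : ℤ) - ((c % q : ℕ) : ℤ)) =
      G.eval (n : ℤ) - ((c % q : ℕ) : ℤ) := by ring
    rwa [e1] at this

theorem MB5_mod_res (F : Fin g → ℤ[X]) (G : ℤ[X]) (q c : ℕ) :
    resG F G q (c % q) = resG F G q c := by
  unfold resG
  congr 1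
  apply filter_congr
  intro n _
  have h : (q : ℤ) ∣ ((c : ℤ) - ((c % q : ℕ) : ℤ)) := by
    push_cast
    exact Int.dvd_self_sub_emod
  constructor
  · rintro ⟨h0, h1⟩
    refine ⟨h0, ?_⟩
    have := dvd_sub h1 h
    have e1 : G.eval (n : ℤ) - ((c % q : ℕ) : ℤ) - ((c : ℤ) - ((c % q : ℕ) : ℤ)) =
      G.eval (n : ℤ) - c := by ring
    rwa [e1] at this
  · rintro ⟨h0, h1⟩
    refine ⟨h0, ?_⟩
    have := dvd_add h1 h
    have e1 : G.eval (n : ℤ) - (c : ℤ) + ((c : ℤ) - ((c % q : ℕ) : ℤ)) =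
      G.eval (n : ℤ) - ((c % q : ℕ) : ℤ) := by ring
    rwa [e1] at this

/-- `class_convG` for all `N₀ < q`, `H33B.inv_bound` applied to the differences `y_c`, `c < q`, of the two sides of `BHPush`
(`∑_c Lq(N₀ - c) y_c` is the difference of the two sides of `class_convG`), and `x = argCount G (G(x) + 1)` for large `x`. -/
theorem push_of_aaT (F : Fin g → ℤ[X]) (hF : Sys F) (hN : NoFix F) (G : ℤ[X])
    (hk : 1 ≤ G.natDegree) (hl : 0 < G.leadingCoeff) (h : AlmostAllT F G) (q : ℕ)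
    (hq : Squarefree q) : BHPush F G q := by
  classical
  have hq0 : 0 < q := Nat.pos_of_ne_zero hq.ne_zero
  obtain ⟨⟨x₀, hx₀⟩, hYt⟩ := MB5_arg G hk hl
  intro c
  obtain ⟨K, hK, hinv⟩ := inv_bound q hq
  have hcq : c % q ∈ range q := mem_range.mpr (Nat.mod_lt _ hq0)
  set B : ℝ := bhConst F q / (q * ∏ i, ((F i).natDegree : ℝ)) with hB
  rw [Metric.tendsto_atTop]
  intro η hη
  have h1 : ∀ N₀ ∈ range q, ∀ᶠ x : ℕ in atTop, |∑ c ∈ range q, Lq q ((N₀ : ℤ) - c) *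
      ((cntG F G q c x : ℝ) * (Real.log x) ^ g / x - resG F G q c * B)| ≤ η / (2 * K) := by
    intro N₀ _
    have h2 := (class_convG F hF hN G hk hl h q hq N₀).comp hYt
    rw [← hB] at h2
    have h3 := (Metric.tendsto_atTop.mp h2) (η / (2 * K)) (by positivity)
    obtain ⟨x₁, hx₁⟩ := h3
    filter_upwards [eventually_ge_atTop x₁, eventually_ge_atTop x₀] with x hx1 hx0
    have h4 := hx₁ x hx1
    rw [Real.dist_eq] at h4
    simp only [Function.comp, hx₀ x hx0, Pool.Agent.Lib.H33B.dens] at h4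
    have h5 := MB5_sort G q N₀ hq0 (AF F x)
    have h6 := MB5_sort G q N₀ hq0
      ((range q).filter (fun b : ℕ => IsCoprime ((∏ i, F i).eval (b : ℤ)) (q : ℤ)))
    rw [← sum_mul, ← h5, ← h6] at h4
    have h7 : ∑ c ∈ range q, Lq q ((N₀ : ℤ) - c) *
      ((cntG F G q c x : ℝ) * (Real.log x) ^ g / x - resG F G q c * B) =
      (∑ c ∈ range q, Lq q ((N₀ : ℤ) - c) *
        (((AF F x).filter (fun n : ℕ => (q : ℤ) ∣ G.eval (n : ℤ) - c)).card : ℝ)) /
          ((x : ℝ) / (Real.log x) ^ g) -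
      (∑ c ∈ range q, Lq q ((N₀ : ℤ) - c) *
        ((((range q).filter (fun b : ℕ => IsCoprime ((∏ i, F i).eval (b : ℤ)) (q : ℤ))).filter
          (fun n : ℕ => (q : ℤ) ∣ G.eval (n : ℤ) - c)).card : ℝ)) * B := by
      rw [sum_div, sum_mul, ← sum_sub_distrib]
      refine sum_congr rfl fun c _ => ?_
      unfold cntG resG
      rw [filter_filter]
      rw [div_div_eq_mul_div]
      ring
    rw [h7]
    exact h4.le
  have h3 := (eventually_all_finset (range q)).mpr h1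
  obtain ⟨Y₀, hY₀⟩ := eventually_atTop.1 h3
  refine ⟨Y₀, fun x hx => ?_⟩
  have h4 := hinv (fun c : ℕ => (cntG F G q c x : ℝ) * (Real.log x) ^ g / x -
    resG F G q c * B) (η / (2 * K)) (fun N₀ hN₀ => hY₀ x hx N₀ hN₀) (c % q) hcq
  simp only [MB5_mod_cnt, MB5_mod_res] at h4
  rw [Real.dist_eq]
  have h5 : K * (η / (2 * K)) = η / 2 := by field_simp
  rw [h5] at h4
  linarith

end Pool.Agent.Lib.H33C
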