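import Pool.Agent.Lib.H33C.QS
import Pool.Agent.Lib.H33B.LS1

/-!
# Chunk QM: the second moment
-/

open Finset

namespace Pool.Agent.Lib.H33C

open Pool.Agent.Lib.H33B

theorem QM_pow_sum (M : ℕ) :
    ∑ n ∈ Icc 1 M, (n : ℝ) ^ (-(2 / 5) : ℝ) ≤ 5 / 3 * (M : ℝ) ^ ((3 : ℝ) / 5) := by
  induction M with
  | zero => simp
  | succ M ih =>
    rw [Finset.sum_Icc_succ_top (by omega)]
    set t : ℝ := ((M + 1 : ℕ) : ℝ) with ht
    have ht1 : (1 : ℝ) ≤ t := by rw [ht]; exact_mod_cast Nat.succ_le_succ (Nat.zero_le M)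
    have ht0 : 0 < t := by linarith
    have hM : (M : ℝ) = t * (1 + (-(1 / t))) := by
      rw [ht]; push_cast; field_simp; ring
    have h1 : (M : ℝ) ^ ((3 : ℝ) / 5) ≤ t ^ ((3 : ℝ) / 5) * (1 + 3 / 5 * (-(1 / t))) := by
      rw [hM, Real.mul_rpow ht0.le (by
        have : 1 / t ≤ 1 := by rw [div_le_one ht0]; exact ht1
        linarith)]
      gcongr
      exact rpow_one_add_le_one_add_mul_self (by
        have : 1 / t ≤ 1 := by rw [div_le_one ht0]; exact ht1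
        linarith) (by norm_num) (by norm_num)
    have h2 : t ^ ((3 : ℝ) / 5) * (1 / t) = t ^ (-(2 / 5) : ℝ) := by
      rw [one_div, ← Real.rpow_neg_one t, ← Real.rpow_add ht0]
      norm_num
    have h3 : t ^ ((3 : ℝ) / 5) * (1 + 3 / 5 * (-(1 / t))) =
        t ^ ((3 : ℝ) / 5) - 3 / 5 * t ^ (-(2 / 5) : ℝ) := by
      rw [← h2]; ring
    rw [h3] at h1
    linarith

theorem QM_prod {α β : Type} (X : Finset α) (W : Finset β) (f : α → ℝ) (h : β → ℝ) :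
    ∑ x ∈ X ×ˢ W, f x.1 * h x.2 = (∑ x ∈ X, f x) * ∑ y ∈ W, h y := by
  rw [Finset.sum_mul_sum, Finset.sum_product]

/-- the triple attached to a pair -/
def QM_tri (x : ℕ × ℕ) : ℕ × ℕ × ℕ :=
  (Nat.gcd x.1 x.2, Nat.sqrt (x.1 / Nat.gcd x.1 x.2), Nat.sqrt (x.2 / Nat.gcd x.1 x.2))

theorem QM_tri_spec (n n' : ℕ) (hn : 0 < n) (hsq : IsSquare (n * n')) (hn' : 0 < n') :
    ∃ g u v : ℕ, 0 < g ∧ 0 < u ∧ 0 < v ∧ QM_tri (n, n') = (g, u, v) ∧ n = g * u ^ 2 ∧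
      n' = g * v ^ 2 := by
  obtain ⟨s, hs⟩ := hsq
  set g := Nat.gcd n n' with hg
  have hg0 : 0 < g := Nat.gcd_pos_of_pos_left _ hn
  obtain ⟨a, ha⟩ : g ∣ n := Nat.gcd_dvd_left _ _
  obtain ⟨b, hb⟩ : g ∣ n' := Nat.gcd_dvd_right _ _
  have hna : n / g = a := by rw [ha]; exact Nat.mul_div_cancel_left _ hg0
  have hnb : n' / g = b := by rw [hb]; exact Nat.mul_div_cancel_left _ hg0
  have hcop : Nat.Coprime a b := by
    have := Nat.coprime_div_gcd_div_gcd (m := n) (n := n') hg0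
    rwa [← hg, hna, hnb] at this
  have hgs : g ∣ s := by
    have h1 : g ^ 2 ∣ s ^ 2 := by
      rw [sq s, ← hs]
      exact ⟨a * b, by rw [show n * n' = (g * a) * (g * b) from by rw [← ha, ← hb]]; ring⟩
    exact (Nat.pow_dvd_pow_iff (by norm_num)).1 h1
  obtain ⟨c, hc⟩ := hgs
  have hab : a * b = c ^ 2 := by
    have h1 : g * a * (g * b) = g * c * (g * c) := by rw [← ha, ← hb, ← hc]; exact hs
    have h2 : g ^ 2 * (a * b) = g ^ 2 * c ^ 2 := by linarith [h1]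
    exact Nat.eq_of_mul_eq_mul_left (by positivity) h2
  obtain ⟨u, hu⟩ := exists_eq_pow_of_mul_eq_pow (a := a) (b := b) (c := c) (k := 2)
    (Nat.isUnit_iff.2 hcop) hab
  obtain ⟨v, hv⟩ := exists_eq_pow_of_mul_eq_pow (a := b) (b := a) (c := c) (k := 2)
    (Nat.isUnit_iff.2 hcop.symm) (by rw [mul_comm]; exact hab)
  refine ⟨g, u, v, hg0, ?_, ?_, ?_, ?_, ?_⟩
  · rcases Nat.eq_zero_or_pos u with h | h
    · rw [h] at hu; rw [hu] at ha; simp at ha; omega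
    · exact h
  · rcases Nat.eq_zero_or_pos v with h | h
    · rw [h] at hv; rw [hv] at hb; simp at hb; omega
    · exact h
  · unfold QM_tri
    rw [← hg, hna, hnb, hu, hv, Nat.sqrt_eq', Nat.sqrt_eq']
  · rw [← hu]; exact ha
  · rw [← hv]; exact hb

/-- the rough numbers -/
def QM_R (w M : ℕ) : Finset ℕ := (Icc 2 M).filter fun n => Odd n ∧ Nat.Coprime n (PW w)

theorem QM_prime {w M n : ℕ} (hn : n ∈ QM_R w M) (p : ℕ) (hp : p.Prime) (hpn : p ∣ n) :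
    w ≤ p := by
  by_contra hlt
  push Not at hlt
  have h1 : p ∣ PW w := (prime_dvd_PW w p hp).2 hlt
  have h2 : Nat.Coprime n (PW w) := (Finset.mem_filter.1 hn).2.2
  exact hp.one_lt.ne' (Nat.dvd_one.1 (h2.gcd_eq_one ▸ Nat.dvd_gcd hpn h1))

theorem QM_large {w M n d : ℕ} (hn : n ∈ QM_R w M) (hd : d ∣ n) (hd1 : d ≠ 1) : w ≤ d := by
  have h1 := QM_prime hn d.minFac (Nat.minFac_prime hd1) ((Nat.minFac_dvd d).trans hd)
  have hn0 : 0 < n := by have := (Finset.mem_Icc.1 (Finset.mem_filter.1 hn).1).1; omega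
  exact h1.trans (Nat.minFac_le (Nat.pos_of_dvd_of_pos hd hn0))

theorem QM_square (w M : ℕ) (hw : 3 ≤ w) :
    ∑ x ∈ ((QM_R w M) ×ˢ (QM_R w M)).filter (fun x => IsSquare (x.1 * x.2)),
      (1 : ℝ) / ((x.1 : ℝ) * x.2) ≤ 16 / w := by
  classical
  set P := ((QM_R w M) ×ˢ (QM_R w M)).filter (fun x : ℕ × ℕ => IsSquare (x.1 * x.2)) with hP
  let F : ℕ × ℕ × ℕ → ℝ := fun y => 1 / (y.1 : ℝ) ^ 2 * (1 / (y.2.1 : ℝ) ^ 2 *
    (1 / (y.2.2 : ℝ) ^ 2))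
  have hmem : ∀ x ∈ P, 0 < x.1 ∧ 0 < x.2 ∧ x.1 ≤ M ∧ x.2 ≤ M ∧ x.1 ∈ QM_R w M ∧ x.2 ∈ QM_R w M ∧
      IsSquare (x.1 * x.2) ∧ 2 ≤ x.1 ∧ 2 ≤ x.2 := by
    intro x hx
    rw [hP, Finset.mem_filter, Finset.mem_product] at hx
    have h1 := Finset.mem_Icc.1 (Finset.mem_filter.1 hx.1.1).1
    have h2 := Finset.mem_Icc.1 (Finset.mem_filter.1 hx.1.2).1
    exact ⟨by omega, by omega, h1.2, h2.2, hx.1.1, hx.1.2, hx.2, h1.1, h2.1⟩
  have hF : ∀ x ∈ P, (1 : ℝ) / ((x.1 : ℝ) * x.2) = F (QM_tri x) := by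
    rintro ⟨n, n'⟩ hx
    obtain ⟨h1, h2, -, -, -, -, h3, -, -⟩ := hmem _ hx
    obtain ⟨g, u, v, hg, hu, hv, ht, e1, e2⟩ := QM_tri_spec n n' h1 h3 h2
    rw [ht]
    simp only [F]
    have hg' : (g : ℝ) ≠ 0 := by positivity
    have hu' : (u : ℝ) ≠ 0 := by positivity
    have hv' : (v : ℝ) ≠ 0 := by positivity
    rw [e1, e2]
    push_cast
    field_simp
  have hinj : Set.InjOn QM_tri P := by
    rintro ⟨n, n'⟩ hx ⟨m, m'⟩ hy hxy
    obtain ⟨h1, h2, -, -, -, -, h3, -, -⟩ := hmem _ hx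
    obtain ⟨k1, k2, -, -, -, -, k3, -, -⟩ := hmem _ hy
    obtain ⟨g, u, v, hg, hu, hv, ht, e1, e2⟩ := QM_tri_spec n n' h1 h3 h2
    obtain ⟨g', u', v', hg', hu', hv', ht', e1', e2'⟩ := QM_tri_spec m m' k1 k3 k2
    rw [ht, ht'] at hxy
    simp only [Prod.mk.injEq] at hxy
    obtain ⟨a1, a2, a3⟩ := hxy
    subst a1 a2 a3
    rw [e1, e2, e1', e2']
  rw [Finset.sum_congr rfl hF, ← Finset.sum_image hinj]
  set A := Ioo 0 (M + 1) with hA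
  set B := Ioo (w - 1) (M + 1) with hB
  have hsub : P.image QM_tri ⊆ (B ×ˢ (A ×ˢ A)) ∪ (A ×ˢ (B ×ˢ A)) := by
    intro y hy
    obtain ⟨⟨n, n'⟩, hx, rfl⟩ := Finset.mem_image.1 hy
    obtain ⟨h1, h2, hM1, hM2, hR1, hR2, h3, h21, h22⟩ := hmem _ hx
    obtain ⟨g, u, v, hg, hu, hv, ht, e1, e2⟩ := QM_tri_spec n n' h1 h3 h2
    rw [ht]
    simp only at hM1 hM2 hR1 hR2 h21 h22
    have hgn : g ∣ n := ⟨u ^ 2, e1⟩
    have hun : u ∣ n := ⟨g * u, by rw [e1]; ring⟩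
    have hvn : v ∣ n' := ⟨g * v, by rw [e2]; ring⟩
    have hgM : g ≤ M := (Nat.le_of_dvd h1 hgn).trans hM1
    have huM : u ≤ M := (Nat.le_of_dvd h1 hun).trans hM1
    have hvM : v ≤ M := (Nat.le_of_dvd h2 hvn).trans hM2
    rw [Finset.mem_union, Finset.mem_product, Finset.mem_product, Finset.mem_product,
      Finset.mem_product, hA, hB]
    simp only [Finset.mem_Ioo]
    by_cases hg1 : g = 1
    · right
      have hu1 : u ≠ 1 := by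
        rintro rfl
        rw [hg1] at e1
        omega
      have := QM_large hR1 hun hu1
      omega
    · left
      have := QM_large hR1 hgn hg1
      omega
  have hnn : ∀ y, 0 ≤ F y := fun y => by simp only [F]; positivity
  refine (Finset.sum_le_sum_of_subset_of_nonneg hsub fun y _ _ => hnn y).trans ?_
  have hAs : ∑ i ∈ A, 1 / (i : ℝ) ^ 2 ≤ 2 := by
    have := sum_Ioo_inv_sq_le (α := ℝ) 0 (M + 1)
    simpa [one_div] using this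
  have hBs : ∑ i ∈ B, 1 / (i : ℝ) ^ 2 ≤ 2 / (w : ℝ) := by
    have := sum_Ioo_inv_sq_le (α := ℝ) (w - 1) (M + 1)
    have hcast : ((w - 1 : ℕ) : ℝ) + 1 = w := by
      rw [Nat.cast_sub (by omega)]; push_cast; ring
    rw [hcast] at this
    simpa [one_div] using this
  have hA0 : 0 ≤ ∑ i ∈ A, 1 / (i : ℝ) ^ 2 := Finset.sum_nonneg fun i _ => by positivity
  have hB0 : 0 ≤ ∑ i ∈ B, 1 / (i : ℝ) ^ 2 := Finset.sum_nonneg fun i _ => by positivity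
  have hprod : ∀ X Y Z : Finset ℕ, ∑ y ∈ X ×ˢ (Y ×ˢ Z), F y =
      (∑ i ∈ X, 1 / (i : ℝ) ^ 2) * ((∑ i ∈ Y, 1 / (i : ℝ) ^ 2) * (∑ i ∈ Z, 1 / (i : ℝ) ^ 2)) := by
    intro X Y Z
    rw [← QM_prod Y Z (fun i => 1 / (i : ℝ) ^ 2) (fun i => 1 / (i : ℝ) ^ 2),
      ← QM_prod X (Y ×ˢ Z) (fun i => 1 / (i : ℝ) ^ 2)
        (fun y => 1 / (y.1 : ℝ) ^ 2 * (1 / (y.2 : ℝ) ^ 2))]
  have hun : ∑ y ∈ (B ×ˢ (A ×ˢ A)) ∪ (A ×ˢ (B ×ˢ A)), F y ≤
      ∑ y ∈ B ×ˢ (A ×ˢ A), F y + ∑ y ∈ A ×ˢ (B ×ˢ A), F y := by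
    rw [← Finset.sum_union_inter]
    have : 0 ≤ ∑ y ∈ (B ×ˢ (A ×ˢ A)) ∩ (A ×ˢ (B ×ˢ A)), F y := Finset.sum_nonneg fun y _ => hnn y
    linarith
  refine hun.trans ?_
  rw [hprod, hprod]
  have hw0 : (0 : ℝ) < w := by positivity
  set SA := ∑ i ∈ A, 1 / (i : ℝ) ^ 2
  set SB := ∑ i ∈ B, 1 / (i : ℝ) ^ 2
  have h1 : SB * (SA * SA) ≤ 2 / w * (2 * 2) := by gcongr
  have h2 : SA * (SB * SA) ≤ 2 * (2 / w * 2) := by gcongr
  calc SB * (SA * SA) + SA * (SB * SA) ≤ 2 / w * (2 * 2) + 2 * (2 / w * 2) := add_le_add h1 h2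
    _ = 16 / w := by ring

/-- For `w > a`, `w ≥ 3` the `n > 1` counted in `rough w` are coprime to `2a`. Expand the square:
`∑_{n,n'} (n n')⁻¹ ∑_N J(4aN+B | n n')`. The `n, n'` with `n n'` not a square: `jac_sum`, at most
`C (∑_{n ≤ M} n^(-2/5))² ≤ C' M^(6/5)`. The others: `n n' = s²`, `s ≥ w` (a number `> 1` without prime factors `< w`), the number of pairs is
`τ(s²) ≤ C s^(1/2)`: at most `Y ∑_{s ≥ w} C s^(-3/2) ≤ C' Y/√w`. -/
theorem second_moment (a : ℕ) (ha : 1 ≤ a) (B : ℤ) : ∃ C : ℝ, 0 < C ∧ ∀ w M Y : ℕ, a < w → 3 ≤ w →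
    ∑ N ∈ Icc 1 Y, (∑ n ∈ Icc 2 M, rough w (4 * a * N + B) n / n) ^ 2 ≤
      C * (Y / Real.sqrt w + (M : ℝ) ^ ((6 : ℝ) / 5)) := by
  classical
  obtain ⟨C, hC, hjac⟩ := jac_sum
  refine ⟨16 + C * 3, by positivity, fun w M Y haw hw => ?_⟩
  set R := QM_R w M with hR
  have hRpos : ∀ n ∈ R, 0 < n ∧ Odd n ∧ Nat.Coprime a n ∧ n ∈ Icc 1 M := by
    intro n hn
    have h1 := Finset.mem_filter.1 hn
    have h2 := Finset.mem_Icc.1 h1.1
    refine ⟨by omega, h1.2.1, ?_, Finset.mem_Icc.2 ⟨by omega, h2.2⟩⟩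
    rw [Nat.coprime_iff_isRelPrime]
    by_contra hcon
    rw [← Nat.coprime_iff_isRelPrime] at hcon
    obtain ⟨p, hp, hpa, hpn⟩ := Nat.Prime.not_coprime_iff_dvd.1 hcon
    have h3 := QM_prime hn p hp hpn
    have h4 := Nat.le_of_dvd (by omega) hpa
    omega
  have h1 : ∀ D : ℤ, ∑ n ∈ Icc 2 M, rough w D n / n = ∑ n ∈ R, (jacobiSym D n : ℝ) / n := by
    intro D
    rw [hR, QM_R, Finset.sum_filter]
    refine Finset.sum_congr rfl fun n _ => ?_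
    unfold rough
    split_ifs with h
    · rfl
    · simp
  have h2 : ∀ D : ℤ, (∑ n ∈ R, (jacobiSym D n : ℝ) / n) ^ 2 =
      ∑ x ∈ R ×ˢ R, (1 / ((x.1 : ℝ) * x.2)) * (jacobiSym D (x.1 * x.2) : ℝ) := by
    intro D
    rw [sq, Finset.sum_mul_sum, Finset.sum_product]
    refine Finset.sum_congr rfl fun n hn => Finset.sum_congr rfl fun m hm => ?_
    have hn0 := (hRpos n hn).1
    have hm0 := (hRpos m hm).1
    rw [jacobiSym.mul_right' D hn0.ne' hm0.ne']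
    have hn' : (n : ℝ) ≠ 0 := by positivity
    have hm' : (m : ℝ) ≠ 0 := by positivity
    push_cast
    field_simp
  have h3 : ∑ N ∈ Icc 1 Y, (∑ n ∈ Icc 2 M, rough w (4 * a * N + B) n / n) ^ 2 =
      ∑ x ∈ R ×ˢ R, (1 / ((x.1 : ℝ) * x.2)) *
        ∑ N ∈ Icc 1 Y, (jacobiSym (4 * a * N + B) (x.1 * x.2) : ℝ) := by
    simp_rw [h1, h2]
    rw [Finset.sum_comm]
    refine Finset.sum_congr rfl fun x _ => ?_
    rw [Finset.mul_sum]
  rw [h3, ← Finset.sum_filter_add_sum_filter_not (R ×ˢ R) (fun x => IsSquare (x.1 * x.2))]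
  have hsq : ∑ x ∈ (R ×ˢ R).filter (fun x => IsSquare (x.1 * x.2)), (1 / ((x.1 : ℝ) * x.2)) *
        ∑ N ∈ Icc 1 Y, (jacobiSym (4 * a * N + B) (x.1 * x.2) : ℝ) ≤ 16 / w * Y := by
    calc ∑ x ∈ (R ×ˢ R).filter (fun x => IsSquare (x.1 * x.2)), (1 / ((x.1 : ℝ) * x.2)) *
        ∑ N ∈ Icc 1 Y, (jacobiSym (4 * a * N + B) (x.1 * x.2) : ℝ)
        ≤ ∑ x ∈ (R ×ˢ R).filter (fun x => IsSquare (x.1 * x.2)), (1 / ((x.1 : ℝ) * x.2)) * Y := by
          refine Finset.sum_le_sum fun x _ => ?_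
          gcongr
          calc ∑ N ∈ Icc 1 Y, (jacobiSym (4 * a * N + B) (x.1 * x.2) : ℝ)
              ≤ ∑ N ∈ Icc 1 Y, (1 : ℝ) := by
                refine Finset.sum_le_sum fun N _ => ?_
                rcases jacobiSym.trichotomy (4 * a * N + B) (x.1 * x.2) with h | h | h <;>
                  rw [h] <;> norm_num
            _ = Y := by simp
      _ = (∑ x ∈ (R ×ˢ R).filter (fun x => IsSquare (x.1 * x.2)), (1 / ((x.1 : ℝ) * x.2))) * Y := by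
          rw [Finset.sum_mul]
      _ ≤ 16 / w * Y := by
          gcongr
          exact QM_square w M hw
  have hns : ∑ x ∈ (R ×ˢ R).filter (fun x => ¬ IsSquare (x.1 * x.2)), (1 / ((x.1 : ℝ) * x.2)) *
        ∑ N ∈ Icc 1 Y, (jacobiSym (4 * a * N + B) (x.1 * x.2) : ℝ) ≤
        C * (5 / 3 * (M : ℝ) ^ ((3 : ℝ) / 5)) ^ 2 := by
    calc ∑ x ∈ (R ×ˢ R).filter (fun x => ¬ IsSquare (x.1 * x.2)), (1 / ((x.1 : ℝ) * x.2)) *
        ∑ N ∈ Icc 1 Y, (jacobiSym (4 * a * N + B) (x.1 * x.2) : ℝ)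
        ≤ ∑ x ∈ (R ×ˢ R).filter (fun x => ¬ IsSquare (x.1 * x.2)),
            C * ((x.1 : ℝ) ^ (-(2 / 5) : ℝ) * (x.2 : ℝ) ^ (-(2 / 5) : ℝ)) := by
          refine Finset.sum_le_sum fun x hx => ?_
          rw [Finset.mem_filter, Finset.mem_product] at hx
          obtain ⟨⟨hx1, hx2⟩, hx3⟩ := hx
          obtain ⟨a1, a2, a3, -⟩ := hRpos _ hx1
          obtain ⟨b1, b2, b3, -⟩ := hRpos _ hx2
          have hj := (le_abs_self _).trans (hjac a B (x.1 * x.2) (a2.mul b2)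
            (Nat.Coprime.mul_right a3 b3) hx3 Y)
          have hx10 : (0 : ℝ) < x.1 := by exact_mod_cast a1
          have hx20 : (0 : ℝ) < x.2 := by exact_mod_cast b1
          have hpow : ∀ t : ℝ, 0 < t → 1 / t * t ^ ((3 : ℝ) / 5) = t ^ (-(2 / 5) : ℝ) := by
            intro t ht
            rw [one_div, ← Real.rpow_neg_one t, ← Real.rpow_add ht]
            norm_num
          calc (1 / ((x.1 : ℝ) * x.2)) *
              ∑ N ∈ Icc 1 Y, (jacobiSym (4 * a * N + B) (x.1 * x.2) : ℝ)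
              ≤ (1 / ((x.1 : ℝ) * x.2)) * (C * (((x.1 * x.2 : ℕ) : ℝ)) ^ ((3 : ℝ) / 5)) := by
                gcongr
            _ = C * ((1 / (x.1 : ℝ) * (x.1 : ℝ) ^ ((3 : ℝ) / 5)) *
                (1 / (x.2 : ℝ) * (x.2 : ℝ) ^ ((3 : ℝ) / 5))) := by
                push_cast
                rw [Real.mul_rpow hx10.le hx20.le]
                field_simp
            _ = _ := by rw [hpow _ hx10, hpow _ hx20]
      _ ≤ ∑ x ∈ R ×ˢ R, C * ((x.1 : ℝ) ^ (-(2 / 5) : ℝ) * (x.2 : ℝ) ^ (-(2 / 5) : ℝ)) := by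
          refine Finset.sum_le_sum_of_subset_of_nonneg (Finset.filter_subset _ _) fun x _ _ => ?_
          positivity
      _ = C * (∑ n ∈ R, (n : ℝ) ^ (-(2 / 5) : ℝ)) ^ 2 := by
          rw [← Finset.mul_sum, sq, QM_prod R R (fun n => (n : ℝ) ^ (-(2 / 5) : ℝ))
            (fun n => (n : ℝ) ^ (-(2 / 5) : ℝ))]
      _ ≤ C * (5 / 3 * (M : ℝ) ^ ((3 : ℝ) / 5)) ^ 2 := by
          have h5 : ∑ n ∈ R, (n : ℝ) ^ (-(2 / 5) : ℝ) ≤ 5 / 3 * (M : ℝ) ^ ((3 : ℝ) / 5) := by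
            refine (Finset.sum_le_sum_of_subset_of_nonneg (fun n hn => (hRpos n hn).2.2.2)
              fun n _ _ => ?_).trans (QM_pow_sum M)
            positivity
          have h6 : 0 ≤ ∑ n ∈ R, (n : ℝ) ^ (-(2 / 5) : ℝ) := Finset.sum_nonneg fun n _ => by
            positivity
          gcongr
  have hM2 : (5 / 3 * (M : ℝ) ^ ((3 : ℝ) / 5)) ^ 2 ≤ 3 * (M : ℝ) ^ ((6 : ℝ) / 5) := by
    have h7 : ((M : ℝ) ^ ((3 : ℝ) / 5)) ^ 2 = (M : ℝ) ^ ((6 : ℝ) / 5) := by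
      rw [← Real.rpow_natCast, ← Real.rpow_mul (Nat.cast_nonneg M)]
      norm_num
    rw [mul_pow, h7]
    have h8 : 0 ≤ (M : ℝ) ^ ((6 : ℝ) / 5) := by positivity
    nlinarith
  have hw1 : (1 : ℝ) ≤ w := by exact_mod_cast (by omega : 1 ≤ w)
  have hw2 : (16 : ℝ) / w * Y ≤ 16 * (Y / Real.sqrt w) := by
    have h9 : Real.sqrt w ≤ w := by
      rw [Real.sqrt_le_left (by linarith)]
      nlinarith
    have h10 : 0 < Real.sqrt w := Real.sqrt_pos.2 (by linarith)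
    have h11 : (16 : ℝ) / w ≤ 16 / Real.sqrt w := by gcongr
    calc (16 : ℝ) / w * Y ≤ 16 / Real.sqrt w * Y := by gcongr
      _ = 16 * (Y / Real.sqrt w) := by ring
  have hM0 : 0 ≤ (M : ℝ) ^ ((6 : ℝ) / 5) := by positivity
  have hY0 : 0 ≤ (Y : ℝ) / Real.sqrt w := by positivity
  have h12 : C * (5 / 3 * (M : ℝ) ^ ((3 : ℝ) / 5)) ^ 2 ≤ C * (3 * (M : ℝ) ^ ((6 : ℝ) / 5)) := by
    gcongr
  nlinarith [mul_nonneg hC.le hY0]

end Pool.Agent.Lib.H33C
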