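import Pool.Agent.Lib.H33C.QL
import Pool.Agent.Lib.H33C.QM

/-!
# Chunk QF: quadratic `G`
-/

open Finset Polynomial Filter Topology

namespace Pool.Agent.Lib.H33C

open Pool.Agent.Lib.H59 (rootCount)
open Pool.Agent.Lib.H33B

/-- the number of roots as the number of zeros in `ZMod p` -/
theorem QF_rootCount (f : ℤ[X]) (p : ℕ) [NeZero p] :
    rootCount f p = (univ.filter fun x : ZMod p =>
      (f.map (Int.castRingHom (ZMod p))).eval x = 0).card := by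
  unfold rootCount
  symm
  apply Finset.card_bij (fun x _ => ZMod.val x)
  · intro x hx
    rw [mem_filter] at hx ⊢
    refine ⟨mem_range.2 (ZMod.val_lt x), ?_⟩
    rw [← ZMod.intCast_zmod_eq_zero_iff_dvd]
    have h1 := hx.2
    have h2 : ((f.eval ((ZMod.val x : ℕ) : ℤ) : ℤ) : ZMod p) =
        (f.map (Int.castRingHom (ZMod p))).eval x := by
      rw [← eq_intCast (Int.castRingHom (ZMod p)), ← Polynomial.eval_map_apply]
      congr 1
      simp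
    rw [h2]
    exact h1
  · intro x _ y _ hxy
    exact ZMod.val_injective p hxy
  · intro b hb
    rw [mem_filter, mem_range] at hb
    refine ⟨(b : ZMod p), ?_, ZMod.val_cast_of_lt hb.1⟩
    rw [mem_filter]
    refine ⟨mem_univ _, ?_⟩
    have h2 : ((f.eval ((b : ℕ) : ℤ) : ℤ) : ZMod p) =
        (f.map (Int.castRingHom (ZMod p))).eval (b : ZMod p) := by
      rw [← eq_intCast (Int.castRingHom (ZMod p)), ← Polynomial.eval_map_apply]
      congr 1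
      simp
    rw [← h2]
    exact (ZMod.intCast_zmod_eq_zero_iff_dvd _ p).2 hb.2

theorem QF_eval (G : ℤ[X]) (hG : G.natDegree = 2) {R : Type*} [CommRing R] (φ : ℤ →+* R) (x : R) :
    (G.map φ).eval x = φ (G.coeff 2) * x ^ 2 + φ (G.coeff 1) * x + φ (G.coeff 0) := by
  rw [Polynomial.eval_map, Polynomial.eval₂_eq_sum_range, hG]
  rw [Finset.sum_range_succ, Finset.sum_range_succ, Finset.sum_range_succ, Finset.sum_range_zero]
  ring

/-- `4a (G - N) = (2a x + b)² - D_N` for `G = a x² + b x + c`, `D_N = disc G N`; for a prime `p ∤ 2a` the map `x ↦ 2a x + b` is a bijection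
modulo `p`, so `ρ_{N-G}(p)` is the number of roots of `x² - D_N`, `1 + J(D_N | p)` (`root_sq`). -/
theorem rho_quad (G : ℤ[X]) (hG : G.natDegree = 2) (N p : ℕ) (hp : p.Prime) (h2 : p ≠ 2)
    (ha : ¬ (p : ℤ) ∣ G.leadingCoeff) :
    (rootCount (C (N : ℤ) - G) p : ℝ) = 1 + (jacobiSym (disc G N) p : ℝ) := by
  classical
  rw [← root_sq (disc G N) p hp h2]
  haveI : Fact p.Prime := ⟨hp⟩
  haveI : NeZero p := ⟨hp.ne_zero⟩
  congr 1
  rw [QF_rootCount, QF_rootCount]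
  have hcoef : G.coeff 2 = G.leadingCoeff := by rw [Polynomial.leadingCoeff, hG]
  have ha' : ((G.coeff 2 : ℤ) : ZMod p) ≠ 0 := by
    intro h
    rw [ZMod.intCast_zmod_eq_zero_iff_dvd, hcoef] at h
    exact ha h
  have h2' : (2 : ZMod p) ≠ 0 := by
    intro h
    have h3 : ((2 : ℕ) : ZMod p) = 0 := by exact_mod_cast h
    rw [ZMod.natCast_eq_zero_iff] at h3
    exact h2 ((Nat.prime_dvd_prime_iff_eq hp Nat.prime_two).1 h3)
  have h2a : 2 * ((G.coeff 2 : ℤ) : ZMod p) ≠ 0 := mul_ne_zero h2' ha'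
  apply Finset.card_bijective
    (fun x : ZMod p => 2 * ((G.coeff 2 : ℤ) : ZMod p) * x + ((G.coeff 1 : ℤ) : ZMod p))
  · rw [← Finite.injective_iff_bijective]
    intro x y hxy
    have h3 : 2 * ((G.coeff 2 : ℤ) : ZMod p) * x = 2 * ((G.coeff 2 : ℤ) : ZMod p) * y :=
      add_right_cancel hxy
    exact mul_left_cancel₀ h2a h3
  · intro x
    rw [mem_filter, mem_filter]
    simp only [mem_univ, true_and]
    rw [Polynomial.map_sub, Polynomial.eval_sub, QF_eval G hG]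
    simp only [Polynomial.map_C, Polynomial.eval_C, Polynomial.map_sub, Polynomial.map_pow,
      Polynomial.map_X, Polynomial.eval_sub, Polynomial.eval_pow, Polynomial.eval_X]
    simp only [eq_intCast]
    have key : (2 * ((G.coeff 2 : ℤ) : ZMod p) * x + ((G.coeff 1 : ℤ) : ZMod p)) ^ 2 -
        ((disc G N : ℤ) : ZMod p) = -(2 * (2 * ((G.coeff 2 : ℤ) : ZMod p))) *
        ((((N : ℤ) : ZMod p)) - (((G.coeff 2 : ℤ) : ZMod p) * x ^ 2 +
          ((G.coeff 1 : ℤ) : ZMod p) * x + ((G.coeff 0 : ℤ) : ZMod p))) := by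
      unfold disc
      push_cast
      ring
    rw [key, mul_eq_zero]
    constructor
    · intro h
      exact Or.inr h
    · rintro (h | h)
      · exact absurd h (neg_ne_zero.2 (mul_ne_zero h2' h2a))
      · exact h

/-- large `Y` -/
theorem QF_large (C₁ C₂ K B' ε η : ℝ) (w : ℕ) (hC₁ : 0 < C₁) (hC₂ : 0 < C₂) (hK : 0 < K)
    (hε : 0 < ε) (hη : 0 < η) : ∃ Y₀ : ℕ, ∀ Y : ℕ, Y₀ ≤ Y →
      1 ≤ ⌊(Y : ℝ) ^ ((3 : ℝ) / 4)⌋₊ ∧
      C₁ * ((⌊(Y : ℝ) ^ ((3 : ℝ) / 4)⌋₊ : ℕ) : ℝ) ^ ((6 : ℝ) / 5) ≤ ε * η ^ 2 / 4 * Y ∧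
      C₂ * 2 ^ w * (K * Y) ^ ((3 : ℝ) / 5) ≤ η * ((⌊(Y : ℝ) ^ ((3 : ℝ) / 4)⌋₊ : ℕ) : ℝ) ∧
      B' + Real.sqrt (K * Y) ≤ ε / 2 * Y := by
  have t1 : Tendsto (fun Y : ℕ => ((Y : ℝ)) ^ (-((1 : ℝ) / 10))) atTop (𝓝 0) :=
    (tendsto_rpow_neg_atTop (by norm_num)).comp tendsto_natCast_atTop_atTop
  have t2 : Tendsto (fun Y : ℕ => ((Y : ℝ)) ^ (-((3 : ℝ) / 20))) atTop (𝓝 0) :=
    (tendsto_rpow_neg_atTop (by norm_num)).comp tendsto_natCast_atTop_atTop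
  have t3 : Tendsto (fun Y : ℕ => ((Y : ℝ)) ^ (-((1 : ℝ) / 2))) atTop (𝓝 0) :=
    (tendsto_rpow_neg_atTop (by norm_num)).comp tendsto_natCast_atTop_atTop
  have t4 : Tendsto (fun Y : ℕ => ((Y : ℝ)) ^ ((3 : ℝ) / 4)) atTop atTop :=
    (tendsto_rpow_atTop (by norm_num)).comp tendsto_natCast_atTop_atTop
  have t5 : Tendsto (fun Y : ℕ => (Y : ℝ)) atTop atTop := tendsto_natCast_atTop_atTop
  have c1 : 0 < ε * η ^ 2 / 4 / C₁ := by positivity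
  have c2 : 0 < η / (2 * (C₂ * 2 ^ w * K ^ ((3 : ℝ) / 5))) := by positivity
  have c3 : 0 < ε / 4 / Real.sqrt K := by positivity
  have e1 := t1.eventually (Iic_mem_nhds c1)
  have e2 := t2.eventually (Iic_mem_nhds c2)
  have e3 := t3.eventually (Iic_mem_nhds c3)
  have e4 := t4.eventually_ge_atTop 2
  have e5 := t5.eventually_ge_atTop (|B'| / (ε / 4))
  have e6 := t5.eventually_ge_atTop 1
  obtain ⟨Y₀, hY₀⟩ := eventually_atTop.1 (e1.and (e2.and (e3.and (e4.and (e5.and e6)))))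
  refine ⟨Y₀, fun Y hY => ?_⟩
  obtain ⟨h1, h2, h3, h4, h5, h6⟩ := hY₀ Y hY
  replace h1 : ((Y : ℝ)) ^ (-((1 : ℝ) / 10)) ≤ ε * η ^ 2 / 4 / C₁ := h1
  replace h2 : ((Y : ℝ)) ^ (-((3 : ℝ) / 20)) ≤ η / (2 * (C₂ * 2 ^ w * K ^ ((3 : ℝ) / 5))) := h2
  replace h3 : ((Y : ℝ)) ^ (-((1 : ℝ) / 2)) ≤ ε / 4 / Real.sqrt K := h3
  have hY : (0 : ℝ) < Y := by linarith
  have hfl : ((⌊(Y : ℝ) ^ ((3 : ℝ) / 4)⌋₊ : ℕ) : ℝ) ≤ (Y : ℝ) ^ ((3 : ℝ) / 4) :=
    Nat.floor_le (by positivity)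
  have hfl2 : (Y : ℝ) ^ ((3 : ℝ) / 4) < ((⌊(Y : ℝ) ^ ((3 : ℝ) / 4)⌋₊ : ℕ) : ℝ) + 1 :=
    Nat.lt_floor_add_one _
  have hfl3 : (Y : ℝ) ^ ((3 : ℝ) / 4) / 2 ≤ ((⌊(Y : ℝ) ^ ((3 : ℝ) / 4)⌋₊ : ℕ) : ℝ) := by linarith
  refine ⟨?_, ?_, ?_, ?_⟩
  · have : (1 : ℝ) ≤ ((⌊(Y : ℝ) ^ ((3 : ℝ) / 4)⌋₊ : ℕ) : ℝ) := by linarith
    exact_mod_cast this
  · have g1 : ((⌊(Y : ℝ) ^ ((3 : ℝ) / 4)⌋₊ : ℕ) : ℝ) ^ ((6 : ℝ) / 5) ≤ (Y : ℝ) ^ ((9 : ℝ) / 10) := by
      calc ((⌊(Y : ℝ) ^ ((3 : ℝ) / 4)⌋₊ : ℕ) : ℝ) ^ ((6 : ℝ) / 5)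
          ≤ ((Y : ℝ) ^ ((3 : ℝ) / 4)) ^ ((6 : ℝ) / 5) :=
            Real.rpow_le_rpow (by positivity) hfl (by norm_num)
        _ = (Y : ℝ) ^ ((9 : ℝ) / 10) := by
            rw [← Real.rpow_mul hY.le]
            norm_num
    have g2 : (Y : ℝ) ^ ((9 : ℝ) / 10) = Y * (Y : ℝ) ^ (-((1 : ℝ) / 10)) := by
      nth_rewrite 2 [← Real.rpow_one (Y : ℝ)]
      rw [← Real.rpow_add hY]
      norm_num
    have g3 : C₁ * (Y : ℝ) ^ (-((1 : ℝ) / 10)) ≤ ε * η ^ 2 / 4 := by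
      have := mul_le_mul_of_nonneg_left h1 hC₁.le
      rwa [mul_div_cancel₀ _ hC₁.ne'] at this
    calc C₁ * ((⌊(Y : ℝ) ^ ((3 : ℝ) / 4)⌋₊ : ℕ) : ℝ) ^ ((6 : ℝ) / 5)
        ≤ C₁ * (Y * (Y : ℝ) ^ (-((1 : ℝ) / 10))) := by
          rw [← g2]
          exact mul_le_mul_of_nonneg_left g1 hC₁.le
      _ = C₁ * (Y : ℝ) ^ (-((1 : ℝ) / 10)) * Y := by ring
      _ ≤ _ := mul_le_mul_of_nonneg_right g3 hY.le
  · have hc : 0 < C₂ * 2 ^ w * K ^ ((3 : ℝ) / 5) := by positivity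
    have g1 : (K * (Y : ℝ)) ^ ((3 : ℝ) / 5) = K ^ ((3 : ℝ) / 5) * (Y : ℝ) ^ ((3 : ℝ) / 5) :=
      Real.mul_rpow hK.le hY.le
    have g2 : (Y : ℝ) ^ ((3 : ℝ) / 5) = (Y : ℝ) ^ ((3 : ℝ) / 4) * (Y : ℝ) ^ (-((3 : ℝ) / 20)) := by
      rw [← Real.rpow_add hY]
      norm_num
    have g3 : C₂ * 2 ^ w * K ^ ((3 : ℝ) / 5) * (Y : ℝ) ^ (-((3 : ℝ) / 20)) ≤ η / 2 := by
      have h7 := mul_le_mul_of_nonneg_left h2 hc.le
      have h8 : C₂ * 2 ^ w * K ^ ((3 : ℝ) / 5) * (η / (2 * (C₂ * 2 ^ w * K ^ ((3 : ℝ) / 5)))) =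
          η / 2 := by
        field_simp
      linarith
    have hY34 : 0 < (Y : ℝ) ^ ((3 : ℝ) / 4) := by positivity
    calc C₂ * 2 ^ w * (K * Y) ^ ((3 : ℝ) / 5)
        = (C₂ * 2 ^ w * K ^ ((3 : ℝ) / 5) * (Y : ℝ) ^ (-((3 : ℝ) / 20))) *
          (Y : ℝ) ^ ((3 : ℝ) / 4) := by
          rw [g1, g2]
          ring
      _ ≤ η / 2 * (Y : ℝ) ^ ((3 : ℝ) / 4) := mul_le_mul_of_nonneg_right g3 hY34.le
      _ = η * ((Y : ℝ) ^ ((3 : ℝ) / 4) / 2) := by ring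
      _ ≤ _ := mul_le_mul_of_nonneg_left hfl3 hη.le
  · have hsK : 0 < Real.sqrt K := Real.sqrt_pos.2 hK
    have g1 : Real.sqrt (K * Y) = Real.sqrt K * Real.sqrt Y := Real.sqrt_mul hK.le _
    have g2 : Real.sqrt (Y : ℝ) = Y * (Y : ℝ) ^ (-((1 : ℝ) / 2)) := by
      rw [Real.sqrt_eq_rpow]
      nth_rewrite 2 [← Real.rpow_one (Y : ℝ)]
      rw [← Real.rpow_add hY]
      norm_num
    have g3 : Real.sqrt K * (Y : ℝ) ^ (-((1 : ℝ) / 2)) ≤ ε / 4 := by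
      have := mul_le_mul_of_nonneg_left h3 hsK.le
      rwa [mul_div_cancel₀ _ hsK.ne'] at this
    have g4 : B' ≤ ε / 4 * Y := by
      have h7 : |B'| ≤ Y * (ε / 4) := by
        rwa [div_le_iff₀ (by positivity)] at h5
      linarith [le_abs_self B']
    have g5 : Real.sqrt (K * Y) ≤ ε / 4 * Y := by
      calc Real.sqrt (K * Y) = (Real.sqrt K * (Y : ℝ) ^ (-((1 : ℝ) / 2))) * Y := by
            rw [g1]
            nth_rewrite 1 [g2]
            ring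
        _ ≤ _ := mul_le_mul_of_nonneg_right g3 hY.le
    linarith

/-- few `N` with `4aN + B` negative or a square -/
theorem QF_square (a : ℕ) (ha : 1 ≤ a) (B : ℤ) (Y : ℕ) :
    (((Icc 1 Y).filter (fun N : ℕ => 4 * (a : ℤ) * N + B < 0 ∨
      IsSquare (4 * (a : ℤ) * N + B))).card : ℝ) ≤
      (|(B : ℝ)| + 2) + Real.sqrt ((4 * a + |(B : ℝ)|) * Y) := by
  classical
  have ha' : (1 : ℤ) ≤ a := by exact_mod_cast ha
  rw [Finset.filter_or]
  have h1 : (((Icc 1 Y).filter (fun N : ℕ => 4 * (a : ℤ) * N + B < 0)).card : ℝ) ≤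
      |(B : ℝ)| + 1 := by
    have h2 : ((Icc 1 Y).filter (fun N : ℕ => 4 * (a : ℤ) * N + B < 0)) ⊆ range (B.natAbs + 1) := by
      intro N hN
      rw [mem_filter, mem_Icc] at hN
      rw [mem_range]
      have h3 := hN.2
      have h4 : (N : ℤ) ≤ 4 * (a : ℤ) * N := by nlinarith [hN.1.1]
      omega
    have h3 := Finset.card_le_card h2
    rw [card_range] at h3
    have h4 : ((B.natAbs : ℕ) : ℝ) = |(B : ℝ)| := by
      rw [Nat.cast_natAbs, Int.cast_abs]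
    rw [← h4]
    exact_mod_cast h3
  have h2 : (((Icc 1 Y).filter (fun N : ℕ => IsSquare (4 * (a : ℤ) * N + B))).card : ℝ) ≤
      Real.sqrt ((4 * a + |(B : ℝ)|) * Y) + 1 := by
    have h3 : ((Icc 1 Y).filter (fun N : ℕ => IsSquare (4 * (a : ℤ) * N + B))).card ≤
        (range (⌊Real.sqrt ((4 * a + |(B : ℝ)|) * Y)⌋₊ + 1)).card := by
      have hex : ∀ N ∈ (Icc 1 Y).filter (fun N : ℕ => IsSquare (4 * (a : ℤ) * N + B)),
          ∃ m : ℕ, 4 * (a : ℤ) * N + B = (m : ℤ) * m := by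
        intro N hN
        rw [mem_filter] at hN
        obtain ⟨r, hr⟩ := hN.2
        refine ⟨r.natAbs, ?_⟩
        rw [hr, Int.natAbs_mul_self' r]
      choose! f hf using hex
      apply Finset.card_le_card_of_injOn f
      · intro N hN
        have h4 := hf N hN
        rw [mem_coe, mem_filter, mem_Icc] at hN
        rw [mem_coe, mem_range, Nat.lt_add_one_iff]
        apply Nat.le_floor
        apply Real.le_sqrt_of_sq_le
        have h5 : ((f N : ℕ) : ℝ) ^ 2 = 4 * a * N + B := by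
          have := congrArg (fun z : ℤ => (z : ℝ)) h4
          push_cast at this
          rw [sq]
          exact this.symm
        rw [h5]
        have h6 : (1 : ℝ) ≤ N := by exact_mod_cast hN.1.1
        have h7 : (N : ℝ) ≤ Y := by exact_mod_cast hN.1.2
        have h8 : (B : ℝ) ≤ |(B : ℝ)| := le_abs_self _
        have h9 : (0 : ℝ) ≤ |(B : ℝ)| := abs_nonneg _
        have h10 : (0 : ℝ) ≤ (a : ℝ) := by positivity
        nlinarith [mul_le_mul_of_nonneg_left h7 h10, mul_le_mul_of_nonneg_left h7 h9]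
      · intro N hN N' hN' hNN
        have h4 := hf N hN
        have h5 := hf N' hN'
        rw [← hNN, ← h4] at h5
        have h6 : 4 * (a : ℤ) * ((N : ℤ) - N') = 0 := by linarith
        rcases mul_eq_zero.1 h6 with h7 | h7
        · omega
        · omega
    rw [card_range] at h3
    have h4 : ((⌊Real.sqrt ((4 * a + |(B : ℝ)|) * Y)⌋₊ : ℕ) : ℝ) ≤
        Real.sqrt ((4 * a + |(B : ℝ)|) * Y) := Nat.floor_le (Real.sqrt_nonneg _)
    have h5 : (((Icc 1 Y).filter (fun N : ℕ => IsSquare (4 * (a : ℤ) * N + B))).card : ℝ) ≤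
        ((⌊Real.sqrt ((4 * a + |(B : ℝ)|) * Y)⌋₊ + 1 : ℕ) : ℝ) := by exact_mod_cast h3
    push_cast at h5
    linarith
  have h3 := Finset.card_union_le ((Icc 1 Y).filter (fun N : ℕ => 4 * (a : ℤ) * N + B < 0))
    ((Icc 1 Y).filter (fun N : ℕ => IsSquare (4 * (a : ℤ) * N + B)))
  have h4 : ((((Icc 1 Y).filter (fun N : ℕ => 4 * (a : ℤ) * N + B < 0)) ∪
    ((Icc 1 Y).filter (fun N : ℕ => IsSquare (4 * (a : ℤ) * N + B)))).card : ℝ) ≤
    (((Icc 1 Y).filter (fun N : ℕ => 4 * (a : ℤ) * N + B < 0)).card : ℝ) +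
    (((Icc 1 Y).filter (fun N : ℕ => IsSquare (4 * (a : ℤ) * N + B))).card : ℝ) := by
    exact_mod_cast h3
  linarith

/-- Chebyshev -/
theorem QF_cheb (Y : ℕ) (S : ℕ → ℝ) (η T : ℝ) (hη : 0 < η) (hT : ∑ N ∈ Icc 1 Y, (S N) ^ 2 ≤ T) :
    (((Icc 1 Y).filter (fun N => η < |S N|)).card : ℝ) * η ^ 2 ≤ T := by
  refine le_trans ?_ hT
  rw [← nsmul_eq_mul, ← Finset.sum_const]
  refine le_trans ?_ (Finset.sum_le_sum_of_subset_of_nonneg (Finset.filter_subset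
    (fun N => η < |S N|) (Icc 1 Y)) fun N _ _ => sq_nonneg (S N))
  refine Finset.sum_le_sum fun N hN => ?_
  rw [mem_filter] at hN
  rw [← sq_abs (S N)]
  exact pow_le_pow_left₀ hη.le hN.2.le 2

/-- Let `a = lc(G)`, `B = b² - 4ac`, `D_N = 4aN + B = disc G N`, `η = min(ε,1)/8`, `w` large (`w > 2a`, `2/w ≤ η`,
`C/√w ≤ ε η²/8`), `M = ⌊Y^(3/4)⌋`, `Y` large. The `N ≤ Y` with
`|∑_{2 ≤ n ≤ M} rough w D_N n/n| > η` are at most `η⁻² C (Y/√w + M^(6/5)) ≤ ε Y/4` (`second_moment`, Chebyshev); those with `D_N ≤ 0` or `D_N` a square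
at most `C √Y + C` (`4aN + B = m²` has at most one solution `N` for each `m ≤ C √Y`). For the others `rough_sum` with
`E = C 2^w D_N^(3/5) ≤ η M` (`D_N ≤ 5aY`), `jac_conv` and `ell_small` give `|ℓ| ≤ 5η ≤ ε`, and `rho_quad` (`p ≥ w > 2a`). -/
theorem rhoTail_quad (G : ℤ[X]) (hG : G.natDegree = 2) (hl : 0 < G.leadingCoeff) : RhoTail G := by
  classical
  intro ε hε
  obtain ⟨a, haG⟩ := Int.eq_ofNat_of_zero_le hl.le
  have ha1 : 1 ≤ a := by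
    rw [haG] at hl
    omega
  have hcoef : G.coeff 2 = (a : ℤ) := by
    rw [← haG, Polynomial.leadingCoeff, hG]
  set B : ℤ := (G.coeff 1) ^ 2 - 4 * a * G.coeff 0 with hB
  have hdisc : ∀ N : ℕ, disc G N = 4 * (a : ℤ) * N + B := by
    intro N
    unfold disc
    rw [hcoef, hB]
    ring
  set η : ℝ := min ε 1 / 8 with hη
  have hη0 : 0 < η := by positivity
  have hη8 : η ≤ 1 / 8 := by
    rw [hη]
    linarith [min_le_right ε 1]
  have hηε : 5 * η ≤ ε := by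
    rw [hη]
    linarith [min_le_left ε 1, lt_min hε one_pos]
  obtain ⟨C₁, hC₁, hsm⟩ := second_moment a ha1 B
  obtain ⟨C₂, hC₂, hrs⟩ := rough_sum
  set K : ℝ := 4 * a + |(B : ℝ)| with hK
  have hK0 : 0 < K := by
    have : (1 : ℝ) ≤ a := by exact_mod_cast ha1
    positivity
  obtain ⟨w₁, hw₁⟩ := exists_nat_gt (max (2 / η) ((C₁ / (ε * η ^ 2 / 4)) ^ 2))
  refine ⟨max (max 3 (a + 1)) w₁, fun w hw => ?_⟩
  have hw3 : 3 ≤ w := (le_max_left 3 (a + 1)).trans ((le_max_left _ _).trans hw)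
  have hwa : a < w := (le_max_right 3 (a + 1)).trans ((le_max_left _ _).trans hw)
  have hww : (w₁ : ℝ) ≤ w := by exact_mod_cast (le_max_right _ _).trans hw
  have hw0 : (0 : ℝ) < w := by
    have : 0 < w := by omega
    exact_mod_cast this
  have hwη : 2 / (w : ℝ) ≤ η := by
    have h1 : 2 / η < w := (le_max_left _ _).trans_lt (hw₁.trans_le hww)
    rw [div_lt_iff₀ hη0] at h1
    rw [div_le_iff₀ hw0]
    linarith
  have hsqw : C₁ / Real.sqrt w ≤ ε * η ^ 2 / 4 := by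
    have hc : 0 < ε * η ^ 2 / 4 := by positivity
    have h1 : (C₁ / (ε * η ^ 2 / 4)) ^ 2 < w := (le_max_right _ _).trans_lt (hw₁.trans_le hww)
    have h2 : C₁ / (ε * η ^ 2 / 4) ≤ Real.sqrt w := Real.le_sqrt_of_sq_le h1.le
    rw [div_le_iff₀ hc] at h2
    rw [div_le_iff₀ (Real.sqrt_pos.2 hw0)]
    linarith
  obtain ⟨Y₀, hY₀⟩ := QF_large C₁ C₂ K (|(B : ℝ)| + 2) ε η w hC₁ hC₂ hK0 hε hη0
  refine ⟨Y₀, fun Y hY => ?_⟩
  obtain ⟨hM1, hM2, hM3, hM4⟩ := hY₀ Y hY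
  set M : ℕ := ⌊(Y : ℝ) ^ ((3 : ℝ) / 4)⌋₊ with hM
  set S : ℕ → ℝ := fun N => ∑ n ∈ Icc 2 M, rough w (4 * a * N + B) n / n with hS
  -- the bad set
  have hsub : (Icc 1 Y).filter (fun N : ℕ => ¬ ∃ ℓ : ℝ, |ℓ| ≤ ε ∧ Tendsto (fun z : ℕ =>
      ∑ p ∈ (Nat.primesBelow z).filter (fun p => w ≤ p),
        ((rootCount (C (N : ℤ) - G) p : ℝ) - 1) / p) atTop (𝓝 ℓ)) ⊆
      (Icc 1 Y).filter (fun N => η < |S N|) ∪ (Icc 1 Y).filter (fun N : ℕ =>
        4 * (a : ℤ) * N + B < 0 ∨ IsSquare (4 * (a : ℤ) * N + B)) := by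
    intro N hN
    rw [mem_filter] at hN
    rw [mem_union, mem_filter, mem_filter]
    by_contra hcon
    rw [not_or] at hcon
    obtain ⟨hc1, hc2⟩ := hcon
    have hc1' : |S N| ≤ η := by
      by_contra h
      exact hc1 ⟨hN.1, not_le.1 h⟩
    have hc2' : ¬ (4 * (a : ℤ) * N + B < 0 ∨ IsSquare (4 * (a : ℤ) * N + B)) :=
      fun h => hc2 ⟨hN.1, h⟩
    rw [not_or] at hc2'
    obtain ⟨hneg, hsq⟩ := hc2'
    have hD0 : 0 < 4 * (a : ℤ) * N + B := by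
      rcases lt_trichotomy (4 * (a : ℤ) * N + B) 0 with h | h | h
      · exact absurd h hneg
      · exact absurd ⟨0, by rw [h]; ring⟩ hsq
      · exact h
    apply hN.2
    obtain ⟨ℓ, hℓ⟩ := jac_conv (4 * (a : ℤ) * N + B) hsq w hw3
    have hN1 := (mem_Icc.1 hN.1).1
    have hN2 := (mem_Icc.1 hN.1).2
    have hDK : ((4 * (a : ℤ) * N + B : ℤ) : ℝ) ≤ K * Y := by
      push_cast
      rw [hK]
      have h6 : (1 : ℝ) ≤ N := by exact_mod_cast hN1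
      have h7 : (N : ℝ) ≤ Y := by exact_mod_cast hN2
      have h8 : (B : ℝ) ≤ |(B : ℝ)| := le_abs_self _
      have h9 : (0 : ℝ) ≤ |(B : ℝ)| := abs_nonneg _
      have h10 : (0 : ℝ) ≤ (a : ℝ) := by positivity
      nlinarith [mul_le_mul_of_nonneg_left h7 h10, mul_le_mul_of_nonneg_left h7 h9]
    have hE : ∀ u v : ℕ, |∑ n ∈ Ico u v, rough w (4 * (a : ℤ) * N + B) n| ≤
        C₂ * 2 ^ w * ((4 * (a : ℤ) * N + B : ℤ) : ℝ) ^ ((3 : ℝ) / 5) :=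
      fun u v => hrs _ hD0 hsq w u v
    have hEM : C₂ * 2 ^ w * ((4 * (a : ℤ) * N + B : ℤ) : ℝ) ^ ((3 : ℝ) / 5) ≤ η * M := by
      refine le_trans ?_ hM3
      apply mul_le_mul_of_nonneg_left _ (by positivity)
      apply Real.rpow_le_rpow _ hDK (by norm_num)
      exact_mod_cast hD0.le
    have hfin := ell_small (4 * (a : ℤ) * N + B) w M _ η ℓ hw3 hM1 hη0 hη8 hE hEM hwη hc1' hℓ
    refine ⟨ℓ, hfin.trans hηε, ?_⟩
    refine hℓ.congr fun z => ?_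
    refine Finset.sum_congr rfl fun p hp => ?_
    rw [mem_filter, Nat.mem_primesBelow] at hp
    have hp1 := hp.1.2
    have hpw := hp.2
    rw [rho_quad G hG N p hp1 (by omega) ?_, hdisc]
    · ring
    · rw [haG]
      intro hdvd
      have h1 : p ∣ a := by exact_mod_cast hdvd
      have h2 := Nat.le_of_dvd (by omega) h1
      omega
  have h1 := Finset.card_le_card hsub
  have h2 := h1.trans (Finset.card_union_le _ _)
  have h3 : (((Icc 1 Y).filter (fun N : ℕ => ¬ ∃ ℓ : ℝ, |ℓ| ≤ ε ∧ Tendsto (fun z : ℕ =>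
      ∑ p ∈ (Nat.primesBelow z).filter (fun p => w ≤ p),
        ((rootCount (C (N : ℤ) - G) p : ℝ) - 1) / p) atTop (𝓝 ℓ))).card : ℝ) ≤
      (((Icc 1 Y).filter (fun N => η < |S N|)).card : ℝ) + (((Icc 1 Y).filter (fun N : ℕ =>
        4 * (a : ℤ) * N + B < 0 ∨ IsSquare (4 * (a : ℤ) * N + B))).card : ℝ) := by
    exact_mod_cast h2
  have h4 := QF_cheb Y S η _ hη0 (hsm w M Y hwa hw3)
  have h5 : C₁ * (Y / Real.sqrt w + (M : ℝ) ^ ((6 : ℝ) / 5)) ≤ ε * η ^ 2 / 2 * Y := by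
    have h6 : C₁ * (Y / Real.sqrt w) ≤ ε * η ^ 2 / 4 * Y := by
      have := mul_le_mul_of_nonneg_right hsqw (Nat.cast_nonneg (α := ℝ) Y)
      calc C₁ * (Y / Real.sqrt w) = C₁ / Real.sqrt w * Y := by ring
        _ ≤ _ := this
    rw [mul_add]
    linarith
  have h6 : (((Icc 1 Y).filter (fun N => η < |S N|)).card : ℝ) ≤ ε / 2 * Y := by
    have h7 := h4.trans h5
    have h8 : 0 < η ^ 2 := by positivity
    have h9 : ε * η ^ 2 / 2 * Y = ε / 2 * Y * η ^ 2 := by ring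
    rw [h9] at h7
    exact le_of_mul_le_mul_right h7 h8
  have h7 := QF_square a ha1 B Y
  rw [← hK] at h7
  have hgoal : (((Icc 1 Y).filter (fun N : ℕ => ¬ ∃ ℓ : ℝ, |ℓ| ≤ ε ∧ Tendsto (fun z : ℕ =>
      ∑ p ∈ (Nat.primesBelow z).filter (fun p => w ≤ p),
        ((rootCount (C (N : ℤ) - G) p : ℝ) - 1) / p) atTop (𝓝 ℓ))).card : ℝ) ≤ ε * Y := by
    linarith
  exact hgoal

end Pool.Agent.Lib.H33C
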