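import Pool.Agent.Lib.H33C.TG1
import Pool.Agent.Lib.H33B.CV4

/-!
# Chunk TG2: the tail of the singular series from the tail of `∑ (ρ(p) - 1)/p`
-/

open Finset Polynomial Filter Topology

namespace Pool.Agent.Lib.H33C

open Pool.Agent.Lib.H59 (omegaN seriesTrunc rootCount Admissible)
open Pool.Agent.Lib.H33B

variable {g : ℕ}

theorem TG2_split {w z : ℕ} (h : w ≤ z) :
    (Nat.primesBelow z).filter (fun p => ¬ w ≤ p) = Nat.primesBelow w := by
  ext p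
  rw [mem_filter, Nat.mem_primesBelow, Nat.mem_primesBelow]
  constructor
  · rintro ⟨⟨_, h2⟩, h3⟩
    exact ⟨by omega, h2⟩
  · rintro ⟨h1, h2⟩
    exact ⟨⟨by omega, h2⟩, by omega⟩

theorem TG2_sum (f : ℕ → ℝ) {w z : ℕ} (h : w ≤ z) :
    ∑ p ∈ (Nat.primesBelow z).filter (fun p => w ≤ p), f p =
      ∑ p ∈ Nat.primesBelow z, f p - ∑ p ∈ Nat.primesBelow w, f p := by
  rw [← sum_filter_add_sum_filter_not (Nat.primesBelow z) (fun p => w ≤ p), TG2_split h]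
  ring

/-- the factor of the singular series -/
noncomputable def TG2_fac (F : Fin g → ℤ[X]) (G : ℤ[X]) (N p : ℕ) : ℝ :=
  (1 - (omegaN F G N p : ℝ) / p) * ((1 - 1 / (p : ℝ)) ^ (g + 1))⁻¹

theorem TG2_series (F : Fin g → ℤ[X]) (G : ℤ[X]) (N : ℕ) {w z : ℕ} (h : w ≤ z) :
    seriesTrunc F G N z = seriesTrunc F G N w *
      ∏ p ∈ (Nat.primesBelow z).filter (fun p => w ≤ p), TG2_fac F G N p := by
  unfold Pool.Agent.Lib.H59.seriesTrunc
  rw [← prod_filter_mul_prod_filter_not (Nat.primesBelow z) (fun p => w ≤ p), TG2_split h,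
    mul_comm]
  rfl

theorem TG2_omega (F : Fin g → ℤ[X]) (hF : Sys F) (G : ℤ[X]) (hk : 1 ≤ G.natDegree) (N : ℕ)
    {p : ℕ} (hp : p.Prime) (hl : G.leadingCoeff ≠ 0) (hpl : G.leadingCoeff.natAbs < p) :
    (omegaN F G N p : ℝ) ≤ (FS_D F + G.natDegree : ℕ) := by
  obtain ⟨H, -, hH⟩ := exists_elim (∏ i, F i) G
    (prod_ne_zero_iff.2 fun i _ => (hF.irr i).ne_zero)
  refine (omega_split F hF G H hH N p hp).1.trans ?_
  have h1 := FS_wle F hF p hp
  have h2 : rootCount (C (N : ℤ) - G) p ≤ G.natDegree := by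
    refine (TG1_root hp (TG1_map_ne G.natDegree ?_)).trans ?_
    · rw [coeff_sub, coeff_C_ne_zero (by omega), zero_sub, dvd_neg]
      intro h
      have := Nat.le_of_dvd (Int.natAbs_pos.2 hl) (Int.natCast_dvd.1 h)
      omega
    · refine (natDegree_sub_le _ _).trans ?_
      rw [natDegree_C]
      exact max_le (Nat.zero_le _) le_rfl
  exact_mod_cast Nat.add_le_add h1 h2

theorem TG2_log {p E : ℕ} (hp : p.Prime) {x : ℝ} (hx0 : 0 ≤ x) (hx : x ≤ E) (hE : 2 * E ≤ p) :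
    0 < (1 - x / p) * ((1 - 1 / (p : ℝ)) ^ (g + 1))⁻¹ ∧
    |Real.log ((1 - x / p) * ((1 - 1 / (p : ℝ)) ^ (g + 1))⁻¹) + (x - (g + 1)) / p| ≤
      (2 * (E : ℝ) ^ 2 + (g + 1) * 2) / (p : ℝ) ^ 2 := by
  have hp2 : (2 : ℝ) ≤ p := by exact_mod_cast hp.two_le
  have hp0 : (0 : ℝ) < p := by linarith
  have hE' : 2 * (E : ℝ) ≤ p := by exact_mod_cast hE
  have h2 : x / p ≤ 1 / 2 := by
    rw [div_le_div_iff₀ hp0 (by norm_num)]
    linarith
  have h1 : 0 < 1 - x / p := by linarith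
  have h0 : 1 / (p : ℝ) ≤ 1 / 2 := one_div_le_one_div_of_le (by norm_num) hp2
  have h0' : 0 < 1 - 1 / (p : ℝ) := by linarith
  have hx1 : x / p ≤ E / p := div_le_div_of_nonneg_right hx hp0.le
  have h3 := CV4_log (x := x / p) (by positivity) h2
  have h4 := CV4_log (x := 1 / (p : ℝ)) (by positivity) h0
  refine ⟨mul_pos h1 (inv_pos.2 (pow_pos h0' _)), ?_⟩
  have h5 : Real.log ((1 - x / p) * ((1 - 1 / (p : ℝ)) ^ (g + 1))⁻¹) + (x - (g + 1)) / p =
      (x / p + Real.log (1 - x / p)) - (g + 1) * (1 / (p : ℝ) + Real.log (1 - 1 / (p : ℝ))) := by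
    rw [Real.log_mul h1.ne' (by positivity), Real.log_inv, Real.log_pow]
    push_cast
    ring
  rw [h5]
  have h6 : (x / p) ^ 2 ≤ (E : ℝ) ^ 2 / (p : ℝ) ^ 2 := by
    rw [← div_pow]
    exact pow_le_pow_left₀ (by positivity) hx1 2
  have h7 : (1 / (p : ℝ)) ^ 2 = 1 / (p : ℝ) ^ 2 := by rw [div_pow, one_pow]
  calc |(x / p + Real.log (1 - x / p)) - (g + 1) * (1 / (p : ℝ) + Real.log (1 - 1 / (p : ℝ)))| ≤
      |x / p + Real.log (1 - x / p)| +
        |((g : ℝ) + 1) * (1 / (p : ℝ) + Real.log (1 - 1 / (p : ℝ)))| := abs_sub _ _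
    _ ≤ 2 * ((E : ℝ) ^ 2 / (p : ℝ) ^ 2) + (g + 1) * (2 * (1 / (p : ℝ) ^ 2)) := by
        rw [abs_mul, abs_of_nonneg (by positivity : (0 : ℝ) ≤ (g : ℝ) + 1), ← h7]
        refine add_le_add (h3.trans (by linarith)) ?_
        exact mul_le_mul_of_nonneg_left h4 (by positivity)
    _ = (2 * (E : ℝ) ^ 2 + (g + 1) * 2) / (p : ℝ) ^ 2 := by ring

/-- the remainder -/
noncomputable def TG2_f (F : Fin g → ℤ[X]) (G : ℤ[X]) (N p : ℕ) : ℝ :=
  Real.log (TG2_fac F G N p) + ((wF F p : ℝ) - g) / p +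
    ((rootCount (C (N : ℤ) - G) p : ℝ) - 1) / p

open scoped Classical in
theorem TG2_fbd (F : Fin g → ℤ[X]) (hF : Sys F) (G : ℤ[X]) (hk : 1 ≤ G.natDegree)
    (hl : G.leadingCoeff ≠ 0) {H : ℤ[X]} (hH : (∏ i, F i) ∣ H.comp G) (N : ℕ) {p : ℕ}
    (hp : p.Prime) (hpl : G.leadingCoeff.natAbs < p) (hE : 2 * (FS_D F + G.natDegree) ≤ p) :
    0 < TG2_fac F G N p ∧
    |TG2_f F G N p| ≤ (2 * ((FS_D F + G.natDegree : ℕ) : ℝ) ^ 2 + (g + 1) * 2) / (p : ℝ) ^ 2 +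
      FS_D F * (if (p : ℤ) ∣ H.eval (N : ℤ) then 1 / (p : ℝ) else 0) := by
  have hp0 : (0 : ℝ) < p := by exact_mod_cast hp.pos
  obtain ⟨h1, h2⟩ := TG2_log (g := g) hp (Nat.cast_nonneg (omegaN F G N p))
    (TG2_omega F hF G hk N hp hl hpl) hE
  refine ⟨h1, ?_⟩
  obtain ⟨h3, h4⟩ := omega_split F hF G H hH N p hp
  set ω : ℝ := (omegaN F G N p : ℝ)
  set a : ℝ := (wF F p : ℝ)
  set ρ : ℝ := (rootCount (C (N : ℤ) - G) p : ℝ)
  have h5 : TG2_f F G N p = (Real.log (TG2_fac F G N p) + (ω - (g + 1)) / p) +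
      (a + ρ - ω) / p := by
    unfold TG2_f
    ring
  rw [h5]
  refine (abs_add_le _ _).trans (add_le_add h2 ?_)
  rw [abs_of_nonneg (div_nonneg (by linarith) hp0.le)]
  have h6 : a + ρ - ω ≤ if (p : ℤ) ∣ H.eval (N : ℤ) then (FS_D F : ℝ) else 0 := by
    have : (if (p : ℤ) ∣ H.eval (N : ℤ) then (FS_D F : ℝ) else 0) =
        (if (p : ℤ) ∣ H.eval (N : ℤ) then ((∑ i, (F i).natDegree : ℕ) : ℝ) else 0) := by
      by_cases h : (p : ℤ) ∣ H.eval (N : ℤ)
      · rw [if_pos h, if_pos h]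
        rfl
      · rw [if_neg h, if_neg h]
    rw [this]
    linarith
  refine (div_le_div_of_nonneg_right h6 hp0.le).trans (le_of_eq ?_)
  split_ifs
  · ring
  · simp

/-- The main estimate for one `N`. -/
theorem TG2_one (F : Fin g → ℤ[X]) (hF : Sys F) (G : ℤ[X]) (hk : 1 ≤ G.natDegree)
    (hl : G.leadingCoeff ≠ 0) {H : ℤ[X]} (hH : (∏ i, F i) ∣ H.comp G) {N w : ℕ}
    (hHN : H.eval (N : ℤ) ≠ 0) (hpl : G.leadingCoeff.natAbs < w)
    (hE : 2 * (FS_D F + G.natDegree) ≤ w) {δ ℓ ℓF : ℝ} (hδ : 0 ≤ δ)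
    (hℓF : Tendsto (fun z : ℕ => ∑ p ∈ Nat.primesBelow z, ((wF F p : ℝ) - g) / p) atTop (𝓝 ℓF))
    (hℓFw : |ℓF - ∑ p ∈ Nat.primesBelow w, ((wF F p : ℝ) - g) / p| ≤ δ) (hℓδ : |ℓ| ≤ δ)
    (hℓ : Tendsto (fun z : ℕ => ∑ p ∈ (Nat.primesBelow z).filter (fun p => w ≤ p),
        ((rootCount (C (N : ℤ) - G) p : ℝ) - 1) / p) atTop (𝓝 ℓ))
    (hw : (2 * ((FS_D F + G.natDegree : ℕ) : ℝ) ^ 2 + (g + 1) * 2) * (2 / w) ≤ δ)
    (hS : FS_D F * ∑ p ∈ (H.eval (N : ℤ)).natAbs.primeFactors.filter (fun p => w ≤ p),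
      1 / (p : ℝ) ≤ δ) :
    ∃ s : ℝ, |s| ≤ 4 * δ ∧ SS F G N = seriesTrunc F G N w * Real.exp s := by
  classical
  set K : ℝ := 2 * ((FS_D F + G.natDegree : ℕ) : ℝ) ^ 2 + (g + 1) * 2 with hK
  have hK0 : 0 ≤ K := by positivity
  set f : ℕ → ℝ := fun p => if w ≤ p then TG2_f F G N p else 0 with hf
  have hb := fun {p : ℕ} (hp : p.Prime) (hwp : w ≤ p) =>
    TG2_fbd F hF G hk hl hH N hp (by omega) (by omega)
  -- convergence of the remainder
  obtain ⟨c, hc⟩ := CV4_summ f K (w + (H.eval (N : ℤ)).natAbs + 1) (by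
    intro p hp hBp
    have h1 := (hb hp (by omega)).2
    have h2 : ¬ (p : ℤ) ∣ H.eval (N : ℤ) := by
      intro h
      have := Nat.le_of_dvd (Int.natAbs_pos.2 hHN) (Int.natCast_dvd.1 h)
      omega
    rw [if_neg h2, mul_zero, add_zero] at h1
    rw [hf]
    simp only
    rw [if_pos (by omega)]
    exact h1)
  have hc' : Tendsto (fun z : ℕ => ∑ p ∈ (Nat.primesBelow z).filter (fun p => w ≤ p),
      TG2_f F G N p) atTop (𝓝 c) := by
    refine hc.congr fun z => ?_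
    rw [sum_filter]
  have hcδ : |c| ≤ 2 * δ := by
    refine le_of_tendsto hc'.abs (Eventually.of_forall fun z => ?_)
    refine (abs_sum_le_sum_abs _ _).trans ?_
    have h1 : ∀ p ∈ (Nat.primesBelow z).filter (fun p => w ≤ p), |TG2_f F G N p| ≤
        K * (1 / (p : ℝ) ^ 2) +
          FS_D F * (if (p : ℤ) ∣ H.eval (N : ℤ) then 1 / (p : ℝ) else 0) := by
      intro p hp
      rw [mem_filter, Nat.mem_primesBelow] at hp
      refine (hb hp.1.2 hp.2).2.trans (le_of_eq ?_)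
      rw [mul_one_div]
    refine (sum_le_sum h1).trans ?_
    rw [sum_add_distrib, ← mul_sum, ← mul_sum]
    have h2 : K * ∑ p ∈ (Nat.primesBelow z).filter (fun p => w ≤ p), 1 / (p : ℝ) ^ 2 ≤ δ :=
      (mul_le_mul_of_nonneg_left (SR3_inv w z (by omega)) hK0).trans hw
    have h3 : (FS_D F : ℝ) * ∑ p ∈ (Nat.primesBelow z).filter (fun p => w ≤ p),
        (if (p : ℤ) ∣ H.eval (N : ℤ) then 1 / (p : ℝ) else 0) ≤ δ := by
      refine le_trans (mul_le_mul_of_nonneg_left ?_ (Nat.cast_nonneg _)) hS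
      rw [← sum_filter]
      apply sum_le_sum_of_subset_of_nonneg
      · intro p hp
        rw [mem_filter, mem_filter, Nat.mem_primesBelow] at hp
        rw [mem_filter, Nat.mem_primeFactors]
        exact ⟨⟨hp.1.1.2, Int.natCast_dvd.1 hp.2, Int.natAbs_ne_zero.2 hHN⟩, hp.1.2⟩
      · intro p _ _
        positivity
    linarith
  -- the sum of the logarithms
  set a : ℝ := ℓF - ∑ p ∈ Nat.primesBelow w, ((wF F p : ℝ) - g) / p with ha
  have hlim : Tendsto (fun z : ℕ => ∑ p ∈ (Nat.primesBelow z).filter (fun p => w ≤ p),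
      Real.log (TG2_fac F G N p)) atTop (𝓝 (c - a - ℓ)) := by
    have h1 : Tendsto (fun z : ℕ => ∑ p ∈ (Nat.primesBelow z).filter (fun p => w ≤ p),
        ((wF F p : ℝ) - g) / p) atTop (𝓝 a) := by
      refine (hℓF.sub_const _).congr' ?_
      filter_upwards [eventually_ge_atTop w] with z hz
      exact (TG2_sum _ hz).symm
    refine ((hc'.sub h1).sub hℓ).congr fun z => ?_
    rw [← sum_sub_distrib, ← sum_sub_distrib]
    refine sum_congr rfl fun p _ => ?_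
    unfold TG2_f
    ring
  refine ⟨c - a - ℓ, ?_, ?_⟩
  · have h1 := abs_le.1 hcδ
    have h2 := abs_le.1 hℓFw
    have h3 := abs_le.1 hℓδ
    rw [abs_le]
    constructor <;> linarith [h1.1, h1.2, h2.1, h2.2, h3.1, h3.2]
  · have h1 : Tendsto (fun z : ℕ => seriesTrunc F G N w * Real.exp
        (∑ p ∈ (Nat.primesBelow z).filter (fun p => w ≤ p), Real.log (TG2_fac F G N p))) atTop
        (𝓝 (seriesTrunc F G N w * Real.exp (c - a - ℓ))) :=
      ((Real.continuous_exp.tendsto _).comp hlim).const_mul _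
    have h2 : Tendsto (seriesTrunc F G N) atTop
        (𝓝 (seriesTrunc F G N w * Real.exp (c - a - ℓ))) := by
      refine h1.congr' ?_
      filter_upwards [eventually_ge_atTop w] with z hz
      rw [TG2_series F G N hz, Real.exp_sum]
      congr 1
      refine prod_congr rfl fun p hp => ?_
      rw [mem_filter, Nat.mem_primesBelow] at hp
      exact Real.exp_log (hb hp.1.2 hp.2).1
    exact h2.limUnder_eq

/-- Wlog `ε ≤ 1/2`. Let `D = ∑ deg F_i`, `k = deg G`, `H` from `exists_elim` for `∏ F_i`, and `w` large (in terms of `ε`, `F`, `G`). Let `N` be such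
that `RhoTail` holds with `ε/8`, `H(N) ≠ 0`, and `∑_{p ≥ w, p ∣ H(N)} 1/p ≤ ε/(8(D+1))`: all `N ≤ Y` but `ε Y` of them (`sum_dvd`
and Markov's inequality; the finitely many `N < N₁`). For `p ≥ w`, `ω_N(p) ≤ D + k` (`p` does not divide the leading coefficient
of `G`; `omega_split`, `H59.rootCount_le_natDegree` needs `N - G` primitive: use that `N - G` is non-zero modulo `p`), so
`log((1 - ω_N(p)/p)(1 - 1/p)^(-g-1)) = -(ω_N(p) - g - 1)/p + O(1/p²)`, and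
`(ω_N(p) - g - 1)/p = (ω_F(p) - g)/p + (ρ_{N-G}(p) - 1)/p - θ_p`, `0 ≤ θ_p ≤ 1[p ∣ H(N)] D/p`. All three series converge over `p ≥ w`, with
sums at most `ε/8` (`sum_conv` for the first, `w` large), and `∑_{p ≥ w} O(1/p²) ≤ ε/8`. So
`seriesTrunc F G N z/seriesTrunc F G N w → e^s`, `|s| ≤ ε/2`, and `SS F G N = e^s seriesTrunc F G N w`. -/
theorem tail_of_rho (F : Fin g → ℤ[X]) (hF : Sys F) (hN : NoFix F) (G : ℤ[X])
    (hk : 1 ≤ G.natDegree) (hl : 0 < G.leadingCoeff) (h : RhoTail G) : Tail F G := by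
  classical
  intro ε hε
  obtain ⟨H, hH0, hH⟩ := exists_elim (∏ i, F i) G
    (prod_ne_zero_iff.2 fun i _ => (hF.irr i).ne_zero)
  obtain ⟨K, w₁, N₁, hK, hN₁, hsum⟩ := sum_dvd H hH0
  obtain ⟨ℓF, hℓF⟩ := sum_conv F hF
  set δ : ℝ := min (1 / 4) (ε / 8) with hδ
  have hδ0 : 0 < δ := by positivity
  have hδ1 : δ ≤ 1 / 4 := min_le_left _ _
  have hδ2 : δ ≤ ε / 8 := min_le_right _ _
  obtain ⟨w₂, hw₂⟩ := h (min δ (ε / 3)) (by positivity)
  obtain ⟨w₃, hw₃⟩ := eventually_atTop.1 (hℓF.eventually (Metric.closedBall_mem_nhds ℓF hδ0))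
  set D : ℝ := (FS_D F : ℝ) + 1 with hD
  have hD0 : 0 < D := by positivity
  set K₂ : ℝ := 2 * ((FS_D F + G.natDegree : ℕ) : ℝ) ^ 2 + (g + 1) * 2 with hK₂
  have hK₂0 : 0 ≤ K₂ := by positivity
  obtain ⟨w₄, hw₄⟩ := exists_nat_ge (2 * K₂ / δ)
  obtain ⟨w₅, hw₅⟩ := exists_nat_ge ((3 * K * D / (δ * ε)) ^ 2)
  refine ⟨w₁ + w₂ + w₃ + w₄ + w₅ + G.leadingCoeff.natAbs + 2 * (FS_D F + G.natDegree) + 1,
    fun w hw => ?_⟩
  have hw0 : (0 : ℝ) < w := by exact_mod_cast (by omega : 0 < w)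
  have hwK : K₂ * (2 / w) ≤ δ := by
    have h1 : (w₄ : ℝ) ≤ w := by exact_mod_cast (by omega : w₄ ≤ w)
    have h2 := hw₄.trans h1
    rw [div_le_iff₀ hδ0] at h2
    rw [← mul_div_assoc, div_le_iff₀ hw0]
    linarith
  have hws : 3 * K * D / (δ * ε) ≤ Real.sqrt w := by
    have h1 : (w₅ : ℝ) ≤ w := by exact_mod_cast (by omega : w₅ ≤ w)
    exact Real.le_sqrt_of_sq_le (hw₅.trans h1)
  have hs0 : 0 < Real.sqrt w := Real.sqrt_pos.2 hw0
  obtain ⟨Y₁, hY₁⟩ := hsum w (by omega)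
  obtain ⟨Y₂, hY₂⟩ := hw₂ w (by omega)
  obtain ⟨Y₃, hY₃⟩ := exists_nat_ge (3 * (N₁ : ℝ) / ε)
  refine ⟨Y₁ + Y₂ + Y₃, fun Y hY => ?_⟩
  have hav := hY₁ Y (by omega)
  have hrho := hY₂ Y (by omega)
  have hYN : (N₁ : ℝ) ≤ ε / 3 * Y := by
    have h1 : (Y₃ : ℝ) ≤ Y := by exact_mod_cast (by omega : Y₃ ≤ Y)
    have h2 := hY₃.trans h1
    rw [div_le_iff₀ hε] at h2
    linarith
  set T : ℕ → ℝ := fun N => ∑ p ∈ (H.eval (N : ℤ)).natAbs.primeFactors.filter
    (fun p => w ≤ p), 1 / (p : ℝ) with hT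
  have hT0 : ∀ N, 0 ≤ T N := fun N => sum_nonneg fun p _ => by positivity
  set R : ℕ → Prop := fun N => ∃ ℓ : ℝ, |ℓ| ≤ min δ (ε / 3) ∧ Tendsto (fun z : ℕ =>
      ∑ p ∈ (Nat.primesBelow z).filter (fun p => w ≤ p),
        ((rootCount (C (N : ℤ) - G) p : ℝ) - 1) / p) atTop (𝓝 ℓ) with hR
  -- good `N`
  have hgood : ∀ N, N₁ ≤ N → R N → T N ≤ δ / D →
      |SS F G N - seriesTrunc F G N w| ≤ ε * seriesTrunc F G N w := by
    rintro N hN ⟨ℓ, hℓδ, hℓ⟩ hTN
    have hFw : |ℓF - ∑ p ∈ Nat.primesBelow w, ((wF F p : ℝ) - g) / p| ≤ δ := by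
      have h1 := hw₃ w (by omega)
      rw [Real.dist_eq] at h1
      rwa [abs_sub_comm]
    have hST : (FS_D F : ℝ) * T N ≤ δ := by
      have h1 : (FS_D F : ℝ) * T N ≤ D * (δ / D) :=
        mul_le_mul (by rw [hD]; linarith) hTN (hT0 N) hD0.le
      rwa [mul_div_cancel₀ _ hD0.ne'] at h1
    obtain ⟨s, hs, hSS⟩ := TG2_one F hF G hk hl.ne' hH (hN₁ N hN) (by omega) (by omega) hδ0.le
      hℓF hFw (hℓδ.trans (min_le_left _ _)) hℓ hwK hST
    have hTr := series_nonneg F G N w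
    rw [hSS]
    have h1 : seriesTrunc F G N w * Real.exp s - seriesTrunc F G N w =
        seriesTrunc F G N w * (Real.exp s - 1) := by ring
    rw [h1, abs_mul, abs_of_nonneg hTr, mul_comm]
    refine mul_le_mul_of_nonneg_right ?_ hTr
    have h2 : |s| ≤ 1 := by linarith
    have h3 := Real.abs_exp_sub_one_le h2
    linarith
  -- bad `N`
  have hsub : (Icc 1 Y).filter (fun N => ε * seriesTrunc F G N w <
      |SS F G N - seriesTrunc F G N w|) ⊆ (Finset.range N₁ ∪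
      (Icc 1 Y).filter (fun N => ¬ R N)) ∪ (Icc N₁ Y).filter (fun N => δ / D < T N) := by
    intro N hN
    rw [mem_filter, mem_Icc] at hN
    rw [mem_union, mem_union, Finset.mem_range, mem_filter, mem_filter, mem_Icc, mem_Icc]
    by_cases h1 : N < N₁
    · exact Or.inl (Or.inl h1)
    · by_cases h2 : R N
      · right
        refine ⟨⟨by omega, hN.1.2⟩, ?_⟩
        by_contra hcon
        have := hgood N (by omega) h2 (not_lt.1 hcon)
        linarith [hN.2]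
      · exact Or.inl (Or.inr ⟨hN.1, h2⟩)
  have hcard : (((Icc N₁ Y).filter (fun N => δ / D < T N)).card : ℝ) * (δ / D) ≤
      K * Y / Real.sqrt w := by
    refine le_trans ?_ hav
    rw [← nsmul_eq_mul, ← sum_const]
    refine le_trans (sum_le_sum fun N hN => (mem_filter.1 hN).2.le) ?_
    exact sum_le_sum_of_subset_of_nonneg (filter_subset _ _) fun N _ _ => hT0 N
  have hY0 : (0 : ℝ) ≤ Y := Nat.cast_nonneg _
  have h3 : (((Icc N₁ Y).filter (fun N => δ / D < T N)).card : ℝ) ≤ ε / 3 * Y := by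
    have h4 : K * Y / Real.sqrt w ≤ (ε / 3 * Y) * (δ / D) := by
      rw [div_le_iff₀ hs0]
      rw [div_le_iff₀ (by positivity)] at hws
      have h5 : (ε / 3 * Y) * (δ / D) * Real.sqrt w =
          (Real.sqrt w * (δ * ε)) * (Y / (3 * D)) := by
        field_simp
      have h6 : K * (Y : ℝ) = (3 * K * D) * (Y / (3 * D)) := by
        field_simp
      rw [h5, h6]
      exact mul_le_mul_of_nonneg_right hws (by positivity)
    have h5 := hcard.trans h4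
    exact le_of_mul_le_mul_right h5 (by positivity)
  have h4 : (((Icc 1 Y).filter (fun N => ¬ R N)).card : ℝ) ≤ ε / 3 * Y := by
    refine le_trans ?_ (hrho.trans (mul_le_mul_of_nonneg_right (min_le_right _ _) hY0))
    have : (Icc 1 Y).filter (fun N => ¬ R N) = (Icc 1 Y).filter (fun N : ℕ => ¬ ∃ ℓ : ℝ,
        |ℓ| ≤ min δ (ε / 3) ∧ Tendsto (fun z : ℕ =>
          ∑ p ∈ (Nat.primesBelow z).filter (fun p => w ≤ p),
            ((rootCount (C (N : ℤ) - G) p : ℝ) - 1) / p) atTop (𝓝 ℓ)) := by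
      ext N
      simp only [mem_filter, hR]
    rw [this]
  have h5 : (((Icc 1 Y).filter (fun N => ε * seriesTrunc F G N w <
      |SS F G N - seriesTrunc F G N w|)).card : ℝ) ≤ (N₁ +
      ((Icc 1 Y).filter (fun N => ¬ R N)).card) +
      ((Icc N₁ Y).filter (fun N => δ / D < T N)).card := by
    have h6 := (card_le_card hsub).trans ((card_union_le _ _).trans
      (Nat.add_le_add_right (card_union_le _ _) _))
    rw [card_range] at h6
    exact_mod_cast h6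
  linarith

end Pool.Agent.Lib.H33C
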