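import Pool.Agent.Lib.H33C.MA2
import Pool.Agent.Lib.H33C.MB5
import Pool.Agent.Lib.H33C.LIN
import Pool.Agent.Lib.H33C.TG2
import Pool.Agent.Lib.H33C.QF

/-!
# Project H33C: the main theorem
-/

open Finset Polynomial Filter Topology

namespace Pool.Agent.Lib.H33C

open Pool.Agent.Lib.H33B

variable {g : ℕ}

theorem pair_iff (F : Fin g → ℤ[X]) (hF : Sys F) (hN : NoFix F) (G : ℤ[X])
    (hk : 1 ≤ G.natDegree) (hl : 0 < G.leadingCoeff) :
    AlmostAllT F G ↔ ∀ q : ℕ, Squarefree q → BHPush F G q :=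
  ⟨fun h q hq => push_of_aaT F hF hN G hk hl h q hq, fun h => aaT_of_push F hF hN G hk hl h⟩

theorem tail_le_two (F : Fin g → ℤ[X]) (hF : Sys F) (hN : NoFix F) (G : ℤ[X])
    (hk : 1 ≤ G.natDegree) (hk2 : G.natDegree ≤ 2) (hl : 0 < G.leadingCoeff) : Tail F G := by
  rcases (show G.natDegree = 1 ∨ G.natDegree = 2 by omega) with h | h
  · exact tail_one F hF hN G h hl
  · exact tail_of_rho F hF hN G hk hl (rhoTail_quad G h hl)

theorem pair_iff_two (F : Fin g → ℤ[X]) (hF : Sys F) (hN : NoFix F) (G : ℤ[X])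
    (hk : 1 ≤ G.natDegree) (hk2 : G.natDegree ≤ 2) (hl : 0 < G.leadingCoeff) :
    AlmostAll F G ↔ ∀ q : ℕ, Squarefree q → BHPush F G q :=
  (aa_iff_aaT F G (tail_le_two F hF hN G hk hk2 hl)).trans (pair_iff F hF hN G hk hl)

theorem bh_iff (F : Fin g → ℤ[X]) (hF : Sys F) (hN : NoFix F) :
    (∀ q : ℕ, Squarefree q → BHClass F q) ↔ AlmostAll F X := by
  rw [pair_iff_two F hF hN X (by simp) (by simp) (by simp)]
  exact forall_congr' fun q => imp_congr_right fun hq =>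
    (push_X F hF q (Nat.pos_of_ne_zero hq.ne_zero)).symm

end Pool.Agent.Lib.H33C
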