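import Mathlib

/-!
# Chunk HA: the complex roots of `G(x) = N`
-/

open Polynomial

namespace Pool.Agent.Lib.H33C

/-- The lower order terms of a polynomial. -/
theorem HA_low (P : ℂ[X]) (n : ℕ) (hn : P.natDegree ≤ n) :
    ∃ S : ℝ, 0 ≤ S ∧ ∀ (z : ℂ) (R : ℝ), 1 ≤ R → ‖z‖ ≤ R →
      ‖P.eval z - P.coeff n * z ^ n‖ * R ≤ S * R ^ n := by
  refine ⟨∑ i ∈ Finset.range n, ‖P.coeff i‖, Finset.sum_nonneg fun _ _ => norm_nonneg _, ?_⟩
  intro z R hR hz
  have hR0 : 0 ≤ R := by linarith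
  rw [Polynomial.eval_eq_sum_range' (Nat.lt_succ_of_le hn), Finset.sum_range_succ,
    add_sub_cancel_right]
  have h1 : ‖∑ i ∈ Finset.range n, P.coeff i * z ^ i‖ ≤
      ∑ i ∈ Finset.range n, ‖P.coeff i‖ * R ^ i := by
    refine norm_sum_le_of_le _ fun i _ => ?_
    rw [norm_mul, norm_pow]
    gcongr
  calc ‖∑ i ∈ Finset.range n, P.coeff i * z ^ i‖ * R
      ≤ (∑ i ∈ Finset.range n, ‖P.coeff i‖ * R ^ i) * R := mul_le_mul_of_nonneg_right h1 hR0
    _ = ∑ i ∈ Finset.range n, ‖P.coeff i‖ * R ^ (i + 1) := by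
        rw [Finset.sum_mul]
        refine Finset.sum_congr rfl fun i _ => ?_
        ring
    _ ≤ ∑ i ∈ Finset.range n, ‖P.coeff i‖ * R ^ n := by
        refine Finset.sum_le_sum fun i hi => ?_
        refine mul_le_mul_of_nonneg_left (pow_le_pow_right₀ hR ?_) (norm_nonneg _)
        exact Finset.mem_range.1 hi
    _ = (∑ i ∈ Finset.range n, ‖P.coeff i‖) * R ^ n := by rw [Finset.sum_mul]

theorem HA_t {a : ℝ} (ha : 0 < a) {k : ℕ} (hk : 1 ≤ k) {N T0 : ℝ} (hT0 : 0 ≤ T0)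
    (hN : a * T0 ^ k ≤ N) :
    T0 ≤ (N / a) ^ ((1 : ℝ) / k) ∧ ((N / a) ^ ((1 : ℝ) / k)) ^ k = N / a := by
  have hk0 : k ≠ 0 := by omega
  have h1 : T0 ^ k ≤ N / a := by
    rw [le_div_iff₀ ha]
    linarith
  have h0 : 0 ≤ N / a := (pow_nonneg hT0 k).trans h1
  rw [one_div]
  refine ⟨?_, Real.rpow_inv_natCast_pow h0 hk0⟩
  calc T0 = (T0 ^ k) ^ ((k : ℝ)⁻¹) := (Real.pow_rpow_inv_natCast hT0 hk0).symm
    _ ≤ (N / a) ^ ((k : ℝ)⁻¹) := Real.rpow_le_rpow (pow_nonneg hT0 k) h1 (by positivity)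

/-- Distinct `k`-th roots of unity are separated. -/
theorem HA_sep (k : ℕ) (hk : 1 ≤ k) :
    ∃ c : ℝ, 0 < c ∧ ∀ u u' : ℂ, u ^ k = 1 → u' ^ k = 1 → u ≠ u' → c ≤ ‖u - u'‖ := by
  classical
  set F : Finset ℂ := Polynomial.nthRootsFinset k (1 : ℂ) with hF
  by_cases h : F.offDiag.Nonempty
  · obtain ⟨⟨v, v'⟩, hv, hmin⟩ := Finset.exists_min_image F.offDiag (fun p => ‖p.1 - p.2‖) h
    rw [Finset.mem_offDiag] at hv
    refine ⟨‖v - v'‖, norm_pos_iff.2 (sub_ne_zero.2 hv.2.2), fun u u' hu hu' hne => ?_⟩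
    refine hmin (u, u') ?_
    rw [Finset.mem_offDiag]
    exact ⟨(Polynomial.mem_nthRootsFinset hk 1).2 hu, (Polynomial.mem_nthRootsFinset hk 1).2 hu', hne⟩
  · refine ⟨1, one_pos, fun u u' hu hu' hne => ?_⟩
    exfalso
    apply h
    refine ⟨(u, u'), ?_⟩
    rw [Finset.mem_offDiag]
    exact ⟨(Polynomial.mem_nthRootsFinset hk 1).2 hu, (Polynomial.mem_nthRootsFinset hk 1).2 hu', hne⟩

/-- If `x ^ k - t ^ k` is small, then `x` is near `u t` for a root of unity. -/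
theorem HA_near (k : ℕ) (hk : 1 ≤ k) (C2 : ℝ) (hC2 : 0 ≤ C2) :
    ∃ C : ℝ, 0 < C ∧ ∀ (x : ℂ) (t : ℝ), 0 < t → ‖x ^ k - (t : ℂ) ^ k‖ ≤ C2 * t ^ (k - 1) →
      ∃ u : ℂ, u ^ k = 1 ∧ ‖x - u * (t : ℂ)‖ ≤ C := by
  classical
  obtain ⟨c, hc, hsep⟩ := HA_sep k hk
  refine ⟨C2 / (c / 2) ^ (k - 1) + 1, by positivity, fun x t ht hx => ?_⟩
  have hprim := Complex.isPrimitiveRoot_exp k (by omega)
  set F : Finset ℂ := Polynomial.nthRootsFinset k (1 : ℂ) with hF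
  have hmem : ∀ u : ℂ, u ∈ F ↔ u ^ k = 1 := fun u => Polynomial.mem_nthRootsFinset hk 1
  have hFne : F.Nonempty := ⟨1, (hmem 1).2 (one_pow k)⟩
  obtain ⟨u, hu, hmin⟩ := Finset.exists_min_image F (fun u => ‖x - u * (t : ℂ)‖) hFne
  refine ⟨u, (hmem u).1 hu, ?_⟩
  have hprod := hprim.pow_sub_pow_eq_prod_sub_mul x (t : ℂ) hk
  rw [hprod, norm_prod, ← Finset.mul_prod_erase F _ hu] at hx
  have hcard : (F.erase u).card = k - 1 := by
    rw [Finset.card_erase_of_mem hu, hprim.card_nthRootsFinset]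
  have hlow : (c / 2 * t) ^ (k - 1) ≤ ∏ v ∈ F.erase u, ‖x - v * (t : ℂ)‖ := by
    rw [← hcard, ← Finset.prod_const]
    refine Finset.prod_le_prod (fun _ _ => by positivity) fun v hv => ?_
    rw [Finset.mem_erase] at hv
    have h1 := hsep v u ((hmem v).1 hv.2) ((hmem u).1 hu) hv.1
    have h2 := hmin v hv.2
    have h3 : ‖(v - u) * (t : ℂ)‖ ≤ ‖x - u * (t : ℂ)‖ + ‖x - v * (t : ℂ)‖ := by
      have : (v - u) * (t : ℂ) = (x - u * (t : ℂ)) - (x - v * (t : ℂ)) := by ring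
      rw [this]
      exact norm_sub_le _ _
    rw [norm_mul, Complex.norm_real, Real.norm_of_nonneg ht.le] at h3
    nlinarith
  have h4 : ‖x - u * (t : ℂ)‖ * (c / 2 * t) ^ (k - 1) ≤ C2 * t ^ (k - 1) :=
    (mul_le_mul_of_nonneg_left hlow (norm_nonneg _)).trans hx
  have h5 : ‖x - u * (t : ℂ)‖ * (c / 2) ^ (k - 1) ≤ C2 := by
    rw [mul_pow, ← mul_assoc] at h4
    exact le_of_mul_le_mul_right h4 (by positivity)
  have h6 : ‖x - u * (t : ℂ)‖ ≤ C2 / (c / 2) ^ (k - 1) := by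
    rw [le_div_iff₀ (by positivity)]
    exact h5
  linarith

/-- The complex roots of `G(x) = N`, `k = deg G`, `a = lc(G)`, `t = (N/a)^(1/k)`, lie near the numbers `u t`, `u^k = 1`.

`G(x) = a x^k + O(|x|^(k-1) + 1)`. If `G(x) = N` is large, then `|x|` is large and
`|x^k - t^k| ≤ C₁ |x|^(k-1)`, so `|x| ≤ 2t` and `|x| ≥ t/2` (`t` large), `|x^k - t^k| ≤ C₂ t^(k-1)`. As
`x^k - t^k = ∏_{u^k=1} (x - u t)` (Mathlib: `X_pow_sub_one_eq_prod` or `IsPrimitiveRoot.pow_sub_pow_eq_prod_sub_mul`), let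
`u` be nearest; for the others `|x - u' t| ≥ |u - u'| t/2 ≥ c₀ t`, so `|x - u t| ≤ C₂ t^(k-1)/(c₀ t)^(k-1)`. -/
theorem root_near (G : ℤ[X]) (hk : 1 ≤ G.natDegree) (hl : 0 < G.leadingCoeff) :
    ∃ C T : ℝ, 0 < C ∧ 1 ≤ T ∧ ∀ (N : ℝ), T ≤ N → ∀ x : ℂ, (G.map (Int.castRingHom ℂ)).eval x = N →
      ‖x‖ ≤ 2 * (N / G.leadingCoeff) ^ ((1 : ℝ) / G.natDegree) ∧
      ∃ u : ℂ, u ^ G.natDegree = 1 ∧
        ‖x - u * ((N / G.leadingCoeff) ^ ((1 : ℝ) / G.natDegree) : ℝ)‖ ≤ C := by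
  set k := G.natDegree with hkdef
  set a : ℝ := (G.leadingCoeff : ℝ) with ha
  have ha1 : 1 ≤ a := by
    rw [ha]
    exact_mod_cast hl
  have ha0 : 0 < a := by linarith
  obtain ⟨S, hS, hlow⟩ := HA_low (G.map (Int.castRingHom ℂ)) k (Polynomial.natDegree_map_le)
  have hcoef : (G.map (Int.castRingHom ℂ)).coeff k = (a : ℂ) := by
    rw [Polynomial.coeff_map, ha, eq_intCast, Complex.ofReal_intCast]
    rfl
  rw [hcoef] at hlow
  obtain ⟨C, hC, hnear⟩ := HA_near k hk (S * 2 ^ (k - 1)) (by positivity)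
  refine ⟨C, max (a + S + 1) (a * (S + 1) ^ k), hC, ?_, fun N hN x hx => ?_⟩
  · exact le_max_of_le_left (by linarith)
  · obtain ⟨hT1, hT2⟩ := HA_t ha0 hk (by positivity : (0 : ℝ) ≤ S + 1) ((le_max_right _ _).trans hN)
    have hN1 : a + S + 1 ≤ N := (le_max_left _ _).trans hN
    set t : ℝ := (N / a) ^ ((1 : ℝ) / k) with ht
    have htpos : 0 < t := by linarith
    have hN0 : 0 < N := by linarith
    have hx1 : 1 < ‖x‖ := by
      by_contra hle
      push Not at hle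
      have h1 := hlow x 1 le_rfl hle
      rw [hx, mul_one, one_pow, mul_one] at h1
      have h2 : ‖(N : ℂ)‖ ≤ ‖(N : ℂ) - (a : ℂ) * x ^ k‖ + ‖(a : ℂ) * x ^ k‖ := by
        have : (N : ℂ) = ((N : ℂ) - (a : ℂ) * x ^ k) + (a : ℂ) * x ^ k := by ring
        exact (congrArg norm this).le.trans (norm_add_le _ _)
      rw [norm_mul, norm_pow, Complex.norm_real, Complex.norm_real, Real.norm_of_nonneg hN0.le,
        Real.norm_of_nonneg ha0.le] at h2
      have h3 : a * ‖x‖ ^ k ≤ a := by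
        have := pow_le_one₀ (n := k) (norm_nonneg x) hle
        nlinarith
      linarith
    have hxpos : 0 < ‖x‖ := by linarith
    have h1 := hlow x ‖x‖ hx1.le le_rfl
    rw [hx] at h1
    have hpow : ‖x‖ ^ k = ‖x‖ ^ (k - 1) * ‖x‖ := by
      rw [← pow_succ, Nat.sub_add_cancel hk]
    have h2 : ‖(N : ℂ) - (a : ℂ) * x ^ k‖ ≤ S * ‖x‖ ^ (k - 1) := by
      rw [hpow, ← mul_assoc] at h1
      exact le_of_mul_le_mul_right h1 hxpos
    have h3 : (t : ℂ) ^ k = (N : ℂ) / (a : ℂ) := by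
      rw [← Complex.ofReal_pow, hT2, Complex.ofReal_div]
    have h4 : ‖x ^ k - (t : ℂ) ^ k‖ ≤ S * ‖x‖ ^ (k - 1) := by
      have h5 : x ^ k - (t : ℂ) ^ k = -(((N : ℂ) - (a : ℂ) * x ^ k) / (a : ℂ)) := by
        rw [h3]
        have : (a : ℂ) ≠ 0 := by exact_mod_cast ha0.ne'
        field_simp
        ring
      rw [h5, norm_neg, norm_div, Complex.norm_real, Real.norm_of_nonneg ha0.le]
      exact (div_le_self (norm_nonneg _) ha1).trans h2
    have h6 : ‖x‖ ≤ 2 * t := by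
      by_contra hlt
      push Not at hlt
      have h7 : ‖x‖ ^ k ≤ t ^ k + S * ‖x‖ ^ (k - 1) := by
        have h8 : ‖x ^ k‖ ≤ ‖(t : ℂ) ^ k‖ + ‖x ^ k - (t : ℂ) ^ k‖ := by
          have : x ^ k = (t : ℂ) ^ k + (x ^ k - (t : ℂ) ^ k) := by ring
          exact (congrArg norm this).le.trans (norm_add_le _ _)
        rw [norm_pow, norm_pow, Complex.norm_real, Real.norm_of_nonneg htpos.le] at h8
        linarith
      have h9 : 2 * t ^ k ≤ ‖x‖ ^ k := by
        calc 2 * t ^ k ≤ 2 ^ k * t ^ k := by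
              have : (2 : ℝ) ≤ 2 ^ k := by
                calc (2 : ℝ) = 2 ^ 1 := (pow_one _).symm
                  _ ≤ 2 ^ k := pow_le_pow_right₀ (by norm_num) hk
              nlinarith [pow_pos htpos k]
          _ = (2 * t) ^ k := by rw [mul_pow]
          _ ≤ ‖x‖ ^ k := pow_le_pow_left₀ (by positivity) hlt.le k
      have h10 : ‖x‖ ^ k ≤ 2 * S * ‖x‖ ^ (k - 1) := by linarith
      rw [hpow] at h10
      have h11 : ‖x‖ ≤ 2 * S := by
        have h12 : ‖x‖ * ‖x‖ ^ (k - 1) ≤ 2 * S * ‖x‖ ^ (k - 1) := by linarith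
        exact le_of_mul_le_mul_right h12 (by positivity)
      linarith
    refine ⟨h6, hnear x t htpos ?_⟩
    refine h4.trans ?_
    rw [mul_assoc, ← mul_pow]
    exact mul_le_mul_of_nonneg_left (pow_le_pow_left₀ (norm_nonneg _) h6 _) hS

theorem HA_pow (n : ℕ) {z w : ℂ} {R : ℝ} (hz : ‖z‖ ≤ R) (hw : ‖w‖ ≤ R) :
    ‖z ^ n - w ^ n‖ * R ≤ n * R ^ n * ‖z - w‖ := by
  have hR : 0 ≤ R := (norm_nonneg z).trans hz
  induction n with
  | zero => simp
  | succ n ih =>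
    have h1 : z ^ (n + 1) - w ^ (n + 1) = z ^ n * (z - w) + (z ^ n - w ^ n) * w := by ring
    have h2 : ‖z ^ (n + 1) - w ^ (n + 1)‖ ≤ R ^ n * ‖z - w‖ + ‖z ^ n - w ^ n‖ * R := by
      rw [h1]
      refine (norm_add_le _ _).trans ?_
      rw [norm_mul, norm_mul, norm_pow]
      gcongr
    calc ‖z ^ (n + 1) - w ^ (n + 1)‖ * R
        ≤ (R ^ n * ‖z - w‖ + ‖z ^ n - w ^ n‖ * R) * R := mul_le_mul_of_nonneg_right h2 hR
      _ ≤ (R ^ n * ‖z - w‖ + n * R ^ n * ‖z - w‖) * R :=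
          mul_le_mul_of_nonneg_right (by linarith) hR
      _ = ((n + 1 : ℕ) : ℝ) * R ^ (n + 1) * ‖z - w‖ := by
          push_cast
          ring

/-- Let `x, x'` be near `u t` resp. `u t'` (same `u`), `N ≤ N' ≤ (1+κ) N`. Then
`G(x) - G(x') = (x - x') Γ(x,x')`, `Γ(x,x') = ∑_m a_m ∑_{i+j=m-1} x^i x'^j`, the terms `m < k` are
`O(t^(k-2))`, those with `m = k` are each `a (u t)^(k-1) (1 + O(κ + C/t))`, so
`|Γ(x,x') - k a (u t)^(k-1)| ≤ (k a/2) t^(k-1)` for small `κ` and large `t`, and `|Γ| ≥ (k a/2) t^(k-1) ≥ t^(k-1)/2`. With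
`x = x'` this is the bound for the derivative (`Γ(x,x) = G'(x)`). -/
theorem root_lip (G : ℤ[X]) (hk : 1 ≤ G.natDegree) (hl : 0 < G.leadingCoeff) (C : ℝ) :
    ∃ κ T : ℝ, 0 < κ ∧ 1 ≤ T ∧ ∀ (N N' : ℝ), T ≤ N → N ≤ N' → N' ≤ (1 + κ) * N →
      ∀ (u x x' : ℂ), u ^ G.natDegree = 1 →
      (G.map (Int.castRingHom ℂ)).eval x = N → (G.map (Int.castRingHom ℂ)).eval x' = N' →
      ‖x - u * ((N / G.leadingCoeff) ^ ((1 : ℝ) / G.natDegree) : ℝ)‖ ≤ C →
      ‖x' - u * ((N' / G.leadingCoeff) ^ ((1 : ℝ) / G.natDegree) : ℝ)‖ ≤ C →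
      ‖x - x'‖ * ((N / G.leadingCoeff) ^ ((1 : ℝ) / G.natDegree)) ^ (G.natDegree - 1) ≤ 2 * (N' - N) ∧
      (G.derivative.map (Int.castRingHom ℂ)).eval x ≠ 0 := by
  set k := G.natDegree with hkdef
  set a : ℝ := (G.leadingCoeff : ℝ) with ha
  have ha1 : 1 ≤ a := by
    rw [ha]
    exact_mod_cast hl
  have ha0 : 0 < a := by linarith
  obtain ⟨n, hn⟩ : ∃ n : ℕ, k = n + 1 := ⟨k - 1, by omega⟩
  have hn' : k - 1 = n := by omega
  rw [hn']
  set P : ℂ[X] := G.derivative.map (Int.castRingHom ℂ) with hP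
  have hdeg : P.natDegree ≤ n := by
    refine Polynomial.natDegree_map_le.trans ?_
    have := Polynomial.natDegree_derivative_le G
    omega
  set b : ℝ := (k : ℝ) * a with hb
  have hk1 : (1 : ℝ) ≤ (k : ℝ) := by exact_mod_cast hk
  have hb1 : 1 ≤ b := by
    rw [hb]
    nlinarith
  have hb0 : 0 < b := by linarith
  have hcoef : P.coeff n = (b : ℂ) := by
    rw [hP, Polynomial.coeff_map, Polynomial.coeff_derivative, hb, ha, eq_intCast]
    have h1 : G.coeff (n + 1) = G.leadingCoeff := by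
      rw [← hn]
      rfl
    rw [h1, hn]
    push_cast
    ring
  obtain ⟨S, hS, hlow⟩ := HA_low P n hdeg
  rw [hcoef] at hlow
  set κ : ℝ := 1 / (8 * ((n : ℝ) + 1) * 2 ^ n) with hκ
  have h2n : (1 : ℝ) ≤ 2 ^ n := one_le_pow₀ (by norm_num)
  have hn0 : (0 : ℝ) ≤ (n : ℝ) := Nat.cast_nonneg n
  have hκ0 : 0 < κ := by positivity
  have hκn : (n : ℝ) * 2 ^ n * κ ≤ 1 / 8 := by
    rw [hκ, mul_one_div, div_le_div_iff₀ (by positivity) (by norm_num)]
    nlinarith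
  have hκ1 : κ ≤ 1 / 8 := by
    rw [hκ, div_le_div_iff₀ (by positivity) (by norm_num)]
    nlinarith
  set T0 : ℝ := max 1 (max (|C| / κ) (2 * S * 2 ^ n)) with hT0
  have hT01 : 1 ≤ T0 := le_max_left _ _
  refine ⟨κ, max 1 (a * T0 ^ k), hκ0, le_max_left _ _, ?_⟩
  intro N N' hN hNN' hN' u x x' hu hx hx' hxu hxu'
  obtain ⟨ht1, ht2⟩ := HA_t ha0 hk (by linarith : (0 : ℝ) ≤ T0) ((le_max_right _ _).trans hN)
  obtain ⟨ht1', ht2'⟩ := HA_t ha0 hk (by linarith : (0 : ℝ) ≤ T0)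
    (((le_max_right _ _).trans hN).trans hNN')
  have hN1 : 1 ≤ N := (le_max_left _ _).trans hN
  set t : ℝ := (N / a) ^ ((1 : ℝ) / k) with ht
  set t' : ℝ := (N' / a) ^ ((1 : ℝ) / k) with ht'
  have htpos : 0 < t := by linarith
  have htpos' : 0 < t' := by linarith
  have hk0 : k ≠ 0 := by omega
  have hC : |C| ≤ κ * t := by
    have h1 : |C| / κ ≤ t := ((le_max_left _ _).trans (le_max_right _ _)).trans ht1
    rw [div_le_iff₀ hκ0] at h1
    linarith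
  have hSt : 2 * S * 2 ^ n ≤ t := ((le_max_right _ _).trans (le_max_right _ _)).trans ht1
  have htt' : t ≤ t' := by
    rw [← pow_le_pow_iff_left₀ htpos.le htpos'.le hk0, ht2, ht2']
    gcongr
  have htt'' : t' ≤ (1 + κ) * t := by
    rw [← pow_le_pow_iff_left₀ htpos'.le (by positivity) hk0, mul_pow, ht2, ht2']
    have h1 : 1 + κ ≤ (1 + κ) ^ k := by
      calc 1 + κ = (1 + κ) ^ 1 := (pow_one _).symm
        _ ≤ (1 + κ) ^ k := pow_le_pow_right₀ (by linarith) hk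
    calc N' / a ≤ (1 + κ) * N / a := by gcongr
      _ = (1 + κ) * (N / a) := by ring
      _ ≤ (1 + κ) ^ k * (N / a) := by
          have : 0 ≤ N / a := by positivity
          gcongr
  have hu1 : ‖u‖ = 1 := Complex.norm_eq_one_of_pow_eq_one hu hk0
  have hut : ‖u * (t : ℂ)‖ = t := by
    rw [norm_mul, hu1, one_mul, Complex.norm_real, Real.norm_of_nonneg htpos.le]
  set c : ℂ := (b : ℂ) * (u * (t : ℂ)) ^ n with hc
  have hcn : ‖c‖ = b * t ^ n := by
    rw [hc, norm_mul, norm_pow, hut, Complex.norm_real, Real.norm_of_nonneg hb0.le]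
  have hbound : ∀ z : ℂ, ‖z - u * (t : ℂ)‖ ≤ 2 * κ * t → ‖P.eval z - c‖ ≤ b / 2 * t ^ n := by
    intro z hz
    have hzn : ‖z‖ ≤ 2 * t := by
      have h1 : ‖z‖ ≤ ‖z - u * (t : ℂ)‖ + ‖u * (t : ℂ)‖ := by
        have : z = (z - u * (t : ℂ)) + u * (t : ℂ) := by ring
        exact (congrArg norm this).le.trans (norm_add_le _ _)
      rw [hut] at h1
      nlinarith
    have htR : 1 ≤ 2 * t := by linarith
    have h1 := hlow z (2 * t) htR hzn
    have h2 := HA_pow n hzn (by rw [hut]; linarith : ‖u * (t : ℂ)‖ ≤ 2 * t)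
    have h3 : ‖P.eval z - (b : ℂ) * z ^ n‖ ≤ 1 / 4 * t ^ n := by
      have h4 : S * (2 * t) ^ n ≤ 1 / 4 * t ^ n * (2 * t) := by
        rw [mul_pow]
        have h5 : 0 ≤ t ^ n := by positivity
        nlinarith [mul_le_mul_of_nonneg_right hSt h5]
      exact le_of_mul_le_mul_right (h1.trans h4) (by positivity)
    have h6 : ‖z ^ n - (u * (t : ℂ)) ^ n‖ ≤ 1 / 8 * t ^ n := by
      have h7 : n * (2 * t) ^ n * ‖z - u * (t : ℂ)‖ ≤ 1 / 8 * t ^ n * (2 * t) := by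
        calc n * (2 * t) ^ n * ‖z - u * (t : ℂ)‖ ≤ n * (2 * t) ^ n * (2 * κ * t) := by gcongr
          _ = ((n : ℝ) * 2 ^ n * κ) * (t ^ n * (2 * t)) := by rw [mul_pow]; ring
          _ ≤ 1 / 8 * (t ^ n * (2 * t)) := by gcongr
          _ = 1 / 8 * t ^ n * (2 * t) := by ring
      exact le_of_mul_le_mul_right (h2.trans h7) (by positivity)
    have h8 : P.eval z - c = (P.eval z - (b : ℂ) * z ^ n) + (b : ℂ) * (z ^ n - (u * (t : ℂ)) ^ n) := by
      rw [hc]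
      ring
    have h9 : ‖P.eval z - c‖ ≤ 1 / 4 * t ^ n + b * (1 / 8 * t ^ n) := by
      rw [h8]
      refine (norm_add_le _ _).trans ?_
      rw [norm_mul, Complex.norm_real, Real.norm_of_nonneg hb0.le]
      gcongr
    have h10 : 0 < t ^ n := by positivity
    nlinarith
  have hxb : ‖x - u * (t : ℂ)‖ ≤ 2 * κ * t := by
    have h1 := hxu.trans (le_abs_self C)
    nlinarith [mul_pos hκ0 htpos]
  have hxb' : ‖x' - u * (t : ℂ)‖ ≤ 2 * κ * t := by
    have h1 := hxu'.trans (le_abs_self C)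
    have h2 : ‖x' - u * (t : ℂ)‖ ≤ ‖x' - u * (t' : ℂ)‖ + ‖u * ((t' - t : ℝ) : ℂ)‖ := by
      have : x' - u * (t : ℂ) = (x' - u * (t' : ℂ)) + u * ((t' - t : ℝ) : ℂ) := by
        push_cast
        ring
      rw [this]
      exact norm_add_le _ _
    rw [norm_mul, hu1, one_mul, Complex.norm_real, Real.norm_of_nonneg (by linarith)] at h2
    nlinarith
  constructor
  · have hder : ∀ z ∈ Metric.closedBall (u * (t : ℂ)) (2 * κ * t),
        HasDerivWithinAt (fun z => (G.map (Int.castRingHom ℂ)).eval z - c * z) (P.eval z - c)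
          (Metric.closedBall (u * (t : ℂ)) (2 * κ * t)) z := by
      intro z _
      have h1 := (Polynomial.hasDerivAt (G.map (Int.castRingHom ℂ)) z)
      rw [Polynomial.derivative_map] at h1
      have h2 : HasDerivAt (fun z : ℂ => c * z) c z := by
        have h3 := (hasDerivAt_id z).const_mul c
        rwa [mul_one] at h3
      exact (h1.sub h2).hasDerivWithinAt
    have hmv := Convex.norm_image_sub_le_of_norm_hasDerivWithin_le hder
      (fun z hz => hbound z (by rwa [mem_closedBall_iff_norm] at hz))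
      (convex_closedBall _ _)
      (by rw [mem_closedBall_iff_norm]; exact hxb)
      (by rw [mem_closedBall_iff_norm]; exact hxb' : x' ∈ _)
    simp only [hx, hx'] at hmv
    have h4 : c * (x' - x) = ((N' - N : ℝ) : ℂ) - (((N' : ℂ) - c * x') - ((N : ℂ) - c * x)) := by
      push_cast
      ring
    have h5 : ‖c * (x' - x)‖ ≤ (N' - N) + b / 2 * t ^ n * ‖x' - x‖ := by
      rw [h4]
      refine (norm_sub_le _ _).trans ?_
      rw [Complex.norm_real, Real.norm_of_nonneg (by linarith)]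
      linarith
    rw [norm_mul, hcn] at h5
    rw [norm_sub_rev x x']
    have h6 : 0 ≤ t ^ n * ‖x' - x‖ := by positivity
    nlinarith
  · intro h0
    have h1 := hbound x hxb
    rw [h0, zero_sub, norm_neg, hcn] at h1
    have h2 : 0 < t ^ n := by positivity
    nlinarith

end Pool.Agent.Lib.H33C
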