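import Pool.Agent.Lib.H33C.HA

/-!
# Chunk HB: two reducible `N - G` of the same type are far apart
-/

open Polynomial Finset

namespace Pool.Agent.Lib.H33C

theorem HB_fin (m : ℤ) (k : ℕ) (F : Finset ℂ) :
    {p : ℤ × Multiset ℂ | |p.1| ≤ m ∧ p.2.card ≤ k ∧ ∀ u ∈ p.2, u ∈ F}.Finite := by
  classical
  refine Set.Finite.subset (Set.Finite.prod (Set.finite_Icc (-m) m)
    (Set.finite_Iic (k • F.val))) ?_
  rintro ⟨z, s⟩ ⟨h1, h2, h3⟩
  refine ⟨abs_le.1 h1, ?_⟩
  show s ≤ k • F.val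
  rw [Multiset.le_iff_count]
  intro u
  rw [Multiset.count_nsmul]
  by_cases hu : u ∈ s
  · have h4 : F.val.count u = 1 := Multiset.count_eq_one_of_mem F.nodup (h3 u hu)
    rw [h4, mul_one]
    exact (Multiset.count_le_card u s).trans h2
  · rw [Multiset.count_eq_zero_of_notMem hu]
    exact Nat.zero_le _

theorem HB_type {α : Type} (S : Set α) (hS : S.Finite) (Φ : ℕ → α) (h : ∀ N, Φ N ∈ S) :
    ∃ (M : ℕ) (type : ℕ → Fin (M + 1)), ∀ N N', type N = type N' → Φ N = Φ N' := by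
  have := hS.to_subtype
  obtain ⟨M, ⟨e⟩⟩ := Finite.exists_equiv_fin S
  refine ⟨M, fun N => (e ⟨Φ N, h N⟩).castSucc, fun N N' hNN => ?_⟩
  have h1 := e.injective (Fin.castSucc_injective M hNN)
  exact congrArg Subtype.val h1

theorem HB_prod {R ε : ℝ} (hR : 0 ≤ R) (hε : 0 ≤ ε) (y : ℂ) {s t : Multiset ℂ}
    (h : Multiset.Rel (fun a b => ‖a - b‖ ≤ ε ∧ ‖y - a‖ ≤ R ∧ ‖y - b‖ ≤ R) s t) :
    ‖(s.map (fun a => y - a)).prod‖ ≤ R ^ s.card ∧ ‖(t.map (fun a => y - a)).prod‖ ≤ R ^ s.card ∧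
      ‖(s.map (fun a => y - a)).prod - (t.map (fun a => y - a)).prod‖ * R ≤
        s.card * R ^ s.card * ε := by
  induction h with
  | zero => simp
  | @cons a b s t hab hst ih =>
    obtain ⟨h1, h2, h3⟩ := hab
    obtain ⟨i1, i2, i3⟩ := ih
    rw [Multiset.map_cons, Multiset.map_cons, Multiset.prod_cons, Multiset.prod_cons,
      Multiset.card_cons]
    set p := (s.map (fun a => y - a)).prod
    set q := (t.map (fun a => y - a)).prod
    set d := s.card
    refine ⟨?_, ?_, ?_⟩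
    · rw [norm_mul, pow_succ, mul_comm]
      exact mul_le_mul i1 h2 (norm_nonneg _) (by positivity)
    · rw [norm_mul, pow_succ, mul_comm]
      exact mul_le_mul i2 h3 (norm_nonneg _) (by positivity)
    · have h4 : (y - a) * p - (y - b) * q = (y - a) * (p - q) + (b - a) * q := by ring
      have h5 : ‖(y - a) * p - (y - b) * q‖ ≤ R * ‖p - q‖ + ε * R ^ d := by
        rw [h4]
        refine (norm_add_le _ _).trans ?_
        rw [norm_mul, norm_mul, norm_sub_rev b a]
        gcongr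
      calc ‖(y - a) * p - (y - b) * q‖ * R ≤ (R * ‖p - q‖ + ε * R ^ d) * R :=
            mul_le_mul_of_nonneg_right h5 hR
        _ = R * (‖p - q‖ * R) + ε * R ^ (d + 1) := by ring
        _ ≤ R * (d * R ^ d * ε) + ε * R ^ (d + 1) := by
            have := mul_le_mul_of_nonneg_left i3 hR
            linarith
        _ = ((d + 1 : ℕ) : ℝ) * R ^ (d + 1) * ε := by
            push_cast
            ring

theorem HB_eval (A : ℤ[X]) (y : ℤ) : ((A.eval y : ℤ) : ℂ) =
    (A.leadingCoeff : ℂ) * (((A.map (Int.castRingHom ℂ)).roots).map (fun a => (y : ℂ) - a)).prod := by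
  have hinj : Function.Injective (Int.castRingHom ℂ) := Int.cast_injective
  have h1 : ((A.eval y : ℤ) : ℂ) = (A.map (Int.castRingHom ℂ)).eval (y : ℂ) := by
    rw [Polynomial.eval_map]
    have := Polynomial.hom_eval₂ A (RingHom.id ℤ) (Int.castRingHom ℂ) y
    simp only [RingHom.comp_id, eq_intCast, Polynomial.eval₂_id] at this
    exact this
  rw [h1]
  conv_lhs => rw [(IsAlgClosed.splits (A.map (Int.castRingHom ℂ))).eq_prod_roots]
  rw [Polynomial.eval_mul, Polynomial.eval_C, Polynomial.eval_multiset_prod, Multiset.map_map,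
    Polynomial.leadingCoeff_map_of_injective hinj, eq_intCast]
  congr 2
  refine Multiset.map_congr rfl fun a _ => ?_
  simp

/-- A factor of degree at most `k/2`. -/
theorem HB_factor (G : ℤ[X]) (hk : 1 ≤ G.natDegree) (hl : 0 < G.leadingCoeff) (N : ℤ)
    (h : ∃ A B : ℤ[X], 1 ≤ A.natDegree ∧ 1 ≤ B.natDegree ∧ C N - G = A * B) :
    ∃ A B : ℤ[X], 1 ≤ A.natDegree ∧ 2 * A.natDegree ≤ G.natDegree ∧ C N - G = A * B ∧
      |A.leadingCoeff| ≤ G.leadingCoeff := by
  have hGd : (C N - G).natDegree = G.natDegree := by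
    rw [← Polynomial.natDegree_neg, neg_sub, Polynomial.natDegree_sub_C]
  have hGl : (C N - G).leadingCoeff = - G.leadingCoeff := by
    rw [← neg_sub, Polynomial.leadingCoeff_neg]
    congr 1
    rw [Polynomial.leadingCoeff, Polynomial.natDegree_sub_C, Polynomial.coeff_sub,
      Polynomial.coeff_C_ne_zero (by omega), sub_zero]
    rfl
  have key : ∀ A B : ℤ[X], C N - G = A * B → |A.leadingCoeff| ≤ G.leadingCoeff := by
    intro A B hAB
    have h1 : A.leadingCoeff ∣ G.leadingCoeff := by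
      have h2 := congrArg Polynomial.leadingCoeff hAB
      rw [hGl, Polynomial.leadingCoeff_mul] at h2
      rw [← dvd_neg]
      exact ⟨_, h2⟩
    have h3 : |A.leadingCoeff| ∣ G.leadingCoeff := (abs_dvd _ _).2 h1
    exact Int.le_of_dvd hl h3
  obtain ⟨A, B, hA, hB, hAB⟩ := h
  have hdeg : A.natDegree + B.natDegree = G.natDegree := by
    rw [← Polynomial.natDegree_mul, ← hAB, hGd]
    · rintro rfl
      simp at hA
    · rintro rfl
      simp at hB
  by_cases hle : 2 * A.natDegree ≤ G.natDegree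
  · exact ⟨A, B, hA, hle, hAB, key A B hAB⟩
  · exact ⟨B, A, hB, by omega, by rw [hAB, mul_comm], key B A (by rw [hAB, mul_comm])⟩

open Classical in
/-- A root of unity `u` with `x` near `u t`. -/
noncomputable def HB_u (k : ℕ) (c t : ℝ) (x : ℂ) : ℂ :=
  if h : ∃ u : ℂ, u ^ k = 1 ∧ ‖x - u * (t : ℂ)‖ ≤ c then Classical.choose h else 1

theorem HB_u_pow (k : ℕ) (c t : ℝ) (x : ℂ) : HB_u k c t x ^ k = 1 := by
  unfold HB_u
  split_ifs with h
  · exact (Classical.choose_spec h).1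
  · exact one_pow k

theorem HB_u_near {k : ℕ} {c t : ℝ} {x : ℂ} (h : ∃ u : ℂ, u ^ k = 1 ∧ ‖x - u * (t : ℂ)‖ ≤ c) :
    ‖x - HB_u k c t x * (t : ℂ)‖ ≤ c := by
  unfold HB_u
  rw [dif_pos h]
  exact (Classical.choose_spec h).2

theorem HB_root (G : ℤ[X]) {N : ℤ} {A B : ℤ[X]} (h : C N - G = A * B) {x : ℂ}
    (hx : x ∈ (A.map (Int.castRingHom ℂ)).roots) :
    (G.map (Int.castRingHom ℂ)).eval x = (N : ℂ) := by
  rw [Polynomial.mem_roots'] at hx
  have h1 := congrArg (fun P : ℤ[X] => (P.map (Int.castRingHom ℂ)).eval x) h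
  simp only [Polynomial.map_mul, Polynomial.eval_mul, Polynomial.map_sub, Polynomial.eval_sub,
    Polynomial.map_C, Polynomial.eval_C] at h1
  rw [eq_intCast (Int.castRingHom ℂ) N] at h1
  have h2 : (A.map (Int.castRingHom ℂ)).eval x = 0 := hx.2
  rw [h2, zero_mul] at h1
  exact (sub_eq_zero.1 h1).symm

/-- There is a finite set of types such that `N < N'` of the same type, `N' ≤ (1+κ) N`, satisfy
`N' - N ≥ c √N`.

If `N - G = A B` with `deg A, deg B ≥ 1`, wlog (exchange) `1 ≤ d = deg A ≤ k/2`. Let `C` be the constant of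
`root_near`. For every complex root `x` of `A`, `G(x) = N`; choose `u(x)`. By `root_lip` (`N = N'`) different roots
of `A` have different `u(x)`, and all roots of `A` are simple (a double root of `A` is a root of `G'`). So
`A = α ∏_{u ∈ I} (x - r(u))`, `I` a set of `d` `k`-th roots of unity, `|α| ≤ lc(G)`. The type is
`(α, I)`: encode it as an element of `Fin M` (the number of types is finite). Let
`N < N' ≤ (1+κ)N` have the same type, `A' = α ∏_{u ∈ I} (x - r'(u))`. By `root_lip` `|r(u) - r'(u)| ≤ 2 (N'-N)/t^(k-1)`. For the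
integers `y = 0, …, d-1` (`|y - r(u)| ≤ 4 t`, `|y - r'(u)| ≤ 4t`)
`|A(y) - A'(y)| ≤ |α| d (4t)^(d-1) 2 (N'-N)/t^(k-1) ≤ C' (N'-N) t^(d-k) ≤ C' (N'-N) t^(-k/2) < 1` if
`N' - N < c √N` (`t^(k/2) = (N/a)^(1/2)`), so the integers `A(y)`, `A'(y)` are equal, `A = A'` (difference of degree `< d` with `d`
roots), and `A` divides `(N - G) - (N' - G) = N - N' ≠ 0`, which is impossible for degree reasons. -/
theorem red_gap (G : ℤ[X]) (hk : 1 ≤ G.natDegree) (hl : 0 < G.leadingCoeff) :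
    ∃ (M : ℕ) (κ c T : ℝ), 0 < κ ∧ 0 < c ∧ 1 ≤ T ∧ ∃ type : ℕ → Fin (M + 1),
      ∀ N N' : ℕ, T ≤ N → N < N' → (N' : ℝ) ≤ (1 + κ) * N →
      (∃ A B : ℤ[X], 1 ≤ A.natDegree ∧ 1 ≤ B.natDegree ∧ C (N : ℤ) - G = A * B) →
      (∃ A B : ℤ[X], 1 ≤ A.natDegree ∧ 1 ≤ B.natDegree ∧ C (N' : ℤ) - G = A * B) →
      type N = type N' → c * Real.sqrt N ≤ (N' : ℝ) - N := by
  classical
  obtain ⟨C0, T0, hC0, hT0, hnear⟩ := root_near G hk hl
  obtain ⟨κ1, T1, hκ1, hT1, hlip⟩ := root_lip G hk hl C0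
  set k := G.natDegree with hkdef
  set a : ℝ := (G.leadingCoeff : ℝ) with ha
  have ha1 : 1 ≤ a := by
    rw [ha]
    exact_mod_cast hl
  have ha0 : 0 < a := by linarith
  have hk1 : (1 : ℝ) ≤ (k : ℝ) := by exact_mod_cast hk
  have hdata : ∀ N : ℕ, ∃ A : ℤ[X],
      (∃ A B : ℤ[X], 1 ≤ A.natDegree ∧ 1 ≤ B.natDegree ∧ C (N : ℤ) - G = A * B) →
      (1 ≤ A.natDegree ∧ 2 * A.natDegree ≤ k ∧ (∃ B : ℤ[X], C (N : ℤ) - G = A * B) ∧
        |A.leadingCoeff| ≤ G.leadingCoeff) := by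
    intro N
    by_cases h : ∃ A B : ℤ[X], 1 ≤ A.natDegree ∧ 1 ≤ B.natDegree ∧ C (N : ℤ) - G = A * B
    · obtain ⟨A, B, h1, h2, h3, h4⟩ := HB_factor G hk hl N h
      exact ⟨A, fun _ => ⟨h1, h2, ⟨B, h3⟩, h4⟩⟩
    · exact ⟨0, fun h' => absurd h' h⟩
  choose A hA using hdata
  set tt : ℕ → ℝ := fun N => ((N : ℝ) / a) ^ ((1 : ℝ) / k) with htt
  set Φ : ℕ → ℤ × Multiset ℂ := fun N =>
    if (∃ A B : ℤ[X], 1 ≤ A.natDegree ∧ 1 ≤ B.natDegree ∧ C (N : ℤ) - G = A * B) then
      ((A N).leadingCoeff, (((A N).map (Int.castRingHom ℂ)).roots).map (HB_u k C0 (tt N)))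
    else (0, 0) with hΦ
  have hcard : ∀ P : ℤ[X], ((P.map (Int.castRingHom ℂ)).roots).card = P.natDegree := fun P =>
    IsAlgClosed.card_roots_map_eq_natDegree_of_injective P Int.cast_injective
  have hmem : ∀ N, Φ N ∈ {p : ℤ × Multiset ℂ | |p.1| ≤ G.leadingCoeff ∧ p.2.card ≤ k ∧
      ∀ u ∈ p.2, u ∈ Polynomial.nthRootsFinset k (1 : ℂ)} := by
    intro N
    by_cases h : ∃ A B : ℤ[X], 1 ≤ A.natDegree ∧ 1 ≤ B.natDegree ∧ C (N : ℤ) - G = A * B
    · have h1 : Φ N = ((A N).leadingCoeff,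
          (((A N).map (Int.castRingHom ℂ)).roots).map (HB_u k C0 (tt N))) := if_pos h
      rw [h1]
      obtain ⟨h2, h3, -, h4⟩ := hA N h
      refine ⟨h4, ?_, ?_⟩
      · show (Multiset.map _ _).card ≤ k
        rw [Multiset.card_map, hcard]
        omega
      · intro u hu
        rw [Multiset.mem_map] at hu
        obtain ⟨x, -, rfl⟩ := hu
        exact (Polynomial.mem_nthRootsFinset hk 1).2 (HB_u_pow k C0 (tt N) x)
    · have h1 : Φ N = (0, 0) := if_neg h
      rw [h1]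
      refine ⟨?_, Nat.zero_le _, fun u hu => absurd hu (Multiset.notMem_zero u)⟩
      show |(0 : ℤ)| ≤ _
      rw [abs_zero]
      exact hl.le
  obtain ⟨M, type, htype⟩ := HB_type _ (HB_fin G.leadingCoeff k (Polynomial.nthRootsFinset k (1 : ℂ)))
    Φ hmem
  set K : ℝ := 2 * a * k * 5 ^ k with hK
  have hK0 : 0 < K := by positivity
  have hsa : 0 < Real.sqrt a := Real.sqrt_pos.2 ha0
  refine ⟨M, min κ1 1, 1 / (K * Real.sqrt a), max T0 (max T1 (a * (k : ℝ) ^ k)),
    lt_min hκ1 one_pos, by positivity, le_max_of_le_left hT0, type, ?_⟩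
  intro N N' hN hlt hN' hred hred' htyp
  by_contra hcon
  push Not at hcon
  have hNT0 : T0 ≤ (N : ℝ) := (le_max_left _ _).trans hN
  have hNT1 : T1 ≤ (N : ℝ) := ((le_max_left _ _).trans (le_max_right _ _)).trans hN
  have hNk : a * (k : ℝ) ^ k ≤ (N : ℝ) := ((le_max_right _ _).trans (le_max_right _ _)).trans hN
  have hltR : (N : ℝ) < (N' : ℝ) := by exact_mod_cast hlt
  have hN'κ : (N' : ℝ) ≤ (1 + κ1) * N := by
    refine hN'.trans ?_
    have : min κ1 1 ≤ κ1 := min_le_left _ _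
    have h0 : (0 : ℝ) ≤ N := Nat.cast_nonneg N
    nlinarith
  have hN'2 : (N' : ℝ) ≤ 2 * N := by
    refine hN'.trans ?_
    have : min κ1 1 ≤ 1 := min_le_right _ _
    have h0 : (0 : ℝ) ≤ N := Nat.cast_nonneg N
    nlinarith
  obtain ⟨ht1, ht2⟩ := HA_t ha0 hk (by positivity : (0 : ℝ) ≤ (k : ℝ)) hNk
  obtain ⟨ht1', ht2'⟩ := HA_t ha0 hk (by positivity : (0 : ℝ) ≤ (k : ℝ)) (hNk.trans hltR.le)
  have htN : tt N = ((N : ℝ) / a) ^ ((1 : ℝ) / k) := rfl
  have htN' : tt N' = ((N' : ℝ) / a) ^ ((1 : ℝ) / k) := rfl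
  rw [← htN] at ht1 ht2
  rw [← htN'] at ht1' ht2'
  set t : ℝ := tt N with ht
  set t' : ℝ := tt N' with ht'
  have ht0 : 0 < t := by linarith
  have ht0' : 0 < t' := by linarith
  have ht1le : 1 ≤ t := by linarith
  have hk0 : k ≠ 0 := by omega
  have htt2 : t' ≤ 2 * t := by
    rw [← pow_le_pow_iff_left₀ ht0'.le (by positivity) hk0, mul_pow, ht2, ht2']
    have h1 : (2 : ℝ) ≤ 2 ^ k := by
      calc (2 : ℝ) = 2 ^ 1 := (pow_one _).symm
        _ ≤ 2 ^ k := pow_le_pow_right₀ (by norm_num) hk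
    calc (N' : ℝ) / a ≤ (2 * N) / a := by gcongr
      _ = 2 * ((N : ℝ) / a) := by ring
      _ ≤ 2 ^ k * ((N : ℝ) / a) := by
          have : 0 ≤ (N : ℝ) / a := by positivity
          gcongr
  -- the two factors
  obtain ⟨hd1, hd2, ⟨B, hB⟩, hlc⟩ := hA N hred
  obtain ⟨hd1', hd2', ⟨B', hB'⟩, hlc'⟩ := hA N' hred'
  have hΦN : Φ N = ((A N).leadingCoeff,
      (((A N).map (Int.castRingHom ℂ)).roots).map (HB_u k C0 (tt N))) := if_pos hred
  have hΦN' : Φ N' = ((A N').leadingCoeff,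
      (((A N').map (Int.castRingHom ℂ)).roots).map (HB_u k C0 (tt N'))) := if_pos hred'
  have hΦΦ := htype N N' htyp
  rw [hΦN, hΦN', Prod.mk.injEq] at hΦΦ
  obtain ⟨hlceq, hmaps⟩ := hΦΦ
  have hdeg : (A N).natDegree = (A N').natDegree := by
    have h1 := congrArg Multiset.card hmaps
    rwa [Multiset.card_map, Multiset.card_map, hcard, hcard] at h1
  have hrel := Multiset.rel_map.1 (Multiset.rel_eq.2 hmaps)
  set d : ℕ := (A N).natDegree with hd
  -- equal values
  have heval : ∀ y : ℕ, y < d → (A N).eval (y : ℤ) = (A N').eval (y : ℤ) := by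
    intro y hy
    have hyt : ‖((y : ℤ) : ℂ)‖ ≤ t := by
      rw [Int.cast_natCast, Complex.norm_natCast]
      have : (y : ℝ) ≤ (k : ℝ) := by
        have : y ≤ k := by omega
        exact_mod_cast this
      linarith
    have hrel2 : Multiset.Rel (fun a b => ‖a - b‖ ≤ 2 * ((N' : ℝ) - N) / t ^ (k - 1) ∧
        ‖((y : ℤ) : ℂ) - a‖ ≤ 5 * t ∧ ‖((y : ℤ) : ℂ) - b‖ ≤ 5 * t)
        ((A N).map (Int.castRingHom ℂ)).roots ((A N').map (Int.castRingHom ℂ)).roots := by
      refine Multiset.Rel.mono hrel ?_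
      intro x hx x' hx' hxx'
      have e1 := HB_root G hB hx
      have e2 := HB_root G hB' hx'
      rw [Int.cast_natCast] at e1 e2
      obtain ⟨n1, n2⟩ := hnear (N : ℝ) hNT0 x (by rw [e1]; norm_cast)
      obtain ⟨n1', n2'⟩ := hnear (N' : ℝ) (hNT0.trans hltR.le) x' (by rw [e2]; norm_cast)
      rw [← htN] at n1 n2
      rw [← htN'] at n1' n2'
      have m1 := HB_u_near n2
      have m2 := HB_u_near n2'
      rw [← ht, ← ht'] at hxx'
      rw [← hxx'] at m2
      have hL := (hlip (N : ℝ) (N' : ℝ) hNT1 hltR.le hN'κ (HB_u k C0 t x) x x'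
        (HB_u_pow k C0 t x) (by rw [e1]; norm_cast) (by rw [e2]; norm_cast) m1 m2).1
      rw [← htN] at hL
      refine ⟨?_, ?_, ?_⟩
      · rw [le_div_iff₀ (by positivity)]
        exact hL
      · refine (norm_sub_le _ _).trans ?_
        linarith
      · refine (norm_sub_le _ _).trans ?_
        linarith
    obtain ⟨-, -, hP⟩ := HB_prod (by positivity : (0 : ℝ) ≤ 5 * t)
      (by
        have : 0 ≤ (N' : ℝ) - N := by linarith
        positivity : (0 : ℝ) ≤ 2 * ((N' : ℝ) - N) / t ^ (k - 1)) ((y : ℤ) : ℂ) hrel2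
    rw [hcard, ← hd] at hP
    have hE := HB_eval (A N) y
    have hE' := HB_eval (A N') y
    rw [← hlceq] at hE'
    set p : ℂ := (((A N).map (Int.castRingHom ℂ)).roots.map (fun a => ((y : ℤ) : ℂ) - a)).prod
    set p' : ℂ := (((A N').map (Int.castRingHom ℂ)).roots.map (fun a => ((y : ℤ) : ℂ) - a)).prod
    have hnorm : ‖(((A N).eval (y : ℤ) - (A N').eval (y : ℤ) : ℤ) : ℂ)‖ ≤ a * ‖p - p'‖ := by
      rw [Int.cast_sub, hE, hE', ← mul_sub, norm_mul]
      refine mul_le_mul_of_nonneg_right ?_ (norm_nonneg _)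
      rw [Complex.norm_intCast, ha]
      exact_mod_cast hlc
    have hs : t ^ d ≤ Real.sqrt (t ^ k) := by
      apply Real.le_sqrt_of_sq_le
      rw [← pow_mul]
      exact pow_le_pow_right₀ ht1le (by omega)
    have hKN : K * ((N' : ℝ) - N) < Real.sqrt (t ^ k) := by
      rw [ht2, Real.sqrt_div (Nat.cast_nonneg N), lt_div_iff₀ hsa]
      rw [one_div, ← div_eq_inv_mul, lt_div_iff₀ (by positivity)] at hcon
      linarith
    have hfinal : a * ‖p - p'‖ < 1 := by
      have h0 : 0 < t ^ k := by positivity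
      have hdk : (d : ℝ) ≤ (k : ℝ) := by
        have : d ≤ k := by omega
        exact_mod_cast this
      have h5 : (5 : ℝ) ^ d ≤ 5 ^ k := pow_le_pow_right₀ (by norm_num) (by omega)
      have hdiff : 0 ≤ (N' : ℝ) - N := by linarith
      have e1 : t ^ k = t ^ (k - 1) * t := by
        rw [← pow_succ, Nat.sub_add_cancel hk]
      have e2 : a * ((d : ℝ) * (5 * t) ^ d * (2 * ((N' : ℝ) - N) / t ^ (k - 1))) * t ^ (k - 1) =
          (2 * a * d * 5 ^ d) * ((N' : ℝ) - N) * t ^ d := by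
        rw [mul_pow]
        field_simp
      have e3 : (2 * a * d * 5 ^ d) * ((N' : ℝ) - N) * t ^ d ≤ K * ((N' : ℝ) - N) * t ^ d := by
        rw [hK]
        gcongr
      have e4 : K * ((N' : ℝ) - N) * t ^ d < t ^ k := by
        calc K * ((N' : ℝ) - N) * t ^ d < Real.sqrt (t ^ k) * t ^ d := by gcongr
          _ ≤ Real.sqrt (t ^ k) * Real.sqrt (t ^ k) := by gcongr
          _ = t ^ k := Real.mul_self_sqrt h0.le
      have e5 : a * (‖p - p'‖ * (5 * t)) * t ^ (k - 1) < t ^ k := by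
        refine lt_of_le_of_lt ?_ (lt_of_le_of_lt e3 e4)
        rw [← e2]
        gcongr
      rw [e1] at e5
      have e6 : (5 * (a * ‖p - p'‖)) * (t ^ (k - 1) * t) < 1 * (t ^ (k - 1) * t) := by
        have : a * (‖p - p'‖ * (5 * t)) * t ^ (k - 1) =
          (5 * (a * ‖p - p'‖)) * (t ^ (k - 1) * t) := by ring
        rw [← this, one_mul]
        exact e5
      have e7 := lt_of_mul_lt_mul_right e6 (by positivity)
      have e8 : 0 ≤ a * ‖p - p'‖ := by positivity
      linarith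
    have hlt1 : |(A N).eval (y : ℤ) - (A N').eval (y : ℤ)| < 1 := by
      have h1 := lt_of_le_of_lt hnorm hfinal
      rw [Complex.norm_intCast] at h1
      exact_mod_cast h1
    rw [Int.abs_lt_one_iff] at hlt1
    linarith
  have hAA : A N = A N' := by
    have hA0 : A N ≠ 0 := by
      intro h0
      rw [hd, h0, Polynomial.natDegree_zero] at hd1
      omega
    have hA0' : A N' ≠ 0 := by
      intro h0
      rw [h0, Polynomial.natDegree_zero] at hd1'
      omega
    refine Polynomial.eq_of_degree_le_of_eval_finset_eq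
      (s := (Finset.range d).image (fun n : ℕ => (n : ℤ))) ?_ ?_ hlceq ?_
    · rw [Finset.card_image_of_injective _ Nat.cast_injective, Finset.card_range,
        Polynomial.degree_eq_natDegree hA0]
    · rw [Polynomial.degree_eq_natDegree hA0, Polynomial.degree_eq_natDegree hA0', ← hdeg]
    · intro x hx
      rw [Finset.mem_image] at hx
      obtain ⟨y, hy, rfl⟩ := hx
      exact heval y (Finset.mem_range.1 hy)
  have hdvd : A N ∣ C ((N' : ℤ) - N) := by
    have h1 : C ((N' : ℤ) - N) = (C (N' : ℤ) - G) - (C (N : ℤ) - G) := by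
      rw [Polynomial.C_sub]
      ring
    rw [h1]
    exact dvd_sub (by rw [hB', hAA]; exact dvd_mul_right _ _) (by rw [hB]; exact dvd_mul_right _ _)
  have hne : (C ((N' : ℤ) - N) : ℤ[X]) ≠ 0 := by
    rw [Ne, Polynomial.C_eq_zero]
    have : (N : ℤ) < N' := by exact_mod_cast hlt
    omega
  have h2 := Polynomial.natDegree_le_of_dvd hdvd hne
  rw [Polynomial.natDegree_C] at h2
  omega

end Pool.Agent.Lib.H33C
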