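import Pool.Agent.Lib.H33C.HB
import Pool.Agent.Lib.H33C.Defs

/-!
# Chunk HC: `N - G` is reducible for few `N`
-/

open Polynomial Finset

namespace Pool.Agent.Lib.H33C

open scoped Classical in
/-- Wlog `ε ≤ 1`. The `N ≤ ε Y/2` are at most `ε Y/2`. Cover `(ε Y/2, Y]` by the windows
`(T_j, (1+κ) T_j]`, `T_j = (1+κ)^j ε Y/2`, `0 ≤ j < J`, `J` depends only on `κ, ε`. In a window the reducible `N` of one
type have gaps `≥ c √(εY/2)` (`red_gap`), so there are at most `1 + κ T_j/(c √(ε Y/2)) ≤ C √Y` of them (map `N` to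
`⌊N/(c √(εY/2))⌋`: injective). Total `≤ (M+1) J C √Y ≤ ε Y/2` for large `Y`. -/
theorem red_rare (G : ℤ[X]) (hk : 1 ≤ G.natDegree) (hl : 0 < G.leadingCoeff) (ε : ℝ)
    (hε : 0 < ε) : ∃ Y₀ : ℕ, ∀ Y : ℕ, Y₀ ≤ Y →
    (((Icc 1 Y).filter (fun N => Red G N)).card : ℝ) ≤ ε * Y := by
  obtain ⟨M, κ, c, T, hκ, hc, hT, type, htype⟩ := red_gap G hk hl
  obtain ⟨s, hs⟩ : ∃ s, s = √(ε / 2) := ⟨_, rfl⟩
  have hs0 : 0 < s := by
    rw [hs]
    exact Real.sqrt_pos.2 (by positivity)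
  obtain ⟨K, hK⟩ : ∃ K : ℝ, K = ((M : ℝ) + 1) * (1 / (c * s) + 1) := ⟨_, rfl⟩
  have hK0 : 0 < K := by rw [hK]; positivity
  have t1 : Filter.Tendsto (fun Y : ℕ => √(Y : ℝ)) Filter.atTop Filter.atTop :=
    Real.tendsto_sqrt_atTop.comp tendsto_natCast_atTop_atTop
  have t2 : Filter.Tendsto (fun Y : ℕ => ε / 2 * (Y : ℝ)) Filter.atTop Filter.atTop :=
    Filter.Tendsto.const_mul_atTop (by positivity) tendsto_natCast_atTop_atTop
  have t3 : Filter.Tendsto (fun Y : ℕ => √(ε / 2 * (Y : ℝ))) Filter.atTop Filter.atTop :=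
    Real.tendsto_sqrt_atTop.comp t2
  obtain ⟨Y₀, hY₀⟩ := Filter.eventually_atTop.1 (((t1.eventually_ge_atTop 1).and
    (t1.eventually_ge_atTop (2 * K / ε))).and
      ((t2.eventually_ge_atTop T).and (t3.eventually_ge_atTop (c / κ))))
  refine ⟨Y₀, fun Y hY => ?_⟩
  obtain ⟨⟨b1, b2⟩, b3, b4⟩ := hY₀ Y hY
  obtain ⟨A, hA⟩ : ∃ A : ℝ, A = ε / 2 * Y := ⟨_, rfl⟩
  rw [← hA] at b3 b4
  have hA0 : 0 < A := by linarith
  have hsA : 0 < √A := Real.sqrt_pos.2 hA0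
  have hAs : √A = s * √(Y : ℝ) := by
    rw [hA, hs]
    exact Real.sqrt_mul (by positivity) _
  have hAA : √A * √A = A := Real.mul_self_sqrt hA0.le
  obtain ⟨δ, hδ⟩ : ∃ δ : ℝ, δ = c * √A := ⟨_, rfl⟩
  have hδ0 : 0 < δ := by rw [hδ]; positivity
  have hδA : δ ≤ κ * A := by
    rw [div_le_iff₀ hκ] at b4
    calc δ = c * √A := hδ
      _ ≤ (√A * κ) * √A := mul_le_mul_of_nonneg_right b4 hsA.le
      _ = κ * (√A * √A) := by ring
      _ = κ * A := by rw [hAA]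
  have key : ∀ N N' : ℕ, A < N → Red G N → Red G N' → N < N' → type N = type N' →
      ⌊(N : ℝ) / δ⌋₊ = ⌊(N' : ℝ) / δ⌋₊ → False := by
    intro N N' h1 h2 h3 h4 h5 h6
    have h7 : (N' : ℝ) / δ < ⌊(N' : ℝ) / δ⌋₊ + 1 := Nat.lt_floor_add_one _
    have h8 : (⌊(N : ℝ) / δ⌋₊ : ℝ) ≤ (N : ℝ) / δ := Nat.floor_le (by positivity)
    rw [← h6] at h7
    have h9 : (N' : ℝ) / δ < (N : ℝ) / δ + 1 := by linarith
    rw [div_lt_iff₀ hδ0, add_mul, div_mul_cancel₀ _ hδ0.ne', one_mul] at h9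
    have h10 : κ * A ≤ κ * N := mul_le_mul_of_nonneg_left h1.le hκ.le
    have h11 := htype N N' (by linarith) h4 (by linarith) h2 h3 h5
    have h12 : √A ≤ √(N : ℝ) := Real.sqrt_le_sqrt h1.le
    have h13 : δ ≤ c * √(N : ℝ) := by
      rw [hδ]
      exact mul_le_mul_of_nonneg_left h12 hc.le
    linarith
  have hsub : (Icc 1 Y).filter (fun N => Red G N) ⊆
      Icc 1 ⌊A⌋₊ ∪ (Icc 1 Y).filter (fun N : ℕ => A < N ∧ Red G N) := by
    intro N hN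
    rw [mem_filter, mem_Icc] at hN
    rw [mem_union, mem_Icc, mem_filter, mem_Icc]
    rcases le_or_gt (N : ℝ) A with h | h
    · exact Or.inl ⟨hN.1.1, Nat.le_floor h⟩
    · exact Or.inr ⟨hN.1, h, hN.2⟩
  have hc1 : ((Icc 1 ⌊A⌋₊).card : ℝ) ≤ A := by
    rw [Nat.card_Icc, Nat.add_sub_cancel]
    exact Nat.floor_le hA0.le
  have hc2 : ((Icc 1 Y).filter (fun N : ℕ => A < N ∧ Red G N)).card ≤
      (M + 1) * (⌊(Y : ℝ) / δ⌋₊ + 1) := by
    have h1 : ((univ : Finset (Fin (M + 1))) ×ˢ range (⌊(Y : ℝ) / δ⌋₊ + 1)).card =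
        (M + 1) * (⌊(Y : ℝ) / δ⌋₊ + 1) := by
      rw [card_product, card_univ, Fintype.card_fin, card_range]
    rw [← h1]
    apply card_le_card_of_injOn (fun N : ℕ => (type N, ⌊(N : ℝ) / δ⌋₊))
    · intro N hN
      rw [mem_coe, mem_filter, mem_Icc] at hN
      rw [mem_coe, mem_product]
      refine ⟨mem_univ _, mem_range.2 (Nat.lt_succ_of_le (Nat.floor_le_floor ?_))⟩
      have : (N : ℝ) ≤ Y := by exact_mod_cast hN.1.2
      gcongr
    · intro N hN N' hN' heq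
      rw [mem_coe, mem_filter] at hN hN'
      have h1 : type N = type N' := congrArg Prod.fst heq
      have h2 : ⌊(N : ℝ) / δ⌋₊ = ⌊(N' : ℝ) / δ⌋₊ := congrArg Prod.snd heq
      rcases Nat.lt_trichotomy N N' with h | h | h
      · exact (key N N' hN.2.1 hN.2.2 hN'.2.2 h h1 h2).elim
      · exact h
      · exact (key N' N hN'.2.1 hN'.2.2 hN.2.2 h h1.symm h2.symm).elim
  have hc3 : (((Icc 1 Y).filter (fun N : ℕ => A < N ∧ Red G N)).card : ℝ) ≤ ε / 2 * Y := by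
    have h1 : (⌊(Y : ℝ) / δ⌋₊ : ℝ) ≤ (Y : ℝ) / δ := Nat.floor_le (by positivity)
    have hsY : 0 < √(Y : ℝ) := by linarith
    have hYY : √(Y : ℝ) * √(Y : ℝ) = Y := Real.mul_self_sqrt (by positivity)
    have h2 : (Y : ℝ) / δ = 1 / (c * s) * √(Y : ℝ) := by
      rw [hδ, hAs]
      nth_rw 1 [← hYY]
      field_simp
    calc (((Icc 1 Y).filter (fun N : ℕ => A < N ∧ Red G N)).card : ℝ)
        ≤ (((M + 1) * (⌊(Y : ℝ) / δ⌋₊ + 1) : ℕ) : ℝ) := by exact_mod_cast hc2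
      _ = ((M : ℝ) + 1) * ((⌊(Y : ℝ) / δ⌋₊ : ℝ) + 1) := by push_cast; ring
      _ ≤ ((M : ℝ) + 1) * (1 / (c * s) * √(Y : ℝ) + √(Y : ℝ)) := by
          apply mul_le_mul_of_nonneg_left _ (by positivity)
          rw [← h2]
          linarith
      _ = K * √(Y : ℝ) := by rw [hK]; ring
      _ ≤ (ε / 2 * √(Y : ℝ)) * √(Y : ℝ) := by
          apply mul_le_mul_of_nonneg_right _ hsY.le
          rw [div_le_iff₀ hε] at b2
          linarith
      _ = ε / 2 * Y := by rw [mul_assoc, hYY]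
  have h1 := (card_le_card hsub).trans (card_union_le _ _)
  have h2 : (((Icc 1 Y).filter (fun N => Red G N)).card : ℝ) ≤
      ((Icc 1 ⌊A⌋₊).card : ℝ) + (((Icc 1 Y).filter (fun N : ℕ => A < N ∧ Red G N)).card : ℝ) := by
    exact_mod_cast h1
  linarith

end Pool.Agent.Lib.H33C
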