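import Pool.Agent.Lib.H33C.Defs
import Pool.Agent.Lib.H33B.FA1

/-!
# Chunk MA1: the model under the distribution of the prime values of `F` over the classes of `G`
-/

open Finset Polynomial Filter Topology

namespace Pool.Agent.Lib.H33C

open Pool.Agent.Lib.H59 (argSet argCount omegaN seriesTrunc)
open Pool.Agent.Lib.H33B

variable {g : ℕ}

theorem MA1_key (P : ℕ) (hP : 0 < P) (z : ℤ) (c : ℕ) (hc : c < P) :
    (P : ℤ) ∣ z - c ↔ (z % (P : ℤ)).toNat = c := by
  have hP' : (0 : ℤ) < P := by exact_mod_cast hP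
  have h0 := Int.emod_nonneg z hP'.ne'
  have hc1 : (c : ℤ) % P = c := Int.emod_eq_of_lt (by positivity) (by exact_mod_cast hc)
  constructor
  · intro h
    have h1 : (c : ℤ) ≡ z [ZMOD P] := Int.modEq_iff_dvd.2 h
    have h2 : (c : ℤ) % P = z % P := h1
    rw [hc1] at h2
    rw [← h2, Int.toNat_natCast]
  · intro h
    apply Int.modEq_iff_dvd.1
    show (c : ℤ) % P = z % P
    rw [hc1, ← h, Int.toNat_of_nonneg h0]

theorem MA1_lt (P : ℕ) (hP : 0 < P) (z : ℤ) : (z % (P : ℤ)).toNat < P := by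
  have hP' : (0 : ℤ) < P := by exact_mod_cast hP
  have h0 := Int.emod_nonneg z hP'.ne'
  have h1 := Int.emod_lt_of_pos z hP'
  omega

theorem MA1_Lw (G : ℤ[X]) (w N n c : ℕ) (h : (PW w : ℤ) ∣ G.eval (n : ℤ) - c) :
    Lw w (N - G.eval (n : ℤ)) = Lw w ((N : ℤ) - c) := by
  refine FA1_Lw w ?_
  have e : ((N : ℤ) - G.eval (n : ℤ)) - ((N : ℤ) - c) = -(G.eval (n : ℤ) - c) := by ring
  rw [e, dvd_neg]
  exact h

theorem MA1_split (F : Fin g → ℤ[X]) (G : ℤ[X]) (w N : ℕ)
    (hA : argSet G N = ↑(Finset.Icc 1 (argCount G N))) :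
    Mw F G w N = ∑ c ∈ range (PW w), Lw w ((N : ℤ) - (c : ℕ)) *
      (cntG F G (PW w) c (argCount G N) : ℝ) := by
  classical
  have hP : 0 < PW w := PW_pos w
  have h1 : (AF F (argCount G N)).filter (fun n : ℕ => G.eval (n : ℤ) < N) =
      AF F (argCount G N) := by
    rw [filter_eq_self]
    intro n hn
    unfold AF at hn
    rw [mem_filter] at hn
    have h2 : n ∈ argSet G N := by
      rw [hA]
      exact_mod_cast hn.1
    have h3 := h2.2
    omega
  unfold Mw
  rw [h1, ← sum_fiberwise_of_maps_to (s := AF F (argCount G N)) (t := range (PW w))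
    (g := fun n : ℕ => (G.eval (n : ℤ) % (PW w : ℤ)).toNat)
    (fun n _ => mem_range.mpr (MA1_lt _ hP _))]
  refine sum_congr rfl fun c hc => ?_
  have hc' := mem_range.mp hc
  have h2 : ∀ n ∈ (AF F (argCount G N)).filter
      (fun n : ℕ => (G.eval (n : ℤ) % (PW w : ℤ)).toNat = c),
      Lw w (N - G.eval (n : ℤ)) = Lw w ((N : ℤ) - c) := by
    intro n hn
    exact MA1_Lw G w N n c ((MA1_key (PW w) hP _ c hc').2 (mem_filter.mp hn).2)
  rw [sum_congr rfl h2, sum_const, nsmul_eq_mul, mul_comm]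
  congr 2
  unfold cntG
  congr 1
  exact filter_congr fun n _ => (MA1_key (PW w) hP _ c hc').symm

theorem MA1_res (F : Fin g → ℤ[X]) (G : ℤ[X]) (w N : ℕ) :
    ∑ c ∈ range (PW w), Lw w ((N : ℤ) - (c : ℕ)) * (resG F G (PW w) c : ℝ) =
    ∑ b ∈ (range (PW w)).filter (fun b : ℕ => IsCoprime ((∏ i, F i).eval (b : ℤ)) (PW w : ℤ)),
      Lw w (N - G.eval (b : ℤ)) := by
  classical
  have hP : 0 < PW w := PW_pos w
  rw [← sum_fiberwise_of_maps_to (s := (range (PW w)).filter
    (fun b : ℕ => IsCoprime ((∏ i, F i).eval (b : ℤ)) (PW w : ℤ))) (t := range (PW w))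
    (g := fun n : ℕ => (G.eval (n : ℤ) % (PW w : ℤ)).toNat)
    (fun n _ => mem_range.mpr (MA1_lt _ hP _))]
  refine sum_congr rfl fun c hc => ?_
  have hc' := mem_range.mp hc
  have h2 : ∀ n ∈ ((range (PW w)).filter
      (fun b : ℕ => IsCoprime ((∏ i, F i).eval (b : ℤ)) (PW w : ℤ))).filter
      (fun n : ℕ => (G.eval (n : ℤ) % (PW w : ℤ)).toNat = c),
      Lw w (N - G.eval (n : ℤ)) = Lw w ((N : ℤ) - c) := by
    intro n hn
    exact MA1_Lw G w N n c ((MA1_key (PW w) hP _ c hc').2 (mem_filter.mp hn).2)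
  rw [sum_congr rfl h2, sum_const, nsmul_eq_mul, mul_comm]
  congr 2
  unfold resG
  rw [filter_filter]
  congr 1
  refine filter_congr fun n _ => ?_
  rw [MA1_key (PW w) hP _ c hc']

/-- Adapt `H33B.model_bh`. For `N` large `argSet G N = [1, X]`, `X = argCount G N` (`H59.argSet_eq`), and with
`P = PW w` (squarefree, `H33B.PW_squarefree`) `Mw F G w N = ∑_{c mod P} Lw(N - c) cntG F G P c X` (sort the `n` by
`c = G(n) mod P`; `Lw w` is `P`-periodic). `cntG F G P c X = (resG F G P c bhConst F P/(P ∏ deg) + o(1)) X/log^g X`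
for each of the finitely many `c < P`, `Lw ≤ P`, and
`∑_c Lw(N - c) resG F G P c = ∑_{b mod P, (F(b),P) = 1} Lw(N - G(b))`, which with `series_count` is
`P (φ(P)/P)^g seriesTrunc F G N w` (`H33B.FA1_sum` or `H33B.FC1_series`). -/
theorem model_push (F : Fin g → ℤ[X]) (hF : Sys F) (hN : NoFix F) (G : ℤ[X])
    (hk : 1 ≤ G.natDegree) (hl : 0 < G.leadingCoeff)
    (h : ∀ q : ℕ, Squarefree q → BHPush F G q) (w : ℕ) (ε : ℝ) (hε : 0 < ε) :
    ∃ N₀ : ℕ, ∀ N : ℕ, N₀ ≤ N →
    |Mw F G w N - (bhConst F (PW w) * ((Nat.totient (PW w) : ℝ) / PW w) ^ g /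
      ∏ i, ((F i).natDegree : ℝ)) * (dens G g N * seriesTrunc F G N w)| ≤ ε * dens G g N := by
  classical
  have hP : (0 : ℝ) < PW w := by exact_mod_cast PW_pos w
  have ht : (0 : ℝ) < Nat.totient (PW w) := by exact_mod_cast Nat.totient_pos.mpr (PW_pos w)
  obtain ⟨R, hR⟩ : ∃ R, R = (PW w : ℝ) / Nat.totient (PW w) := ⟨_, rfl⟩
  have hR0 : 0 < R := by rw [hR]; positivity
  obtain ⟨δ, hδ⟩ : ∃ δ, δ = ε / (PW w * R) := ⟨_, rfl⟩
  have hδ0 : 0 < δ := by rw [hδ]; positivity
  obtain ⟨k, hk'⟩ : ∃ k, k = bhConst F (PW w) / (PW w * ∏ i, ((F i).natDegree : ℝ)) := ⟨_, rfl⟩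
  have hX := Pool.Agent.Lib.H59.argCount_tendsto hk hl
  have hd := dens_tendsto G hk hl g
  have hgood : ∀ᶠ N : ℕ in atTop, ∀ c ∈ range (PW w),
      |(cntG F G (PW w) c (argCount G N) : ℝ) - resG F G (PW w) c * k * dens G g N| ≤
        δ * dens G g N := by
    rw [Filter.eventually_all_finset]
    intro c _
    have h1 := (h (PW w) (PW_squarefree w) c).comp hX
    rw [← hk'] at h1
    have h2 := (Metric.tendsto_atTop.mp h1) δ hδ0
    obtain ⟨N₁, hN₁⟩ := h2
    filter_upwards [eventually_ge_atTop N₁, hX.eventually_ge_atTop 3] with N hN2 hN3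
    have h3 := hN₁ N hN2
    rw [Real.dist_eq, Function.comp_apply] at h3
    have hx : (3 : ℝ) ≤ argCount G N := by exact_mod_cast hN3
    have hL : 0 < Real.log (argCount G N) := Real.log_pos (by linarith)
    have hD : 0 < dens G g N := by
      unfold H33B.dens
      have : (0 : ℝ) < argCount G N := by linarith
      positivity
    have e1 : (cntG F G (PW w) c (argCount G N) : ℝ) * Real.log (argCount G N) ^ g /
        (argCount G N : ℝ) * dens G g N = (cntG F G (PW w) c (argCount G N) : ℝ) := by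
      unfold H33B.dens
      have h4 : (argCount G N : ℝ) ≠ 0 := by linarith
      field_simp
    calc |(cntG F G (PW w) c (argCount G N) : ℝ) - resG F G (PW w) c * k * dens G g N|
        = |((cntG F G (PW w) c (argCount G N) : ℝ) * Real.log (argCount G N) ^ g /
          (argCount G N : ℝ) - resG F G (PW w) c * k) * dens G g N| := by rw [sub_mul, e1]
      _ = |(cntG F G (PW w) c (argCount G N) : ℝ) * Real.log (argCount G N) ^ g /
          (argCount G N : ℝ) - resG F G (PW w) c * k| * dens G g N := by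
            rw [abs_mul, abs_of_pos hD]
      _ ≤ δ * dens G g N := mul_le_mul_of_nonneg_right h3.le hD.le
  have hall := (hgood.and (Pool.Agent.Lib.H59.argSet_eq hk hl)).and (hd.eventually_ge_atTop 0)
  obtain ⟨N₀, hN₀⟩ := eventually_atTop.mp hall
  refine ⟨N₀, fun N hN1 => ?_⟩
  obtain ⟨⟨h1, h2⟩, h4⟩ := hN₀ N hN1
  rw [MA1_split F G w N h2]
  have e1 : (bhConst F (PW w) * ((Nat.totient (PW w) : ℝ) / PW w) ^ g /
      ∏ i, ((F i).natDegree : ℝ)) * (dens G g N * seriesTrunc F G N w) =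
      ∑ c ∈ range (PW w), Lw w ((N : ℤ) - (c : ℕ)) *
        (resG F G (PW w) c * k * dens G g N) := by
    have e2 : ∑ c ∈ range (PW w), Lw w ((N : ℤ) - (c : ℕ)) *
        (resG F G (PW w) c * k * dens G g N) =
        (∑ c ∈ range (PW w), Lw w ((N : ℤ) - (c : ℕ)) * (resG F G (PW w) c : ℝ)) *
          (k * dens G g N) := by
      rw [sum_mul]
      exact sum_congr rfl fun c _ => by ring
    rw [e2, MA1_res, FA1_sum, hk']
    field_simp
  rw [e1, ← sum_sub_distrib]
  have hterm : ∀ c ∈ range (PW w), |Lw w ((N : ℤ) - (c : ℕ)) *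
      (cntG F G (PW w) c (argCount G N) : ℝ) - Lw w ((N : ℤ) - (c : ℕ)) *
        (resG F G (PW w) c * k * dens G g N)| ≤ R * (δ * dens G g N) := by
    intro c hc
    rw [← mul_sub, abs_mul, abs_of_nonneg (FA1_Lw_nonneg _ _)]
    exact mul_le_mul ((FA1_Lw_le _ _).trans_eq hR.symm) (h1 c hc) (abs_nonneg _) hR0.le
  refine (abs_sum_le_sum_abs _ _).trans ((sum_le_sum hterm).trans (le_of_eq ?_))
  rw [sum_const, card_range, nsmul_eq_mul, hδ]
  field_simp

end Pool.Agent.Lib.H33C
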