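import Pool.Agent.Lib.H33C.MA1
import Pool.Agent.Lib.H33B.FA2

/-!
# Chunk MA2: from the distribution over the classes of `G` to almost all `N`
-/

open Finset Polynomial Filter Topology

namespace Pool.Agent.Lib.H33C

open Pool.Agent.Lib.H59 (argSet argCount Admissible primeCount omegaN seriesTrunc)
open Pool.Agent.Lib.H33B

variable {g : ℕ}

/-- The proof of `H33B.aaT_of_bh` with `model_push` in place of `model_bh`. -/
theorem aaT_of_push (F : Fin g → ℤ[X]) (hF : Sys F) (hN : NoFix F) (G : ℤ[X])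
    (hk : 1 ≤ G.natDegree) (hl : 0 < G.leadingCoeff)
    (h : ∀ q : ℕ, Squarefree q → BHPush F G q) : AlmostAllT F G := by
  classical
  intro ε hε
  set e := min ε 1 with he
  have he0 : 0 < e := by positivity
  have he1 : e ≤ 1 := min_le_right _ _
  have heε : e ≤ ε := min_le_left _ _
  have hDg : (1 : ℝ) ≤ ∏ i, ((F i).natDegree : ℝ) := by
    have h : 0 < ∏ i, (F i).natDegree := Finset.prod_pos fun i _ => hF.deg i
    have h' : 1 ≤ ∏ i, (F i).natDegree := h
    exact_mod_cast h'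
  set Dg : ℝ := ∏ i, ((F i).natDegree : ℝ) with hDgd
  have hDg0 : 0 < Dg := by linarith
  set δ := e / 4 with hδ
  have hδ0 : 0 < δ := by positivity
  obtain ⟨C₁, hC₁, hmom⟩ := moment_inv F hF hN G hk hl
  obtain ⟨C₂, hC₂, Y₂, hdens⟩ := dens_comp G hk hl g δ hδ0
  set η := e / (4 * C₁) with hη
  have hη0 : 0 < η := by positivity
  set τ := min (1 / 2) (e / (4 * ((C₂ + 1) * Dg / η + 2))) with hτ
  have hτ0 : 0 < τ := by positivity
  have hτ1 : τ ≤ 1 / 2 := min_le_left _ _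
  have hτe : τ * ((C₂ + 1) * Dg / η + 2) ≤ e / 4 := by
    have h1 : τ ≤ e / (4 * ((C₂ + 1) * Dg / η + 2)) := min_le_right _ _
    have h2 : 0 < (C₂ + 1) * Dg / η + 2 := by positivity
    calc τ * ((C₂ + 1) * Dg / η + 2) ≤ e / (4 * ((C₂ + 1) * Dg / η + 2)) *
          ((C₂ + 1) * Dg / η + 2) := mul_le_mul_of_nonneg_right h1 h2.le
      _ = e / 4 := by field_simp
  obtain ⟨w₁, hw₁⟩ := prime_model F hF hN G hk hl (e * τ / 4) (by positivity)
  obtain ⟨w₂, hw₂⟩ := bh_tail F hF hN τ hτ0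
  refine ⟨max w₁ w₂, fun w hw => ?_⟩
  obtain ⟨Y₁, hY₁⟩ := hw₁ w ((le_max_left _ _).trans hw)
  have hκ := hw₂ w ((le_max_right _ _).trans hw)
  obtain ⟨N₃, hN₃⟩ := model_push F hF hN G hk hl h w τ hτ0
  obtain ⟨Y₄, hY₄⟩ := FA2_log G hk hl τ δ hτ0 (by linarith) hδ0
  have h5 : ∀ᶠ Y : ℕ in atTop, ((N₃ : ℝ) / δ) ≤ (Y : ℝ) :=
    tendsto_natCast_atTop_atTop.eventually_ge_atTop _
  obtain ⟨Y₅, hY₅⟩ := eventually_atTop.1 h5
  have h6 := (dens_tendsto G hk hl g).eventually_gt_atTop 0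
  obtain ⟨Y₆, hY₆⟩ := eventually_atTop.1 h6
  refine ⟨max (max (max Y₁ Y₂) (max Y₄ Y₅)) (max (max (PW w) 3) Y₆), fun Y hY => ?_⟩
  have hYY1 : Y₁ ≤ Y := le_trans (by simp) hY
  have hYY2 : Y₂ ≤ Y := le_trans (by simp) hY
  have hYY4 : Y₄ ≤ Y := le_trans (by simp) hY
  have hYY5 : Y₅ ≤ Y := le_trans (by simp) hY
  have hYY6 : Y₆ ≤ Y := le_trans (by simp) hY
  have hYY7 : PW w ≤ Y := le_trans (by simp) hY
  have hYY8 : 3 ≤ Y := le_trans (by simp) hY
  have hY3r : (3 : ℝ) ≤ Y := by exact_mod_cast hYY8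
  have hYpos : (0 : ℝ) < Y := by linarith
  have hlY : 0 < Real.log Y := Real.log_pos (by linarith)
  have b1 := hY₁ Y hYY1
  have b5 := hY₅ Y hYY5
  rw [div_le_iff₀ hδ0] at b5
  have b6 := hY₆ Y hYY6
  have b7 := hmom w Y hYY7
  set dY := dens G g Y with hdY
  set E₁ := (Icc 1 Y).filter (fun N : ℕ => (N : ℝ) ≤ δ * Y) with hE₁
  set E₂ := (Icc 1 Y).filter (fun N => (∀ p ∈ Nat.primesBelow w, omegaN F G N p < p) ∧
      seriesTrunc F G N w < η) with hE₂
  set E₃ := (Icc 1 Y).filter (fun N => τ * dY <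
      |(primeCount F G N : ℝ) * Real.log Y - Mw F G w N|) with hE₃
  have c1 : (E₁.card : ℝ) ≤ e / 4 * Y := by
    have hsub : E₁ ⊆ Icc 1 ⌊δ * Y⌋₊ := by
      intro N hN'
      rw [hE₁, mem_filter, mem_Icc] at hN'
      rw [mem_Icc]
      exact ⟨hN'.1.1, Nat.le_floor hN'.2⟩
    have := card_le_card hsub
    rw [Nat.card_Icc, Nat.add_sub_cancel] at this
    calc (E₁.card : ℝ) ≤ (⌊δ * Y⌋₊ : ℝ) := by exact_mod_cast this
      _ ≤ δ * Y := Nat.floor_le (by positivity)
  have c2 : (E₂.card : ℝ) ≤ e / 4 * Y := by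
    have h1 : (E₂.card : ℝ) * η⁻¹ ≤ C₁ * Y := by
      calc (E₂.card : ℝ) * η⁻¹ = ∑ N ∈ E₂, η⁻¹ := by rw [sum_const, nsmul_eq_mul]
        _ ≤ ∑ N ∈ E₂, (seriesTrunc F G N w)⁻¹ := by
            refine sum_le_sum fun N hN' => ?_
            rw [hE₂, mem_filter] at hN'
            exact inv_anti₀ (FA2_series_pos F G N w hN'.2.1) hN'.2.2.le
        _ ≤ ∑ N ∈ (Icc 1 Y).filter (fun N => ∀ p ∈ Nat.primesBelow w, omegaN F G N p < p),
            (seriesTrunc F G N w)⁻¹ := by
            apply sum_le_sum_of_subset_of_nonneg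
            · intro N hN'
              rw [hE₂, mem_filter] at hN'
              rw [mem_filter]
              exact ⟨hN'.1, hN'.2.1⟩
            · intro N _ _
              exact inv_nonneg.mpr (series_nonneg _ _ _ _)
        _ ≤ C₁ * Y := b7
    rw [← div_eq_mul_inv, div_le_iff₀ hη0] at h1
    calc (E₂.card : ℝ) ≤ C₁ * Y * η := h1
      _ = e / 4 * Y := by rw [hη]; field_simp
  have c3 : (E₃.card : ℝ) ≤ e / 4 * Y := by
    have h1 : (E₃.card : ℝ) * (τ * dY) ≤ e * τ / 4 * Y * dY := by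
      calc (E₃.card : ℝ) * (τ * dY) = ∑ N ∈ E₃, τ * dY := by rw [sum_const, nsmul_eq_mul]
        _ ≤ ∑ N ∈ E₃, |(primeCount F G N : ℝ) * Real.log Y - Mw F G w N| := by
            refine sum_le_sum fun N hN' => ?_
            rw [hE₃, mem_filter] at hN'
            exact hN'.2.le
        _ ≤ ∑ N ∈ Icc 1 Y, |(primeCount F G N : ℝ) * Real.log Y - Mw F G w N| :=
            sum_le_sum_of_subset_of_nonneg (filter_subset _ _) fun _ _ _ => abs_nonneg _
        _ ≤ _ := b1
    have h2 : 0 < τ * dY := by positivity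
    have h3 : (E₃.card : ℝ) * (τ * dY) ≤ (e / 4 * Y) * (τ * dY) := by linarith
    exact le_of_mul_le_mul_right h3 h2
  have hsub : (Icc 1 Y).filter (fun N => Admissible F G N ∧
      ε * (mainT F G N * seriesTrunc F G N w) <
        |(primeCount F G N : ℝ) - mainT F G N * seriesTrunc F G N w|) ⊆ E₁ ∪ E₂ ∪ E₃ := by
    intro N hN'
    rw [mem_filter] at hN'
    obtain ⟨hNI, hadm, hbig⟩ := hN'
    have hN2 := mem_Icc.mp hNI
    by_contra hc
    have hN1 : ¬ (N : ℝ) ≤ δ * Y := fun h => hc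
      (mem_union_left _ (mem_union_left _ (mem_filter.mpr ⟨hNI, h⟩)))
    have hω : ∀ p ∈ Nat.primesBelow w, omegaN F G N p < p := fun p hp =>
      Pool.Agent.Lib.H59.omegaN_lt hadm (Nat.prime_of_mem_primesBelow hp)
    have hN3 : ¬ seriesTrunc F G N w < η := fun h => hc
      (mem_union_left _ (mem_union_right _ (mem_filter.mpr ⟨hNI, hω, h⟩)))
    have hN4 : ¬ τ * dY < |(primeCount F G N : ℝ) * Real.log Y - Mw F G w N| := fun h => hc
      (mem_union_right _ (mem_filter.mpr ⟨hNI, h⟩))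
    push Not at hN1 hN3 hN4
    obtain ⟨l1, l2⟩ := hY₄ Y N hYY4 hN1 hN2.2
    obtain ⟨m1, m2, m3⟩ := hdens Y N hYY2 hN1.le hN2.2
    have hNN : N₃ ≤ N := by
      have : (N₃ : ℝ) ≤ N := by linarith
      exact_mod_cast this
    have hM := hN₃ N hNN
    have hkpos : (0 : ℝ) < G.natDegree := by exact_mod_cast hk
    have hTL : mainT F G N * Real.log Y = dens G g N / Dg *
        (Real.log Y / (G.natDegree * Real.log (argCount G N : ℝ))) := by
      unfold mainT Pool.Agent.Lib.H33B.dens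
      rw [← hDgd, pow_succ]
      field_simp
    have hfin := FA2_real (primeCount F G N) (Mw F G w N) (mainT F G N) (seriesTrunc F G N w)
      (dens G g N) dY (Real.log Y) Dg _ _ τ e η C₂ hη0 hN3 m1 hDg hTL l2 hτ0.le hτ1 hlY hN4 m2
      hC₂.le hM hκ hτe
    have hT : 0 ≤ mainT F G N := by
      unfold mainT
      have : 0 ≤ Real.log (argCount G N : ℝ) := Real.log_natCast_nonneg _
      positivity
    have hS : 0 ≤ seriesTrunc F G N w := series_nonneg _ _ _ _
    have hfin2 : e * (mainT F G N * seriesTrunc F G N w) ≤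
        ε * (mainT F G N * seriesTrunc F G N w) :=
      mul_le_mul_of_nonneg_right heε (by positivity)
    linarith
  have hcard := card_le_card hsub
  have hcu1 := card_union_le (E₁ ∪ E₂) E₃
  have hcu2 := card_union_le E₁ E₂
  have hcard2 : (((Icc 1 Y).filter (fun N => Admissible F G N ∧
      ε * (mainT F G N * seriesTrunc F G N w) <
        |(primeCount F G N : ℝ) - mainT F G N * seriesTrunc F G N w|)).card : ℝ) ≤
      E₁.card + E₂.card + E₃.card := by
    have : ((Icc 1 Y).filter (fun N => Admissible F G N ∧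
      ε * (mainT F G N * seriesTrunc F G N w) <
        |(primeCount F G N : ℝ) - mainT F G N * seriesTrunc F G N w|)).card ≤
      E₁.card + E₂.card + E₃.card := by omega
    exact_mod_cast this
  have hfin : e * Y ≤ ε * Y := mul_le_mul_of_nonneg_right heε hYpos.le
  have : 0 ≤ e * Y := by positivity
  linarith

end Pool.Agent.Lib.H33C
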