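import Pool.Agent.Lib.H33C.Defs
import Pool.Agent.Lib.H33B.FC1

/-!
# Chunk MB1: `N` that are not admissible
-/

open Finset Polynomial

namespace Pool.Agent.Lib.H33C

open Pool.Agent.Lib.H59 (argSet argCount Admissible primeCount omegaN seriesTrunc rootCount)
open Pool.Agent.Lib.H33B

variable {g : ℕ}

theorem MB1_zero (F : Fin g → ℤ[X]) (G : ℤ[X]) (N w p : ℕ) (hp : p.Prime) (hpw : p < w)
    (hall : ∀ n : ℤ, (p : ℤ) ∣ ((∏ i, F i) * (C (N : ℤ) - G)).eval n) :
    seriesTrunc F G N w = 0 := by
  have h3 : omegaN F G N p = p := by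
    unfold omegaN
    rw [filter_true_of_mem (fun a _ => hall _), card_range]
  unfold seriesTrunc
  apply Finset.prod_eq_zero (i := p)
  · rw [Nat.mem_primesBelow]
    exact ⟨hpw, hp⟩
  · rw [h3, div_self (by exact_mod_cast hp.ne_zero), sub_self, zero_mul]

theorem MB1_natDegree (G : ℤ[X]) (N : ℕ) : (C (N : ℤ) - G : ℤ[X]).natDegree = G.natDegree := by
  rw [natDegree_sub, natDegree_sub_C]

/-- a constant factor -/
theorem MB1_const (G : ℤ[X]) (hk : 1 ≤ G.natDegree) (hl : 0 < G.leadingCoeff) (N : ℕ) (a b : ℤ[X])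
    (h : C (N : ℤ) - G = a * b) (ha : ¬ IsUnit a) (ha0 : a.natDegree = 0) :
    ∃ p : ℕ, p.Prime ∧ p ≤ G.leadingCoeff.toNat ∧ ∀ n : ℤ, (p : ℤ) ∣ (C (N : ℤ) - G).eval n := by
  rw [eq_C_of_natDegree_eq_zero ha0] at h ha
  generalize a.coeff 0 = c at h ha
  have hc : ¬ IsUnit c := fun hu => ha (isUnit_C.mpr hu)
  have hc1 : c.natAbs ≠ 1 := fun h1 => hc (Int.isUnit_iff_natAbs_eq.mpr h1)
  obtain ⟨p, hp, hpc⟩ := Nat.exists_prime_and_dvd hc1
  have hpc' : (p : ℤ) ∣ c := Int.natCast_dvd.mpr hpc
  refine ⟨p, hp, ?_, fun n => ?_⟩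
  · have h1 := congrArg (fun q : ℤ[X] => q.coeff G.natDegree) h
    simp only [coeff_sub, coeff_C_mul] at h1
    rw [coeff_C, if_neg (by omega)] at h1
    have h2 : (p : ℤ) ∣ G.leadingCoeff := by
      have h3 : G.leadingCoeff = - (c * b.coeff G.natDegree) := by
        rw [← h1]
        unfold leadingCoeff
        ring
      rw [h3, dvd_neg]
      exact hpc'.mul_right _
    have h3 := Int.le_of_dvd hl h2
    omega
  · rw [h, eval_mul, eval_C]
    exact hpc'.mul_right _

/-- As `H33B.series_not_adm`. If `N - G` is not irreducible, then, not being a product of two polynomials of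
positive degree, it has a constant factor which is not a unit, so all its coefficients are divisible by a prime
`p`, `p ∣ lc(G)`, `p ≤ lc(G) < w`, `omegaN F G N p = p`, and the factor of `seriesTrunc` at `p` vanishes. If it is
irreducible, some prime `p` divides all values of `F_1 ⋯ F_g (N - G)`, a primitive polynomial (product of primitive
ones) of degree `≤ ∑ deg F_i + deg G`, so `p ≤ ∑ deg F_i + deg G` (`H59.rootCount_le_natDegree`). -/
theorem series_not_admG (F : Fin g → ℤ[X]) (hF : Sys F) (G : ℤ[X]) (hk : 1 ≤ G.natDegree)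
    (hl : 0 < G.leadingCoeff) (N w : ℕ)
    (hw : ∑ i, (F i).natDegree + G.natDegree + G.leadingCoeff.toNat < w)
    (hadm : ¬ Admissible F G N) (hred : ¬ Red G N) : seriesTrunc F G N w = 0 := by
  classical
  by_cases hirr : Irreducible (C (N : ℤ) - G : ℤ[X])
  · have h1 : ∃ p : ℕ, p.Prime ∧ ∀ n : ℤ, (p : ℤ) ∣ ((∏ i, F i) * (C (N : ℤ) - G)).eval n := by
      by_contra hc
      push Not at hc
      apply hadm
      refine ⟨hirr, fun p hp hall => ?_⟩
      obtain ⟨n, hn⟩ := hc p hp
      exact hn (hall n)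
    obtain ⟨p, hp, hall⟩ := h1
    have hnd := MB1_natDegree G N
    have hprim : ((∏ i, F i) * (C (N : ℤ) - G)).IsPrimitive := by
      apply IsPrimitive.mul
      · apply Finset.prod_induction _ IsPrimitive (fun a b ha hb => ha.mul hb)
        · exact isPrimitive_one
        · intro i _
          exact (hF.irr i).isPrimitive (by have := hF.deg i; omega)
      · exact hirr.isPrimitive (by rw [hnd]; omega)
    have h2 : omegaN F G N p ≤ ∑ i, (F i).natDegree + G.natDegree := by
      rw [Pool.Agent.Lib.H59.omegaN_eq]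
      refine (Pool.Agent.Lib.H59.rootCount_le_natDegree hprim hp).trans ?_
      refine natDegree_mul_le.trans ?_
      rw [hnd]
      exact Nat.add_le_add_right (natDegree_prod_le _ _) _
    have h3 : omegaN F G N p = p := by
      unfold omegaN
      rw [filter_true_of_mem (fun a _ => hall _), card_range]
    exact MB1_zero F G N w p hp (by omega) hall
  · have hu : ¬ IsUnit (C (N : ℤ) - G : ℤ[X]) := by
      intro h
      have h1 := natDegree_eq_zero_of_isUnit h
      rw [MB1_natDegree] at h1
      omega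
    rw [irreducible_iff] at hirr
    push Not at hirr
    obtain ⟨a, b, hab, ha, hb⟩ := hirr hu
    have h1 : ∃ p : ℕ, p.Prime ∧ p ≤ G.leadingCoeff.toNat ∧
        ∀ n : ℤ, (p : ℤ) ∣ (C (N : ℤ) - G).eval n := by
      by_cases ha0 : a.natDegree = 0
      · exact MB1_const G hk hl N a b hab ha ha0
      · by_cases hb0 : b.natDegree = 0
        · exact MB1_const G hk hl N b a (by rw [hab, mul_comm]) hb hb0
        · exact absurd ⟨a, b, Nat.one_le_iff_ne_zero.mpr ha0, Nat.one_le_iff_ne_zero.mpr hb0, hab⟩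
            hred
    obtain ⟨p, hp, hpl, hall⟩ := h1
    refine MB1_zero F G N w p hp (by omega) fun n => ?_
    rw [eval_mul]
    exact (hall n).mul_left _

end Pool.Agent.Lib.H33C
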