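import Pool.Agent.Lib.H33C.Defs
import Pool.Agent.Lib.H33B.AC

/-!
# Chunk MB4: the density in short windows
-/

open Finset Polynomial Filter Topology

namespace Pool.Agent.Lib.H33C

open Pool.Agent.Lib.H59 (argSet argCount argCount_tendsto Admissible primeCount)
open Pool.Agent.Lib.H33B

theorem MB4_root (x y A B : ℝ) (k : ℕ) (hk : 1 ≤ k) (hx : 0 < x) (hy : 0 < y) (hA : 0 < A)
    (hAB : A ≤ B) (h : A * x ^ k ≤ B * y ^ k) : A * x ≤ B * y := by
  rcases le_or_gt x y with hxy | hxy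
  · exact mul_le_mul hAB hxy hx.le (hA.le.trans hAB)
  · obtain ⟨j, rfl⟩ : ∃ j, k = j + 1 := ⟨k - 1, by omega⟩
    have h1 : A * (x * y ^ j) ≤ A * x ^ (j + 1) := by
      rw [pow_succ' x j]
      exact mul_le_mul_of_nonneg_left
        (mul_le_mul_of_nonneg_left (pow_le_pow_left₀ hy.le hxy.le j) hx.le) hA.le
    have h2 : (A * x) * y ^ j ≤ (B * y) * y ^ j := by
      calc (A * x) * y ^ j = A * (x * y ^ j) := by ring
        _ ≤ B * y ^ (j + 1) := h1.trans h
        _ = (B * y) * y ^ j := by ring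
    exact le_of_mul_le_mul_right h2 (pow_pos hy j)

theorem MB4_real (x y u v δ η : ℝ) (hx : 0 < x) (hy : 0 < y) (hu : 0 < u) (hv : 0 < v)
    (hδ : 0 < δ) (hδ1 : δ ≤ 1 / 4) (hη : η = δ / 4)
    (h1 : (1 - η) * x ≤ (1 + η) * (1 + δ) * y) (h2 : (1 - η) * (1 - δ) * y ≤ (1 + η) * x)
    (h3 : v ≤ (1 + η) * u) (h4 : (1 - η) * u ≤ v) :
    (1 - 4 * δ) * (y / v) ≤ x / u ∧ x / u ≤ (1 + 4 * δ) * (y / v) := by
  have e1 : (1 - 4 * δ) * (y / v) = ((1 - 4 * δ) * y) / v := by ring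
  have e2 : (1 + 4 * δ) * (y / v) = ((1 + 4 * δ) * y) / v := by ring
  have hη0 : 0 < η := by rw [hη]; linarith
  have hη1 : η ≤ 1 / 16 := by rw [hη]; linarith
  rw [e1, e2, div_le_div_iff₀ hv hu, div_le_div_iff₀ hu hv]
  have hyu : 0 < y * u := mul_pos hy hu
  constructor
  · have a1 : (1 + η) * (x * v) ≥ (1 + η) * (x * ((1 - η) * u)) :=
      mul_le_mul_of_nonneg_left (mul_le_mul_of_nonneg_left h4 hx.le) (by linarith)
    have a2 : ((1 + η) * x) * ((1 - η) * u) ≥ ((1 - η) * (1 - δ) * y) * ((1 - η) * u) :=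
      mul_le_mul_of_nonneg_right h2 (mul_nonneg (by linarith) hu.le)
    have a3 : (1 + η) * (1 - 4 * δ) ≤ (1 - η) * (1 - δ) * (1 - η) := by
      rw [hη]
      nlinarith [mul_pos hδ hδ, mul_pos (mul_pos hδ hδ) hδ]
    have a4 : (1 + η) * (1 - 4 * δ) * (y * u) ≤ (1 - η) * (1 - δ) * (1 - η) * (y * u) :=
      mul_le_mul_of_nonneg_right a3 hyu.le
    have a5 : (1 + η) * ((1 - 4 * δ) * y * u) ≤ (1 + η) * (x * v) := by
      calc _ = (1 + η) * (1 - 4 * δ) * (y * u) := by ring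
        _ ≤ _ := a4
        _ = ((1 - η) * (1 - δ) * y) * ((1 - η) * u) := by ring
        _ ≤ ((1 + η) * x) * ((1 - η) * u) := a2
        _ = (1 + η) * (x * ((1 - η) * u)) := by ring
        _ ≤ _ := a1
    exact le_of_mul_le_mul_left a5 (by linarith)
  · have a1 : (1 - η) * (x * v) ≤ (1 - η) * (x * ((1 + η) * u)) :=
      mul_le_mul_of_nonneg_left (mul_le_mul_of_nonneg_left h3 hx.le) (by linarith)
    have a2 : ((1 - η) * x) * ((1 + η) * u) ≤ ((1 + η) * (1 + δ) * y) * ((1 + η) * u) :=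
      mul_le_mul_of_nonneg_right h1 (mul_nonneg (by linarith) hu.le)
    have a3 : (1 + η) * (1 + δ) * (1 + η) ≤ (1 - η) * (1 + 4 * δ) := by
      rw [hη]
      nlinarith [mul_pos hδ hδ, mul_pos (mul_pos hδ hδ) hδ]
    have a4 : (1 + η) * (1 + δ) * (1 + η) * (y * u) ≤ (1 - η) * (1 + 4 * δ) * (y * u) :=
      mul_le_mul_of_nonneg_right a3 hyu.le
    have a5 : (1 - η) * (x * v) ≤ (1 - η) * ((1 + 4 * δ) * y * u) := by
      calc _ ≤ (1 - η) * (x * ((1 + η) * u)) := a1
        _ = ((1 - η) * x) * ((1 + η) * u) := by ring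
        _ ≤ _ := a2
        _ = (1 + η) * (1 + δ) * (1 + η) * (y * u) := by ring
        _ ≤ _ := a4
        _ = _ := by ring
    exact le_of_mul_le_mul_left a5 (by linarith)

/-- Let `r = argCount G N/argCount G Y`. `argCount_pow` gives `(1-δ)(1-η) ≤ r^k ≤ (1+δ)(1+η)` for `Y ≥ Y₀(η)`
(`N ≥ Y/2` is large too), so the same bounds for `r` (`r ≤ r^k` if `r ≥ 1`, `r ≥ r^k` if `r ≤ 1`), and
`log(argCount G N)/log(argCount G Y)` lies in `[1-η, 1+η]` (`|log r| ≤ 1` and `argCount → ∞`). Take `η` with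
`(1+η)^(g+1) ≤ 1 + δ` and `(1-η)^(g+1) ≥ 1 - δ`. -/
theorem dens_win (G : ℤ[X]) (hk : 1 ≤ G.natDegree) (hl : 0 < G.leadingCoeff) (g : ℕ) (δ : ℝ)
    (hδ : 0 < δ) (hδ1 : δ ≤ 1 / 4) : ∃ Y₀ : ℕ, ∀ Y N : ℕ, Y₀ ≤ Y → (1 - δ) * Y ≤ N →
      (N : ℝ) ≤ (1 + δ) * Y →
      (1 - 4 * δ) * dens G g Y ≤ dens G g N ∧ dens G g N ≤ (1 + 4 * δ) * dens G g Y := by
  have hl' : (0 : ℝ) < G.leadingCoeff := by exact_mod_cast hl
  have hX := argCount_tendsto hk hl
  have h1 := argCount_pow G hk hl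
  obtain ⟨η, hη⟩ : ∃ η : ℝ, η = δ / 4 := ⟨_, rfl⟩
  have hη0 : 0 < η := by rw [hη]; linarith
  have hη1 : η ≤ 1 / 16 := by rw [hη]; linarith
  set a : ℝ := (G.leadingCoeff : ℝ)⁻¹ with ha
  have ha0 : 0 < a := inv_pos.2 hl'
  have h2 : ∀ᶠ Y : ℕ in atTop, (1 - η) * a < (argCount G Y : ℝ) ^ G.natDegree / Y :=
    h1.eventually_const_lt (by nlinarith)
  have h3 : ∀ᶠ Y : ℕ in atTop, (argCount G Y : ℝ) ^ G.natDegree / Y < (1 + η) * a :=
    h1.eventually_lt_const (by nlinarith)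
  have h5 : Tendsto (fun n : ℕ => Real.log (n : ℝ)) atTop atTop :=
    Real.tendsto_log_atTop.comp (tendsto_natCast_atTop_atTop (R := ℝ))
  have h7 : Tendsto (fun n : ℕ => 1 / Real.log (n : ℝ)) atTop (𝓝 0) :=
    (tendsto_const_nhds (x := (1 : ℝ))).div_atTop h5
  have h4 : ∀ᶠ n : ℕ in atTop, (1 + 1 / Real.log (n : ℝ)) ^ g < 1 + η := by
    have h8 := (h7.const_add 1).pow g
    rw [add_zero, one_pow] at h8
    exact h8.eventually_lt_const (by linarith)
  have h6 : ∀ᶠ n : ℕ in atTop, 1 - η < (1 - 1 / Real.log (n : ℝ)) ^ g := by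
    have h8 := (h7.const_sub 1).pow g
    rw [sub_zero, one_pow] at h8
    exact h8.eventually_const_lt (by linarith)
  have hall : ∀ᶠ N : ℕ in atTop, (1 - η) * a < (argCount G N : ℝ) ^ G.natDegree / N ∧
      (argCount G N : ℝ) ^ G.natDegree / N < (1 + η) * a ∧
      (1 + 1 / Real.log (argCount G N : ℝ)) ^ g < 1 + η ∧
      1 - η < (1 - 1 / Real.log (argCount G N : ℝ)) ^ g ∧ 3 ≤ argCount G N ∧
      2 ≤ Real.log (argCount G N : ℝ) ∧ 1 ≤ N := by
    filter_upwards [h2, h3, hX.eventually h4, hX.eventually h6, hX.eventually_ge_atTop 3,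
      hX.eventually (h5.eventually_ge_atTop 2), eventually_ge_atTop 1]
      with N b1 b2 b3 b4 b5 b6 b7
    exact ⟨b1, b2, b3, b4, b5, b6, b7⟩
  obtain ⟨N₀, hN₀⟩ := eventually_atTop.1 hall
  refine ⟨2 * N₀, fun Y N hY hN hN' => ?_⟩
  have hYR : (2 : ℝ) * N₀ ≤ Y := by exact_mod_cast hY
  have hNN₀ : N₀ ≤ N := by
    have h9 : (N₀ : ℝ) ≤ N := by
      have hY0 : (0 : ℝ) ≤ Y := by positivity
      nlinarith
    exact_mod_cast h9
  obtain ⟨b1, b2, b3, b4, b5, b6, b7⟩ := hN₀ N hNN₀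
  obtain ⟨d1, d2, d3, d4, d5, d6, d7⟩ := hN₀ Y (by omega)
  set x : ℝ := (argCount G N : ℝ) with hx
  set y : ℝ := (argCount G Y : ℝ) with hy
  have hx3 : (3 : ℝ) ≤ x := by
    rw [hx]
    exact_mod_cast b5
  have hy3 : (3 : ℝ) ≤ y := by
    rw [hy]
    exact_mod_cast d5
  have hN0 : (0 : ℝ) < N := by exact_mod_cast b7
  have hY0 : (0 : ℝ) < Y := by exact_mod_cast d7
  have hx0 : 0 < x := by linarith
  have hy0 : 0 < y := by linarith
  rw [lt_div_iff₀ hN0] at b1
  rw [div_lt_iff₀ hN0] at b2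
  rw [lt_div_iff₀ hY0] at d1
  rw [div_lt_iff₀ hY0] at d2
  have r1 : (1 - η) * x ≤ (1 + η) * (1 + δ) * y := by
    apply MB4_root x y _ _ G.natDegree hk hx0 hy0 (by linarith) (by nlinarith)
    have c1 : x ^ G.natDegree ≤ (1 + η) * a * ((1 + δ) * Y) :=
      b2.le.trans (mul_le_mul_of_nonneg_left hN' (by positivity))
    calc (1 - η) * x ^ G.natDegree ≤ (1 - η) * ((1 + η) * a * ((1 + δ) * Y)) :=
          mul_le_mul_of_nonneg_left c1 (by linarith)
      _ = (1 + η) * (1 + δ) * ((1 - η) * a * Y) := by ring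
      _ ≤ (1 + η) * (1 + δ) * y ^ G.natDegree :=
          mul_le_mul_of_nonneg_left d1.le (by positivity)
  have r2 : (1 - η) * (1 - δ) * y ≤ (1 + η) * x := by
    apply MB4_root y x _ _ G.natDegree hk hy0 hx0 (mul_pos (by linarith) (by linarith))
      (by nlinarith)
    calc (1 - η) * (1 - δ) * y ^ G.natDegree ≤ (1 - η) * (1 - δ) * ((1 + η) * a * Y) :=
          mul_le_mul_of_nonneg_left d2.le (mul_nonneg (by linarith) (by linarith))
      _ = (1 + η) * ((1 - η) * a * ((1 - δ) * Y)) := by ring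
      _ ≤ (1 + η) * ((1 - η) * a * N) :=
          mul_le_mul_of_nonneg_left (mul_le_mul_of_nonneg_left hN
            (mul_nonneg (by linarith) ha0.le)) (by linarith)
      _ ≤ (1 + η) * x ^ G.natDegree := mul_le_mul_of_nonneg_left b1.le (by linarith)
  have hlx0 : 0 < Real.log x := by linarith
  have hly0 : 0 < Real.log y := by linarith
  have hl2 : Real.log 2 ≤ 1 := by linarith [Real.log_two_lt_d9]
  have hxy : x ≤ 2 * y := by
    have q1 : (15 / 16) * x ≤ (1 - η) * x := mul_le_mul_of_nonneg_right (by linarith) hx0.le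
    have q2 : (1 + η) * (1 + δ) ≤ 85 / 64 := by nlinarith
    have q3 : (1 + η) * (1 + δ) * y ≤ 85 / 64 * y := mul_le_mul_of_nonneg_right q2 hy0.le
    linarith
  have hyx : y ≤ 2 * x := by
    have q1 : (1 + η) * x ≤ 17 / 16 * x := mul_le_mul_of_nonneg_right (by linarith) hx0.le
    have q2 : 45 / 64 ≤ (1 - η) * (1 - δ) := by nlinarith
    have q3 : 45 / 64 * y ≤ (1 - η) * (1 - δ) * y := mul_le_mul_of_nonneg_right q2 hy0.le
    linarith
  have l1 : Real.log x ≤ 1 + Real.log y := by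
    have h9 := Real.log_le_log hx0 hxy
    rw [Real.log_mul (by norm_num) hy0.ne'] at h9
    linarith
  have l2 : Real.log y ≤ 1 + Real.log x := by
    have h9 := Real.log_le_log hy0 hyx
    rw [Real.log_mul (by norm_num) hx0.ne'] at h9
    linarith
  have u1 : (Real.log y) ^ g ≤ (1 + η) * (Real.log x) ^ g := by
    have e1 : Real.log y ≤ (1 + 1 / Real.log x) * Real.log x := by
      have : (1 + 1 / Real.log x) * Real.log x = 1 + Real.log x := by
        field_simp
        ring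
      rw [this]
      exact l2
    calc (Real.log y) ^ g ≤ ((1 + 1 / Real.log x) * Real.log x) ^ g :=
          pow_le_pow_left₀ hly0.le e1 g
      _ = (1 + 1 / Real.log x) ^ g * (Real.log x) ^ g := mul_pow _ _ _
      _ ≤ _ := mul_le_mul_of_nonneg_right b3.le (by positivity)
  have u2 : (1 - η) * (Real.log x) ^ g ≤ (Real.log y) ^ g := by
    have e1 : (1 - 1 / Real.log x) * Real.log x ≤ Real.log y := by
      have : (1 - 1 / Real.log x) * Real.log x = Real.log x - 1 := by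
        field_simp
      rw [this]
      linarith
    have e2 : 0 ≤ (1 - 1 / Real.log x) * Real.log x := by
      have : (1 - 1 / Real.log x) * Real.log x = Real.log x - 1 := by
        field_simp
      rw [this]
      linarith
    calc (1 - η) * (Real.log x) ^ g ≤ (1 - 1 / Real.log x) ^ g * (Real.log x) ^ g :=
          mul_le_mul_of_nonneg_right b4.le (by positivity)
      _ = ((1 - 1 / Real.log x) * Real.log x) ^ g := (mul_pow _ _ _).symm
      _ ≤ _ := pow_le_pow_left₀ e2 e1 g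
  exact MB4_real x y _ _ δ η hx0 hy0 (pow_pos hlx0 g) (pow_pos hly0 g) hδ hδ1 hη r1 r2 u1 u2

/-- Uniform upper bound for all smaller arguments: with `x = argCount G N ≤ y = argCount G Y` (for large `Y`, `argSet G N ⊆ argSet G Y`, finite)
the proof of `H33B.FC1_dens_le`. -/
theorem dens_le (G : ℤ[X]) (hk : 1 ≤ G.natDegree) (hl : 0 < G.leadingCoeff) (g : ℕ) :
    ∃ C : ℝ, 1 ≤ C ∧ ∃ Y₀ : ℕ, ∀ Y N : ℕ, Y₀ ≤ Y → N ≤ Y → dens G g N ≤ C * dens G g Y := by
  have h1 := (dens_tendsto G hk hl g).eventually_ge_atTop 1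
  have hX := argCount_tendsto hk hl
  obtain ⟨Y₁, hY₁⟩ := AC_mono G hk hl
  have hl2 : 0 < Real.log 2 := Real.log_pos (by norm_num)
  have h2 : ∀ᶠ x : ℝ in atTop, ‖Real.log x ^ (g : ℝ)‖ ≤ (Real.log 2) ^ g * ‖x ^ ((1 : ℝ) / 2)‖ :=
    (isLittleO_log_rpow_rpow_atTop (g : ℝ) (by norm_num : (0:ℝ) < 1 / 2)).bound (by positivity)
  have h3 : Tendsto (fun Y : ℕ => ((argCount G Y : ℕ) : ℝ)) atTop atTop :=
    tendsto_natCast_atTop_atTop.comp hX
  have h4 := h3.eventually h2
  obtain ⟨Y₀, hY₀⟩ := eventually_atTop.1 (h1.and (h4.and ((hX.eventually_ge_atTop 3).and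
    (eventually_ge_atTop Y₁))))
  refine ⟨2 ^ g, one_le_pow₀ (by norm_num), Y₀, fun Y N hY hN => ?_⟩
  obtain ⟨a1, a2, a3, a4⟩ := hY₀ Y hY
  have hC1 : (1 : ℝ) ≤ 2 ^ g := one_le_pow₀ (by norm_num)
  have hbig : 1 ≤ 2 ^ g * dens G g Y := by nlinarith
  have hxyN := hY₁ N Y a4 hN
  unfold H33B.dens at *
  set x : ℝ := ((argCount G N : ℕ) : ℝ) with hx
  set y : ℝ := ((argCount G Y : ℕ) : ℝ) with hy
  have hxy' : x ≤ y := by rw [hx, hy]; exact_mod_cast hxyN
  have hy3 : 3 ≤ y := by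
    rw [hy]; exact_mod_cast a3
  have hly : 0 < Real.log y := Real.log_pos (by linarith)
  rcases Nat.lt_or_ge (argCount G N) 2 with h | h
  · refine le_trans ?_ hbig
    have hx1 : x ≤ 1 := by
      have : argCount G N ≤ 1 := by omega
      rw [hx]; exact_mod_cast this
    have hx0 : 0 ≤ x := by positivity
    have hlog : Real.log x = 0 := by
      have : argCount G N = 0 ∨ argCount G N = 1 := by omega
      rcases this with h | h <;> simp [hx, h]
    rw [hlog]
    rcases Nat.eq_zero_or_pos g with hg | hg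
    · rw [hg, pow_zero, div_one]; exact hx1
    · rw [zero_pow (by omega), div_zero]; exact zero_le_one
  · have hx2 : 2 ≤ x := by rw [hx]; exact_mod_cast h
    have hlx : Real.log 2 ≤ Real.log x := Real.log_le_log (by norm_num) hx2
    have hlx0 : 0 < Real.log x := by linarith
    rcases le_or_gt x (Real.sqrt y) with h | h
    · have e1 : (Real.log y) ^ g ≤ (Real.log 2) ^ g * Real.sqrt y := by
        rw [Real.rpow_natCast, Real.norm_of_nonneg (by positivity),
          Real.norm_of_nonneg (by positivity), ← Real.sqrt_eq_rpow] at a2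
        exact a2
      have e2 : x / (Real.log x) ^ g ≤ Real.sqrt y / (Real.log 2) ^ g :=
        div_le_div₀ (Real.sqrt_nonneg _) h (by positivity) (pow_le_pow_left₀ hl2.le hlx g)
      have e3 : Real.sqrt y / (Real.log 2) ^ g ≤ y / (Real.log y) ^ g := by
        rw [div_le_div_iff₀ (by positivity) (by positivity)]
        calc Real.sqrt y * (Real.log y) ^ g ≤ Real.sqrt y * ((Real.log 2) ^ g * Real.sqrt y) :=
              mul_le_mul_of_nonneg_left e1 (Real.sqrt_nonneg _)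
          _ = (Real.sqrt y * Real.sqrt y) * (Real.log 2) ^ g := by ring
          _ = _ := by rw [Real.mul_self_sqrt (by linarith)]
      have e4 : 0 ≤ y / (Real.log y) ^ g := by positivity
      calc _ ≤ y / (Real.log y) ^ g := e2.trans e3
        _ ≤ _ := le_mul_of_one_le_left e4 hC1
    · have e1 : Real.log y / 2 ≤ Real.log x := by
        rw [← Real.log_sqrt (by linarith)]
        exact Real.log_le_log (Real.sqrt_pos.mpr (by linarith)) h.le
      calc x / (Real.log x) ^ g ≤ y / (Real.log y / 2) ^ g :=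
            div_le_div₀ (by linarith) hxy' (by positivity) (pow_le_pow_left₀ (by positivity) e1 g)
        _ = 2 ^ g * (y / (Real.log y) ^ g) := by
            rw [div_pow]; field_simp

end Pool.Agent.Lib.H33C
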