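import Pool.Agent.Lib.H33C.MB1
import Pool.Agent.Lib.H33C.MB4
import Pool.Agent.Lib.H33C.HC
import Pool.Agent.Lib.H33B.FC1
import Pool.Agent.Lib.H33B.FA2

/-!
# Chunk MB2: Schinzel's formula for almost all `N` and the model, general `G`
-/

open Finset Polynomial Filter Topology

namespace Pool.Agent.Lib.H33C

open Pool.Agent.Lib.H59 (argSet argCount Admissible primeCount omegaN seriesTrunc)
open Pool.Agent.Lib.H33B

variable {g : ℕ}

theorem MB2_real (M Q T Sw d L Dg r η : ℝ) (hSw : 0 ≤ Sw) (hd : 0 ≤ d) (hDg : 1 ≤ Dg)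
    (hTL : T * L = d / Dg * r) (hr : |r - 1| ≤ η) (hη : 0 ≤ η)
    (hη1 : η ≤ 1 / 4) (hL : 0 ≤ L) (h1 : |Q - T * Sw| ≤ η * (T * Sw)) :
    |M - d / Dg * Sw| ≤ |Q * L - M| + 8 * η * d * Sw := by
  have hDg0 : 0 < Dg := by linarith
  set v := d / Dg with hv
  have hv0 : 0 ≤ v := by positivity
  have hvd : v ≤ d := div_le_self hd hDg
  have hr' := abs_le.mp hr
  have hr0 : 0 ≤ r := by linarith
  have a1 : |Q * L - T * L * Sw| ≤ 2 * η * (v * Sw) := by
    have e1 : Q * L - T * L * Sw = (Q - T * Sw) * L := by ring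
    rw [e1, abs_mul, abs_of_nonneg hL]
    calc |Q - T * Sw| * L ≤ η * (T * Sw) * L := mul_le_mul_of_nonneg_right h1 hL
      _ = η * (v * r) * Sw := by rw [← hTL]; ring
      _ ≤ η * (v * 2) * Sw := by
          apply mul_le_mul_of_nonneg_right _ hSw
          apply mul_le_mul_of_nonneg_left _ hη
          apply mul_le_mul_of_nonneg_left _ hv0
          linarith
      _ = _ := by ring
  have a3 : |T * L * Sw - v * Sw| ≤ η * (v * Sw) := by
    have e1 : T * L * Sw - v * Sw = (r - 1) * (v * Sw) := by rw [hTL]; ring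
    rw [e1, abs_mul, abs_of_nonneg (by positivity : 0 ≤ v * Sw)]
    exact mul_le_mul_of_nonneg_right hr (by positivity)
  have a4 : M - v * Sw = -(Q * L - M) + (Q * L - T * L * Sw) + (T * L * Sw - v * Sw) := by ring
  rw [a4]
  refine (abs_add_le _ _).trans ?_
  have b2 := abs_add_le (-(Q * L - M)) (Q * L - T * L * Sw)
  rw [abs_neg] at b2
  have b3 : v * Sw ≤ d * Sw := mul_le_mul_of_nonneg_right hvd hSw
  have b4 : 8 * η * (v * Sw) ≤ 8 * η * (d * Sw) := mul_le_mul_of_nonneg_left b3 (by positivity)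
  have b5 : 0 ≤ η * (v * Sw) := by positivity
  nlinarith

/-- The proof of `H33B.model_close` with `AlmostAllT` in place of `AlmostAll` and `tail_linear`; the `N` that are
not admissible: `red_rare` and `series_not_admG`; `dens_le`; `H33B.FA2_log`. -/
theorem model_closeT (F : Fin g → ℤ[X]) (hF : Sys F) (hN : NoFix F) (G : ℤ[X])
    (hk : 1 ≤ G.natDegree) (hl : 0 < G.leadingCoeff) (h : AlmostAllT F G) (ε : ℝ)
    (hε : 0 < ε) : ∃ w₀ : ℕ, ∀ w : ℕ, w₀ ≤ w → ∃ Y₀ : ℕ, ∀ Y : ℕ, Y₀ ≤ Y →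
    ∑ N ∈ Icc 1 Y, |Mw F G w N - dens G g N / (∏ i, ((F i).natDegree : ℝ)) *
      seriesTrunc F G N w| ≤ ε * Y * dens G g Y := by
  classical
  obtain ⟨C₁, hC₁, hMw⟩ := Mw_le F hF hN G hk hl
  obtain ⟨C₂, hC₂, hmom⟩ := moment_sq F hF hN G hk hl
  obtain ⟨C₃, hC₃, Y₃, hdens⟩ := dens_le G hk hl g
  have hDg : (1 : ℝ) ≤ ∏ i, ((F i).natDegree : ℝ) := by
    have h : 0 < ∏ i, (F i).natDegree := Finset.prod_pos fun i _ => hF.deg i
    have h' : 1 ≤ ∏ i, (F i).natDegree := h
    exact_mod_cast h'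
  set Dg : ℝ := ∏ i, ((F i).natDegree : ℝ) with hDgd
  have hDg0 : 0 < Dg := by linarith
  set K : ℝ := (C₁ + 1) * C₃ * Real.sqrt C₂ + 1 with hK
  have hs2 : 0 ≤ Real.sqrt C₂ := Real.sqrt_nonneg _
  have hK1 : 1 ≤ K := by
    have : 0 ≤ (C₁ + 1) * C₃ * Real.sqrt C₂ := by positivity
    rw [hK]; linarith
  set η : ℝ := min (1 / 4) (min (ε / (64 * K)) ((ε / (8 * K)) ^ 2 / 3)) with hη
  have hη0 : 0 < η := by positivity
  have hη4 : η ≤ 1 / 4 := min_le_left _ _
  have hη5 : η ≤ ε / (64 * K) := (min_le_right _ _).trans (min_le_left _ _)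
  have hη6 : η ≤ (ε / (8 * K)) ^ 2 / 3 := (min_le_right _ _).trans (min_le_right _ _)
  obtain ⟨w₁, hw₁⟩ := prime_model F hF hN G hk hl η hη0
  obtain ⟨w₂, hw₂⟩ := h η hη0
  obtain ⟨Y₄, hY₄⟩ := red_rare G hk hl η hη0
  obtain ⟨Y₅, hY₅⟩ := FA2_log G hk hl η η hη0 (by linarith) hη0
  refine ⟨max (max w₁ w₂) (∑ i, (F i).natDegree + G.natDegree + G.leadingCoeff.toNat + 1),
    fun w hw => ?_⟩
  have hww1 : w₁ ≤ w := ((le_max_left _ _).trans (le_max_left _ _)).trans hw
  have hww2 : w₂ ≤ w := ((le_max_right _ _).trans (le_max_left _ _)).trans hw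
  have hww3 : ∑ i, (F i).natDegree + G.natDegree + G.leadingCoeff.toNat < w := by
    have := (le_max_right (max w₁ w₂)
      (∑ i, (F i).natDegree + G.natDegree + G.leadingCoeff.toNat + 1)).trans hw
    omega
  obtain ⟨Y₁, hY₁⟩ := hw₁ w hww1
  obtain ⟨Y₂, hY₂⟩ := hw₂ w hww2
  obtain ⟨B, hB, hMwB⟩ := hMw w
  obtain ⟨Y₆, hY₆⟩ := eventually_atTop.1
    ((dens_tendsto G hk hl g).eventually_ge_atTop (8 * B / ε))
  refine ⟨max (max (max Y₁ Y₂) (max Y₃ Y₄)) (max (max Y₅ Y₆) (max (PW w) 3)), fun Y hY => ?_⟩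
  have hYY1 : Y₁ ≤ Y := le_trans (by simp) hY
  have hYY2 : Y₂ ≤ Y := le_trans (by simp) hY
  have hYY3 : Y₃ ≤ Y := le_trans (by simp) hY
  have hYY4 : Y₄ ≤ Y := le_trans (by simp) hY
  have hYY5 : Y₅ ≤ Y := le_trans (by simp) hY
  have hYY6 : Y₆ ≤ Y := le_trans (by simp) hY
  have hYY7 : PW w ≤ Y := le_trans (by simp) hY
  have hYY8 : 3 ≤ Y := le_trans (by simp) hY
  have hY3r : (3 : ℝ) ≤ Y := by exact_mod_cast hYY8
  have hYpos : (0 : ℝ) < Y := by linarith
  have b1 := hY₁ Y hYY1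
  have b2 := hY₂ Y hYY2
  have b4 := hY₄ Y hYY4
  have b6 := hY₆ Y hYY6
  have b7 := hmom w Y hYY7
  set dY := dens G g Y with hdY
  have hdY0 : 0 ≤ dY := FC1_dens_nonneg _ _ _
  have hBd : B ≤ ε / 8 * dY := by
    rw [div_le_iff₀ hε] at b6
    linarith
  set S : ℕ → ℝ := fun N => seriesTrunc F G N w with hS
  have hS0 : ∀ N, 0 ≤ S N := fun N => series_nonneg F G N w
  -- the exceptional set
  set E₁ := (Icc 1 Y).filter (fun N : ℕ => (N : ℝ) ≤ η * Y) with hE₁
  set E₂ := (Icc 1 Y).filter (fun N => Admissible F G N ∧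
      η * (mainT F G N * seriesTrunc F G N w) <
        |(primeCount F G N : ℝ) - mainT F G N * seriesTrunc F G N w|) with hE₂
  set E₃ := (Icc 1 Y).filter (fun N => Red G N) with hE₃
  set E := E₁ ∪ E₂ ∪ E₃ with hE
  have hEsub : E ⊆ Icc 1 Y := by
    rw [hE]
    exact union_subset (union_subset (filter_subset _ _) (filter_subset _ _)) (filter_subset _ _)
  have hcard : (E.card : ℝ) ≤ 3 * η * Y := by
    have c1 : (E₁.card : ℝ) ≤ η * Y := by
      have hsub : E₁ ⊆ Icc 1 ⌊η * Y⌋₊ := by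
        intro N hN'
        rw [hE₁, mem_filter, mem_Icc] at hN'
        rw [mem_Icc]
        exact ⟨hN'.1.1, Nat.le_floor hN'.2⟩
      have := card_le_card hsub
      rw [Nat.card_Icc, Nat.add_sub_cancel] at this
      calc (E₁.card : ℝ) ≤ (⌊η * Y⌋₊ : ℝ) := by exact_mod_cast this
        _ ≤ η * Y := Nat.floor_le (by positivity)
    have c2 : (E.card : ℝ) ≤ E₁.card + E₂.card + E₃.card := by
      have h1 := card_union_le (E₁ ∪ E₂) E₃
      have h2 := card_union_le E₁ E₂
      have : E.card ≤ E₁.card + E₂.card + E₃.card := by rw [hE]; omega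
      exact_mod_cast this
    linarith
  -- the pointwise bound
  have hpt : ∀ N ∈ Icc 1 Y, |Mw F G w N - dens G g N / Dg * S N| ≤
      (if N ∈ E then (C₁ + 1) * C₃ * dY * S N + B else 0) + B +
        |(primeCount F G N : ℝ) * Real.log Y - Mw F G w N| + 8 * η * C₃ * dY * S N := by
    intro N hN'
    have hN2 := mem_Icc.mp hN'
    have hdN := hdens Y N hYY3 hN2.2
    have hdN0 := FC1_dens_nonneg G g N
    have hMwN := hMwB N
    have hMw0 : 0 ≤ Mw F G w N := by
      unfold Mw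
      exact sum_nonneg fun _ _ => FC1_Lq_nonneg _ _
    have hlast : 0 ≤ 8 * η * C₃ * dY * S N := by
      have := hS0 N
      positivity
    have habs := abs_nonneg ((primeCount F G N : ℝ) * Real.log Y - Mw F G w N)
    have hvd : dens G g N / Dg ≤ dens G g N := div_le_self hdN0 hDg
    have hv0 : 0 ≤ dens G g N / Dg := by positivity
    by_cases hNE : N ∈ E
    · rw [if_pos hNE]
      have h1 : |Mw F G w N - dens G g N / Dg * S N| ≤ Mw F G w N + dens G g N / Dg * S N := by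
        refine (abs_sub _ _).trans ?_
        rw [abs_of_nonneg hMw0, abs_of_nonneg (mul_nonneg hv0 (hS0 N))]
      have h2 : dens G g N / Dg * S N ≤ C₃ * dY * S N :=
        mul_le_mul_of_nonneg_right (hvd.trans hdN) (hS0 N)
      have h3 : C₁ * dens G g N * S N ≤ C₁ * (C₃ * dY) * S N :=
        mul_le_mul_of_nonneg_right (mul_le_mul_of_nonneg_left hdN hC₁.le) (hS0 N)
      have h4 : Mw F G w N ≤ C₁ * dens G g N * S N + B := hMwN
      nlinarith
    · rw [if_neg hNE, zero_add]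
      have hN1 : ¬ (N : ℝ) ≤ η * Y := fun hc => hNE
        (mem_union_left _ (mem_union_left _ (mem_filter.mpr ⟨hN', hc⟩)))
      have hN3 : ¬ (Admissible F G N ∧ η * (mainT F G N * seriesTrunc F G N w) <
          |(primeCount F G N : ℝ) - mainT F G N * seriesTrunc F G N w|) := fun hc => hNE
        (mem_union_left _ (mem_union_right _ (mem_filter.mpr ⟨hN', hc⟩)))
      have hN4 : ¬ Red G N :=
        fun hc => hNE (mem_union_right _ (mem_filter.mpr ⟨hN', hc⟩))
      push Not at hN1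
      by_cases hadm : Admissible F G N
      · have hN5 : |(primeCount F G N : ℝ) - mainT F G N * seriesTrunc F G N w| ≤
            η * (mainT F G N * seriesTrunc F G N w) := by
          by_contra hc
          exact hN3 ⟨hadm, not_le.mp hc⟩
        obtain ⟨l1, l2⟩ := hY₅ Y N hYY5 hN1 hN2.2
        have hkpos : (0 : ℝ) < G.natDegree := by exact_mod_cast hk
        have hTL : mainT F G N * Real.log Y = dens G g N / Dg *
            (Real.log Y / (G.natDegree * Real.log (argCount G N : ℝ))) := by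
          unfold mainT Pool.Agent.Lib.H33B.dens
          rw [← hDgd, pow_succ]
          field_simp
        have hreal := MB2_real (Mw F G w N) (primeCount F G N) (mainT F G N) (S N)
          (dens G g N) (Real.log Y) Dg _ η (hS0 N) hdN0 hDg hTL l2 hη0.le hη4
          (Real.log_nonneg (by linarith)) hN5
        have h5 : 8 * η * dens G g N * S N ≤ 8 * η * C₃ * dY * S N := by
          apply mul_le_mul_of_nonneg_right _ (hS0 N)
          have := mul_le_mul_of_nonneg_left hdN (by positivity : 0 ≤ 8 * η)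
          linarith
        linarith
      · have h0 : S N = 0 := series_not_admG F hF G hk hl N w hww3 hadm hN4
        rw [h0, mul_zero, sub_zero, abs_of_nonneg hMw0]
        have h1 : Mw F G w N ≤ C₁ * dens G g N * S N + B := hMwN
        rw [h0, mul_zero, zero_add] at h1
        rw [mul_zero, add_zero]
        linarith
  refine (sum_le_sum hpt).trans ?_
  rw [sum_add_distrib, sum_add_distrib, sum_add_distrib, ← mul_sum, sum_const, Nat.card_Icc,
    Nat.add_sub_cancel, nsmul_eq_mul]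
  have hite : ∑ N ∈ Icc 1 Y, (if N ∈ E then (C₁ + 1) * C₃ * dY * S N + B else 0) =
      (C₁ + 1) * C₃ * dY * ∑ N ∈ E, S N + E.card * B := by
    rw [← sum_filter, filter_mem_eq_inter, inter_eq_right.mpr hEsub, sum_add_distrib, ← mul_sum,
      sum_const, nsmul_eq_mul]
  rw [hite]
  -- Cauchy-Schwarz
  have hall : ∑ N ∈ Icc 1 Y, S N ≤ Y * Real.sqrt C₂ := by
    have h1 := sq_sum_le_card_mul_sum_sq (s := Icc 1 Y) (f := S)
    rw [Nat.card_Icc, Nat.add_sub_cancel] at h1
    have h2 : (∑ N ∈ Icc 1 Y, S N) ^ 2 ≤ (Y * Real.sqrt C₂) ^ 2 := by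
      refine h1.trans ?_
      rw [mul_pow, Real.sq_sqrt hC₂.le]
      calc (Y : ℝ) * ∑ N ∈ Icc 1 Y, S N ^ 2 ≤ Y * (C₂ * Y) :=
            mul_le_mul_of_nonneg_left b7 hYpos.le
        _ = _ := by ring
    exact le_of_sq_le_sq h2 (by positivity)
  have hEs : ∑ N ∈ E, S N ≤ Y * Real.sqrt C₂ * (ε / (8 * K)) := by
    have h1 := sq_sum_le_card_mul_sum_sq (s := E) (f := S)
    have h2 : (∑ N ∈ E, S N) ^ 2 ≤ (Y * Real.sqrt C₂ * (ε / (8 * K))) ^ 2 := by
      refine h1.trans ?_
      have h3 : ∑ N ∈ E, S N ^ 2 ≤ C₂ * Y :=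
        (sum_le_sum_of_subset_of_nonneg hEsub fun _ _ _ => sq_nonneg _).trans b7
      calc (E.card : ℝ) * ∑ N ∈ E, S N ^ 2 ≤ (3 * η * Y) * (C₂ * Y) :=
            mul_le_mul hcard h3 (sum_nonneg fun _ _ => sq_nonneg _) (by positivity)
        _ = (3 * η) * (C₂ * Y ^ 2) := by ring
        _ ≤ (ε / (8 * K)) ^ 2 * (C₂ * Y ^ 2) := by
            apply mul_le_mul_of_nonneg_right _ (by positivity)
            linarith
        _ = _ := by
            rw [mul_pow, mul_pow, Real.sq_sqrt hC₂.le]; ring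
    exact le_of_sq_le_sq h2 (by positivity)
  have f1 : (C₁ + 1) * C₃ * dY * ∑ N ∈ E, S N ≤ ε / 8 * Y * dY := by
    calc (C₁ + 1) * C₃ * dY * ∑ N ∈ E, S N ≤
        (C₁ + 1) * C₃ * dY * (Y * Real.sqrt C₂ * (ε / (8 * K))) :=
          mul_le_mul_of_nonneg_left hEs (by positivity)
      _ = ((C₁ + 1) * C₃ * Real.sqrt C₂) * (ε / (8 * K)) * (Y * dY) := by ring
      _ ≤ K * (ε / (8 * K)) * (Y * dY) := by
          apply mul_le_mul_of_nonneg_right _ (by positivity)
          apply mul_le_mul_of_nonneg_right _ (by positivity)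
          rw [hK]; linarith
      _ = _ := by
          have : K ≠ 0 := by linarith
          field_simp
  have f2 : (E.card : ℝ) * B ≤ Y * (ε / 8 * dY) := by
    apply mul_le_mul _ hBd hB.le hYpos.le
    calc (E.card : ℝ) ≤ 3 * η * Y := hcard
      _ ≤ 1 * Y := mul_le_mul_of_nonneg_right (by linarith) hYpos.le
      _ = Y := one_mul _
  have f3 : (Y : ℝ) * B ≤ Y * (ε / 8 * dY) := mul_le_mul_of_nonneg_left hBd hYpos.le
  have f4 : 8 * η * C₃ * dY * ∑ N ∈ Icc 1 Y, S N ≤ ε / 8 * Y * dY := by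
    calc 8 * η * C₃ * dY * ∑ N ∈ Icc 1 Y, S N ≤ 8 * η * C₃ * dY * (Y * Real.sqrt C₂) :=
          mul_le_mul_of_nonneg_left hall (by positivity)
      _ = 8 * η * (C₃ * Real.sqrt C₂) * (Y * dY) := by ring
      _ ≤ 8 * (ε / (64 * K)) * K * (Y * dY) := by
          apply mul_le_mul_of_nonneg_right _ (by positivity)
          apply mul_le_mul _ _ (by positivity) (by positivity)
          · linarith
          · rw [hK]
            have : 0 ≤ C₁ * C₃ * Real.sqrt C₂ := by positivity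
            nlinarith
      _ = _ := by
          have : K ≠ 0 := by linarith
          field_simp
          norm_num
  have f5 : η * Y * dY ≤ ε / 8 * Y * dY := by
    apply mul_le_mul_of_nonneg_right _ hdY0
    apply mul_le_mul_of_nonneg_right _ hYpos.le
    refine hη5.trans ?_
    apply div_le_div_of_nonneg_left hε.le (by norm_num)
    linarith
  have f6 : 0 ≤ ε * Y * dY := by positivity
  nlinarith


end Pool.Agent.Lib.H33C
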