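import Pool.Agent.Lib.H59C.PVI
import Pool.Agent.Lib.H33B.Defs

/-!
# Chunk PV: Pólya–Vinogradov for imprimitive characters with a coprimality condition
-/

open Finset

namespace Pool.Agent.Lib.H33C

theorem PV_omega : ∃ C : ℝ, 0 < C ∧ ∀ q : ℕ, 1 ≤ q →
    (2 : ℝ) ^ q.primeFactors.card ≤ C * (q : ℝ) ^ ((1 : ℝ) / 20) := by
  have h1 : ∃ P : ℕ, ∀ n : ℕ, P ≤ n → (2 : ℝ) ≤ (n : ℝ) ^ ((1 : ℝ) / 20) := by
    have h2 := (tendsto_rpow_atTop (show (0 : ℝ) < 1 / 20 by norm_num)).comp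
      (tendsto_natCast_atTop_atTop (R := ℝ))
    obtain ⟨P, hP⟩ := (h2.eventually_ge_atTop 2).exists_forall_of_atTop
    exact ⟨P, fun n hn => hP n hn⟩
  obtain ⟨P, hP⟩ := h1
  refine ⟨2 ^ P, by positivity, fun q hq => ?_⟩
  have hq0 : q ≠ 0 := by omega
  have e1 : (2 : ℝ) ^ q.primeFactors.card = ∏ p ∈ q.primeFactors, (2 : ℝ) := by
    rw [prod_const]
  have e2 : ∏ p ∈ q.primeFactors, (2 : ℝ) ≤
      ∏ p ∈ q.primeFactors, ((if p < P then (2 : ℝ) else 1) * (p : ℝ) ^ ((1 : ℝ) / 20)) := by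
    apply prod_le_prod
    · intro p _
      norm_num
    · intro p hp
      have hp1 : (1 : ℝ) ≤ p := by exact_mod_cast (Nat.prime_of_mem_primeFactors hp).one_le
      have hp2 : (1 : ℝ) ≤ (p : ℝ) ^ ((1 : ℝ) / 20) := Real.one_le_rpow hp1 (by norm_num)
      split_ifs with h
      · linarith
      · rw [one_mul]
        exact hP p (not_lt.mp h)
  have e3 : ∏ p ∈ q.primeFactors, (if p < P then (2 : ℝ) else 1) ≤ 2 ^ P := by
    rw [prod_ite, prod_const, prod_const_one, mul_one]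
    apply pow_le_pow_right₀ (by norm_num)
    calc (q.primeFactors.filter fun p => p < P).card ≤ (range P).card := by
          apply card_le_card
          intro x hx
          rw [mem_filter] at hx
          exact mem_range.mpr hx.2
      _ = P := card_range P
  have e4 : ∏ p ∈ q.primeFactors, (p : ℝ) ^ ((1 : ℝ) / 20) ≤ (q : ℝ) ^ ((1 : ℝ) / 20) := by
    rw [Real.finsetProd_rpow _ _ (fun p _ => by positivity)]
    apply Real.rpow_le_rpow (by positivity) _ (by norm_num)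
    rw [← Nat.cast_prod]
    exact_mod_cast Nat.le_of_dvd (by omega) (Nat.prod_primeFactors_dvd q)
  rw [e1]
  refine e2.trans ?_
  rw [prod_mul_distrib]
  exact mul_le_mul e3 e4 (by positivity) (by positivity)

/-- removing multiples of finitely many primes -/
theorem PV_sieve (f : ℕ → ℂ) (hmul : ∀ a b, f (a * b) = f a * f b) (hf : ∀ a, ‖f a‖ ≤ 1) (B : ℝ)
    (hB : ∀ u v, ‖∑ n ∈ Ico u v, f n‖ ≤ B) (S : Finset ℕ) : (∀ p ∈ S, p.Prime) →
    ∀ u v, ‖∑ n ∈ (Ico u v).filter (fun n => ∀ p ∈ S, ¬ p ∣ n), f n‖ ≤ 2 ^ S.card * B := by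
  classical
  induction S using Finset.induction_on with
  | empty =>
    intro _ u v
    simpa using hB u v
  | @insert p S hpS ih =>
    intro hS u v
    have hp := hS p (mem_insert_self _ _)
    have hS' : ∀ p' ∈ S, p'.Prime := fun p' hp' => hS p' (mem_insert_of_mem hp')
    have e1 : ∑ n ∈ (Ico u v).filter (fun n => ∀ p' ∈ insert p S, ¬ p' ∣ n), f n =
        ∑ n ∈ (Ico u v).filter (fun n => ∀ p' ∈ S, ¬ p' ∣ n), f n -
        ∑ n ∈ ((Ico u v).filter (fun n => ∀ p' ∈ S, ¬ p' ∣ n)).filter (fun n => p ∣ n), f n := by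
      rw [← sum_filter_add_sum_filter_not ((Ico u v).filter (fun n => ∀ p' ∈ S, ¬ p' ∣ n))
        (fun n => p ∣ n) f]
      rw [add_sub_cancel_left]
      apply sum_congr _ (fun _ _ => rfl)
      ext n
      simp only [mem_filter, mem_insert, forall_eq_or_imp]
      tauto
    have e2 : ∑ n ∈ ((Ico u v).filter (fun n => ∀ p' ∈ S, ¬ p' ∣ n)).filter (fun n => p ∣ n), f n =
        f p * ∑ n ∈ (Ico ((u + p - 1) / p) ((v + p - 1) / p)).filter
          (fun n => ∀ p' ∈ S, ¬ p' ∣ n), f n := by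
      rw [mul_sum]
      have key : ∀ w n : ℕ, w ≤ p * n ↔ (w + p - 1) / p ≤ n := by
        intro w n
        have hp0 := hp.pos
        rw [← Nat.lt_succ_iff (m := (w + p - 1) / p), Nat.div_lt_iff_lt_mul hp0]
        have : n.succ * p = p * n + p := by rw [Nat.succ_mul, mul_comm]
        rw [this]
        omega
      symm
      apply sum_bij (fun n _ => p * n)
      · intro n hn
        rw [mem_filter, mem_Ico] at hn
        rw [mem_filter, mem_filter, mem_Ico]
        refine ⟨⟨⟨(key u n).mpr hn.1.1, ?_⟩, ?_⟩, dvd_mul_right _ _⟩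
        · by_contra h
          exact absurd ((key v n).mp (not_lt.mp h)) (not_le.mpr hn.1.2)
        · intro p' hp' hd
          rcases (hS' p' hp').dvd_mul.mp hd with h | h
          · have : p' = p := (Nat.prime_dvd_prime_iff_eq (hS' p' hp') hp).mp h
            rw [this] at hp'
            exact hpS hp'
          · exact hn.2 p' hp' h
      · intro a _ b _ hab
        exact Nat.eq_of_mul_eq_mul_left hp.pos hab
      · intro n hn
        rw [mem_filter, mem_filter, mem_Ico] at hn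
        obtain ⟨k, rfl⟩ := hn.2
        refine ⟨k, ?_, rfl⟩
        rw [mem_filter, mem_Ico]
        refine ⟨⟨(key u k).mp hn.1.1.1, ?_⟩, fun p' hp' hd => hn.1.2 p' hp' (hd.mul_left p)⟩
        by_contra h
        exact absurd ((key v k).mpr (not_lt.mp h)) (not_le.mpr hn.1.1.2)
      · intro n _
        exact (hmul p n).symm
    rw [e1, card_insert_of_notMem hpS]
    have i1 := ih hS' u v
    have i2 := ih hS' ((u + p - 1) / p) ((v + p - 1) / p)
    have hB0 : 0 ≤ B := (norm_nonneg _).trans (hB 0 0)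
    calc _ ≤ ‖∑ n ∈ (Ico u v).filter (fun n => ∀ p' ∈ S, ¬ p' ∣ n), f n‖ +
          ‖∑ n ∈ ((Ico u v).filter (fun n => ∀ p' ∈ S, ¬ p' ∣ n)).filter (fun n => p ∣ n), f n‖ :=
          norm_sub_le _ _
      _ ≤ 2 ^ S.card * B + 2 ^ S.card * B := by
          apply add_le_add i1
          rw [e2, norm_mul]
          calc _ ≤ 1 * (2 ^ S.card * B) :=
                mul_le_mul (hf p) i2 (norm_nonneg _) (by norm_num)
            _ = _ := one_mul _
      _ = 2 ^ (S.card + 1) * B := by ring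

/-- For `χ ≠ 1` modulo `q` and `m ≥ 1`: `|∑_{u ≤ n < v, (n,m) = 1} χ(n)| ≤ C 2^(ω(m)) q^(3/5)`.

`χ` is induced by the primitive character `χ₁` modulo the conductor `r ∣ q`, `r > 1` (`DirichletCharacter.primitiveCharacter`,
`χ(n) = χ₁(n) 1[(n,q)=1]`). So the sum is `∑_{d ∣ rad(q m)} μ(d) χ₁(d) ∑_{u/d ≤ n' < v/d} χ₁(n')`, at most
`2^(ω(q)) 2^(ω(m)) C √r log r` (`H59C.polya_vinogradov`), and `2^(ω(q)) ≤ C q^(1/20)`, `log r ≤ C q^(1/20)`. -/
theorem pv : ∃ C : ℝ, 0 < C ∧ ∀ (q : ℕ) [NeZero q] (χ : DirichletCharacter ℂ q), χ ≠ 1 →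
    ∀ m u v : ℕ, 1 ≤ m → ‖∑ n ∈ (Ico u v).filter (fun n => n.Coprime m), χ (n : ZMod q)‖ ≤
      C * 2 ^ m.primeFactors.card * (q : ℝ) ^ ((3 : ℝ) / 5) := by
  classical
  obtain ⟨C1, hC1, h1⟩ := PV_omega
  obtain ⟨C0, hC0, h0⟩ := H59C.polya_vinogradov
  refine ⟨C1 * C0 * 20, by positivity, ?_⟩
  intro q _ χ hχ m u v hm
  have hq0 : q ≠ 0 := NeZero.ne q
  have hq1 : 1 ≤ q := Nat.one_le_iff_ne_zero.mpr hq0
  set r := χ.conductor with hr
  have hr0 : r ≠ 0 := χ.conductor_ne_zero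
  have : NeZero r := ⟨hr0⟩
  have hrq : r ∣ q := χ.conductor_dvd_level
  have hr1 : r ≠ 1 := fun h => hχ ((DirichletCharacter.eq_one_iff_conductor_eq_one).mpr h)
  have hr2 : 1 < r := by omega
  set f : ℕ → ℂ := fun n => χ.primitiveCharacter (n : ZMod r) with hf
  have hfm : ∀ a b, f (a * b) = f a * f b := by
    intro a b
    simp only [hf, Nat.cast_mul, map_mul]
  have hf1 : ∀ a, ‖f a‖ ≤ 1 := fun a => DirichletCharacter.norm_le_one _ _
  have hB : ∀ u v, ‖∑ n ∈ Ico u v, f n‖ ≤ C0 * Real.sqrt r * Real.log r := fun u v =>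
    h0 r χ.primitiveCharacter hr2 χ.primitiveCharacter_isPrimitive u v
  have hqm : q * m ≠ 0 := by
    have : m ≠ 0 := by omega
    exact mul_ne_zero hq0 this
  have hS := PV_sieve f hfm hf1 _ hB (q * m).primeFactors
    (fun p hp => Nat.prime_of_mem_primeFactors hp) u v
  have e1 : ∑ n ∈ (Ico u v).filter (fun n => n.Coprime m), χ (n : ZMod q) =
      ∑ n ∈ (Ico u v).filter (fun n => ∀ p ∈ (q * m).primeFactors, ¬ p ∣ n), f n := by
    have hcop : ∀ n k : ℕ, k ≠ 0 → ((∀ p ∈ k.primeFactors, ¬ p ∣ n) ↔ n.Coprime k) := by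
      intro n k hk
      constructor
      · intro h
        by_contra hc
        obtain ⟨p, hp, hp1, hp2⟩ := Nat.Prime.not_coprime_iff_dvd.mp hc
        exact h p (Nat.mem_primeFactors.mpr ⟨hp, hp2, hk⟩) hp1
      · intro h p hp hd
        have hp' := Nat.mem_primeFactors.mp hp
        exact hp'.1.one_lt.ne' (Nat.eq_one_of_dvd_coprimes h hd hp'.2.1)
    have e2 : (Ico u v).filter (fun n => ∀ p ∈ (q * m).primeFactors, ¬ p ∣ n) =
        ((Ico u v).filter (fun n => n.Coprime m)).filter (fun n => n.Coprime q) := by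
      rw [filter_filter]
      apply filter_congr
      intro n _
      rw [hcop n (q * m) hqm, Nat.coprime_mul_iff_right]
      tauto
    rw [e2]
    rw [sum_filter (s := (Ico u v).filter (fun n => n.Coprime m))]
    apply sum_congr rfl
    intro n _
    split_ifs with h
    · have e3 := DirichletCharacter.changeLevel_eq_cast_of_dvd χ.primitiveCharacter hrq
        (ZMod.unitOfCoprime n h)
      rw [DirichletCharacter.changeLevel_primitiveCharacter] at e3
      rw [ZMod.coe_unitOfCoprime, ZMod.cast_natCast hrq] at e3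
      exact e3
    · apply χ.map_nonunit
      rw [ZMod.isUnit_iff_coprime]
      exact h
  rw [e1]
  refine hS.trans ?_
  have hcard : (q * m).primeFactors.card ≤ q.primeFactors.card + m.primeFactors.card := by
    rw [Nat.primeFactors_mul hq0 (by omega)]
    exact card_union_le _ _
  have hrR : (1 : ℝ) < r := by exact_mod_cast hr2
  have hqR : (1 : ℝ) ≤ q := by exact_mod_cast hq1
  have hrle : (r : ℝ) ≤ q := by exact_mod_cast Nat.le_of_dvd (by omega) hrq
  have hlog : Real.log r ≤ (q : ℝ) ^ ((1 : ℝ) / 20) * 20 := by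
    have := Real.log_le_rpow_div (x := (r : ℝ)) (by linarith) (show (0 : ℝ) < 1 / 20 by norm_num)
    calc Real.log r ≤ (r : ℝ) ^ ((1 : ℝ) / 20) / (1 / 20) := this
      _ = (r : ℝ) ^ ((1 : ℝ) / 20) * 20 := by ring
      _ ≤ (q : ℝ) ^ ((1 : ℝ) / 20) * 20 := by
          gcongr
  have hsq : Real.sqrt r ≤ (q : ℝ) ^ ((1 : ℝ) / 2) := by
    rw [Real.sqrt_eq_rpow]
    exact Real.rpow_le_rpow (by linarith) hrle (by norm_num)
  have hlog0 : 0 ≤ Real.log r := Real.log_nonneg hrR.le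
  have hpow : (2 : ℝ) ^ (q * m).primeFactors.card ≤
      C1 * (q : ℝ) ^ ((1 : ℝ) / 20) * 2 ^ m.primeFactors.card := by
    calc (2 : ℝ) ^ (q * m).primeFactors.card ≤
          2 ^ (q.primeFactors.card + m.primeFactors.card) :=
          pow_le_pow_right₀ (by norm_num) hcard
      _ = 2 ^ q.primeFactors.card * 2 ^ m.primeFactors.card := pow_add _ _ _
      _ ≤ _ := mul_le_mul_of_nonneg_right (h1 q hq1) (by positivity)
  calc (2 : ℝ) ^ (q * m).primeFactors.card * (C0 * Real.sqrt r * Real.log r) ≤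
        (C1 * (q : ℝ) ^ ((1 : ℝ) / 20) * 2 ^ m.primeFactors.card) *
          (C0 * (q : ℝ) ^ ((1 : ℝ) / 2) * ((q : ℝ) ^ ((1 : ℝ) / 20) * 20)) := by
        gcongr
    _ = C1 * C0 * 20 * 2 ^ m.primeFactors.card * ((q : ℝ) ^ ((1 : ℝ) / 20) *
          (q : ℝ) ^ ((1 : ℝ) / 2) * (q : ℝ) ^ ((1 : ℝ) / 20)) := by ring
    _ = C1 * C0 * 20 * 2 ^ m.primeFactors.card * (q : ℝ) ^ ((3 : ℝ) / 5) := by
        rw [← Real.rpow_add (by linarith), ← Real.rpow_add (by linarith)]
        norm_num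

end Pool.Agent.Lib.H33C
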