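import Pool.Agent.Lib.H33C.Defs
import Pool.Agent.Lib.H33C.PV
import Pool.Agent.Lib.H33B.CV3
import Pool.Agent.Lib.H33B.LS1

/-!
# Chunk QC: sums of the Jacobi symbol `J(D | n)` over `n`
-/

open Finset Polynomial Filter Topology

namespace Pool.Agent.Lib.H33C

open Pool.Agent.Lib.H59 (rootCount)
open Pool.Agent.Lib.H33B

theorem QC_card (D : ℤ) (p : ℕ) [Fact p.Prime] :
    rootCount (X ^ 2 - C D) p = {x : ZMod p | x ^ 2 = D}.toFinset.card := by
  unfold Pool.Agent.Lib.H59.rootCount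
  refine Finset.card_bij' (fun a _ => (a : ZMod p)) (fun x _ => x.val) ?_ ?_ ?_ ?_
  · intro a ha
    rw [Finset.mem_filter] at ha
    rw [Set.mem_toFinset, Set.mem_setOf_eq]
    have h1 := ha.2
    rw [eval_sub, eval_pow, eval_X, eval_C, ← ZMod.intCast_zmod_eq_zero_iff_dvd] at h1
    push_cast at h1
    exact sub_eq_zero.1 h1
  · intro x hx
    rw [Set.mem_toFinset, Set.mem_setOf_eq] at hx
    rw [Finset.mem_filter, Finset.mem_range]
    refine ⟨ZMod.val_lt x, ?_⟩
    rw [eval_sub, eval_pow, eval_X, eval_C, ← ZMod.intCast_zmod_eq_zero_iff_dvd]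
    push_cast
    rw [ZMod.natCast_val, ZMod.cast_id', id, hx, sub_self]
  · intro a ha
    rw [Finset.mem_filter, Finset.mem_range] at ha
    exact ZMod.val_cast_of_lt ha.1
  · intro x _
    rw [ZMod.natCast_val, ZMod.cast_id', id]

/-- For an odd prime `p` the polynomial `x² - D` has `1 + J(D | p)` roots modulo `p`. -/
theorem root_sq (D : ℤ) (p : ℕ) (hp : p.Prime) (h2 : p ≠ 2) :
    (rootCount (X ^ 2 - C D) p : ℝ) = 1 + (jacobiSym D p : ℝ) := by
  haveI : Fact p.Prime := ⟨hp⟩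
  have h := legendreSym.card_sqrts p h2 D
  rw [jacobiSym.legendreSym.to_jacobiSym, ← QC_card] at h
  have h3 : ((rootCount (X ^ 2 - C D) p : ℤ) : ℝ) = ((jacobiSym D p + 1 : ℤ) : ℝ) := by
    rw [h]
  push_cast at h3
  rw [h3]
  ring

theorem QC_irr (D : ℤ) (hD : ¬ IsSquare D) : Irreducible (X ^ 2 - C D : ℤ[X]) := by
  have hm : (X ^ 2 - C D : ℤ[X]).Monic := monic_X_pow_sub_C D two_ne_zero
  have hd : (X ^ 2 - C D : ℤ[X]).natDegree = 2 := natDegree_X_pow_sub_C
  rw [hm.irreducible_iff_roots_eq_zero_of_degree_le_three (by rw [hd]) (by rw [hd]; norm_num)]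
  rw [Multiset.eq_zero_iff_forall_notMem]
  intro a ha
  have h1 := (mem_roots'.1 ha).2
  rw [IsRoot.def, eval_sub, eval_pow, eval_X, eval_C] at h1
  exact hD ⟨a, by rw [← sub_eq_zero.1 h1, sq]⟩

/-- `root_sq` and `H33B.root_conv` (`x² - D` is irreducible). -/
theorem jac_conv (D : ℤ) (hD : ¬ IsSquare D) (w : ℕ) (hw : 3 ≤ w) : ∃ ℓ : ℝ,
    Tendsto (fun z : ℕ => ∑ p ∈ (Nat.primesBelow z).filter (fun p => w ≤ p), (jacobiSym D p : ℝ) / p)
      atTop (𝓝 ℓ) := by
  have hd : (X ^ 2 - C D : ℤ[X]).natDegree = 2 := natDegree_X_pow_sub_C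
  obtain ⟨ℓ, hℓ⟩ := root_conv (X ^ 2 - C D) (QC_irr D hD) (by rw [hd]; norm_num)
  refine ⟨ℓ - ∑ p ∈ Nat.primesBelow w, ((rootCount (X ^ 2 - C D) p : ℝ) - 1) / p, ?_⟩
  refine (hℓ.sub_const _).congr' ?_
  filter_upwards [eventually_ge_atTop w] with z hz
  have h1 : (Nat.primesBelow z).filter (fun p => ¬ w ≤ p) = Nat.primesBelow w := by
    ext p
    rw [Finset.mem_filter, Nat.mem_primesBelow, Nat.mem_primesBelow, not_le]
    constructor
    · rintro ⟨⟨_, h2⟩, h3⟩
      exact ⟨h3, h2⟩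
    · rintro ⟨h2, h3⟩
      exact ⟨⟨h2.trans_le hz, h3⟩, h2⟩
  have h2 := Finset.sum_filter_add_sum_filter_not (Nat.primesBelow z) (fun p => w ≤ p)
    (fun p => ((rootCount (X ^ 2 - C D) p : ℝ) - 1) / p)
  rw [h1] at h2
  rw [← h2, add_sub_cancel_right]
  refine Finset.sum_congr rfl fun p hp => ?_
  rw [Finset.mem_filter, Nat.mem_primesBelow] at hp
  rw [root_sq D p hp.1.2 (by omega)]
  ring

/-- the character `n ↦ J(D | n)` -/
noncomputable def QC_chi (D : ℕ) [NeZero D] : DirichletCharacter ℂ (4 * D) where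
  toFun x := if Odd x.val then (jacobiSym D x.val : ℂ) else 0
  map_one' := by
    have h4 : 1 < 4 * D := by
      have := NeZero.pos D
      omega
    haveI : Fact (1 < 4 * D) := ⟨h4⟩
    rw [ZMod.val_one, if_pos odd_one, jacobiSym.one_right, Int.cast_one]
  map_mul' x y := by
    have hval : (x * y).val = x.val * y.val % (4 * D) := ZMod.val_mul x y
    have heven : Even (4 * D) := (by decide : Even 4).mul_right D
    by_cases hx : Odd x.val
    · by_cases hy : Odd y.val
      · have hxy : Odd (x.val * y.val) := hx.mul hy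
        have hxy' : Odd (x * y).val := by rw [hval]; exact hxy.mod_even heven
        have hx0 : x.val ≠ 0 := fun h => by rw [h] at hx; exact absurd hx (by decide)
        have hy0 : y.val ≠ 0 := fun h => by rw [h] at hy; exact absurd hy (by decide)
        rw [if_pos hx, if_pos hy, if_pos hxy', hval, ← jacobiSym.mod_right' D hxy,
          jacobiSym.mul_right' _ hx0 hy0, Int.cast_mul]
      · have hxy : ¬ Odd (x * y).val := by
          rw [Nat.not_odd_iff_even] at hy ⊢
          rw [hval]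
          have h1 : Even (x.val * y.val) := hy.mul_left _
          rw [even_iff_two_dvd] at h1 heven ⊢
          exact (Nat.dvd_mod_iff heven).2 h1
        rw [if_neg hxy, if_neg hy, mul_zero]
    · have hxy : ¬ Odd (x * y).val := by
        rw [Nat.not_odd_iff_even] at hx ⊢
        rw [hval]
        have h1 : Even (x.val * y.val) := hx.mul_right _
        rw [even_iff_two_dvd] at h1 heven ⊢
        exact (Nat.dvd_mod_iff heven).2 h1
      rw [if_neg hxy, if_neg hx, zero_mul]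
  map_nonunit' x hx := by
    by_cases ho : Odd x.val
    · change (if Odd x.val then (jacobiSym D x.val : ℂ) else 0) = 0
      rw [if_pos ho]
      have hx0 : x.val ≠ 0 := fun h => by rw [h] at ho; exact absurd ho (by decide)
      haveI : NeZero x.val := ⟨hx0⟩
      have h1 : jacobiSym (D : ℤ) x.val = 0 := by
        rw [jacobiSym.eq_zero_iff_not_coprime, Int.gcd_natCast_natCast]
        intro h2
        apply hx
        have h3 : Nat.Coprime x.val (4 * D) := by
          refine Nat.Coprime.mul_right ?_ (Nat.Coprime.symm h2)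
          have h5 : Nat.Coprime x.val 2 := Nat.coprime_two_right.2 ho
          exact h5.mul_right h5
        have h4 := (ZMod.isUnit_iff_coprime x.val (4 * D)).2 h3
        rwa [ZMod.natCast_val, ZMod.cast_id', id] at h4
      rw [h1, Int.cast_zero]
    · change (if Odd x.val then (jacobiSym D x.val : ℂ) else 0) = 0
      rw [if_neg ho]

theorem QC_chi_apply (D : ℕ) [NeZero D] (n : ℕ) :
    QC_chi D (n : ZMod (4 * D)) = if Odd n then (jacobiSym D n : ℂ) else 0 := by
  change (if Odd (n : ZMod (4 * D)).val then (jacobiSym D (n : ZMod (4 * D)).val : ℂ) else 0) = _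
  rw [ZMod.val_natCast]
  have heven : Even (4 * D) := (by decide : Even 4).mul_right D
  by_cases ho : Odd n
  · rw [if_pos ho, if_pos (ho.mod_even heven), ← jacobiSym.mod_right' D ho]
  · have h1 : ¬ Odd (n % (4 * D)) := by
      rw [Nat.not_odd_iff_even] at ho ⊢
      rw [even_iff_two_dvd] at ho heven ⊢
      exact (Nat.dvd_mod_iff heven).2 ho
    rw [if_neg ho, if_neg h1]

theorem QC_ne_one (D : ℕ) [NeZero D] (hD : ¬ IsSquare (D : ℤ)) : QC_chi D ≠ 1 := by
  intro h
  obtain ⟨ℓ, hℓ⟩ := jac_conv (D : ℤ) hD (4 * D + 3) (by omega)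
  have hval : ∀ p : ℕ, p.Prime → 4 * D + 3 ≤ p → (jacobiSym (D : ℤ) p : ℝ) = 1 := by
    intro p hp hp2
    have hodd : Odd p := hp.odd_of_ne_two (by omega)
    have h1 := QC_chi_apply D p
    have hD0 := NeZero.pos D
    have hcop : Nat.Coprime p (4 * D) := by
      rw [hp.coprime_iff_not_dvd]
      intro h2
      have := Nat.le_of_dvd (by omega) h2
      omega
    rw [h, if_pos hodd, MulChar.one_apply ((ZMod.isUnit_iff_coprime p (4 * D)).2 hcop)] at h1
    have h2 : ((1 : ℤ) : ℂ) = ((jacobiSym (D : ℤ) p : ℤ) : ℂ) := by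
      rw [Int.cast_one]
      exact h1
    have h3 : (1 : ℤ) = jacobiSym (D : ℤ) p := by exact_mod_cast h2
    rw [← h3, Int.cast_one]
  have hsum : ∀ z : ℕ, ∑ p ∈ (Nat.primesBelow z).filter (fun p => 4 * D + 3 ≤ p),
      (jacobiSym (D : ℤ) p : ℝ) / p =
      ∑ p ∈ (Nat.primesBelow z).filter (fun p => 4 * D + 3 ≤ p), (1 : ℝ) / p := by
    intro z
    refine Finset.sum_congr rfl fun p hp => ?_
    rw [Finset.mem_filter, Nat.mem_primesBelow] at hp
    rw [hval p hp.1.2 hp.2]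
  have hns := Nat.Primes.not_summable_one_div
  apply hns
  have hbdd : ∃ c : ℝ, ∀ z : ℕ, ∑ p ∈ (Nat.primesBelow z).filter (fun p => 4 * D + 3 ≤ p),
      (1 : ℝ) / p ≤ c := by
    obtain ⟨c, hc⟩ := hℓ.bddAbove_range
    refine ⟨c, fun z => ?_⟩
    rw [← hsum z]
    exact hc ⟨z, rfl⟩
  obtain ⟨c, hc⟩ := hbdd
  refine summable_of_sum_le (c := c + ∑ p ∈ Nat.primesBelow (4 * D + 3), (1 : ℝ) / p)
    (fun p => by positivity) fun S => ?_
  obtain ⟨z, hz⟩ : ∃ z : ℕ, ∀ p ∈ S, (p : ℕ) < z := by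
    obtain ⟨z, hz⟩ := (S.image (fun p : Nat.Primes => (p : ℕ))).bddAbove
    refine ⟨z + 1, fun p hp => ?_⟩
    have := hz (Finset.mem_coe.2 (Finset.mem_image_of_mem _ hp))
    omega
  have h1 : ∑ p ∈ S, 1 / ((p : ℕ) : ℝ) = ∑ p ∈ S.image (fun p : Nat.Primes => (p : ℕ)),
      1 / (p : ℝ) := by
    rw [Finset.sum_image]
    intro a _ b _ hab
    exact Subtype.ext hab
  have h2 : S.image (fun p : Nat.Primes => (p : ℕ)) ⊆ Nat.primesBelow z := by
    intro p hp
    rw [Finset.mem_image] at hp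
    obtain ⟨q, hq, rfl⟩ := hp
    rw [Nat.mem_primesBelow]
    exact ⟨hz q hq, q.2⟩
  have h3 := Finset.sum_le_sum_of_subset_of_nonneg h2
    (f := fun p : ℕ => 1 / (p : ℝ)) (fun p _ _ => by positivity)
  have h4 := Finset.sum_filter_add_sum_filter_not (Nat.primesBelow z) (fun p => 4 * D + 3 ≤ p)
    (fun p : ℕ => (1 : ℝ) / p)
  have h5 : ∑ p ∈ (Nat.primesBelow z).filter (fun p => ¬ 4 * D + 3 ≤ p), (1 : ℝ) / p ≤
      ∑ p ∈ Nat.primesBelow (4 * D + 3), (1 : ℝ) / p := by
    refine Finset.sum_le_sum_of_subset_of_nonneg ?_ (fun p _ _ => by positivity)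
    intro p hp
    rw [Finset.mem_filter, Nat.mem_primesBelow] at hp
    rw [Nat.mem_primesBelow]
    exact ⟨not_le.1 hp.2, hp.1.2⟩
  have h6 := hc z
  rw [h1]
  linarith

theorem QC_omega (w : ℕ) : (PW w).primeFactors.card ≤ w := by
  have h1 : (PW w).primeFactors ⊆ Finset.range w := by
    intro p hp
    rw [Finset.mem_range]
    exact (prime_dvd_PW w p (Nat.prime_of_mem_primeFactors hp)).1 (Nat.dvd_of_mem_primeFactors hp)
  have := Finset.card_le_card h1
  rwa [Finset.card_range] at this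

/-- `n ↦ J(D | n)` for odd `n`, `0` for even `n`, is a Dirichlet character modulo `4D`: it is multiplicative and depends only on
`n mod 4D` (`jacobiSym.mod_right`), and it is not principal (it vanishes exactly at the `n` not coprime to `4D`): otherwise
`J(D|p) = 1` for all `p ∤ 2D`, and `jac_conv` would give the convergence of `∑ 1/p`. Then `pv` with `m = PW w`
(`ω(PW w) ≤ w`). -/
theorem rough_sum : ∃ C : ℝ, 0 < C ∧ ∀ D : ℤ, 0 < D → ¬ IsSquare D → ∀ w u v : ℕ,
    |∑ n ∈ Ico u v, rough w D n| ≤ C * 2 ^ w * (D : ℝ) ^ ((3 : ℝ) / 5) := by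
  obtain ⟨C, hC, h⟩ := pv
  refine ⟨4 * C, by positivity, fun D hD hsq w u v => ?_⟩
  obtain ⟨d, rfl⟩ : ∃ d : ℕ, D = d := ⟨D.toNat, (Int.toNat_of_nonneg hD.le).symm⟩
  have hd : 0 < d := by exact_mod_cast hD
  haveI : NeZero d := ⟨hd.ne'⟩
  have h1 := h (4 * d) (QC_chi d) (QC_ne_one d hsq) (PW w) u v (PW_pos w)
  have h2 : ∑ n ∈ (Ico u v).filter (fun n => n.Coprime (PW w)), QC_chi d (n : ZMod (4 * d)) =
      ((∑ n ∈ Ico u v, rough w d n : ℝ) : ℂ) := by
    rw [Finset.sum_filter, Complex.ofReal_sum]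
    refine Finset.sum_congr rfl fun n _ => ?_
    unfold rough
    by_cases hc : n.Coprime (PW w)
    · rw [if_pos hc, QC_chi_apply]
      by_cases ho : Odd n
      · rw [if_pos ho, if_pos ⟨ho, hc⟩]
        norm_cast
      · rw [if_neg ho, if_neg (fun hh => ho hh.1), Complex.ofReal_zero]
    · rw [if_neg hc, if_neg (fun hh => hc hh.2), Complex.ofReal_zero]
  rw [h2, Complex.norm_real, Real.norm_eq_abs] at h1
  refine h1.trans ?_
  have h3 : (2 : ℝ) ^ (PW w).primeFactors.card ≤ 2 ^ w :=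
    pow_le_pow_right₀ (by norm_num) (QC_omega w)
  have h4 : ((4 * d : ℕ) : ℝ) ^ ((3 : ℝ) / 5) ≤ 4 * (d : ℝ) ^ ((3 : ℝ) / 5) := by
    rw [Nat.cast_mul, Real.mul_rpow (by positivity) (by positivity)]
    refine mul_le_mul_of_nonneg_right ?_ (by positivity)
    have h5 : ((4 : ℕ) : ℝ) ^ ((3 : ℝ) / 5) ≤ ((4 : ℕ) : ℝ) ^ (1 : ℝ) :=
      Real.rpow_le_rpow_of_exponent_le (by norm_num) (by norm_num)
    rw [Real.rpow_one] at h5
    exact_mod_cast h5
  rw [Int.cast_natCast]
  calc C * 2 ^ (PW w).primeFactors.card * ((4 * d : ℕ) : ℝ) ^ ((3 : ℝ) / 5) ≤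
      C * 2 ^ w * (4 * (d : ℝ) ^ ((3 : ℝ) / 5)) := by
        refine mul_le_mul (mul_le_mul_of_nonneg_left h3 hC.le) h4 (by positivity) (by positivity)
    _ = 4 * C * 2 ^ w * (d : ℝ) ^ ((3 : ℝ) / 5) := by ring

end Pool.Agent.Lib.H33C
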