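import Pool.Agent.Lib.H33C.QC

/-!
# Chunk QL: the prime sum from the rough sum
-/

open Finset Filter Topology

namespace Pool.Agent.Lib.H33C

open Pool.Agent.Lib.H33B

theorem QL_zero (w : ℕ) (D : ℤ) : rough w D 0 = 0 := by
  unfold rough
  rw [if_neg]
  rintro ⟨h, -⟩
  exact absurd h (by decide)

theorem QL_one (w : ℕ) (D : ℤ) : rough w D 1 = 1 := by
  unfold rough
  rw [if_pos ⟨odd_one, Nat.coprime_one_left _⟩, jacobiSym.one_right, Int.cast_one]

theorem QL_mul (w : ℕ) (D : ℤ) (m n : ℕ) : rough w D (m * n) = rough w D m * rough w D n := by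
  unfold rough
  by_cases hm : Odd m ∧ m.Coprime (PW w)
  · by_cases hn : Odd n ∧ n.Coprime (PW w)
    · have hm0 : m ≠ 0 := by
        rintro rfl
        exact absurd hm.1 (by decide)
      have hn0 : n ≠ 0 := by
        rintro rfl
        exact absurd hn.1 (by decide)
      rw [if_pos hm, if_pos hn, if_pos ⟨hm.1.mul hn.1, hm.2.mul_left hn.2⟩,
        jacobiSym.mul_right' _ hm0 hn0, Int.cast_mul]
    · rw [if_neg hn, mul_zero, if_neg]
      rintro ⟨h1, h2⟩
      exact hn ⟨Nat.Odd.of_mul_right h1, h2.coprime_mul_left⟩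
  · rw [if_neg hm, zero_mul, if_neg]
    rintro ⟨h1, h2⟩
    exact hm ⟨Nat.Odd.of_mul_left h1, h2.coprime_mul_right⟩

theorem QL_abs (w : ℕ) (D : ℤ) (n : ℕ) : |rough w D n| ≤ 1 := by
  unfold rough
  split_ifs
  · rcases jacobiSym.trichotomy D n with h | h | h <;> rw [h] <;> norm_num
  · norm_num

theorem QL_prime_lt (w : ℕ) (D : ℤ) (p : ℕ) (hp : p.Prime) (h : p < w) : rough w D p = 0 := by
  unfold rough
  rw [if_neg]
  rintro ⟨-, h2⟩
  rw [hp.coprime_iff_not_dvd] at h2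
  exact h2 ((prime_dvd_PW w p hp).2 h)

theorem QL_prime_ge (w : ℕ) (D : ℤ) (p : ℕ) (hp : p.Prime) (hw : 3 ≤ w) (h : w ≤ p) :
    rough w D p = (jacobiSym D p : ℝ) := by
  unfold rough
  rw [if_pos]
  refine ⟨hp.odd_of_ne_two (by omega), ?_⟩
  rw [hp.coprime_iff_not_dvd, prime_dvd_PW w p hp]
  omega

/-- Abel's inequality -/
theorem QL_abel (c a : ℕ → ℝ) (u : ℕ) (E : ℝ) (ha : ∀ n, u ≤ n → a (n + 1) ≤ a n)
    (ha0 : ∀ n, u ≤ n → 0 ≤ a n) (hE : ∀ K, u ≤ K → |∑ n ∈ Ico u K, c n| ≤ E) (K : ℕ) (hK : u ≤ K) :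
    |∑ n ∈ Ico u K, c n * a n| ≤ E * a u := by
  have key : ∀ K, u ≤ K → |∑ n ∈ Ico u K, c n * a n - a K * ∑ n ∈ Ico u K, c n| ≤
      E * (a u - a K) := by
    intro K hK
    induction K, hK using Nat.le_induction with
    | base => simp
    | succ K hK ih =>
      have h1 := hE (K + 1) (by omega)
      have e : ∑ n ∈ Ico u (K + 1), c n * a n - a (K + 1) * ∑ n ∈ Ico u (K + 1), c n =
          (∑ n ∈ Ico u K, c n * a n - a K * ∑ n ∈ Ico u K, c n) +
          (a K - a (K + 1)) * ∑ n ∈ Ico u (K + 1), c n := by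
        rw [Finset.sum_Ico_succ_top hK, Finset.sum_Ico_succ_top hK]
        ring
      rw [e]
      refine (abs_add_le _ _).trans ?_
      rw [abs_mul, abs_of_nonneg (sub_nonneg.2 (ha K hK))]
      have h2 := mul_le_mul_of_nonneg_left h1 (sub_nonneg.2 (ha K hK))
      linarith
  have h1 := key K hK
  have h2 := hE K hK
  have e : ∑ n ∈ Ico u K, c n * a n = (∑ n ∈ Ico u K, c n * a n - a K * ∑ n ∈ Ico u K, c n) +
      a K * ∑ n ∈ Ico u K, c n := by ring
  rw [e]
  refine (abs_add_le _ _).trans ?_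
  rw [abs_mul, abs_of_nonneg (ha0 K hK)]
  have h3 := mul_le_mul_of_nonneg_left h2 (ha0 K hK)
  linarith

theorem QL_tail {f : ℕ → ℝ} (hf : Summable f) (u : ℕ) (B : ℝ)
    (h : ∀ K, u ≤ K → |∑ n ∈ Ico u K, f n| ≤ B) : |∑' n, f n - ∑ n ∈ range u, f n| ≤ B := by
  have h1 := (hf.hasSum.tendsto_sum_nat.sub_const (∑ n ∈ range u, f n)).abs
  refine le_of_tendsto h1 ?_
  filter_upwards [eventually_ge_atTop u] with K hK
  rw [← Finset.sum_range_add_sum_Ico f hK, add_sub_cancel_left]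
  exact h K hK

/-- the summand of the Dirichlet series -/
noncomputable def QL_f (w : ℕ) (D : ℤ) (s : ℝ) (n : ℕ) : ℝ := rough w D n * (n : ℝ) ^ (-(1 + s))

theorem QL_f_abs (w : ℕ) (D : ℤ) (s : ℝ) (n : ℕ) : |QL_f w D s n| ≤ (n : ℝ) ^ (-(1 + s)) := by
  unfold QL_f
  rw [abs_mul, abs_of_nonneg (Real.rpow_nonneg (Nat.cast_nonneg n) _)]
  have h1 := QL_abs w D n
  have h2 : (0 : ℝ) ≤ (n : ℝ) ^ (-(1 + s)) := Real.rpow_nonneg (Nat.cast_nonneg n) _
  calc |rough w D n| * (n : ℝ) ^ (-(1 + s)) ≤ 1 * (n : ℝ) ^ (-(1 + s)) :=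
        mul_le_mul_of_nonneg_right h1 h2
    _ = _ := one_mul _

theorem QL_summ_abs (w : ℕ) (D : ℤ) {s : ℝ} (hs : 0 < s) : Summable fun n => |QL_f w D s n| :=
  Summable.of_nonneg_of_le (fun _ => abs_nonneg _) (QL_f_abs w D s)
    (Real.summable_nat_rpow.2 (by linarith))

theorem QL_summ (w : ℕ) (D : ℤ) {s : ℝ} (hs : 0 < s) : Summable (QL_f w D s) :=
  (QL_summ_abs w D hs).of_abs

theorem QL_antitone {s : ℝ} (hs : 0 ≤ s) (n : ℕ) (hn : 1 ≤ n) :
    ((n + 1 : ℕ) : ℝ) ^ (-s) ≤ (n : ℝ) ^ (-s) := by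
  have h1 : (0 : ℝ) < n := by exact_mod_cast hn
  refine Real.rpow_le_rpow_of_nonpos h1 ?_ (by linarith)
  push_cast
  linarith

theorem QL_cont (n : ℕ) (hn : 1 ≤ n) (c : ℝ) :
    Tendsto (fun s : ℝ => (n : ℝ) ^ (-(c + s))) (𝓝[>] 0) (𝓝 ((n : ℝ) ^ (-c))) := by
  have h1 : (0 : ℝ) < n := by exact_mod_cast hn
  have h2 : Continuous fun s : ℝ => (n : ℝ) ^ (-(c + s)) :=
    Continuous.rpow continuous_const (by fun_prop) (fun _ => Or.inl h1.ne')
  have h3 := h2.tendsto 0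
  rw [add_zero] at h3
  exact h3.mono_left nhdsWithin_le_nhds

/-- the Dirichlet series is close to one -/
theorem QL_close (D : ℤ) (w M : ℕ) (E η : ℝ) (hM : 1 ≤ M)
    (hE : ∀ u v : ℕ, |∑ n ∈ Ico u v, rough w D n| ≤ E) (hEM : E ≤ η * M)
    (hsum : |∑ n ∈ Icc 2 M, rough w D n / n| ≤ η) (δ : ℝ) (hδ : 0 < δ) :
    ∀ᶠ s : ℝ in 𝓝[>] 0, |∑' n, QL_f w D s n - 1| ≤ 2 * η + δ := by
  have hE0 : 0 ≤ E := (abs_nonneg _).trans (hE 0 0)
  have hM' : (0 : ℝ) < M := by exact_mod_cast hM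
  have h1 : ∀ s : ℝ, 0 < s → |∑' n, QL_f w D s n - ∑ n ∈ range (M + 1), QL_f w D s n| ≤ η := by
    intro s hs
    refine QL_tail (QL_summ w D hs) (M + 1) η fun K hK => ?_
    have h2 := QL_abel (rough w D) (fun n => (n : ℝ) ^ (-(1 + s))) (M + 1) E
      (fun n hn => QL_antitone (by linarith) n (by omega))
      (fun n _ => Real.rpow_nonneg (Nat.cast_nonneg n) _) (fun K _ => hE _ _) K hK
    refine h2.trans ?_
    have h3 : ((M + 1 : ℕ) : ℝ) ^ (-(1 + s)) ≤ (M : ℝ)⁻¹ := by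
      have h4 : ((M + 1 : ℕ) : ℝ) ^ (-(1 + s)) ≤ ((M + 1 : ℕ) : ℝ) ^ (-1 : ℝ) :=
        Real.rpow_le_rpow_of_exponent_le (by push_cast; linarith) (by linarith)
      rw [Real.rpow_neg_one] at h4
      refine h4.trans (inv_anti₀ hM' ?_)
      push_cast
      linarith
    calc E * ((M + 1 : ℕ) : ℝ) ^ (-(1 + s)) ≤ E * (M : ℝ)⁻¹ := mul_le_mul_of_nonneg_left h3 hE0
      _ ≤ η * M * (M : ℝ)⁻¹ := mul_le_mul_of_nonneg_right hEM (by positivity)
      _ = η := by rw [mul_assoc, mul_inv_cancel₀ hM'.ne', mul_one]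
  have h2 : Tendsto (fun s : ℝ => ∑ n ∈ range (M + 1), QL_f w D s n) (𝓝[>] 0)
      (𝓝 (∑ n ∈ range (M + 1), rough w D n / n)) := by
    refine tendsto_finsetSum _ fun n _ => ?_
    rcases Nat.eq_zero_or_pos n with rfl | hn
    · have e : ∀ s : ℝ, QL_f w D s 0 = 0 := fun s => by
        unfold QL_f
        rw [QL_zero, zero_mul]
      simp only [e, QL_zero, zero_div]
      exact tendsto_const_nhds
    · have h3 := (QL_cont n hn 1).const_mul (rough w D n)
      rw [Real.rpow_neg_one, ← div_eq_mul_inv] at h3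
      exact h3
  have h3 : ∑ n ∈ range (M + 1), rough w D n / n = 1 + ∑ n ∈ Icc 2 M, rough w D n / n := by
    have e : range (M + 1) = insert 0 (insert 1 (Icc 2 M)) := by
      ext x
      simp only [mem_range, mem_insert, mem_Icc]
      omega
    rw [e, Finset.sum_insert, Finset.sum_insert, QL_zero, QL_one]
    · norm_num
    · simp
    · simp
  have h4 : ∀ᶠ s : ℝ in 𝓝[>] 0, |∑ n ∈ range (M + 1), QL_f w D s n -
      ∑ n ∈ range (M + 1), rough w D n / n| < δ := by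
    have h5 := (Metric.tendsto_nhds.1 h2) δ hδ
    filter_upwards [h5] with s hs
    rwa [Real.dist_eq] at hs
  filter_upwards [h4, self_mem_nhdsWithin] with s hs hs0
  have h5 := h1 s hs0
  rw [h3] at hs
  have e : ∑' n, QL_f w D s n - 1 = (∑' n, QL_f w D s n - ∑ n ∈ range (M + 1), QL_f w D s n) +
      (∑ n ∈ range (M + 1), QL_f w D s n - (1 + ∑ n ∈ Icc 2 M, rough w D n / n)) +
      ∑ n ∈ Icc 2 M, rough w D n / n := by ring
  rw [e]
  refine (abs_add_le _ _).trans ?_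
  have h6 := abs_add_le (∑' n, QL_f w D s n - ∑ n ∈ range (M + 1), QL_f w D s n)
    (∑ n ∈ range (M + 1), QL_f w D s n - (1 + ∑ n ∈ Icc 2 M, rough w D n / n))
  linarith

/-- the Euler product, real form -/
theorem QL_euler (D : ℤ) (w : ℕ) {s : ℝ} (hs : 0 < s) :
    Real.exp (∑' p : Nat.Primes, -Real.log (1 - QL_f w D s p)) = ∑' n, QL_f w D s n := by
  let f : ℕ →*₀ ℂ :=
    { toFun := fun n => ((QL_f w D s n : ℝ) : ℂ)
      map_zero' := by
        unfold QL_f
        rw [QL_zero, zero_mul, Complex.ofReal_zero]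
      map_one' := by
        unfold QL_f
        rw [QL_one, Nat.cast_one, Real.one_rpow, mul_one, Complex.ofReal_one]
      map_mul' := by
        intro m n
        unfold QL_f
        rw [QL_mul, Nat.cast_mul, Real.mul_rpow (Nat.cast_nonneg m) (Nat.cast_nonneg n),
          ← Complex.ofReal_mul]
        congr 1
        ring }
  have hsum : Summable (‖f ·‖) := by
    refine (QL_summ_abs w D hs).congr fun n => ?_
    change |QL_f w D s n| = ‖((QL_f w D s n : ℝ) : ℂ)‖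
    rw [Complex.norm_real, Real.norm_eq_abs]
  have h := EulerProduct.exp_tsum_primes_log_eq_tsum hsum
  have h1 : ∀ p : Nat.Primes, -Complex.log (1 - f p) =
      ((-Real.log (1 - QL_f w D s p) : ℝ) : ℂ) := by
    intro p
    have h2 : |QL_f w D s p| ≤ 1 := by
      refine (QL_f_abs w D s p).trans ?_
      exact Real.rpow_le_one_of_one_le_of_nonpos (by exact_mod_cast p.2.one_lt.le) (by linarith)
    have h3 : 0 ≤ 1 - QL_f w D s p := by
      have := (abs_le.1 h2).2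
      linarith
    rw [Complex.ofReal_neg, Complex.ofReal_log h3, Complex.ofReal_sub, Complex.ofReal_one]
    rfl
  rw [tsum_congr h1, ← Complex.ofReal_tsum, ← Complex.ofReal_exp] at h
  have h4 : (∑' n : ℕ, f n) = ((∑' n, QL_f w D s n : ℝ) : ℂ) := by
    rw [Complex.ofReal_tsum]
    rfl
  rw [h4] at h
  exact_mod_cast h

theorem QL_tele (w K : ℕ) (hw : 2 ≤ w) (hK : w ≤ K) :
    ∑ n ∈ Ico w K, (1 / ((n : ℝ) - 1) - 1 / n) ≤ 1 / ((w : ℝ) - 1) := by
  have key : ∑ n ∈ Ico w K, (1 / ((n : ℝ) - 1) - 1 / n) =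
      1 / ((w : ℝ) - 1) - 1 / ((K : ℝ) - 1) := by
    induction K, hK using Nat.le_induction with
    | base => simp
    | succ K hK ih =>
      rw [Finset.sum_Ico_succ_top hK, ih]
      push_cast
      rw [add_sub_cancel_right]
      ring
  rw [key]
  have h1 : (2 : ℝ) ≤ K := by exact_mod_cast hw.trans hK
  have h2 : 0 ≤ 1 / ((K : ℝ) - 1) := by
    apply div_nonneg zero_le_one
    linarith
  linarith

/-- the logarithms -/
theorem QL_log (D : ℤ) (w : ℕ) (η : ℝ) (hw : 16 ≤ w) (hwη : 2 / (w : ℝ) ≤ η) {s : ℝ} (hs : 0 < s)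
    (S : Finset Nat.Primes) :
    ∑ p ∈ S, |-Real.log (1 - QL_f w D s p) - QL_f w D s p| ≤ η := by
  have hterm : ∀ p : Nat.Primes, |-Real.log (1 - QL_f w D s p) - QL_f w D s p| ≤
      if w ≤ (p : ℕ) then 16 / 15 * (1 / (((p : ℕ) : ℝ) - 1) - 1 / ((p : ℕ) : ℝ)) else 0 := by
    intro p
    by_cases hp : w ≤ (p : ℕ)
    · rw [if_pos hp]
      have hp16 : (16 : ℝ) ≤ ((p : ℕ) : ℝ) := by exact_mod_cast hw.trans hp
      set x := QL_f w D s p with hx
      have hx1 : |x| ≤ 1 / ((p : ℕ) : ℝ) := by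
        refine (QL_f_abs w D s p).trans ?_
        have h4 : ((p : ℕ) : ℝ) ^ (-(1 + s)) ≤ ((p : ℕ) : ℝ) ^ (-1 : ℝ) :=
          Real.rpow_le_rpow_of_exponent_le (by linarith) (by linarith)
        rw [Real.rpow_neg_one, ← one_div] at h4
        exact h4
      have hx2 : |x| ≤ 1 / 16 := hx1.trans (one_div_le_one_div_of_le (by norm_num) hp16)
      have h5 := Real.abs_log_sub_add_sum_range_le (x := x) (by linarith) 1
      simp only [Finset.sum_range_one, zero_add, pow_one, Nat.cast_zero, div_one] at h5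
      have h6 : |-Real.log (1 - x) - x| = |x + Real.log (1 - x)| := by
        rw [← abs_neg]
        congr 1
        ring
      rw [h6]
      refine h5.trans ?_
      have h7 : |x| ^ (1 + 1) / (1 - |x|) ≤ 16 / 15 * |x| ^ 2 := by
        rw [div_le_iff₀ (by linarith)]
        have : (0 : ℝ) ≤ |x| ^ 2 := by positivity
        have h8 : 16 / 15 * |x| ^ 2 * (1 - 1 / 16) ≤ 16 / 15 * |x| ^ 2 * (1 - |x|) :=
          mul_le_mul_of_nonneg_left (by linarith) (by positivity)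
        have h9 : |x| ^ (1 + 1) = |x| ^ 2 := rfl
        linarith
      refine h7.trans ?_
      have h8 : |x| ^ 2 ≤ (1 / ((p : ℕ) : ℝ)) ^ 2 := pow_le_pow_left₀ (abs_nonneg _) hx1 2
      have h9 : (1 / ((p : ℕ) : ℝ)) ^ 2 ≤ 1 / (((p : ℕ) : ℝ) - 1) - 1 / ((p : ℕ) : ℝ) := by
        have hp0 : (0 : ℝ) < ((p : ℕ) : ℝ) := by linarith
        have hp1 : (0 : ℝ) < ((p : ℕ) : ℝ) - 1 := by linarith
        rw [div_sub_div _ _ hp1.ne' hp0.ne', div_pow, one_pow, div_le_div_iff₀ (by positivity)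
          (by positivity)]
        nlinarith
      linarith
    · rw [if_neg hp]
      have hx : QL_f w D s p = 0 := by
        unfold QL_f
        rw [QL_prime_lt w D p p.2 (not_le.1 hp), zero_mul]
      rw [hx]
      simp
  refine (Finset.sum_le_sum fun p _ => hterm p).trans ?_
  obtain ⟨z, hz⟩ : ∃ z : ℕ, ∀ p ∈ S, (p : ℕ) < z := by
    obtain ⟨z, hz⟩ := (S.image (fun p : Nat.Primes => (p : ℕ))).bddAbove
    refine ⟨z + 1, fun p hp => ?_⟩
    have := hz (Finset.mem_coe.2 (Finset.mem_image_of_mem _ hp))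
    omega
  have h1 : ∑ p ∈ S, (if w ≤ (p : ℕ) then 16 / 15 * (1 / (((p : ℕ) : ℝ) - 1) - 1 / ((p : ℕ) : ℝ))
      else 0) = ∑ n ∈ (S.image (fun p : Nat.Primes => (p : ℕ))).filter (fun n => w ≤ n),
      16 / 15 * (1 / ((n : ℝ) - 1) - 1 / (n : ℝ)) := by
    rw [Finset.sum_filter, Finset.sum_image]
    intro a _ b _ hab
    exact Subtype.ext hab
  rw [h1]
  have h2 : (S.image (fun p : Nat.Primes => (p : ℕ))).filter (fun n => w ≤ n) ⊆
      Ico w (w + z) := by
    intro n hn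
    rw [Finset.mem_filter, Finset.mem_image] at hn
    obtain ⟨⟨q, hq, rfl⟩, h3⟩ := hn
    rw [Finset.mem_Ico]
    have := hz q hq
    omega
  have hwR : (16 : ℝ) ≤ w := by exact_mod_cast hw
  have h3 := Finset.sum_le_sum_of_subset_of_nonneg h2
    (f := fun n : ℕ => 16 / 15 * (1 / ((n : ℝ) - 1) - 1 / (n : ℝ))) (fun n hn _ => by
      rw [Finset.mem_Ico] at hn
      have h4 : (16 : ℝ) ≤ n := by exact_mod_cast hw.trans hn.1
      have h5 : 1 / (n : ℝ) ≤ 1 / ((n : ℝ) - 1) :=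
        one_div_le_one_div_of_le (by linarith) (by linarith)
      have : 0 ≤ 1 / ((n : ℝ) - 1) - 1 / (n : ℝ) := by linarith
      positivity)
  refine h3.trans ?_
  rw [← Finset.mul_sum]
  have h4 := QL_tele w (w + z) (by omega) (by omega)
  have h5 : 1 / ((w : ℝ) - 1) ≤ 16 / 15 * (1 / w) := by
    rw [div_le_iff₀ (by linarith)]
    have h6 : 0 < (w : ℝ) := by linarith
    field_simp
    linarith
  have h6 : 2 * (1 / (w : ℝ)) ≤ η := by
    rw [mul_one_div]
    exact hwη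
  have h7 : 0 ≤ 1 / (w : ℝ) := by positivity
  linarith

/-- the prime sum tends to `ℓ` -/
theorem QL_lim (D : ℤ) (w : ℕ) (ℓ : ℝ) (hw : 3 ≤ w)
    (hℓ : Tendsto (fun z : ℕ => ∑ p ∈ (Nat.primesBelow z).filter (fun p => w ≤ p),
      (jacobiSym D p : ℝ) / p) atTop (𝓝 ℓ)) (ε : ℝ) (hε : 0 < ε) :
    ∀ᶠ s : ℝ in 𝓝[>] 0, |∑' p : Nat.Primes, QL_f w D s p - ℓ| ≤ 4 * ε := by
  set b : ℕ → ℝ := fun n => if n.Prime then rough w D n / n else 0 with hb
  have hb0 : b 0 = 0 := by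
    simp only [hb]
    rw [if_neg Nat.not_prime_zero]
  have hB : ∀ z : ℕ, ∑ n ∈ range z, b n =
      ∑ p ∈ (Nat.primesBelow z).filter (fun p => w ≤ p), (jacobiSym D p : ℝ) / p := by
    intro z
    have e1 : ∑ n ∈ range z, b n = ∑ p ∈ Nat.primesBelow z, rough w D p / p := by
      unfold Nat.primesBelow
      rw [Finset.sum_filter]
    have e2 := Finset.sum_filter_add_sum_filter_not (Nat.primesBelow z) (fun p => w ≤ p)
      (fun p : ℕ => rough w D p / p)
    have e3 : ∑ p ∈ (Nat.primesBelow z).filter (fun p => ¬ w ≤ p), rough w D p / (p : ℝ) = 0 := by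
      refine Finset.sum_eq_zero fun p hp => ?_
      rw [Finset.mem_filter, Nat.mem_primesBelow] at hp
      rw [QL_prime_lt w D p hp.1.2 (not_le.1 hp.2), zero_div]
    rw [e1, ← e2, e3, add_zero]
    refine Finset.sum_congr rfl fun p hp => ?_
    rw [Finset.mem_filter, Nat.mem_primesBelow] at hp
    rw [QL_prime_ge w D p hp.1.2 hw hp.2]
  have hBl : Tendsto (fun z : ℕ => ∑ n ∈ range z, b n) atTop (𝓝 ℓ) := by
    simp only [hB]
    exact hℓ
  obtain ⟨n0, hn0⟩ := (Metric.tendsto_atTop.1 hBl) ε hε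
  set u := max n0 1 with hu
  have hu1 : 1 ≤ u := le_max_right _ _
  have hclose : ∀ z, u ≤ z → |∑ n ∈ range z, b n - ℓ| ≤ ε := by
    intro z hz
    have := hn0 z ((le_max_left _ _).trans hz)
    rw [Real.dist_eq] at this
    exact this.le
  have htsum : ∀ s : ℝ, ∑' p : Nat.Primes, QL_f w D s p = ∑' n : ℕ, b n * (n : ℝ) ^ (-s) := by
    intro s
    have e1 := tsum_subtype {n : ℕ | n.Prime} (QL_f w D s)
    refine Eq.trans e1 ?_
    refine tsum_congr fun n => ?_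
    simp only [hb]
    by_cases hn : n.Prime
    · rw [Set.indicator_of_mem (show n ∈ {n : ℕ | n.Prime} from hn), if_pos hn]
      unfold QL_f
      have hn0 : (0 : ℝ) < n := by exact_mod_cast hn.pos
      rw [neg_add, Real.rpow_add hn0, Real.rpow_neg_one]
      ring
    · rw [Set.indicator_of_notMem (show n ∉ {n : ℕ | n.Prime} from hn), if_neg hn, zero_mul]
  have hsummable : ∀ s : ℝ, 0 < s → Summable fun n : ℕ => b n * (n : ℝ) ^ (-s) := by
    intro s hs
    refine Summable.of_norm_bounded (Real.summable_nat_rpow.2 (show -(1 + s) < -1 by linarith))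
      fun n => ?_
    rw [Real.norm_eq_abs]
    simp only [hb]
    by_cases hn : n.Prime
    · rw [if_pos hn]
      have hn0 : (0 : ℝ) < n := by exact_mod_cast hn.pos
      have e : rough w D n / n * (n : ℝ) ^ (-s) = QL_f w D s n := by
        unfold QL_f
        rw [neg_add, Real.rpow_add hn0, Real.rpow_neg_one]
        ring
      rw [e]
      exact QL_f_abs w D s n
    · rw [if_neg hn, zero_mul, abs_zero]
      exact Real.rpow_nonneg (Nat.cast_nonneg n) _
  have htail : ∀ s : ℝ, 0 < s → |∑' n : ℕ, b n * (n : ℝ) ^ (-s) -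
      ∑ n ∈ range u, b n * (n : ℝ) ^ (-s)| ≤ 2 * ε := by
    intro s hs
    refine QL_tail (hsummable s hs) u (2 * ε) fun K hK => ?_
    have h2 := QL_abel b (fun n => (n : ℝ) ^ (-s)) u (2 * ε)
      (fun n hn => QL_antitone hs.le n (by omega))
      (fun n _ => Real.rpow_nonneg (Nat.cast_nonneg n) _) (fun K hK => by
        have e : ∑ n ∈ Ico u K, b n = (∑ n ∈ range K, b n - ℓ) - (∑ n ∈ range u, b n - ℓ) := by
          rw [← Finset.sum_range_add_sum_Ico b hK]
          ring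
        rw [e]
        have h3 := hclose K hK
        have h4 := hclose u le_rfl
        refine (abs_sub _ _).trans ?_
        linarith) K hK
    refine h2.trans ?_
    have h3 : (u : ℝ) ^ (-s) ≤ 1 :=
      Real.rpow_le_one_of_one_le_of_nonpos (by exact_mod_cast hu1) (by linarith)
    calc 2 * ε * (u : ℝ) ^ (-s) ≤ 2 * ε * 1 := mul_le_mul_of_nonneg_left h3 (by positivity)
      _ = 2 * ε := mul_one _
  have hfin : Tendsto (fun s : ℝ => ∑ n ∈ range u, b n * (n : ℝ) ^ (-s)) (𝓝[>] 0)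
      (𝓝 (∑ n ∈ range u, b n)) := by
    refine tendsto_finsetSum _ fun n _ => ?_
    rcases Nat.eq_zero_or_pos n with rfl | hn
    · simp only [hb0, zero_mul]
      exact tendsto_const_nhds
    · have h3 := (QL_cont n hn 0).const_mul (b n)
      rw [neg_zero, Real.rpow_zero, mul_one] at h3
      simpa only [zero_add] using h3
  have h5 := (Metric.tendsto_nhds.1 hfin) ε hε
  filter_upwards [h5, self_mem_nhdsWithin] with s hs1 hs0
  rw [Real.dist_eq] at hs1
  rw [htsum]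
  have h6 := htail s hs0
  have h7 := hclose u le_rfl
  have e : ∑' n : ℕ, b n * (n : ℝ) ^ (-s) - ℓ = (∑' n : ℕ, b n * (n : ℝ) ^ (-s) -
      ∑ n ∈ range u, b n * (n : ℝ) ^ (-s)) + (∑ n ∈ range u, b n * (n : ℝ) ^ (-s) -
      ∑ n ∈ range u, b n) + (∑ n ∈ range u, b n - ℓ) := by ring
  rw [e]
  refine (abs_add_le _ _).trans ?_
  have h8 := abs_add_le (∑' n : ℕ, b n * (n : ℝ) ^ (-s) -
      ∑ n ∈ range u, b n * (n : ℝ) ^ (-s)) (∑ n ∈ range u, b n * (n : ℝ) ^ (-s) -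
      ∑ n ∈ range u, b n)
  linarith

theorem QL_logbound {x a : ℝ} (ha : a ≤ 1 / 2) (h : |x - 1| ≤ a) : |Real.log x| ≤ 2 * a := by
  have h1 := abs_le.1 h
  have hx : 1 / 2 ≤ x := by linarith
  have hx0 : 0 < x := by linarith
  have ha0 : 0 ≤ a := (abs_nonneg _).trans h
  rw [abs_le]
  constructor
  · have h2 := Real.one_sub_inv_le_log_of_pos hx0
    have h3 : 1 - x⁻¹ = (x - 1) / x := by
      field_simp
    have h4 : -(2 * a) ≤ (x - 1) / x := by
      rw [le_div_iff₀ hx0]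
      nlinarith
    linarith
  · have h2 := Real.log_le_sub_one_of_pos hx0
    linarith

/-- Let `χ(n) = rough w D n`, completely multiplicative, `χ(1) = 1`. The partial sums `∑_{M < n ≤ x} χ(n)` are bounded by `E`, so
`F(s) = ∑_n χ(n) n^(-1-s)` converges uniformly in `s ≥ 0` (partial summation), `F(s) → F(0)` as `s → 0+`, and
`|F(0) - ∑_{n ≤ M} χ(n)/n| ≤ E/M`; so `|F(0) - 1| ≤ 2η`. For `s > 0` the Euler product
(`EulerProduct.exp_tsum_primes_log_eq_tsum`) gives `F(s) = ∏_{p ≥ w} (1 - χ(p) p^(-1-s))⁻¹ > 0`, and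
`|log F(s) - ∑_{p ≥ w} χ(p) p^(-1-s)| ≤ ∑_{p ≥ w} p^(-2) ≤ 2/w`. Finally `∑_{p ≥ w} χ(p) p^(-1-s) → ℓ` as `s → 0+`, since
`∑_{p ≥ w} χ(p)/p` converges to `ℓ` (Abel, partial summation). So `|ℓ| ≤ |log F(0)| + 2/w ≤ 4η + η`. (`χ(p) = J(D|p)` for the primes
`p ≥ w`, as `w ≥ 3`, and `χ(p) = 0` for `p < w`.) -/
theorem ell_small (D : ℤ) (w M : ℕ) (E η ℓ : ℝ) (hw : 3 ≤ w) (hM : 1 ≤ M) (hη : 0 < η) (hη1 : η ≤ 1 / 8)
    (hE : ∀ u v : ℕ, |∑ n ∈ Ico u v, rough w D n| ≤ E) (hEM : E ≤ η * M) (hwη : 2 / (w : ℝ) ≤ η)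
    (hsum : |∑ n ∈ Icc 2 M, rough w D n / n| ≤ η)
    (hℓ : Tendsto (fun z : ℕ => ∑ p ∈ (Nat.primesBelow z).filter (fun p => w ≤ p),
      (jacobiSym D p : ℝ) / p) atTop (𝓝 ℓ)) : |ℓ| ≤ 5 * η := by
  have hw16 : 16 ≤ w := by
    have hw0 : (0 : ℝ) < w := by
      have : (3 : ℝ) ≤ w := by exact_mod_cast hw
      linarith
    have h1 : 2 / (w : ℝ) ≤ 1 / 8 := hwη.trans hη1
    rw [div_le_iff₀ hw0] at h1
    have h2 : (16 : ℝ) ≤ w := by linarith
    exact_mod_cast h2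
  refine le_of_forall_pos_le_add fun ε hε => ?_
  set δ := min (ε / 8) (1 / 4) with hδ
  have hδ0 : 0 < δ := lt_min (by positivity) (by norm_num)
  have hδ1 : δ ≤ ε / 8 := min_le_left _ _
  have hδ2 : δ ≤ 1 / 4 := min_le_right _ _
  obtain ⟨s, ⟨hs1, hs2⟩, hs0⟩ := (((QL_close D w M E η hM hE hEM hsum δ hδ0).and
    (QL_lim D w ℓ hw hℓ δ hδ0)).and self_mem_nhdsWithin).exists
  have hs0 : 0 < s := hs0
  have h1 := QL_logbound (a := 2 * η + δ) (by linarith) hs1
  have h2 := QL_euler D w hs0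
  have h3 : Real.log (∑' n, QL_f w D s n) =
      ∑' p : Nat.Primes, -Real.log (1 - QL_f w D s p) := by
    rw [← h2, Real.log_exp]
  rw [h3] at h1
  have hsd : Summable fun p : Nat.Primes => |-Real.log (1 - QL_f w D s p) - QL_f w D s p| :=
    summable_of_sum_le (fun _ => abs_nonneg _) (QL_log D w η hw16 hwη hs0)
  have hsd' : Summable fun p : Nat.Primes => -Real.log (1 - QL_f w D s p) - QL_f w D s p :=
    hsd.of_abs
  have hsp : Summable fun p : Nat.Primes => QL_f w D s p :=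
    (QL_summ w D hs0).subtype {n : ℕ | n.Prime}
  have hsy : Summable fun p : Nat.Primes => -Real.log (1 - QL_f w D s p) := by
    have h4 := hsd'.add hsp
    refine h4.congr fun p => ?_
    ring
  have h5 : |∑' p : Nat.Primes, (-Real.log (1 - QL_f w D s p) - QL_f w D s p)| ≤ η := by
    have h6 := norm_tsum_le_tsum_norm (f := fun p : Nat.Primes =>
      -Real.log (1 - QL_f w D s p) - QL_f w D s p) (by
        simpa only [Real.norm_eq_abs] using hsd)
    simp only [Real.norm_eq_abs] at h6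
    refine h6.trans ?_
    exact hsd.tsum_le_of_sum_le (QL_log D w η hw16 hwη hs0)
  rw [hsy.tsum_sub hsp] at h5
  have e : ℓ = ∑' p : Nat.Primes, -Real.log (1 - QL_f w D s p) -
      (∑' p : Nat.Primes, -Real.log (1 - QL_f w D s p) - ∑' p : Nat.Primes, QL_f w D s p) -
      (∑' p : Nat.Primes, QL_f w D s p - ℓ) := by ring
  rw [e]
  refine (abs_sub _ _).trans ?_
  have h7 := abs_sub (∑' p : Nat.Primes, -Real.log (1 - QL_f w D s p))
    (∑' p : Nat.Primes, -Real.log (1 - QL_f w D s p) - ∑' p : Nat.Primes, QL_f w D s p)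
  linarith

end Pool.Agent.Lib.H33C
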