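import Pool.Agent.Lib.H33C.Defs
import Pool.Agent.Lib.H33C.PV

/-!
# Chunk QS: sums of the Jacobi symbol `J(4aN + B | s)` over `N`
-/

open Finset

namespace Pool.Agent.Lib.H33C

/-- the character `n ↦ J(n | s)` -/
noncomputable def QS_chi (s : ℕ) [NeZero s] (hs : 1 < s) : DirichletCharacter ℂ s where
  toFun x := (jacobiSym x.val s : ℂ)
  map_one' := by
    have : Fact (1 < s) := ⟨hs⟩
    rw [ZMod.val_one, Nat.cast_one, jacobiSym.one_left, Int.cast_one]
  map_mul' x y := by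
    have hval : (x * y).val = x.val * y.val % s := ZMod.val_mul x y
    rw [hval, Int.natCast_mod, ← jacobiSym.mod_left, Nat.cast_mul, jacobiSym.mul_left, Int.cast_mul]
  map_nonunit' x hx := by
    change (jacobiSym x.val s : ℂ) = 0
    have h1 : jacobiSym (x.val : ℤ) s = 0 := by
      rw [jacobiSym.eq_zero_iff_not_coprime, Int.gcd_natCast_natCast]
      intro h2
      apply hx
      have h4 := (ZMod.isUnit_iff_coprime x.val s).2 h2
      rwa [ZMod.natCast_val, ZMod.cast_id', id] at h4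
    rw [h1, Int.cast_zero]

theorem QS_chi_int (s : ℕ) [NeZero s] (hs : 1 < s) (n : ℤ) :
    QS_chi s hs (n : ZMod s) = (jacobiSym n s : ℂ) := by
  change (jacobiSym ((n : ZMod s).val : ℤ) s : ℂ) = _
  rw [ZMod.val_intCast, ← jacobiSym.mod_left]

theorem QS_exists (s : ℕ) (ho : Odd s) (hsq : ¬ IsSquare s) : ∃ n : ℤ, jacobiSym n s = -1 := by
  have hs0 : s ≠ 0 := by
    rintro rfl
    exact absurd ho (by decide)
  obtain ⟨p, hp, hodd⟩ : ∃ p : ℕ, p.Prime ∧ Odd (s.factorization p) := by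
    by_contra hcon
    push Not at hcon
    apply hsq
    refine ⟨∏ p ∈ s.primeFactors, p ^ (s.factorization p / 2), ?_⟩
    rw [← Finset.prod_mul_distrib]
    conv_lhs => rw [← Nat.prod_factorization_pow_eq_self hs0]
    change ∏ p ∈ s.primeFactors, p ^ s.factorization p = _
    refine Finset.prod_congr rfl fun p hp => ?_
    rw [← pow_add]
    have h1 := hcon p (Nat.prime_of_mem_primeFactors hp)
    rw [Nat.not_odd_iff_even] at h1
    obtain ⟨k, hk⟩ := h1
    congr 1
    omega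
  have hfact : Fact p.Prime := ⟨hp⟩
  obtain ⟨k, hk⟩ := hodd
  have hdvd : p ∣ s := by
    by_contra hcon
    have := Nat.factorization_eq_zero_of_not_dvd hcon
    omega
  have hp2 : p ≠ 2 := by
    rintro rfl
    rw [← Nat.not_even_iff_odd] at ho
    exact ho (even_iff_two_dvd.2 hdvd)
  have hsplit := Nat.ordProj_mul_ordCompl_eq_self s p
  have hcop : Nat.Coprime p (s / p ^ s.factorization p) := Nat.coprime_ordCompl hp hs0
  set m := s / p ^ s.factorization p with hm
  have hm0 : m ≠ 0 := by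
    intro h0
    rw [h0, mul_zero] at hsplit
    exact hs0 hsplit.symm
  obtain ⟨x, hx⟩ := FiniteField.exists_nonsquare (F := ZMod p) (by rwa [ZMod.ringChar_zmod_n])
  obtain ⟨n, hn1, hn2⟩ := Nat.chineseRemainder hcop x.val 1
  refine ⟨(n : ℤ), ?_⟩
  have hJp : jacobiSym (n : ℤ) p = -1 := by
    rw [← jacobiSym.legendreSym.to_jacobiSym, legendreSym.eq_neg_one_iff]
    have h1 : ((n : ℤ) : ZMod p) = x := by
      have h2 : ((n : ℕ) : ZMod p) = ((x.val : ℕ) : ZMod p) := (ZMod.natCast_eq_natCast_iff _ _ _).2 hn1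
      rw [ZMod.natCast_val, ZMod.cast_id', id] at h2
      rw [Int.cast_natCast, h2]
    rw [h1]
    exact hx
  have hJm : jacobiSym (n : ℤ) m = 1 := by
    have h1 : (n : ℤ) % m = 1 % m := by
      have h2 : n % m = 1 % m := hn2
      exact_mod_cast h2
    rw [jacobiSym.mod_left' h1, jacobiSym.one_left]
  rw [← hsplit, jacobiSym.mul_right' _ (pow_ne_zero _ hp.ne_zero) hm0, hJm, mul_one,
    jacobiSym.pow_right, hJp, hk]
  exact Odd.neg_one_pow ⟨k, rfl⟩

theorem QS_ne_one (s : ℕ) [NeZero s] (hs : 1 < s) (ho : Odd s) (hsq : ¬ IsSquare s) :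
    QS_chi s hs ≠ 1 := by
  intro h
  obtain ⟨n, hn⟩ := QS_exists s ho hsq
  have h1 := QS_chi_int s hs n
  rw [hn, h] at h1
  by_cases hu : IsUnit (n : ZMod s)
  · rw [MulChar.one_apply hu] at h1
    norm_num at h1
  · rw [MulChar.map_nonunit _ hu] at h1
    norm_num at h1

/-- `J(· | s)` is a Dirichlet character modulo `s`, not principal as `s` is not a square (take a prime `p` with odd exponent in
`s` and `n` a non-residue modulo `p` and `≡ 1` modulo the other prime factors). With `4 a ā ≡ 1 (mod s)`,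
`J(4aN + B | s) = J(4a | s) J(N + ā B | s)`, and `N + āB` (plus a multiple of `s`) runs over an interval of natural numbers: `pv` with
`m = 1`. -/
theorem jac_sum : ∃ C : ℝ, 0 < C ∧ ∀ (a : ℕ) (B : ℤ) (s : ℕ), Odd s → Nat.Coprime a s → ¬ IsSquare s →
    ∀ Y : ℕ, |∑ N ∈ Icc 1 Y, (jacobiSym (4 * a * N + B) s : ℝ)| ≤ C * (s : ℝ) ^ ((3 : ℝ) / 5) := by
  obtain ⟨C, hC, h⟩ := pv
  refine ⟨C, hC, fun a B s ho hcop hsq Y => ?_⟩
  have hs0 : s ≠ 0 := by
    rintro rfl
    exact absurd ho (by decide)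
  have hs1 : s ≠ 1 := by
    rintro rfl
    exact hsq ⟨1, rfl⟩
  have hs : 1 < s := by omega
  have : NeZero s := ⟨hs0⟩
  have hu : IsUnit ((4 * a : ℕ) : ZMod s) := by
    rw [ZMod.isUnit_iff_coprime]
    refine Nat.Coprime.mul_left ?_ hcop
    have h2 : Nat.Coprime 2 s := Nat.coprime_two_left.2 ho
    exact h2.mul_left h2
  obtain ⟨c, hc⟩ := hu
  set t : ℕ := (((c⁻¹ : (ZMod s)ˣ) : ZMod s) * (B : ZMod s)).val with ht
  have htv : ((t : ℕ) : ZMod s) = ((c⁻¹ : (ZMod s)ˣ) : ZMod s) * (B : ZMod s) := by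
    rw [ht, ZMod.natCast_val, ZMod.cast_id', id]
  have h1 := h s (QS_chi s hs) (QS_ne_one s hs ho hsq) 1 (t + 1) (t + 1 + Y) le_rfl
  have h2 : (Ico (t + 1) (t + 1 + Y)).filter (fun n => n.Coprime 1) = Ico (t + 1) (t + 1 + Y) :=
    Finset.filter_true_of_mem fun n _ => Nat.coprime_one_right n
  rw [h2, Nat.primeFactors_one, Finset.card_empty, pow_zero, mul_one] at h1
  have h3 : ((∑ N ∈ Icc 1 Y, (jacobiSym (4 * a * N + B) s : ℝ) : ℝ) : ℂ) =
      QS_chi s hs ((4 * a : ℕ) : ZMod s) * ∑ n ∈ Ico (t + 1) (t + 1 + Y), QS_chi s hs (n : ZMod s) := by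
    rw [Complex.ofReal_sum, Finset.mul_sum, Finset.sum_Ico_eq_sum_range,
      add_tsub_cancel_left]
    have e : Icc 1 Y = (range Y).map ⟨fun i => i + 1, add_left_injective 1⟩ := by
      ext x
      simp only [mem_Icc, mem_map, mem_range, Function.Embedding.coeFn_mk]
      constructor
      · rintro ⟨g1, g2⟩
        exact ⟨x - 1, by omega, by omega⟩
      · rintro ⟨y, g1, rfl⟩
        omega
    rw [e, Finset.sum_map]
    refine Finset.sum_congr rfl fun i _ => ?_
    rw [← map_mul]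
    have e2 : ((4 * a : ℕ) : ZMod s) * ((t + 1 + i : ℕ) : ZMod s) =
        ((4 * a * ((i + 1 : ℕ) : ℤ) + B : ℤ) : ZMod s) := by
      have e3 : ((4 * a : ℕ) : ZMod s) * (t : ZMod s) = (B : ZMod s) := by
        rw [htv, ← hc, ← mul_assoc, Units.mul_inv, one_mul]
      push_cast at e3 ⊢
      linear_combination e3
    rw [e2, QS_chi_int]
    norm_cast
  have h4 : ‖QS_chi s hs ((4 * a : ℕ) : ZMod s)‖ ≤ 1 := DirichletCharacter.norm_le_one _ _
  have h5 : ‖((∑ N ∈ Icc 1 Y, (jacobiSym (4 * a * N + B) s : ℝ) : ℝ) : ℂ)‖ ≤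
      1 * (C * (s : ℝ) ^ ((3 : ℝ) / 5)) := by
    rw [h3, norm_mul]
    exact mul_le_mul h4 h1 (norm_nonneg _) zero_le_one
  rw [Complex.norm_real, Real.norm_eq_abs, one_mul] at h5
  exact h5

end Pool.Agent.Lib.H33C
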