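import Pool.Agent.Lib.H33C.Defs
import Pool.Agent.Lib.H33B.FS
import Pool.Agent.Lib.H33B.SR3

/-!
# Chunk TG1: common roots modulo `p` of `F` and `N - G`
-/

open Finset Polynomial

namespace Pool.Agent.Lib.H33C

open Pool.Agent.Lib.H59 (omegaN seriesTrunc rootCount card_blocks)
open Pool.Agent.Lib.H33B

variable {g : ℕ}

/-- A polynomial over `ℚ` is an integer polynomial divided by an integer. -/
theorem TG1_clear (r : ℚ[X]) : ∃ (b : ℤ) (r' : ℤ[X]), b ≠ 0 ∧
    r'.map (Int.castRingHom ℚ) = C (b : ℚ) * r := by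
  obtain ⟨b, h⟩ := IsLocalization.integerNormalization_map_to_map (nonZeroDivisors ℤ) r
  refine ⟨b, IsLocalization.integerNormalization (nonZeroDivisors ℤ) r,
    nonZeroDivisors.ne_zero b.2, ?_⟩
  rw [← Polynomial.smul_eq_C_mul]
  rw [show (Int.castRingHom ℚ) = algebraMap ℤ ℚ from rfl, h]
  ext i
  simp

/-- There is a non-zero `H ∈ ℤ[t]` such that `P` divides `H(G(x))` in `ℤ[x]`: `ℚ[x]/(P)` is finite dimensional, so the
powers of `G` are linearly dependent modulo `P`; clear denominators. -/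
theorem exists_elim (P G : ℤ[X]) (hP : P ≠ 0) : ∃ H : ℤ[X], H ≠ 0 ∧ P ∣ H.comp G := by
  set φ : ℤ →+* ℚ := Int.castRingHom ℚ with hφ
  have hφi : Function.Injective φ := Int.cast_injective
  set P' : ℚ[X] := P.map φ with hP'
  have hP0 : P' ≠ 0 := (Polynomial.map_ne_zero_iff hφi).2 hP
  have hfin : Module.Finite ℚ (AdjoinRoot P') := (AdjoinRoot.powerBasis hP0).finite
  obtain ⟨h, hm, hh⟩ := (Algebra.IsIntegral.isIntegral (R := ℚ) (AdjoinRoot.mk P' (G.map φ)))
  have h1 : AdjoinRoot.mk P' (h.comp (G.map φ)) = 0 := by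
    rw [← hh]
    have h2 : h.comp (G.map φ) = Polynomial.aeval (G.map φ) h := by
      rw [← Polynomial.comp_eq_aeval]
    rw [h2, Polynomial.aeval_def, Polynomial.hom_eval₂]
    rfl
  rw [AdjoinRoot.mk_eq_zero] at h1
  obtain ⟨R, hR⟩ := h1
  obtain ⟨b₁, h', hb₁, hh'⟩ := TG1_clear h
  obtain ⟨b₂, R', hb₂, hR'⟩ := TG1_clear R
  have hh0 : h' ≠ 0 := by
    intro h0
    rw [h0, Polynomial.map_zero] at hh'
    have := hh'.symm
    rw [mul_eq_zero, C_eq_zero] at this
    rcases this with h3 | h3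
    · exact hb₁ (by exact_mod_cast h3)
    · exact hm.ne_zero h3
  refine ⟨C b₂ * h', mul_ne_zero (C_ne_zero.2 hb₂) hh0, C b₁ * R', ?_⟩
  apply Polynomial.map_injective φ hφi
  rw [Polynomial.map_comp, Polynomial.map_mul, Polynomial.map_mul, Polynomial.map_mul, map_C,
    map_C, hh', hR', mul_comp, mul_comp, C_comp, C_comp, hR]
  simp only [hφ, eq_intCast]
  ring

/-- If `x` is a common root modulo `p` of `∏ F_i` and `N - G`, then `H(N) ≡ H(G(x)) ≡ 0`. So if `p ∤ H(N)`,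
`ω_N(p) = ω_F(p) + ρ_{N-G}(p)`; in general `ω_N(p) ≤ ω_F(p) + ρ ≤ ω_N(p) + ω_F(p)`, and `ω_F(p) ≤ ∑ deg F_i` (`H33B.FS_wle`). -/
theorem omega_split (F : Fin g → ℤ[X]) (hF : Sys F) (G H : ℤ[X])
    (hH : (∏ i, F i) ∣ H.comp G) (N p : ℕ) (hp : p.Prime) :
    (omegaN F G N p : ℝ) ≤ wF F p + rootCount (C (N : ℤ) - G) p ∧
    (wF F p : ℝ) + rootCount (C (N : ℤ) - G) p ≤ omegaN F G N p +
      (if (p : ℤ) ∣ H.eval (N : ℤ) then ((∑ i, (F i).natDegree : ℕ) : ℝ) else 0) := by
  classical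
  have hpZ : Prime (p : ℤ) := Nat.prime_iff_prime_int.mp hp
  set A : Finset ℕ := (Finset.range p).filter fun a : ℕ => (p : ℤ) ∣ (∏ i, F i).eval (a : ℤ)
    with hA
  set B : Finset ℕ := (Finset.range p).filter fun a : ℕ => (p : ℤ) ∣ (C (N : ℤ) - G).eval (a : ℤ)
    with hB
  have e1 : omegaN F G N p = (A ∪ B).card := by
    unfold omegaN
    congr 1
    ext a
    rw [mem_union, hA, hB, mem_filter, mem_filter, mem_filter, eval_mul]
    constructor
    · rintro ⟨h1, h2⟩
      rcases hpZ.dvd_or_dvd h2 with h3 | h3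
      · exact Or.inl ⟨h1, h3⟩
      · exact Or.inr ⟨h1, h3⟩
    · rintro (⟨h1, h2⟩ | ⟨h1, h2⟩)
      · exact ⟨h1, Dvd.dvd.mul_right h2 _⟩
      · exact ⟨h1, Dvd.dvd.mul_left h2 _⟩
  have e2 : wF F p = A.card := rfl
  have e3 : rootCount (C (N : ℤ) - G) p = B.card := rfl
  have e4 := card_union_add_card_inter A B
  rw [e1, e2, e3]
  constructor
  · exact_mod_cast (by omega : (A ∪ B).card ≤ A.card + B.card)
  · split_ifs with h
    · have h1 : A.card ≤ ∑ i, (F i).natDegree := FS_wle F hF p hp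
      have h2 : (A ∩ B).card ≤ A.card := card_le_card inter_subset_left
      exact_mod_cast (by omega : A.card + B.card ≤ (A ∪ B).card + ∑ i, (F i).natDegree)
    · have h1 : A ∩ B = ∅ := by
        rw [← disjoint_iff_inter_eq_empty, Finset.disjoint_left]
        intro a ha hb
        rw [hA, mem_filter] at ha
        rw [hB, mem_filter] at hb
        apply h
        have h2 : (p : ℤ) ∣ H.eval (G.eval (a : ℤ)) := by
          rw [← eval_comp]
          exact ha.2.trans (eval_dvd hH)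
        have h3 : (p : ℤ) ∣ (N : ℤ) - G.eval (a : ℤ) := by
          have := hb.2
          rwa [eval_sub, eval_C] at this
        have h4 := h3.trans (Polynomial.sub_dvd_eval_sub (N : ℤ) (G.eval (a : ℤ)) H)
        have h5 := dvd_add h4 h2
        rwa [sub_add_cancel] at h5
      rw [h1, card_empty, add_zero] at e4
      rw [add_zero]
      exact_mod_cast e4.ge

theorem TG1_H (H : ℤ[X]) (N : ℕ) : SR3_H H X N = H.eval (N : ℤ) := by
  unfold SR3_H
  rw [leadingCoeff_X, scaleRoots_one, coeff_X_zero, sub_zero]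

theorem TG1_map_ne {f : ℤ[X]} {p : ℕ} (i : ℕ) (h : ¬ (p : ℤ) ∣ f.coeff i) :
    f.map (Int.castRingHom (ZMod p)) ≠ 0 := by
  intro h0
  have := congrArg (fun q => q.coeff i) h0
  simp only [coeff_map, coeff_zero, eq_intCast] at this
  exact h ((ZMod.intCast_zmod_eq_zero_iff_dvd _ _).mp this)

theorem TG1_root {f : ℤ[X]} {p : ℕ} (hp : p.Prime)
    (hg0 : f.map (Int.castRingHom (ZMod p)) ≠ 0) : rootCount f p ≤ f.natDegree := by
  classical
  have : Fact p.Prime := ⟨hp⟩
  set g := f.map (Int.castRingHom (ZMod p)) with hg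
  have h1 : rootCount f p ≤ g.roots.toFinset.card := by
    unfold rootCount
    refine Finset.card_le_card_of_injOn (fun a : ℕ => (a : ZMod p)) ?_ ?_
    · intro a ha
      rw [Finset.mem_coe, Finset.mem_filter] at ha
      rw [Finset.mem_coe, Multiset.mem_toFinset, mem_roots hg0, IsRoot.def, hg]
      have h2 : ((f.eval (a : ℤ) : ℤ) : ZMod p) = 0 :=
        (ZMod.intCast_zmod_eq_zero_iff_dvd _ _).mpr ha.2
      rw [eval_map, eval₂_eq_eval_map] at *
      have h3 := eval_intCast_map (Int.castRingHom (ZMod p)) f (a : ℤ)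
      simp only [Int.cast_natCast, eq_intCast] at h3
      rw [h3]
      exact h2
    · intro a ha b hb hab
      rw [Finset.mem_coe, Finset.mem_filter, Finset.mem_range] at ha hb
      have := (ZMod.natCast_eq_natCast_iff' a b p).mp hab
      rwa [Nat.mod_eq_of_lt ha.1, Nat.mod_eq_of_lt hb.1] at this
  refine h1.trans ((Multiset.toFinset_card_le _).trans ((card_roots' g).trans ?_))
  rw [hg]
  exact natDegree_map_le

theorem TG1_count (H : ℤ[X]) {p : ℕ} (hp : p.Prime) (ha : ¬ (p : ℤ) ∣ H.leadingCoeff) (Y : ℕ) :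
    (((Icc 1 Y).filter fun N : ℕ => (p : ℤ) ∣ H.eval (N : ℤ)).card : ℝ) ≤
      ((Y : ℝ) / p + 1) * H.natDegree := by
  classical
  set q : ℕ → Prop := fun N => (p : ℤ) ∣ H.eval (N : ℤ) with hq
  have hper : Function.Periodic q p := by
    intro N
    apply propext
    rw [hq]
    have h1 : (p : ℤ) ∣ H.eval ((N + p : ℕ) : ℤ) - H.eval (N : ℤ) := by
      have h2 : ((N + p : ℕ) : ℤ) - (N : ℤ) = p := by
        push_cast
        ring
      have h3 := Polynomial.sub_dvd_eval_sub ((N + p : ℕ) : ℤ) (N : ℤ) H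
      rwa [h2] at h3
    constructor
    · intro h
      have := dvd_sub h h1
      simpa using this
    · intro h
      have := dvd_add h1 h
      simpa using this
  have hcount : Nat.count q p ≤ H.natDegree := by
    rw [Nat.count_eq_card_filter_range]
    exact TG1_root hp (TG1_map_ne _ ha)
  have hIcc : Icc 1 Y = Ico 1 (1 + Y) := by
    ext n
    simp only [mem_Icc, mem_Ico]
    omega
  set m := Y / p with hm
  have hhi : ((Icc 1 Y).filter q).card ≤ ((Ico 1 (1 + (m + 1) * p)).filter q).card := by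
    rw [hIcc]
    refine card_le_card (filter_subset_filter _ (Ico_subset_Ico_right ?_))
    have h0 : Y < p * (m + 1) := Nat.lt_mul_div_succ Y hp.pos
    rw [mul_comm] at h0
    omega
  rw [card_blocks q hper] at hhi
  have hhi' : (((Icc 1 Y).filter q).card : ℝ) ≤ (m + 1) * Nat.count q p := by exact_mod_cast hhi
  refine hhi'.trans ?_
  have h5 : (m : ℝ) ≤ Y / p := Nat.cast_div_le
  have h6 : (Nat.count q p : ℝ) ≤ H.natDegree := by exact_mod_cast hcount
  exact mul_le_mul (by linarith) h6 (by positivity) (by positivity)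

open scoped Classical in
/-- As in `H33B.SR3_avg` and before: for a non-zero `H ∈ ℤ[t]`. `H(N) ≠ 0` for `N ≥ N₁`. The sum over the `p ≥ w`, `p ∣ H(N)`; the primes `p ≤ Y`
contribute at most `∑_{w ≤ p ≤ Y} (1/p) deg H (Y/p + 1) ≤ 2 deg H · Y ∑_{p ≥ w} 1/p²` (for `p` not dividing `lc(H)`, `w` large, `H` has at most
`deg H` roots modulo `p`); a number `0 < |H(N)| ≤ Y^B` has at most `B` prime factors `> Y`, contributing `≤ B/Y` for each `N`. -/
theorem sum_dvd (H : ℤ[X]) (hH : H ≠ 0) : ∃ (K : ℝ) (w₀ N₁ : ℕ), 0 < K ∧ (∀ N : ℕ, N₁ ≤ N → H.eval (N : ℤ) ≠ 0) ∧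
    ∀ w : ℕ, w₀ ≤ w → ∃ Y₀ : ℕ, ∀ Y : ℕ, Y₀ ≤ Y →
    ∑ N ∈ Icc N₁ Y, ∑ p ∈ (H.eval (N : ℤ)).natAbs.primeFactors.filter (fun p => w ≤ p), 1 / (p : ℝ) ≤
      K * Y / Real.sqrt w := by
  obtain ⟨N₁, hN₁⟩ := SR3_nonzero hH X
  obtain ⟨B, Y₁, hB⟩ := SR3_size H X
  have hl0 : H.leadingCoeff ≠ 0 := leadingCoeff_ne_zero.2 hH
  refine ⟨4 * H.natDegree + 1, H.leadingCoeff.natAbs + 1, N₁ + 1, by positivity, fun N hN => ?_,
    fun w hw => ?_⟩
  · rw [← TG1_H]
    exact hN₁ N (by omega)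
  have hw0 : (0 : ℝ) < w := by exact_mod_cast (by omega : 0 < w)
  have hw1 : (1 : ℝ) ≤ w := by exact_mod_cast (by omega : 1 ≤ w)
  obtain ⟨Y₂, hY₂⟩ := exists_nat_ge ((B : ℝ) * Real.sqrt w)
  refine ⟨Y₁ + Y₂ + 2, fun Y hY => ?_⟩
  have hY2 : 2 ≤ Y := by omega
  have hY0 : (0 : ℝ) < Y := by exact_mod_cast (by omega : 0 < Y)
  have hS : ∀ N : ℕ, ∑ p ∈ (H.eval (N : ℤ)).natAbs.primeFactors.filter (fun p => w ≤ p),
      1 / (p : ℝ) = SR3_S H X w N := by
    intro N
    unfold SR3_S SR3_T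
    rw [TG1_H]
  have h1 : ∀ N ∈ Icc (N₁ + 1) Y, ∑ p ∈ (H.eval (N : ℤ)).natAbs.primeFactors.filter
      (fun p => w ≤ p), 1 / (p : ℝ) ≤
      ∑ p ∈ (Nat.primesBelow Y).filter (fun p => w ≤ p),
        (if (p : ℤ) ∣ H.eval (N : ℤ) then 1 / (p : ℝ) else 0) + (B : ℝ) / Y := by
    intro N hN
    rw [mem_Icc] at hN
    have h2 := SR3_Sle (w := w) (hN₁ N (by omega)) hY2 (Nat.cast_nonneg B) (hB Y N (by omega) hN.2)
    rw [TG1_H] at h2
    rw [hS]
    exact h2
  have hmain : ∑ N ∈ Icc (N₁ + 1) Y, ∑ p ∈ (H.eval (N : ℤ)).natAbs.primeFactors.filter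
      (fun p => w ≤ p), 1 / (p : ℝ) ≤ 4 * H.natDegree * Y / w + B := by
    refine (sum_le_sum h1).trans ?_
    rw [sum_add_distrib, sum_comm]
    apply add_le_add
    · have h2 : ∀ p ∈ (Nat.primesBelow Y).filter (fun p => w ≤ p),
          ∑ N ∈ Icc (N₁ + 1) Y, (if (p : ℤ) ∣ H.eval (N : ℤ) then 1 / (p : ℝ) else 0) ≤
            (2 * H.natDegree * Y) * (1 / (p : ℝ) ^ 2) := by
        intro p hp
        rw [mem_filter, Nat.mem_primesBelow] at hp
        obtain ⟨⟨hpY, hpp⟩, hwp⟩ := hp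
        have hp0 : (0 : ℝ) < p := by exact_mod_cast hpp.pos
        have ha : ¬ (p : ℤ) ∣ H.leadingCoeff := by
          intro h
          have := Nat.le_of_dvd (Int.natAbs_pos.2 hl0) (Int.natCast_dvd.1 h)
          omega
        have h3 := TG1_count H hpp ha Y
        rw [← sum_filter, sum_const, nsmul_eq_mul]
        have h4 : (((Icc (N₁ + 1) Y).filter fun N : ℕ => (p : ℤ) ∣ H.eval (N : ℤ)).card : ℝ) ≤
            (((Icc 1 Y).filter fun N : ℕ => (p : ℤ) ∣ H.eval (N : ℤ)).card : ℝ) := by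
          have := card_le_card (filter_subset_filter
            (fun N : ℕ => (p : ℤ) ∣ H.eval (N : ℤ)) (Icc_subset_Icc_left (by omega : 1 ≤ N₁ + 1)
              (b := Y)))
          exact_mod_cast this
        have h5 : (1 : ℝ) ≤ Y / p := by
          rw [one_le_div hp0]
          exact_mod_cast hpY.le
        have hD : (0 : ℝ) ≤ H.natDegree := Nat.cast_nonneg _
        have h6 : ((Y : ℝ) / p + 1) * H.natDegree ≤ (2 * (Y / p)) * H.natDegree :=
          mul_le_mul_of_nonneg_right (by linarith) hD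
        calc (((Icc (N₁ + 1) Y).filter fun N : ℕ => (p : ℤ) ∣ H.eval (N : ℤ)).card : ℝ) *
              (1 / (p : ℝ)) ≤ ((2 * (Y / p)) * H.natDegree) * (1 / p) :=
              mul_le_mul_of_nonneg_right (h4.trans (h3.trans h6)) (by positivity)
          _ = _ := by
              field_simp
      refine (sum_le_sum h2).trans ?_
      rw [← mul_sum]
      calc (2 * (H.natDegree : ℝ) * Y) * ∑ p ∈ (Nat.primesBelow Y).filter (fun p => w ≤ p),
            1 / (p : ℝ) ^ 2 ≤ (2 * H.natDegree * Y) * (2 / w) :=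
            mul_le_mul_of_nonneg_left (SR3_inv w Y (by omega)) (by positivity)
        _ = _ := by ring
    · rw [sum_const, nsmul_eq_mul]
      have h3 : ((Icc (N₁ + 1) Y).card : ℝ) ≤ Y := by
        have : (Icc (N₁ + 1) Y).card ≤ Y := by
          rw [Nat.card_Icc]
          omega
        exact_mod_cast this
      calc ((Icc (N₁ + 1) Y).card : ℝ) * ((B : ℝ) / Y) ≤ Y * (B / Y) :=
            mul_le_mul_of_nonneg_right h3 (by positivity)
        _ = B := by field_simp
  refine hmain.trans ?_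
  have hs0 : 0 < Real.sqrt w := Real.sqrt_pos.2 hw0
  have hs1 : Real.sqrt w ≤ w := by
    rw [Real.sqrt_le_left (by linarith)]
    nlinarith
  have h7 : 4 * (H.natDegree : ℝ) * Y / w ≤ 4 * H.natDegree * Y / Real.sqrt w :=
    div_le_div_of_nonneg_left (by positivity) hs0 hs1
  have h8 : (B : ℝ) ≤ Y / Real.sqrt w := by
    rw [le_div_iff₀ hs0]
    have : (Y₂ : ℝ) ≤ Y := by exact_mod_cast (by omega : Y₂ ≤ Y)
    linarith
  have h9 : (4 * (H.natDegree : ℝ) + 1) * Y / Real.sqrt w =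
      4 * H.natDegree * Y / Real.sqrt w + Y / Real.sqrt w := by
    ring
  rw [h9]
  exact add_le_add h7 h8

end Pool.Agent.Lib.H33C
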